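import Pool.Agent.Lib.MP_695920_nt.TT.Num

/-!
MP_695920_nt, TT, even degree: the constants for every `n ≥ 6`.
-/

set_option autoImplicit false

namespace Pool.TT

open Real Filter Topology

lemma enum_log {m : ℝ} (hm : 0 < m) : log (1.938 * m) ≤ 13 / 4 * log 2 + 0.2038 * m - 1 := by
  have h1 : log (1.938 * m) = log 9.51 + log (1.938 * m / 9.51) := by
    rw [← log_mul (by norm_num) (by positivity)]
    congr 1
    ring
  have h2 : log (1.938 * m / 9.51) ≤ 1.938 * m / 9.51 - 1 := log_le_sub_one_of_pos (by positivity)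
  have h3 : 4 * log 9.51 ≤ 13 * log 2 := by
    have h4 : log ((9.51 : ℝ) ^ 4) ≤ log ((2 : ℝ) ^ 13) :=
      log_le_log (by norm_num) (by norm_num)
    rw [log_pow, log_pow] at h4
    push_cast at h4
    linarith
  rw [h1]
  have h5 : 1.938 * m / 9.51 ≤ 0.2038 * m := by
    rw [div_le_iff₀ (by norm_num)]
    nlinarith
  linarith

/-- the numbers for all `n ≥ 6` -/
lemma enum_w {n : ℝ} (hn : 6 ≤ n) : ∃ w s₀ : ℝ, 1 < w ∧ exp 1 < w ^ 2 ∧ 0 < s₀ ∧ s₀ < n ∧
    (w + w⁻¹) / 2 < n - 1 - s₀ ∧ (n - 1) * sg w < 1 := by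
  obtain ⟨m, rfl⟩ : ∃ m, n = m + 1 := ⟨n - 1, by ring⟩
  have hm : 5 ≤ m := by linarith
  have he := exp_one_lt_d9
  have hl := log_two_lt_d9
  have hl' := log_two_gt_d9
  have hw2 : (1.938 * m) ^ 2 = 3.755844 * m ^ 2 := by ring
  have hm2 : 25 ≤ m ^ 2 := by nlinarith
  refine ⟨1.938 * m, 1 / 10, by linarith, by rw [hw2]; nlinarith, by norm_num, by linarith, ?_, ?_⟩
  · have h1 : (1.938 * m)⁻¹ ≤ 0.1033 := by
      rw [inv_le_comm₀ (by positivity) (by norm_num)]
      norm_num
      linarith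
    linarith
  · have h1 := enum_log (show 0 < m by linarith)
    have h5 : 0 < (1.938 * m) ^ 2 - exp 1 := by rw [hw2]; nlinarith
    have h6 : (m + 1 - 1) * sg (1.938 * m) =
        (m * 2 * log (1.938 * m) * exp 1) / (((1.938 * m) ^ 2 - exp 1) * log 2) := by
      unfold sg tt
      have : ((1.938 * m) ^ 2 - exp 1) ≠ 0 := h5.ne'
      have : log 2 ≠ 0 := by linarith
      field_simp
      ring
    rw [h6, div_lt_one (mul_pos h5 (by linarith))]
    have h7 : m * 2 * log (1.938 * m) * exp 1 ≤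
        m * 2 * (13 / 4 * 0.6931471808 + 0.2038 * m - 1) * 2.7182818286 := by
      have h8 : 0 ≤ log (1.938 * m) := log_nonneg (by linarith)
      have h9 : log (1.938 * m) ≤ 13 / 4 * 0.6931471808 + 0.2038 * m - 1 := by linarith
      have h10 : m * 2 * log (1.938 * m) ≤ m * 2 * (13 / 4 * 0.6931471808 + 0.2038 * m - 1) :=
        mul_le_mul_of_nonneg_left h9 (by linarith)
      exact mul_le_mul h10 he.le (exp_pos 1).le (by nlinarith)
    have h11 : (3.755844 * m ^ 2 - 2.7182818286) * 0.6931471803 ≤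
        ((1.938 * m) ^ 2 - exp 1) * log 2 := by
      rw [hw2]
      exact mul_le_mul (by linarith) hl'.le (by norm_num) (by nlinarith)
    nlinarith

end Pool.TT
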