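import Pool.Agent.Lib.MP_695920_nt.TT.Even.ERR

set_option autoImplicit false

/-!
TEAM TWOTORSION, EVEN DEGREES (NE3): a reduced representative of a near-torsion class, together
with a generator of the relation whose pole orders at the two places at infinity are balanced.
-/

open Polynomial

namespace Pool.TT

section Red

variable {f : ℚ[X]} {Y : LS}

/-- The degree of a product of powers of monic polynomials. -/
theorem natDegree_prod_pow {ι : Type*} (s : Finset ι) (W : ι → ℚ[X]) (a : ι → ℕ)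
    (hW : ∀ i ∈ s, (W i).Monic) :
    (∏ i ∈ s, W i ^ a i).natDegree = ∑ i ∈ s, a i * (W i).natDegree := by
  rw [natDegree_prod_of_monic _ _ fun i hi => (hW i hi).pow _]
  exact Finset.sum_congr rfl fun i hi => (hW i hi).natDegree_pow _

/-- Degrees of the norms in a relation of ideals. -/
theorem natDegree_relation (hg : GoodF f) {ι κ : Type*} (s : Finset ι) (t : Finset κ)
    (w v : ι → ℚ[X]) (w' v' : κ → ℚ[X]) (a : ι → ℕ) (a' : κ → ℕ)
    (hw : ∀ i ∈ s, (w i).Monic) (hw' : ∀ i ∈ t, (w' i).Monic)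
    (h : ∀ i ∈ s, w i ∣ f - v i ^ 2) (h' : ∀ i ∈ t, w' i ∣ f - v' i ^ 2) {φ φ' : Crd f}
    (hφ : φ ≠ 0) (hφ' : φ' ≠ 0)
    (hI : Ideal.span {φ} * ∏ i ∈ s, pt f (w i) (v i) ^ a i =
      Ideal.span {φ'} * ∏ i ∈ t, pt f (w' i) (v' i) ^ a' i) :
    φ.norm.natDegree + ∑ i ∈ s, a i * (w i).natDegree =
      φ'.norm.natDegree + ∑ i ∈ t, a' i * (w' i).natDegree := by
  have h1 := norm_relation_g f s t w v w' v' a a' h h' φ φ' hI
  have hm1 : (∏ i ∈ s, w i ^ a i).Monic := monic_prod_of_monic _ _ fun i hi => (hw i hi).pow _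
  have hm2 : (∏ i ∈ t, w' i ^ a' i).Monic := monic_prod_of_monic _ _ fun i hi => (hw' i hi).pow _
  have h2 := natDegree_eq_of_degree_eq (degree_eq_degree_of_associated h1)
  rw [natDegree_mul (norm_crd_ne_zero_g hg.sqf hg.pos hφ) hm1.ne_zero,
    natDegree_mul (norm_crd_ne_zero_g hg.sqf hg.pos hφ') hm2.ne_zero, natDegree_prod_pow _ _ _ hw,
    natDegree_prod_pow _ _ _ hw'] at h2
  exact h2

theorem po_algebraMap (hY : Y * Y = iot f) {p : ℚ[X]} (hp : p ≠ 0) :
    po Y hY (⟨p, 0⟩ : Crd f) = p.natDegree := by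
  rw [po, PY_apply]
  show -(iot p + iot 0 * Y).order = _
  rw [map_zero, zero_mul, add_zero, order_iot hp, neg_neg]

/-- The integer nearest to a quotient. -/
theorem exists_balance (M : ℕ) (hM : 0 < M) (E R : ℤ) :
    ∃ a0 : ℤ, M * (2 * a0 - E) + R ≤ M ∧ -(M : ℤ) ≤ M * (2 * a0 - E) + R := by
  set Z : ℤ := M * E - R + M with hZ
  have hM' : (0 : ℤ) < 2 * M := by positivity
  refine ⟨Z / (2 * M), ?_, ?_⟩
  · have h1 := Int.mul_ediv_add_emod Z (2 * M)
    have h2 := Int.emod_nonneg Z (ne_of_gt hM')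
    nlinarith
  · have h1 := Int.mul_ediv_add_emod Z (2 * M)
    have h2 := Int.emod_lt_of_pos Z hM'
    nlinarith

/-- **NE3.** Reduced representative with a balanced generator. -/
theorem exists_reduced_even [hg : GoodF f] (hY : Y * Y = iot f) {h : ℕ}
    (hn : f.natDegree = 2 * h) {ι : Type*} [Fintype ι] (W V : ι → ℚ[X]) (a : ι → ℕ)
    (hW : ∀ i, (W i).Monic) (hV : ∀ i, W i ∣ f - V i ^ 2) (c : ClassGroup (Crd f)) (M : ℕ)
    (hM : 0 < M) (hrel : c ^ M * ∏ i, cle f (W i) (V i) ^ a i = 1) :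
    ∃ (w v : ℚ[X]) (φ : Crd f), w.Monic ∧ 2 * w.natDegree < f.natDegree ∧ v.degree < w.degree ∧
      w ∣ f - v ^ 2 ∧ cle f w v = c ∧ φ ≠ 0 ∧
      Ideal.span {φ} = pt f w v ^ M * ∏ i, pt f (W i) (V i) ^ a i ∧
      (∃ κ : ℚ, κ ≠ 0 ∧ φ.norm = C κ * (w ^ M * ∏ i, W i ^ a i)) ∧
      2 * φ.re.natDegree ≤ M * h + ∑ i, a i * (W i).natDegree := by
  classical
  have hh : 0 < h := by
    have := hg.pos
    omega
  -- a representative of the inverse class
  obtain ⟨w1, v1, hw1, -, hd1, hc1⟩ := exists_rep f c⁻¹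
  set S : ℕ := ∑ i, a i * (W i).natDegree with hS
  set D : ℕ := w1.natDegree with hD
  have hJ0 : pt f w1 v1 ≠ 0 := pt_ne_bot f w1 v1
  obtain ⟨α, β, hα, hβ, hαβ⟩ : ∃ α β : Crd f, α ≠ 0 ∧ β ≠ 0 ∧
      Ideal.span {α} * ∏ i, pt f (W i) (V i) ^ a i = Ideal.span {β} * pt f w1 v1 ^ M := by
    have h1 : ∏ i, cle f (W i) (V i) ^ a i = cle f w1 v1 ^ M := by
      rw [hc1, inv_pow]
      exact eq_inv_of_mul_eq_one_right hrel
    have h2 : ClassGroup.mk0 (∏ i, (⟨pt f (W i) (V i), mem_nonZeroDivisors_of_ne_zero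
        (pt_ne_bot f (W i) (V i))⟩ : nonZeroDivisors (Ideal (Crd f))) ^ a i) =
        ClassGroup.mk0 ((⟨pt f w1 v1, mem_nonZeroDivisors_of_ne_zero
        (pt_ne_bot f w1 v1)⟩ : nonZeroDivisors (Ideal (Crd f))) ^ M) := by
      simp only [map_prod, map_pow]
      exact h1
    rw [ClassGroup.mk0_eq_mk0_iff] at h2
    obtain ⟨α, β, hα, hβ, h3⟩ := h2
    refine ⟨α, β, hα, hβ, ?_⟩
    rw [Submonoid.coe_finsetProd, SubmonoidClass.coe_pow] at h3
    exact h3
  -- pole orders of `β / α`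
  set A1 : ℤ := po Y hY β - po Y hY α with hA1
  set B1 : ℤ := po (-Y) (hYneg hY) β - po (-Y) (hYneg hY) α with hB1
  have hAB1 : A1 + B1 = (S : ℤ) - M * D := by
    have h1 := natDegree_relation hg Finset.univ (Finset.univ : Finset Unit) W V (fun _ => w1)
      (fun _ => v1) a (fun _ => M) (fun i _ => hW i) (fun _ _ => hw1) (fun i _ => hV i)
      (fun _ _ => hd1) hα hβ (by simpa using hαβ)
    have h2 := po_add_po_neg hY hg hα
    have h3 := po_add_po_neg hY hg hβ
    have h4 : ∑ i ∈ (Finset.univ : Finset Unit), M * w1.natDegree = M * D := by simp [hD]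
    rw [h4, ← hS] at h1
    have h5 : (α.norm.natDegree : ℤ) + S = β.norm.natDegree + M * D := by exact_mod_cast h1
    rw [hA1, hB1]
    linarith
  obtain ⟨a0, ha1, ha2⟩ := exists_balance M hM ((D : ℤ) + (h - 1 : ℕ)) (A1 - B1)
  set b0 : ℤ := (D : ℤ) + (h - 1 : ℕ) - a0 with hb0
  obtain ⟨φ0, hφ00, hφ0J, hpa, hpb⟩ := exists_phi0' hY hg hh hn w1 v1 hw1 a0 b0 (by
    rw [hb0, ← hD]
    ring)
  have hφ0J' : φ0 ∈ pt f w1 v1 := (mem_pt hd1 φ0).2 hφ0J
  obtain ⟨I, hI⟩ : pt f w1 v1 ∣ Ideal.span {φ0} := by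
    rw [Ideal.dvd_iff_le, Ideal.span_singleton_le_iff_mem]
    exact hφ0J'
  have hI0 : I ≠ ⊥ := by
    rintro rfl
    rw [Ideal.mul_bot, Ideal.span_singleton_eq_bot] at hI
    exact hφ00 hI
  obtain ⟨c0, w, v, hc0, hw, hvw, hwv, hIform⟩ := ideal_form_g f I hI0
  have hc00 : (⟨c0, 0⟩ : Crd f) ≠ 0 := by
    intro h0
    exact hc0.ne_zero (congrArg QuadraticAlgebra.re h0)
  obtain ⟨φ1, hφ1⟩ : (⟨c0, 0⟩ : Crd f) ∣ φ0 := by
    rw [← Ideal.mem_span_singleton]
    have h1 : φ0 ∈ Ideal.span {φ0} := Ideal.mem_span_singleton_self φ0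
    rw [hI, hIform] at h1
    have h2 : pt f w1 v1 * (Ideal.span {(⟨c0, 0⟩ : Crd f)} * pt f w v) ≤
        Ideal.span {(⟨c0, 0⟩ : Crd f)} :=
      le_trans Ideal.mul_le_right Ideal.mul_le_left
    exact h2 h1
  have hφ10 : φ1 ≠ 0 := by
    rintro rfl
    rw [mul_zero] at hφ1
    exact hφ00 hφ1
  have hspan0 : (Ideal.span {(⟨c0, 0⟩ : Crd f)}) ≠ 0 := by
    rw [Ideal.zero_eq_bot, Ne, Ideal.span_singleton_eq_bot]
    exact hc00
  have hφ1J : Ideal.span {φ1} = pt f w1 v1 * pt f w v := by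
    refine mul_left_cancel₀ hspan0 ?_
    rw [Ideal.span_singleton_mul_span_singleton, ← hφ1, hI, hIform]
    ring
  have hcl : cle f w v = c := by
    have h1 : cle f w1 v1 * cle f w v = 1 := cle_mul_of_principal f (by
      rw [← hφ1J]
      exact ⟨⟨φ1, rfl⟩⟩)
    rw [hc1] at h1
    exact (inv_mul_eq_one.1 h1).symm
  have hpoc : ∀ (Z : LS) (hZ : Z * Z = iot f), po Z hZ φ1 ≤ po Z hZ φ0 := by
    intro Z hZ
    rw [hφ1, po_mul hZ hg hc00 hφ10, po_algebraMap hZ hc0.ne_zero]
    have : (0 : ℤ) ≤ (c0.natDegree : ℤ) := by positivity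
    linarith
  have hdegw : w.natDegree ≤ h - 1 := by
    have h1 := natDegree_relation hg (∅ : Finset Bool) (Finset.univ : Finset Bool)
      (fun _ => w) (fun _ => v) (fun b => if b then w1 else w) (fun b => if b then v1 else v)
      (fun _ => 1) (fun _ => 1) (by simp) (by
        intro b _
        cases b
        · simpa using hw
        · simpa using hw1) (by simp) (by
        intro b _
        cases b
        · simpa using hwv
        · simpa using hd1) hφ10 (one_ne_zero : (1 : Crd f) ≠ 0) (by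
        rw [Finset.prod_empty, mul_one, hφ1J, Ideal.span_singleton_one]
        simp)
    simp only [Finset.sum_empty, add_zero, Fintype.sum_bool, one_mul, if_true,
      QuadraticAlgebra.norm_one, natDegree_one, zero_add] at h1
    have h1' : φ1.norm.natDegree = w1.natDegree + w.natDegree := by simpa using h1
    have h2 := po_add_po_neg hY hg hφ10
    have h3 := hpoc Y hY
    have h4 := hpoc (-Y) (hYneg hY)
    have h5 : (φ1.norm.natDegree : ℤ) ≤ a0 + b0 := by linarith
    rw [h1'] at h5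
    rw [hb0] at h5
    push_cast at h5
    omega
  -- the generator
  obtain ⟨φ, hφ⟩ : α ∣ φ1 ^ M * β := by
    rw [← Ideal.mem_span_singleton]
    have h1 : φ1 ^ M * β ∈ Ideal.span {φ1 ^ M * β} := Ideal.mem_span_singleton_self _
    have h2 : Ideal.span {φ1 ^ M * β} =
        Ideal.span {α} * (pt f w v ^ M * ∏ i, pt f (W i) (V i) ^ a i) := by
      rw [← Ideal.span_singleton_mul_span_singleton, ← Ideal.span_singleton_pow, hφ1J, mul_pow]
      calc pt f w1 v1 ^ M * pt f w v ^ M * Ideal.span {β} =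
          pt f w v ^ M * (Ideal.span {β} * pt f w1 v1 ^ M) := by ring
        _ = _ := by
          rw [← hαβ]
          ring
    rw [h2] at h1
    exact Ideal.mul_le_left h1
  have hφne : φ ≠ 0 := by
    rintro rfl
    rw [mul_zero] at hφ
    exact mul_ne_zero (pow_ne_zero _ hφ10) hβ hφ
  have hspanα : (Ideal.span {α} : Ideal (Crd f)) ≠ 0 := by
    rw [Ideal.zero_eq_bot, Ne, Ideal.span_singleton_eq_bot]
    exact hα
  have hφspan : Ideal.span {φ} = pt f w v ^ M * ∏ i, pt f (W i) (V i) ^ a i := by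
    refine mul_left_cancel₀ hspanα ?_
    rw [Ideal.span_singleton_mul_span_singleton, ← hφ, ← Ideal.span_singleton_mul_span_singleton,
      ← Ideal.span_singleton_pow, hφ1J, mul_pow]
    calc pt f w1 v1 ^ M * pt f w v ^ M * Ideal.span {β} =
        pt f w v ^ M * (Ideal.span {β} * pt f w1 v1 ^ M) := by ring
      _ = _ := by
        rw [← hαβ]
        ring
  have hpo : ∀ (Z : LS) (hZ : Z * Z = iot f),
      po Z hZ φ = M * po Z hZ φ1 + (po Z hZ β - po Z hZ α) := by
    intro Z hZ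
    have h1 : po Z hZ (α * φ) = po Z hZ (φ1 ^ M * β) := by rw [hφ]
    rw [po_mul hZ hg hα hφne, po_mul hZ hg (pow_ne_zero _ hφ10) hβ, po_pow] at h1
    linarith
  refine ⟨w, v, φ, hw, by omega, hvw, hwv, hcl, hφne, hφspan, ?_, ?_⟩
  · -- the norm
    have h1 := norm_relation_g f (∅ : Finset (Option ι)) (Finset.univ : Finset (Option ι))
      (fun _ => w) (fun _ => v) (fun o => o.elim w W) (fun o => o.elim v V)
      (fun _ => 1) (fun o => o.elim M a) (by simp) (by
        intro o _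
        cases o
        · simpa using hwv
        · simpa using hV _) φ 1 (by
        rw [Finset.prod_empty, mul_one, hφspan, Ideal.span_singleton_one, Fintype.prod_option]
        simp)
    rw [Finset.prod_empty, mul_one, QuadraticAlgebra.norm_one, one_mul, Fintype.prod_option] at h1
    simp only [Option.elim_none, Option.elim_some] at h1
    obtain ⟨u, hu⟩ := h1.symm
    obtain ⟨k, hk⟩ := Polynomial.isUnit_iff.1 u.isUnit
    refine ⟨k, hk.1.ne_zero, ?_⟩
    rw [← hu, hk.2, mul_comm]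
  · -- the degree
    have hMpos : (0 : ℤ) ≤ M := by positivity
    have h1 : po Y hY φ ≤ M * a0 + A1 := by
      rw [hpo Y hY, hA1]
      have := mul_le_mul_of_nonneg_left ((hpoc Y hY).trans hpa) hMpos
      linarith
    have h2 : po (-Y) (hYneg hY) φ ≤ M * b0 + B1 := by
      rw [hpo (-Y) (hYneg hY), hB1]
      have := mul_le_mul_of_nonneg_left ((hpoc (-Y) (hYneg hY)).trans hpb) hMpos
      linarith
    have h3 := natDegree_re_le hY hg hφne (max (M * a0 + A1) (M * b0 + B1))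
      (h1.trans (le_max_left _ _)) (h2.trans (le_max_right _ _))
    have h4 : (M * a0 + A1) + (M * b0 + B1) = M * (h - 1 : ℕ) + S := by
      rw [hb0]
      linear_combination hAB1
    have h5 : (M * a0 + A1) - (M * b0 + B1) = M * (2 * a0 - ((D : ℤ) + (h - 1 : ℕ))) + (A1 - B1) := by
      rw [hb0]
      ring
    have h6 : ((h - 1 : ℕ) : ℤ) = (h : ℤ) - 1 := by
      rw [Nat.cast_sub hh]
      simp
    have h7 : (2 : ℤ) * φ.re.natDegree ≤ M * h + S := by
      rw [h6] at h4 h5 ha1 ha2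
      rcases max_cases (M * a0 + A1) (M * b0 + B1) with ⟨hm, -⟩ | ⟨hm, -⟩
      · rw [hm] at h3
        nlinarith
      · rw [hm] at h3
        nlinarith
    exact_mod_cast h7

end Red

/-- The square root at infinity from an integral power series. -/
theorem exists_Y (f0 : ℤ[X]) (hm : f0.Monic) {h : ℕ} (hn : f0.natDegree = 2 * h)
    (s : PowerSeries ℤ) (hs : s ^ 2 = (f0.reverse : PowerSeries ℤ)) :
    ∃ Y : LS, Y * Y = iot (f0.map (Int.castRingHom ℚ)) := by
  have hd : (f0.map (Int.castRingHom ℚ)).natDegree = 2 * h := by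
    rw [hm.natDegree_map, hn]
  refine ⟨_, sqrt_of_reverse (f0.map (Int.castRingHom ℚ)) h hd
    (PowerSeries.map (Int.castRingHom ℚ) s) ?_⟩
  rw [← map_pow, hs]
  ext n
  rw [PowerSeries.coeff_map, Polynomial.coeff_coe, Polynomial.coeff_coe, coeff_reverse,
    coeff_reverse, coeff_map, hm.natDegree_map]

end Pool.TT
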