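import Mathlib

/-!
The complex part of the near-torsion lemma for polynomials of any degree: the value of `A` at a root
of `u` is small in comparison with the size of `u`, if the value of `y` is small.  The parity argument
is replaced by the intermediate value theorem on small circles around a root of `f`.
-/

set_option autoImplicit false

open Polynomial

namespace Pool.TTE

/-! ### polynomials which are small at spaced points -/

private theorem nec_prod_dist (k i : ℕ) (hi : i ≤ k) :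
    ∏ j ∈ (Finset.range (k + 1)).erase i, |(i : ℝ) - j| = i.factorial * (k - i).factorial := by
  have h1 : (Finset.range (k + 1)).erase i = Finset.range i ∪ Finset.Ico (i + 1) (k + 1) := by
    ext j
    simp only [Finset.mem_erase, Finset.mem_range, Finset.mem_union, Finset.mem_Ico]
    omega
  have h2 : Disjoint (Finset.range i) (Finset.Ico (i + 1) (k + 1)) := by
    rw [Finset.disjoint_left]
    intro j hj hj'
    simp only [Finset.mem_range, Finset.mem_Ico] at hj hj'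
    omega
  rw [h1, Finset.prod_union h2]
  congr 1
  · rw [← Finset.prod_range_reflect, ← Finset.prod_range_add_one_eq_factorial]
    push_cast
    refine Finset.prod_congr rfl fun j hj => ?_
    rw [Finset.mem_range] at hj
    have h3 : ((i - 1 - j : ℕ) : ℝ) = (i : ℝ) - 1 - j := by
      rw [Nat.cast_sub (by omega), Nat.cast_sub (by omega)]
      simp
    rw [h3]
    have h4 : (i : ℝ) - ((i : ℝ) - 1 - j) = j + 1 := by ring
    rw [h4, abs_of_nonneg (by positivity)]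
  · rw [Finset.prod_Ico_eq_prod_range, ← Finset.prod_range_add_one_eq_factorial]
    have h3 : k + 1 - (i + 1) = k - i := by omega
    rw [h3]
    push_cast
    refine Finset.prod_congr rfl fun j _ => ?_
    have h4 : (i : ℝ) - (i + 1 + j) = -(j + 1) := by ring
    rw [h4, abs_neg, abs_of_nonneg (by positivity)]

private theorem nec_sum_inv_factorial (k : ℕ) :
    ∑ i ∈ Finset.range (k + 1), (1 : ℝ) / (i.factorial * (k - i).factorial) =
      2 ^ k / k.factorial := by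
  have h1 : ∀ i ∈ Finset.range (k + 1), (1 : ℝ) / (i.factorial * (k - i).factorial) =
      (k.choose i : ℝ) / k.factorial := by
    intro i hi
    rw [Finset.mem_range] at hi
    have h2 := Nat.choose_mul_factorial_mul_factorial (Nat.lt_succ_iff.1 hi)
    have h3 : (k.choose i : ℝ) * i.factorial * (k - i).factorial = k.factorial := by
      exact_mod_cast h2
    have h4 : (i.factorial : ℝ) ≠ 0 := by exact_mod_cast i.factorial_ne_zero
    have h5 : ((k - i).factorial : ℝ) ≠ 0 := by exact_mod_cast (k - i).factorial_ne_zero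
    have h6 : (k.factorial : ℝ) ≠ 0 := by exact_mod_cast k.factorial_ne_zero
    rw [div_eq_div_iff (mul_ne_zero h4 h5) h6, ← h3]
    ring
  rw [Finset.sum_congr rfl h1, ← Finset.sum_div]
  congr 1
  have := Nat.sum_range_choose k
  exact_mod_cast this

private theorem nec_lagrange (P : ℂ[X]) (k : ℕ) (hP : P.natDegree ≤ k) (x : ℕ → ℂ) {h S L : ℝ}
    (hh : 0 < h) (hS0 : 0 ≤ S)
    (hx : ∀ i ≤ k, ∀ j ≤ k, h * |(i : ℝ) - j| ≤ ‖x i - x j‖)
    (hS : ∀ i ≤ k, ‖P.eval (x i)‖ ≤ S) (z : ℂ) (hz : ∀ i ≤ k, ‖z - x i‖ ≤ L) :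
    ‖P.eval z‖ ≤ S * ((L / h) ^ k * (2 ^ k / k.factorial)) := by
  have hL0 : 0 ≤ L := (norm_nonneg _).trans (hz 0 (Nat.zero_le _))
  have hv : Set.InjOn x (Finset.range (k + 1) : Finset ℕ) := by
    intro i hi j hj hij
    have hi' : i ≤ k := Nat.lt_succ_iff.1 (Finset.mem_range.1 (Finset.mem_coe.1 hi))
    have hj' : j ≤ k := Nat.lt_succ_iff.1 (Finset.mem_range.1 (Finset.mem_coe.1 hj))
    have h1 := hx i hi' j hj'
    rw [hij, sub_self, norm_zero] at h1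
    have h2 : |(i : ℝ) - j| = 0 := by
      refine le_antisymm ?_ (abs_nonneg _)
      by_contra hcon
      push Not at hcon
      have := mul_pos hh hcon
      linarith
    have h3 : (i : ℝ) = j := by
      have := abs_eq_zero.1 h2
      linarith
    exact_mod_cast h3
  have hdeg : P.degree < (Finset.range (k + 1)).card := by
    rw [Finset.card_range]
    exact lt_of_le_of_lt (degree_le_of_natDegree_le hP) (by exact_mod_cast Nat.lt_succ_self k)
  have hrep := Lagrange.eq_interpolate hv hdeg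
  have hev : P.eval z = ∑ i ∈ Finset.range (k + 1), P.eval (x i) *
      ∏ j ∈ (Finset.range (k + 1)).erase i, ((x i - x j)⁻¹ * (z - x j)) := by
    conv_lhs => rw [hrep]
    rw [Lagrange.interpolate_apply, eval_finsetSum]
    refine Finset.sum_congr rfl fun i _ => ?_
    rw [eval_mul, eval_C, Lagrange.basis, eval_prod]
    congr 1
    refine Finset.prod_congr rfl fun j _ => ?_
    rw [Lagrange.basisDivisor, eval_mul, eval_C, eval_sub, eval_X, eval_C]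
  have hterm : ∀ i ∈ Finset.range (k + 1), ‖P.eval (x i) *
      ∏ j ∈ (Finset.range (k + 1)).erase i, ((x i - x j)⁻¹ * (z - x j))‖ ≤
      S * (L / h) ^ k * (1 / (i.factorial * (k - i).factorial)) := by
    intro i hi
    have hi' : i ≤ k := Nat.lt_succ_iff.1 (Finset.mem_range.1 hi)
    have hcard : ((Finset.range (k + 1)).erase i).card = k := by
      rw [Finset.card_erase_of_mem hi, Finset.card_range, Nat.add_sub_cancel]
    rw [norm_mul, norm_prod, mul_assoc]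
    refine mul_le_mul (hS i hi') ?_ (Finset.prod_nonneg fun _ _ => norm_nonneg _) hS0
    have h1 : ∀ j ∈ (Finset.range (k + 1)).erase i, ‖(x i - x j)⁻¹ * (z - x j)‖ ≤
        (L / h) * |(i : ℝ) - j|⁻¹ := by
      intro j hj
      have hj' : j ≤ k := Nat.lt_succ_iff.1 (Finset.mem_range.1 (Finset.mem_of_mem_erase hj))
      have hne : (i : ℝ) - j ≠ 0 := by
        intro h0
        have h1 : (i : ℝ) = j := by linarith
        exact (Finset.ne_of_mem_erase hj) (by exact_mod_cast h1.symm)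
      have hpos : 0 < |(i : ℝ) - j| := abs_pos.2 hne
      have h2 := hx i hi' j hj'
      rw [norm_mul, norm_inv, mul_comm]
      have h3 : ‖x i - x j‖⁻¹ ≤ (h * |(i : ℝ) - j|)⁻¹ :=
        inv_anti₀ (mul_pos hh hpos) h2
      calc ‖z - x j‖ * ‖x i - x j‖⁻¹ ≤ L * (h * |(i : ℝ) - j|)⁻¹ :=
            mul_le_mul (hz j hj') h3 (inv_nonneg.2 (norm_nonneg _)) hL0
        _ = (L / h) * |(i : ℝ) - j|⁻¹ := by rw [mul_inv]; ring
    refine (Finset.prod_le_prod (fun _ _ => norm_nonneg _) h1).trans (le_of_eq ?_)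
    rw [Finset.prod_mul_distrib, Finset.prod_const, hcard, Finset.prod_inv_distrib,
      nec_prod_dist k i hi', one_div]
  rw [hev]
  refine (norm_sum_le _ _).trans ((Finset.sum_le_sum hterm).trans (le_of_eq ?_))
  rw [← Finset.mul_sum, nec_sum_inv_factorial, mul_assoc]

/-! ### small circles around a simple root -/

/-- On every small circle around a simple root `θ` of `F` there is a point with
`|A|² ≤ |A² - F B²|`: the function `√F` changes its sign after one turn. -/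
private theorem nec_circle (F : ℂ[X]) (θ : ℂ) (hθ : F.eval θ = 0)
    (hθ' : (derivative F).eval θ ≠ 0) :
    ∃ r₀ : ℝ, 0 < r₀ ∧ r₀ ≤ 1 ∧ ∀ (A B : ℂ[X]) (r : ℝ), 0 < r → r < r₀ →
      ∃ x : ℂ, ‖x - θ‖ = r ∧ ‖A.eval x‖ ^ 2 ≤ ‖A.eval x ^ 2 - F.eval x * B.eval x ^ 2‖ := by
  obtain ⟨H, hH⟩ := dvd_iff_isRoot.2 (show F.IsRoot θ from hθ)
  have hHθ : H.eval θ ≠ 0 := by
    intro h0
    apply hθ'
    rw [hH, derivative_mul, eval_add, eval_mul, eval_mul, h0, eval_sub, eval_X, eval_C]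
    simp
  have hcont : Continuous fun x : ℂ => H.eval x / H.eval θ := by
    exact (H.continuous).div_const _
  obtain ⟨ε, hε, hball⟩ := Metric.continuousAt_iff.1 (hcont.continuousAt (x := θ)) 1 one_pos
  have hre : ∀ x : ℂ, ‖x - θ‖ < ε → H.eval x / H.eval θ ∈ Complex.slitPlane := by
    intro x hx
    have h1 := hball (show dist x θ < ε by rwa [dist_eq_norm])
    rw [div_self hHθ, dist_eq_norm] at h1
    left
    have h2 := (abs_le.1 (Complex.abs_re_le_norm (H.eval x / H.eval θ - 1))).1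
    rw [Complex.sub_re, Complex.one_re] at h2
    linarith
  obtain ⟨c, hc⟩ := IsAlgClosed.exists_pow_nat_eq (H.eval θ) (n := 2) (by norm_num)
  obtain ⟨h, hh⟩ : ∃ h : ℂ → ℂ, h = fun x => c * Complex.exp (Complex.log (H.eval x / H.eval θ) / 2) :=
    ⟨_, rfl⟩
  have hh2 : ∀ x : ℂ, ‖x - θ‖ < ε → h x ^ 2 = H.eval x := by
    intro x hx
    have h1 := Complex.slitPlane_ne_zero (hre x hx)
    rw [hh]
    simp only
    rw [mul_pow, hc, ← Complex.exp_nat_mul]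
    have h2 : ((2 : ℕ) : ℂ) * (Complex.log (H.eval x / H.eval θ) / 2) =
        Complex.log (H.eval x / H.eval θ) := by push_cast; ring
    rw [h2, Complex.exp_log h1, mul_div_cancel₀ _ hHθ]
  have hhc : ContinuousOn h {x | ‖x - θ‖ < ε} := by
    rw [hh]
    refine continuousOn_const.mul ?_
    refine Complex.continuous_exp.comp_continuousOn ?_
    refine ContinuousOn.div_const ?_ 2
    exact hcont.continuousOn.clog fun x hx => hre x hx
  refine ⟨min ε 1, lt_min hε one_pos, min_le_right _ _, ?_⟩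
  intro A B r hr hrr
  have hrε : r < ε := lt_of_lt_of_le hrr (min_le_left _ _)
  obtain ⟨w, hw⟩ : ∃ w : ℝ → ℂ, w = fun t : ℝ => ((Real.sqrt r : ℝ) : ℂ) * Complex.exp ((t : ℂ) * Complex.I) :=
    ⟨_, rfl⟩
  have hw2 : ∀ t, ‖w t ^ 2‖ = r := by
    intro t
    rw [hw, norm_pow, norm_mul, Complex.norm_exp_ofReal_mul_I, mul_one, Complex.norm_real,
      Real.norm_of_nonneg (Real.sqrt_nonneg r), Real.sq_sqrt hr.le]
  have hwc : Continuous w := by rw [hw]; fun_prop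
  have hwp : w Real.pi = - w 0 := by
    rw [hw]
    simp only
    rw [Complex.exp_pi_mul_I]
    simp
  obtain ⟨q, hq⟩ : ∃ q : ℝ → ℂ, q = fun t => w t * h (θ + w t ^ 2) := ⟨_, rfl⟩
  have hin : ∀ t, ‖(θ + w t ^ 2) - θ‖ < ε := by
    intro t
    rw [add_sub_cancel_left, hw2]
    exact hrε
  have hqc : Continuous q := by
    rw [hq]
    refine hwc.mul ?_
    exact hhc.comp_continuous (by fun_prop) fun t => hin t
  have hq2 : ∀ t, q t ^ 2 = F.eval (θ + w t ^ 2) := by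
    intro t
    rw [hq]
    simp only
    rw [mul_pow, hh2 _ (hin t), hH, eval_mul, eval_sub, eval_X, eval_C]
    ring
  have hqp : q Real.pi = - q 0 := by
    rw [hq]
    simp only
    rw [hwp, neg_sq]
    ring
  obtain ⟨D, hD⟩ : ∃ D : ℝ → ℝ, D = fun t =>
      ‖A.eval (θ + w t ^ 2) + B.eval (θ + w t ^ 2) * q t‖ -
        ‖A.eval (θ + w t ^ 2) - B.eval (θ + w t ^ 2) * q t‖ := ⟨_, rfl⟩
  have hDc : Continuous D := by
    rw [hD]
    have h1 : Continuous fun t => A.eval (θ + w t ^ 2) := A.continuous.comp (by fun_prop)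
    have h2 : Continuous fun t => B.eval (θ + w t ^ 2) := B.continuous.comp (by fun_prop)
    exact (h1.add (h2.mul hqc)).norm.sub (h1.sub (h2.mul hqc)).norm
  have hDp : D Real.pi = - D 0 := by
    rw [hD]
    simp only
    rw [hwp, hqp, neg_sq, mul_neg, ← sub_eq_add_neg, sub_neg_eq_add]
    ring
  obtain ⟨t, ht⟩ : ∃ t, D t = 0 := by
    rcases le_total 0 (D 0) with h0 | h0
    · have h1 : (0 : ℝ) ∈ Set.Icc (D Real.pi) (D 0) := ⟨by rw [hDp]; linarith, h0⟩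
      obtain ⟨t, _, ht⟩ := intermediate_value_Icc' Real.pi_pos.le hDc.continuousOn h1
      exact ⟨t, ht⟩
    · have h1 : (0 : ℝ) ∈ Set.Icc (D 0) (D Real.pi) := ⟨h0, by rw [hDp]; linarith⟩
      obtain ⟨t, _, ht⟩ := intermediate_value_Icc Real.pi_pos.le hDc.continuousOn h1
      exact ⟨t, ht⟩
  refine ⟨θ + w t ^ 2, by rw [add_sub_cancel_left, hw2], ?_⟩
  rw [hD] at ht
  simp only at ht
  obtain ⟨a, ha⟩ : ∃ a, a = A.eval (θ + w t ^ 2) := ⟨_, rfl⟩
  obtain ⟨b, hb⟩ : ∃ b, b = B.eval (θ + w t ^ 2) * q t := ⟨_, rfl⟩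
  have h1 : A.eval (θ + w t ^ 2) ^ 2 - F.eval (θ + w t ^ 2) * B.eval (θ + w t ^ 2) ^ 2 =
      (a + b) * (a - b) := by
    rw [← hq2, ha, hb]
    ring
  rw [h1, norm_mul, ← ha]
  rw [← ha, ← hb] at ht
  have h2 : ‖a + b‖ = ‖a - b‖ := by linarith
  have h3 : ‖a‖ ≤ ‖a + b‖ := by
    have h4 : ‖(2 : ℂ) * a‖ ≤ ‖a + b‖ + ‖a - b‖ := by
      have h5 : (2 : ℂ) * a = (a + b) + (a - b) := by ring
      rw [h5]
      exact norm_add_le _ _
    rw [norm_mul, ← h2] at h4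
    have h5 : ‖(2 : ℂ)‖ = 2 := by norm_num
    rw [h5] at h4
    linarith
  rw [← h2, sq]
  exact mul_le_mul h3 h3 (norm_nonneg _) (norm_nonneg _)

private theorem nec_growth (F : ℂ[X]) (θ : ℂ) (hθ : F.eval θ = 0)
    (hθ' : (derivative F).eval θ ≠ 0) :
    ∃ K : ℝ, 1 ≤ K ∧ ∀ (A B : ℂ[X]) (D : ℕ) (S : ℝ), A.natDegree ≤ D → 0 ≤ S →
      (∀ x : ℂ, ‖x‖ ≤ ‖θ‖ + 1 → ‖A.eval x ^ 2 - F.eval x * B.eval x ^ 2‖ ≤ S ^ 2) →
      ∀ z : ℂ, ‖A.eval z‖ ≤ 3 * S * (K * max 1 ‖z‖) ^ D := by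
  obtain ⟨r₀, hr₀, hr₁, hcirc⟩ := nec_circle F θ hθ hθ'
  refine ⟨24 * (‖θ‖ + 2) / r₀, ?_, ?_⟩
  · rw [le_div_iff₀ hr₀]
    nlinarith [norm_nonneg θ]
  intro A B D S hA hS0 hN z
  have hD1 : (0 : ℝ) < D + 1 := by positivity
  have hex : ∀ i : ℕ, ∃ x : ℂ, i ≤ D → ‖x - θ‖ = r₀ / 4 * (1 + i / (D + 1)) ∧ ‖A.eval x‖ ≤ S := by
    intro i
    by_cases hi : i ≤ D
    · have hi' : (i : ℝ) ≤ D := by exact_mod_cast hi
      have h1 : (i : ℝ) / (D + 1) ≤ 1 := by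
        rw [div_le_one hD1]
        linarith
      have h0 : 0 ≤ (i : ℝ) / (D + 1) := by positivity
      obtain ⟨x, hx, hx'⟩ := hcirc A B (r₀ / 4 * (1 + i / (D + 1))) (by positivity) (by nlinarith)
      refine ⟨x, fun _ => ⟨hx, ?_⟩⟩
      have h2 : ‖x‖ ≤ ‖θ‖ + 1 := by
        have h3 : ‖x‖ ≤ ‖x - θ‖ + ‖θ‖ := by
          have := norm_add_le (x - θ) θ
          rwa [sub_add_cancel] at this
        rw [hx] at h3
        nlinarith
      exact (sq_le_sq₀ (norm_nonneg _) hS0).1 (hx'.trans (hN x h2))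
    · exact ⟨0, fun h => absurd h hi⟩
  choose x hx using hex
  obtain ⟨h, hh⟩ : ∃ h : ℝ, h = r₀ / (4 * (D + 1)) := ⟨_, rfl⟩
  have hh0 : 0 < h := by rw [hh]; positivity
  obtain ⟨ρ, hρ⟩ : ∃ ρ : ℝ, ρ = max 1 ‖z‖ := ⟨_, rfl⟩
  have hρ1 : 1 ≤ ρ := hρ ▸ le_max_left _ _
  have hzρ : ‖z‖ ≤ ρ := hρ ▸ le_max_right _ _
  rw [← hρ]
  have key := nec_lagrange A D hA x (h := h) (S := S) (L := (‖θ‖ + 2) * ρ) hh0 hS0 (by
    intro i hi j hj
    have h1 := (hx i hi).1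
    have h2 := (hx j hj).1
    have h3 : |‖x i - θ‖ - ‖x j - θ‖| ≤ ‖x i - x j‖ := by
      have := abs_norm_sub_norm_le (x i - θ) (x j - θ)
      rwa [sub_sub_sub_cancel_right] at this
    refine le_trans (le_of_eq ?_) h3
    rw [h1, h2, hh]
    have h4 : r₀ / 4 * (1 + (i : ℝ) / (D + 1)) - r₀ / 4 * (1 + (j : ℝ) / (D + 1)) =
        r₀ / (4 * (D + 1)) * ((i : ℝ) - j) := by
      field_simp
      ring
    rw [h4, abs_mul, abs_of_pos (show 0 < r₀ / (4 * ((D : ℝ) + 1)) by positivity)])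
    (fun i hi => (hx i hi).2) z (by
    intro i hi
    have hi' : (i : ℝ) ≤ D := by exact_mod_cast hi
    have h0 : (i : ℝ) / (D + 1) ≤ 1 := by
      rw [div_le_one hD1]
      linarith
    have h1 : ‖z - x i‖ ≤ ‖z‖ + (‖θ‖ + ‖x i - θ‖) := by
      have h2 : z - x i = z - (θ + (x i - θ)) := by ring
      rw [h2]
      exact (norm_sub_le _ _).trans (add_le_add le_rfl (norm_add_le _ _))
    have h3 : ‖x i - θ‖ ≤ 1 := by
      rw [(hx i hi).1]
      nlinarith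
    have h4 := norm_nonneg θ
    nlinarith [mul_le_mul_of_nonneg_left hρ1 h4])
  refine key.trans ?_
  have hfac : (0 : ℝ) < D.factorial := by exact_mod_cast D.factorial_pos
  have hexp : ((D : ℝ) + 1) ^ D / D.factorial ≤ 3 * 3 ^ D := by
    refine (Real.pow_div_factorial_le_exp ((D : ℝ) + 1) hD1.le D).trans ?_
    rw [show ((D : ℝ) + 1) = ((D + 1 : ℕ) : ℝ) * 1 by push_cast; ring, Real.exp_nat_mul,
      ← pow_succ']
    exact pow_le_pow_left₀ (Real.exp_pos _).le (by linarith [Real.exp_one_lt_three]) _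
  have h1 : ((‖θ‖ + 2) * ρ / h) ^ D * (2 ^ D / D.factorial) =
      (8 * (‖θ‖ + 2) / r₀ * ρ) ^ D * (((D : ℝ) + 1) ^ D / D.factorial) := by
    rw [hh]
    have h2 : (‖θ‖ + 2) * ρ / (r₀ / (4 * ((D : ℝ) + 1))) =
        4 * (‖θ‖ + 2) / r₀ * ρ * ((D : ℝ) + 1) := by
      field_simp
    rw [h2, mul_pow _ ((D : ℝ) + 1) D]
    rw [show (8 * (‖θ‖ + 2) / r₀ * ρ) = (4 * (‖θ‖ + 2) / r₀ * ρ) * 2 by ring,
      mul_pow (4 * (‖θ‖ + 2) / r₀ * ρ) 2 D]
    ring
  rw [h1]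
  have h2 : (8 * (‖θ‖ + 2) / r₀ * ρ) ^ D * (((D : ℝ) + 1) ^ D / D.factorial) ≤
      (8 * (‖θ‖ + 2) / r₀ * ρ) ^ D * (3 * 3 ^ D) :=
    mul_le_mul_of_nonneg_left hexp (by positivity)
  refine (mul_le_mul_of_nonneg_left h2 hS0).trans (le_of_eq ?_)
  rw [show 24 * (‖θ‖ + 2) / r₀ * ρ = (8 * (‖θ‖ + 2) / r₀ * ρ) * 3 by ring,
    mul_pow (8 * (‖θ‖ + 2) / r₀ * ρ) 3 D]
  ring

/-- maximum principle for polynomials -/
private theorem nec_max {p : ℂ[X]} {r S : ℝ} (hr : 0 < r)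
    (h : ∀ x : ℂ, ‖x‖ = r → ‖p.eval x‖ ≤ S) {z : ℂ} (hz : ‖z‖ ≤ r) : ‖p.eval z‖ ≤ S := by
  refine Complex.norm_le_of_forall_mem_frontier_norm_le (f := fun x => p.eval x)
    (U := Metric.ball (0 : ℂ) r) Metric.isBounded_ball p.differentiable.diffContOnCl ?_ ?_
  · intro x hx
    rw [frontier_ball (0 : ℂ) hr.ne', mem_sphere_zero_iff_norm] at hx
    exact h x hx
  · rw [closure_ball (0 : ℂ) hr.ne', mem_closedBall_zero_iff]
    exact hz

/-! ### the polynomial `f` -/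

private theorem nec_large (F : ℂ[X]) (hF : F.Monic) (hn : 1 ≤ F.natDegree) :
    ∃ C₀ : ℝ, 3 ≤ C₀ ∧ ∀ x : ℂ, C₀ ≤ ‖x‖ → ‖F.eval x - x ^ F.natDegree‖ ≤ ‖x‖ ^ F.natDegree / 2 := by
  obtain ⟨H, hH⟩ : ∃ H : ℝ, H = ∑ i ∈ Finset.range F.natDegree, ‖F.coeff i‖ := ⟨_, rfl⟩
  have hH0 : 0 ≤ H := hH ▸ Finset.sum_nonneg fun i _ => norm_nonneg _
  refine ⟨3 + 2 * H, by linarith, fun x hx => ?_⟩
  have hx1 : 1 ≤ ‖x‖ := by linarith
  have h0 : F.eval x = x ^ F.natDegree + ∑ i ∈ Finset.range F.natDegree, F.coeff i * x ^ i := by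
    conv_lhs => rw [hF.as_sum]
    simp [eval_finsetSum]
  have h1 : F.eval x - x ^ F.natDegree = ∑ i ∈ Finset.range F.natDegree, F.coeff i * x ^ i := by
    rw [h0]
    ring
  obtain ⟨m, hm⟩ := Nat.exists_eq_add_of_le hn
  have h2 : ‖F.eval x - x ^ F.natDegree‖ ≤ H * ‖x‖ ^ m := by
    rw [h1, hH, Finset.sum_mul]
    refine (norm_sum_le _ _).trans (Finset.sum_le_sum fun i hi => ?_)
    rw [norm_mul, norm_pow]
    refine mul_le_mul_of_nonneg_left (pow_le_pow_right₀ hx1 ?_) (norm_nonneg _)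
    have := Finset.mem_range.1 hi
    omega
  refine h2.trans ?_
  rw [hm, pow_add, pow_one]
  have h3 : 0 ≤ ‖x‖ ^ m := by positivity
  nlinarith

private theorem nec_ball (p : ℂ[X]) (r : ℝ) : ∃ K : ℝ, 1 ≤ K ∧ ∀ x : ℂ, ‖x‖ ≤ r → ‖p.eval x‖ ≤ K := by
  obtain ⟨K, hK⟩ := (isCompact_closedBall (0 : ℂ) r).exists_bound_of_continuousOn
    (f := fun x => p.eval x) p.continuous.continuousOn
  refine ⟨max 1 K, le_max_left _ _, fun x hx => (hK x ?_).trans (le_max_right _ _)⟩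
  rw [mem_closedBall_zero_iff]
  exact hx

private theorem nec_deriv (f : ℤ[X])
    (hsep : ∃ (a b : ℤ[X]) (D : ℤ), D ≠ 0 ∧ a * f + b * derivative f = C D) (r : ℝ) :
    ∃ δ : ℝ, 0 < δ ∧ δ ≤ 1 / 2 ∧ ∀ x : ℂ, ‖x‖ ≤ r →
      ‖(f.map (Int.castRingHom ℂ)).eval x‖ ≤ δ →
        δ ≤ ‖(derivative (f.map (Int.castRingHom ℂ))).eval x‖ := by
  obtain ⟨a, b, D, hD, hab⟩ := hsep
  obtain ⟨K₁, hK₁, h₁⟩ := nec_ball (a.map (Int.castRingHom ℂ)) r
  obtain ⟨K₂, hK₂, h₂⟩ := nec_ball (b.map (Int.castRingHom ℂ)) r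
  obtain ⟨K, hK⟩ : ∃ K, K = K₁ + K₂ := ⟨_, rfl⟩
  have hK2 : 2 ≤ K := by linarith
  refine ⟨1 / (2 * K), by positivity, ?_, fun x hx hfx => ?_⟩
  · rw [div_le_div_iff₀ (by positivity) (by norm_num)]
    linarith
  · have h3 := congrArg (fun p : ℤ[X] => (p.map (Int.castRingHom ℂ)).eval x) hab
    simp only [Polynomial.map_add, Polynomial.map_mul, eval_add, eval_mul, map_C, eval_C,
      ← derivative_map] at h3
    have h4 : (1 : ℝ) ≤ ‖(Int.castRingHom ℂ) D‖ := by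
      rw [eq_intCast, Complex.norm_intCast]
      exact_mod_cast Int.one_le_abs hD
    rw [← h3] at h4
    have h5 : (1 : ℝ) ≤ K * ‖(f.map (Int.castRingHom ℂ)).eval x‖ +
        K * ‖(derivative (f.map (Int.castRingHom ℂ))).eval x‖ := by
      refine h4.trans ((norm_add_le _ _).trans ?_)
      rw [norm_mul, norm_mul]
      refine add_le_add (mul_le_mul_of_nonneg_right ?_ (norm_nonneg _))
        (mul_le_mul_of_nonneg_right ?_ (norm_nonneg _))
      · exact (h₁ x hx).trans (by linarith)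
      · exact (h₂ x hx).trans (by linarith)
    have h6 : K * ‖(f.map (Int.castRingHom ℂ)).eval x‖ ≤ 1 / 2 := by
      have h7 := mul_le_mul_of_nonneg_left hfx (show 0 ≤ K by linarith)
      have h8 : K * (1 / (2 * K)) = 1 / 2 := by field_simp
      linarith
    rw [div_le_iff₀ (by positivity)]
    nlinarith

private theorem nec_norm_prod (Z : Multiset ℂ) (g : ℂ → ℂ) :
    ‖(Z.map g).prod‖ = (Z.map (fun z => ‖g z‖)).prod := by
  induction Z using Multiset.induction_on with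
  | empty => simp
  | cons a Z ih =>
    rw [Multiset.map_cons, Multiset.prod_cons, norm_mul, ih, Multiset.map_cons,
      Multiset.prod_cons]

/-- evaluation of elements of `ℂ[x, y] / (y² - F)` -/
private noncomputable def necEv {F : ℂ[X]} {x y : ℂ} (h : y ^ 2 = F.eval x) :
    QuadraticAlgebra ℂ[X] F 0 →+* ℂ where
  toFun z := z.re.eval x + z.im.eval x * y
  map_one' := by
    rw [QuadraticAlgebra.re_one, QuadraticAlgebra.im_one]
    simp
  map_zero' := by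
    rw [QuadraticAlgebra.re_zero, QuadraticAlgebra.im_zero]
    simp
  map_add' z w := by
    rw [QuadraticAlgebra.re_add, QuadraticAlgebra.im_add]
    simp only [eval_add]
    ring
  map_mul' z w := by
    rw [QuadraticAlgebra.re_mul, QuadraticAlgebra.im_mul]
    simp only [eval_add, eval_mul, eval_zero]
    linear_combination (-(eval x z.im * eval x w.im)) * h

private theorem necEv_mk {F : ℂ[X]} {x y : ℂ} (h : y ^ 2 = F.eval x) (a b : ℂ[X]) :
    necEv h ⟨a, b⟩ = a.eval x + b.eval x * y := rfl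

/-! ### the theorem -/

/-- the local bound at the complex place, any degree -/
theorem complex_bound_all (f : ℤ[X]) (hf : f.Monic) (h2 : 2 ≤ f.natDegree)
    (hsep : ∃ (a b : ℤ[X]) (D : ℤ), D ≠ 0 ∧ a * f + b * derivative f = C D) :
    ∃ K : ℝ, 1 ≤ K ∧ ∀ (M Dl : ℕ) (Z : Multiset ℂ) (A B A₁ B₁ f₁ : ℂ[X]) (κ ξ η : ℂ),
      Multiset.card Z ≤ f.natDegree * M → Dl ≤ f.natDegree * M → A.natDegree ≤ Dl →
      A ^ 2 - f.map (Int.castRingHom ℂ) * B ^ 2 = C κ * (Z.map (fun z => X - C z)).prod →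
      η ^ 2 = (f.map (Int.castRingHom ℂ)).eval ξ → η ≠ 0 →
      A.eval ξ + B.eval ξ * η = 0 →
      f₁ * (X - C ξ) =
        f.map (Int.castRingHom ℂ) - C ((f.map (Int.castRingHom ℂ)).eval ξ) →
      (algebraMap ℂ[X] (QuadraticAlgebra ℂ[X] (f.map (Int.castRingHom ℂ)) 0) f₁) ^ M *
          ⟨A, B⟩ =
        (⟨-C η, 1⟩ : QuadraticAlgebra ℂ[X] (f.map (Int.castRingHom ℂ)) 0) ^ M * ⟨A₁, B₁⟩ →
      ‖2 * A.eval ξ‖ ^ 2 ≤
        K ^ M * (‖2 * η‖ ^ 2 / (max 1 ‖ξ‖) ^ f.natDegree) ^ M * (max 1 ‖ξ‖) ^ (2 * Dl) * ‖κ‖ *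
          (Z.map (fun z => max 1 ‖z‖)).prod := by
  obtain ⟨n, hnn⟩ : ∃ n, n = f.natDegree := ⟨_, rfl⟩
  obtain ⟨F, hF⟩ : ∃ F, F = f.map (Int.castRingHom ℂ) := ⟨_, rfl⟩
  have hFm : F.Monic := hF ▸ hf.map _
  have hFn : F.natDegree = n := by rw [hF, hnn, hf.natDegree_map]
  have hn1 : 1 ≤ n := by omega
  obtain ⟨C₀, hC₀, hlarge⟩ := nec_large F hFm (hFn ▸ hn1)
  rw [hFn] at hlarge
  obtain ⟨δ, hδ0, hδ1, hδ⟩ := nec_deriv f hsep C₀
  obtain ⟨θ, hθ⟩ : ∃ θ : ℂ, F.eval θ = 0 := by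
    obtain ⟨θ, hθ⟩ := IsAlgClosed.exists_root F (by
      rw [degree_eq_natDegree hFm.ne_zero, hFn]
      have : n ≠ 0 := by omega
      exact_mod_cast this)
    exact ⟨θ, hθ⟩
  have hθ' : (derivative F).eval θ ≠ 0 := by
    obtain ⟨a, b, D, hD, hab⟩ := hsep
    intro h0
    have h3 := congrArg (fun p : ℤ[X] => (p.map (Int.castRingHom ℂ)).eval θ) hab
    simp only [Polynomial.map_add, Polynomial.map_mul, eval_add, eval_mul, map_C, eval_C,
      ← derivative_map] at h3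
    rw [← hF, hθ, h0, mul_zero, mul_zero, add_zero, eq_intCast] at h3
    exact hD (by exact_mod_cast h3.symm)
  rw [← hF] at hδ
  obtain ⟨K₁, hK₁, hgrow⟩ := nec_growth F θ hθ hθ'
  obtain ⟨K₂', hK₂', hball⟩ := nec_ball F (3 * C₀)
  obtain ⟨K₂, hK₂⟩ : ∃ K₂, K₂ = K₂' + 1 := ⟨_, rfl⟩
  have hK₂1 : 1 ≤ K₂ := by linarith
  have hC1 : 1 ≤ C₀ := by linarith
  have hCn : 1 ≤ C₀ ^ n := one_le_pow₀ hC1
  obtain ⟨R, hR⟩ : ∃ R : ℝ, R = 3 * C₀ + (‖θ‖ + 1) := ⟨_, rfl⟩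
  have hR1 : 1 ≤ R := by rw [hR]; linarith [norm_nonneg θ]
  obtain ⟨L₁, hL₁⟩ : ∃ L₁ : ℝ, L₁ = 9 * (K₁ ^ 2) ^ n * (2 * R) ^ n := ⟨_, rfl⟩
  have hK₁n : 1 ≤ (K₁ ^ 2) ^ n := one_le_pow₀ (one_le_pow₀ hK₁)
  have hRn : 1 ≤ (2 * R) ^ n := one_le_pow₀ (by linarith)
  have hL₁1 : 1 ≤ L₁ := by
    rw [hL₁]
    have := one_le_mul_of_one_le_of_one_le hK₁n hRn
    nlinarith
  obtain ⟨L₂, hL₂⟩ : ∃ L₂ : ℝ, L₂ = L₁ * ((3 * C₀) ^ 2) ^ n := ⟨_, rfl⟩
  have h3C : 1 ≤ ((3 * C₀) ^ 2) ^ n := one_le_pow₀ (one_le_pow₀ (by linarith))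
  have hL₂1 : L₁ ≤ L₂ := by
    rw [hL₂]
    exact le_mul_of_one_le_right (by linarith) h3C
  obtain ⟨K, hK⟩ : ∃ K : ℝ, K = 36 * K₂ ^ 2 * L₂ * C₀ ^ n / δ ^ 2 := ⟨_, rfl⟩
  have hK0 : L₁ * C₀ ^ n / δ ≤ K := by
    rw [hK, div_le_div_iff₀ hδ0 (by positivity)]
    have h1 : δ ≤ 36 * K₂ ^ 2 := by nlinarith
    have h3 : L₁ * δ ≤ 36 * K₂ ^ 2 * L₂ := by
      calc L₁ * δ ≤ L₂ * (36 * K₂ ^ 2) := mul_le_mul hL₂1 h1 hδ0.le (by linarith)
        _ = 36 * K₂ ^ 2 * L₂ := by ring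
    have h4 : 0 ≤ C₀ ^ n * δ := by positivity
    nlinarith [mul_le_mul_of_nonneg_right h3 h4]
  have hK1 : 1 ≤ K := by
    refine le_trans ?_ hK0
    rw [le_div_iff₀ hδ0]
    nlinarith [one_le_mul_of_one_le_of_one_le hL₁1 hCn]
  refine ⟨K, hK1, ?_⟩
  intro M Dl Z A B A₁ B₁ f₁ κ ξ η hZ hDl hAd hN hη hη0 hAB hf₁ hψ
  rw [← hF] at hN hη hf₁ hψ
  rw [← hnn] at hZ hDl ⊢
  obtain ⟨ρ, hρ⟩ : ∃ ρ, ρ = max 1 ‖ξ‖ := ⟨_, rfl⟩
  rw [← hρ]
  have hρ1 : 1 ≤ ρ := hρ ▸ le_max_left _ _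
  have hξρ : ‖ξ‖ ≤ ρ := hρ ▸ le_max_right _ _
  obtain ⟨E, hE⟩ : ∃ E : ℝ, E = (Z.map (fun z => max 1 ‖z‖)).prod := ⟨_, rfl⟩
  rw [← hE]
  have hE0 : 0 ≤ E := by
    rw [hE]
    refine Multiset.prod_nonneg fun x hx => ?_
    obtain ⟨z, _, rfl⟩ := Multiset.mem_map.1 hx
    exact zero_le_one.trans (le_max_left _ _)
  rcases Nat.eq_zero_or_pos M with hM | hM
  · -- `M = 0`
    subst hM
    rw [mul_zero] at hZ hDl
    have hZ0 : Z = 0 := Multiset.card_eq_zero.1 (Nat.le_zero.1 hZ)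
    have hB : B = 0 := by
      by_contra hB
      have h1 : (F * B ^ 2).natDegree = n + 2 * B.natDegree := by
        rw [natDegree_mul hFm.ne_zero (pow_ne_zero _ hB), natDegree_pow, hFn]
      have h3 : F * B ^ 2 = A ^ 2 - C κ := by
        rw [hZ0, Multiset.map_zero, Multiset.prod_zero, mul_one] at hN
        linear_combination -hN
      have h4 : (A ^ 2 - C κ).natDegree ≤ 0 := by
        refine (natDegree_sub_le _ _).trans (max_le ?_ (natDegree_C κ).le)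
        rw [natDegree_pow]
        omega
      rw [← h3, h1] at h4
      omega
    rw [hB, eval_zero, zero_mul, add_zero] at hAB
    rw [hAB, mul_zero, norm_zero, zero_pow two_ne_zero]
    positivity
  -- the norm on the disc
  have hNx : ∀ x : ℂ, A.eval x ^ 2 - F.eval x * B.eval x ^ 2 =
      κ * (Z.map (fun z => x - z)).prod := by
    intro x
    have h1 := congrArg (fun p : ℂ[X] => p.eval x) hN
    simp only [eval_sub, eval_mul, eval_pow, eval_C] at h1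
    rw [h1, eval_multiset_prod, Multiset.map_map]
    simp
  obtain ⟨T, hT⟩ : ∃ T : ℝ, T = ‖κ‖ * ((2 * R) ^ (n * M) * E) := ⟨_, rfl⟩
  have hT0 : 0 ≤ T := by rw [hT]; positivity
  have hNT : ∀ x : ℂ, ‖x‖ ≤ R → ‖A.eval x ^ 2 - F.eval x * B.eval x ^ 2‖ ≤ T := by
    intro x hx
    rw [hNx, norm_mul, hT]
    refine mul_le_mul_of_nonneg_left ?_ (norm_nonneg _)
    rw [nec_norm_prod]
    have h3 : (Z.map (fun z => ‖x - z‖)).prod ≤ (Z.map (fun z => 2 * R * max 1 ‖z‖)).prod := by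
      refine Multiset.prod_map_le_prod_map₀ _ _ (fun z _ => norm_nonneg _) (fun z _ => ?_)
      have h3 : ‖x - z‖ ≤ ‖x‖ + ‖z‖ := norm_sub_le _ _
      have h4 := le_max_left 1 ‖z‖
      have h5 := le_max_right 1 ‖z‖
      have h6 : 0 ≤ max 1 ‖z‖ := by linarith
      nlinarith [mul_le_mul_of_nonneg_left h4 (show 0 ≤ R by linarith),
        mul_le_mul_of_nonneg_right hR1 h6]
    refine h3.trans ?_
    rw [Multiset.prod_map_mul, Multiset.map_const', Multiset.prod_replicate, ← hE]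
    exact mul_le_mul_of_nonneg_right (pow_le_pow_right₀ (by linarith) hZ) hE0
  -- the bound for `A`
  obtain ⟨T₁, hT₁⟩ : ∃ T₁ : ℝ, T₁ = L₁ ^ M * (‖κ‖ * E) := ⟨_, rfl⟩
  have hT₁0 : 0 ≤ T₁ := by rw [hT₁]; positivity
  have hAb : ∀ z : ℂ, ‖A.eval z‖ ^ 2 ≤ T₁ * (max 1 ‖z‖) ^ (2 * Dl) := by
    intro z
    have h1 := hgrow A B Dl (Real.sqrt T) hAd (Real.sqrt_nonneg _) (by
      intro x hx
      rw [Real.sq_sqrt hT0]
      exact hNT x (hx.trans (by rw [hR]; linarith))) z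
    have h3 : ‖A.eval z‖ ^ 2 ≤ (3 * Real.sqrt T * (K₁ * max 1 ‖z‖) ^ Dl) ^ 2 :=
      pow_le_pow_left₀ (norm_nonneg _) h1 2
    refine h3.trans ?_
    have h4 : (3 * Real.sqrt T * (K₁ * max 1 ‖z‖) ^ Dl) ^ 2 =
        9 * T * ((K₁ ^ 2) ^ Dl * (max 1 ‖z‖) ^ (2 * Dl)) := by
      rw [mul_pow, mul_pow 3 (Real.sqrt T) 2, Real.sq_sqrt hT0, ← pow_mul, mul_comm Dl 2, pow_mul,
        mul_pow K₁ (max 1 ‖z‖) 2, mul_pow (K₁ ^ 2), pow_mul (max 1 ‖z‖) 2 Dl]
      norm_num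
    rw [h4, ← mul_assoc]
    refine mul_le_mul_of_nonneg_right ?_ (by positivity)
    have h5 : (9 : ℝ) ≤ 9 ^ M := by
      calc (9 : ℝ) = 9 ^ 1 := (pow_one _).symm
        _ ≤ 9 ^ M := pow_le_pow_right₀ (by norm_num) hM
    have h6 : (K₁ ^ 2) ^ Dl ≤ (K₁ ^ 2) ^ (n * M) :=
      pow_le_pow_right₀ (one_le_pow₀ hK₁) hDl
    calc 9 * T * (K₁ ^ 2) ^ Dl ≤ 9 ^ M * T * (K₁ ^ 2) ^ (n * M) :=
          mul_le_mul (mul_le_mul_of_nonneg_right h5 hT0) h6 (by positivity) (by positivity)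
      _ = T₁ := by
          rw [hT₁, hL₁, hT, mul_pow (9 * (K₁ ^ 2) ^ n), mul_pow 9 ((K₁ ^ 2) ^ n), ← pow_mul,
            ← pow_mul]
          ring
  have hηn : ‖η‖ ^ 2 = ‖F.eval ξ‖ := by rw [← norm_pow, hη]
  have h2η : ‖2 * η‖ ^ 2 = 4 * ‖F.eval ξ‖ := by
    rw [norm_mul, mul_pow, hηn]
    norm_num
  have hρD : 1 ≤ ρ ^ (2 * Dl) := one_le_pow₀ hρ1
  by_cases hcase : δ / C₀ ^ n * ρ ^ n ≤ ‖F.eval ξ‖
  · -- `f ξ` is not small
    have h1 : ‖2 * A.eval ξ‖ ^ 2 ≤ 4 * (T₁ * ρ ^ (2 * Dl)) := by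
      rw [norm_mul, mul_pow]
      have h3 : ‖(2 : ℂ)‖ ^ 2 = 4 := by norm_num
      rw [h3]
      have h4 := hAb ξ
      rw [← hρ] at h4
      exact mul_le_mul_of_nonneg_left h4 (by norm_num)
    have h3 : 4 * (δ / C₀ ^ n) ≤ ‖2 * η‖ ^ 2 / ρ ^ n := by
      rw [h2η, le_div_iff₀ (by positivity)]
      linarith
    have h4 : 4 * L₁ ≤ K * (‖2 * η‖ ^ 2 / ρ ^ n) := by
      have h5 : L₁ * C₀ ^ n / δ * (4 * (δ / C₀ ^ n)) = 4 * L₁ := by
        field_simp
      rw [← h5]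
      exact mul_le_mul hK0 h3 (by positivity) (by linarith)
    have h5 : (4 * L₁) ^ M ≤ (K * (‖2 * η‖ ^ 2 / ρ ^ n)) ^ M :=
      pow_le_pow_left₀ (by positivity) h4 M
    rw [mul_pow K] at h5
    refine h1.trans ?_
    have h7 : (4 : ℝ) ≤ 4 ^ M := by
      calc (4 : ℝ) = 4 ^ 1 := (pow_one _).symm
        _ ≤ 4 ^ M := pow_le_pow_right₀ (by norm_num) hM
    calc 4 * (T₁ * ρ ^ (2 * Dl)) ≤ 4 ^ M * (T₁ * ρ ^ (2 * Dl)) :=
          mul_le_mul_of_nonneg_right h7 (by positivity)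
      _ = (4 * L₁) ^ M * (ρ ^ (2 * Dl) * ‖κ‖ * E) := by
          rw [hT₁, mul_pow 4 L₁]
          ring
      _ ≤ K ^ M * (‖2 * η‖ ^ 2 / ρ ^ n) ^ M * (ρ ^ (2 * Dl) * ‖κ‖ * E) :=
          mul_le_mul_of_nonneg_right h5 (by positivity)
      _ = K ^ M * (‖2 * η‖ ^ 2 / ρ ^ n) ^ M * ρ ^ (2 * Dl) * ‖κ‖ * E := by ring
  · -- `f ξ` is small
    push Not at hcase
    have hξC : ‖ξ‖ ≤ C₀ := by
      by_contra hcon
      push Not at hcon
      have h1 := hlarge ξ hcon.le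
      have h2 : ρ = ‖ξ‖ := by rw [hρ]; exact max_eq_right (by linarith)
      rw [h2] at hcase
      have h3 : ‖ξ ^ n‖ - ‖F.eval ξ‖ ≤ ‖F.eval ξ - ξ ^ n‖ := by
        have := norm_sub_norm_le (ξ ^ n) (F.eval ξ)
        rwa [norm_sub_rev] at this
      rw [norm_pow] at h3
      have h4 : δ / C₀ ^ n ≤ 1 / 2 := by
        rw [div_le_iff₀ (by positivity)]
        nlinarith
      have h5 : 0 ≤ ‖ξ‖ ^ n := by positivity
      nlinarith [mul_le_mul_of_nonneg_right h4 h5]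
    have hρC : ρ ≤ C₀ := by rw [hρ]; exact max_le hC1 hξC
    have hρn : ρ ^ n ≤ C₀ ^ n := pow_le_pow_left₀ (by linarith) hρC n
    have hFδ : ‖F.eval ξ‖ ≤ δ := by
      refine hcase.le.trans ?_
      rw [div_mul_eq_mul_div, div_le_iff₀ (by positivity)]
      exact mul_le_mul_of_nonneg_left hρn hδ0.le
    have hF' := hδ ξ hξC hFδ
    have hη1 : ‖η‖ ≤ 1 := by
      have h1 : ‖η‖ ^ 2 ≤ 1 := by rw [hηn]; linarith
      nlinarith [norm_nonneg η]
    -- `f₁ ξ = f' ξ`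
    have hf₁ξ : f₁.eval ξ = (derivative F).eval ξ := by
      have h1 := congrArg (fun p : ℂ[X] => (derivative p).eval ξ) hf₁
      simpa using h1
    obtain ⟨T₂, hT₂⟩ : ∃ T₂ : ℝ, T₂ = L₂ ^ M * (‖κ‖ * E) := ⟨_, rfl⟩
    have hT₂0 : 0 ≤ T₂ := by
      rw [hT₂]
      have : 0 ≤ L₂ := by linarith
      positivity
    have hAT : ∀ x : ℂ, ‖x‖ = 3 * C₀ → ‖A.eval x‖ ^ 2 ≤ T₂ := by
      intro x hx
      refine (hAb x).trans ?_
      have h1 : max 1 ‖x‖ = 3 * C₀ := by rw [hx]; exact max_eq_right (by linarith)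
      rw [h1, hT₁, hT₂, hL₂, mul_pow L₁, ← pow_mul ((3 * C₀) ^ 2) n M, pow_mul (3 * C₀) 2 Dl]
      have h3 : ((3 * C₀) ^ 2) ^ Dl ≤ ((3 * C₀) ^ 2) ^ (n * M) :=
        pow_le_pow_right₀ (one_le_pow₀ (by linarith)) hDl
      have h4 : 0 ≤ L₁ ^ M * (‖κ‖ * E) := by positivity
      calc L₁ ^ M * (‖κ‖ * E) * ((3 * C₀) ^ 2) ^ Dl
          ≤ L₁ ^ M * (‖κ‖ * E) * ((3 * C₀) ^ 2) ^ (n * M) := mul_le_mul_of_nonneg_left h3 h4
        _ = L₁ ^ M * ((3 * C₀) ^ 2) ^ (n * M) * (‖κ‖ * E) := by ring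
    have hTT : T ≤ T₂ := by
      rw [hT, hT₂]
      have h1 : (2 * R) ^ n ≤ L₂ := by
        refine le_trans ?_ hL₂1
        rw [hL₁]
        refine le_mul_of_one_le_left (by positivity) ?_
        linarith
      have h3 : (2 * R) ^ (n * M) ≤ L₂ ^ M := by
        rw [pow_mul]
        exact pow_le_pow_left₀ (by positivity) h1 M
      calc ‖κ‖ * ((2 * R) ^ (n * M) * E) = (2 * R) ^ (n * M) * (‖κ‖ * E) := by ring
        _ ≤ L₂ ^ M * (‖κ‖ * E) := mul_le_mul_of_nonneg_right h3 (by positivity)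
    obtain ⟨Q, hQ⟩ : ∃ Q : ℝ, Q = K₂ ^ M * (3 * Real.sqrt T₂) := ⟨_, rfl⟩
    have hQ0 : 0 ≤ Q := by rw [hQ]; positivity
    -- the bound on the circle
    have hcirc : ∀ x : ℂ, ‖x‖ = 3 * C₀ → ‖A₁.eval x‖ ≤ Q ∧ ‖B₁.eval x‖ ≤ Q := by
      intro x hx
      have hxR : ‖x‖ ≤ R := by
        rw [hx, hR]
        linarith [norm_nonneg θ]
      have h1 := hlarge x (by rw [hx]; linarith)
      have h2 : ‖x ^ n‖ - ‖F.eval x‖ ≤ ‖F.eval x - x ^ n‖ := by
        have := norm_sub_norm_le (x ^ n) (F.eval x)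
        rwa [norm_sub_rev] at this
      rw [norm_pow, hx] at h2
      rw [hx] at h1
      have h3 : (9 : ℝ) ≤ (3 * C₀) ^ n := by
        calc (9 : ℝ) ≤ 3 * C₀ := by linarith
          _ = (3 * C₀) ^ 1 := (pow_one _).symm
          _ ≤ (3 * C₀) ^ n := pow_le_pow_right₀ (by linarith) hn1
      have h4 : 4 ≤ ‖F.eval x‖ := by linarith
      -- a square root of `F x`
      obtain ⟨y, hy⟩ := IsAlgClosed.exists_pow_nat_eq (F.eval x) (n := 2) (by norm_num)
      have hyn : ‖y‖ ^ 2 = ‖F.eval x‖ := by rw [← norm_pow, hy]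
      have hy2 : 2 ≤ ‖y‖ := by
        by_contra hcon
        push Not at hcon
        nlinarith [norm_nonneg y]
      -- `f₁`
      have hf₁x : ‖f₁.eval x‖ ≤ K₂ := by
        have h5 := congrArg (fun p : ℂ[X] => p.eval x) hf₁
        simp only [eval_mul, eval_sub, eval_X, eval_C] at h5
        have h6 : ‖f₁.eval x‖ * ‖x - ξ‖ ≤ K₂ := by
          rw [← norm_mul, h5]
          refine (norm_sub_le _ _).trans ?_
          rw [hK₂]
          exact add_le_add (hball x hx.le) (by linarith)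
        have h7 : 1 ≤ ‖x - ξ‖ := by
          have := norm_sub_norm_le x ξ
          rw [hx] at this
          linarith
        exact (le_mul_of_one_le_right (norm_nonneg _) h7).trans h6
      -- `A` and `B y`
      have hAx : ‖A.eval x‖ ≤ Real.sqrt T₂ := Real.le_sqrt_of_sq_le (hAT x hx)
      have hBy : ‖B.eval x * y‖ ≤ 2 * Real.sqrt T₂ := by
        have h5 : ‖B.eval x * y‖ ^ 2 ≤ 2 * T₂ := by
          have h6 : (B.eval x * y) ^ 2 = A.eval x ^ 2 -
              (A.eval x ^ 2 - F.eval x * B.eval x ^ 2) := by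
            rw [mul_pow, hy]
            ring
          rw [← norm_pow, h6]
          refine (norm_sub_le _ _).trans ?_
          rw [norm_pow]
          linarith [hAT x hx, hNT x hxR]
        have h7 : ‖B.eval x * y‖ ^ 2 ≤ (2 * Real.sqrt T₂) ^ 2 := by
          rw [mul_pow, Real.sq_sqrt hT₂0]
          linarith
        exact (sq_le_sq₀ (norm_nonneg _) (by positivity)).1 h7
      -- `ψ` at both points over `x`
      have hψb : ∀ y' : ℂ, y' ^ 2 = F.eval x → ‖y'‖ = ‖y‖ → ‖B.eval x * y'‖ = ‖B.eval x * y‖ →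
          ‖A₁.eval x + B₁.eval x * y'‖ ≤ Q := by
        intro y' hy' hyy hby
        have h5 := congrArg (necEv hy') hψ
        rw [map_mul, map_mul, map_pow, map_pow, QuadraticAlgebra.algebraMap_eq, necEv_mk,
          necEv_mk, necEv_mk, necEv_mk] at h5
        simp only [eval_zero, zero_mul, add_zero, eval_neg, eval_C, eval_one, one_mul] at h5
        have h6 : 1 ≤ ‖-η + y'‖ := by
          have := norm_sub_norm_le y' η
          rw [show y' - η = -η + y' by ring, hyy] at this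
          linarith
        have h7 : 1 ≤ ‖-η + y'‖ ^ M := one_le_pow₀ h6
        have h8 : ‖-η + y'‖ ^ M * ‖A₁.eval x + B₁.eval x * y'‖ ≤ Q := by
          rw [← norm_pow, ← norm_mul, ← h5, norm_mul, norm_pow, hQ]
          refine mul_le_mul (pow_le_pow_left₀ (norm_nonneg _) hf₁x M) ?_ (norm_nonneg _)
            (by positivity)
          refine (norm_add_le _ _).trans ?_
          rw [hby]
          linarith
        exact (le_mul_of_one_le_left (norm_nonneg _) h7).trans h8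
      have hp1 := hψb y hy rfl rfl
      have hp2 := hψb (-y) (by rw [neg_pow_two, hy]) (norm_neg y) (by
        rw [mul_neg, norm_neg])
      constructor
      · have h5 : A₁.eval x = ((A₁.eval x + B₁.eval x * y) + (A₁.eval x + B₁.eval x * -y)) / 2 := by
          ring
        rw [h5, norm_div]
        have h6 : ‖(2 : ℂ)‖ = 2 := by norm_num
        rw [h6, div_le_iff₀ (by norm_num)]
        refine (norm_add_le _ _).trans ?_
        linarith
      · have h5 : B₁.eval x * y =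
            ((A₁.eval x + B₁.eval x * y) - (A₁.eval x + B₁.eval x * -y)) / 2 := by
          ring
        have h6 : ‖B₁.eval x * y‖ ≤ Q := by
          rw [h5, norm_div]
          have h6 : ‖(2 : ℂ)‖ = 2 := by norm_num
          rw [h6, div_le_iff₀ (by norm_num)]
          refine (norm_sub_le _ _).trans ?_
          linarith
        rw [norm_mul] at h6
        exact (le_mul_of_one_le_right (norm_nonneg _) (by linarith)).trans h6
    have hA₁ := nec_max (by positivity) (fun x hx => (hcirc x hx).1)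
      (show ‖ξ‖ ≤ 3 * C₀ by linarith)
    have hB₁ := nec_max (by positivity) (fun x hx => (hcirc x hx).2)
      (show ‖ξ‖ ≤ 3 * C₀ by linarith)
    -- evaluate at `(ξ, -η)`
    have h1 := congrArg (necEv (F := F) (x := ξ) (y := -η) (by rw [neg_pow_two, hη])) hψ
    rw [map_mul, map_mul, map_pow, map_pow, QuadraticAlgebra.algebraMap_eq, necEv_mk,
      necEv_mk, necEv_mk, necEv_mk] at h1
    simp only [eval_zero, zero_mul, add_zero, eval_neg, eval_C, eval_one, one_mul] at h1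
    have h2 : A.eval ξ + B.eval ξ * -η = 2 * A.eval ξ := by linear_combination -hAB
    have h3 : -η + -η = -(2 * η) := by ring
    rw [h2, h3, hf₁ξ] at h1
    have h4 : ‖(derivative F).eval ξ‖ ^ M * ‖2 * A.eval ξ‖ ≤ ‖2 * η‖ ^ M * (2 * Q) := by
      rw [← norm_pow, ← norm_mul, h1, norm_mul, norm_pow, norm_neg]
      refine mul_le_mul_of_nonneg_left ?_ (by positivity)
      refine (norm_add_le _ _).trans ?_
      rw [norm_mul, norm_neg]
      have h5 : ‖B₁.eval ξ‖ * ‖η‖ ≤ Q * 1 := mul_le_mul hB₁ hη1 (norm_nonneg _) hQ0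
      linarith
    have h5 : δ ^ M * ‖2 * A.eval ξ‖ ≤ ‖2 * η‖ ^ M * (2 * Q) :=
      (mul_le_mul_of_nonneg_right (pow_le_pow_left₀ hδ0.le hF' M) (norm_nonneg _)).trans h4
    have h6 : (δ ^ M * ‖2 * A.eval ξ‖) ^ 2 ≤ (‖2 * η‖ ^ M * (2 * Q)) ^ 2 :=
      pow_le_pow_left₀ (by positivity) h5 2
    have h7 : (‖2 * η‖ ^ M * (2 * Q)) ^ 2 = (‖2 * η‖ ^ 2) ^ M * (36 * (K₂ ^ 2) ^ M * T₂) := by
      rw [hQ]
      have h8 : Real.sqrt T₂ ^ 2 = T₂ := Real.sq_sqrt hT₂0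
      calc (‖2 * η‖ ^ M * (2 * (K₂ ^ M * (3 * Real.sqrt T₂)))) ^ 2
          = (‖2 * η‖ ^ M) ^ 2 * (36 * (K₂ ^ M) ^ 2 * Real.sqrt T₂ ^ 2) := by ring
        _ = (‖2 * η‖ ^ 2) ^ M * (36 * (K₂ ^ 2) ^ M * T₂) := by
          rw [h8, ← pow_mul, ← pow_mul, ← pow_mul, ← pow_mul, mul_comm M 2]
    rw [h7, mul_pow, ← pow_mul, mul_comm M 2, pow_mul] at h6
    -- compare the constants
    have h8 : (36 : ℝ) ≤ 36 ^ M := by
      calc (36 : ℝ) = 36 ^ 1 := (pow_one _).symm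
        _ ≤ 36 ^ M := pow_le_pow_right₀ (by norm_num) hM
    have h9 : ‖2 * A.eval ξ‖ ^ 2 ≤ (‖2 * η‖ ^ 2) ^ M * (36 ^ M * (K₂ ^ 2) ^ M * T₂) / (δ ^ 2) ^ M := by
      rw [le_div_iff₀ (by positivity), mul_comm]
      refine h6.trans (mul_le_mul_of_nonneg_left ?_ (by positivity))
      exact mul_le_mul_of_nonneg_right (mul_le_mul_of_nonneg_right h8 (by positivity)) hT₂0
    refine h9.trans ?_
    have h10 : K ^ M * (‖2 * η‖ ^ 2 / ρ ^ n) ^ M * ρ ^ (2 * Dl) * ‖κ‖ * E =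
        (‖2 * η‖ ^ 2) ^ M * (36 ^ M * (K₂ ^ 2) ^ M * T₂) / (δ ^ 2) ^ M *
          ((C₀ ^ n) ^ M / (ρ ^ n) ^ M * ρ ^ (2 * Dl)) := by
      rw [hK, hT₂]
      simp only [div_pow, mul_pow]
      ring
    rw [h10]
    refine le_mul_of_one_le_right (by positivity) ?_
    refine one_le_mul_of_one_le_of_one_le ?_ hρD
    rw [one_le_div (by positivity)]
    exact pow_le_pow_left₀ (by positivity) hρn M

end Pool.TTE
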