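import Pool.Agent.Lib.MP_695920_nt.TT.NTPadic

/-! TT, letter G for every degree, part NE1: the local bound at a nonarchimedean place
(dnotes of helper93 and helper26, MP_695920_nt). -/

set_option autoImplicit false

namespace Pool.TT

open Polynomial

variable {L : Type*} [Field L] {v : AbsoluteValue L ℝ}

theorem ne_gaussNorm_le {c t : ℝ} {P : L[X]} (h : ∀ i, v (P.coeff i) * c ^ i ≤ t) :
    P.gaussNorm v c ≤ t := by
  obtain ⟨i, hi⟩ := P.exists_eq_gaussNorm v c
  rw [hi]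
  exact h i

theorem ne_coeff_le (P : L[X]) (i : ℕ) : v (P.coeff i) ≤ P.gaussNorm v 1 := by
  have := P.le_gaussNorm v zero_le_one i
  rwa [one_pow, mul_one] at this

theorem ne_mono_radius {r : ℝ} (hr : 0 ≤ r) (hr1 : r ≤ 1) (P : L[X]) :
    P.gaussNorm v r ≤ P.gaussNorm v 1 := by
  apply ne_gaussNorm_le
  intro i
  calc v (P.coeff i) * r ^ i ≤ v (P.coeff i) * 1 :=
        mul_le_mul_of_nonneg_left (pow_le_one₀ hr hr1) (v.nonneg _)
    _ = v (P.coeff i) := mul_one _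
    _ ≤ _ := ne_coeff_le P i

theorem ne_radius_le {r : ℝ} (hr : 0 < r) (hr1 : r ≤ 1) {P : L[X]} {Δ : ℕ}
    (hP : P.natDegree ≤ Δ) : r ^ Δ * P.gaussNorm v 1 ≤ P.gaussNorm v r := by
  obtain ⟨i, hi⟩ := P.exists_eq_gaussNorm v 1
  rw [hi, one_pow, mul_one]
  by_cases h : i ≤ P.natDegree
  · calc r ^ Δ * v (P.coeff i) ≤ r ^ i * v (P.coeff i) :=
          mul_le_mul_of_nonneg_right (pow_le_pow_of_le_one hr.le hr1 (h.trans hP)) (v.nonneg _)
      _ = v (P.coeff i) * r ^ i := mul_comm _ _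
      _ ≤ _ := P.le_gaussNorm v hr.le i
  · rw [coeff_eq_zero_of_natDegree_lt (not_le.1 h), map_zero, mul_zero]
    exact gaussNorm_nonneg v _ hr.le

theorem ne_big_radius_le {ρ : ℝ} (hρ : 1 ≤ ρ) {P : L[X]} {Δ : ℕ}
    (hP : P.natDegree ≤ Δ) : P.gaussNorm v ρ ≤ ρ ^ Δ * P.gaussNorm v 1 := by
  apply ne_gaussNorm_le
  intro i
  by_cases h : i ≤ P.natDegree
  · calc v (P.coeff i) * ρ ^ i ≤ P.gaussNorm v 1 * ρ ^ Δ := by
          apply mul_le_mul (ne_coeff_le P i) (pow_le_pow_right₀ hρ (h.trans hP)) (by positivity)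
          exact gaussNorm_nonneg v _ zero_le_one
      _ = _ := mul_comm _ _
  · rw [coeff_eq_zero_of_natDegree_lt (not_le.1 h), map_zero, zero_mul]
    have := gaussNorm_nonneg v P (zero_le_one (α := ℝ))
    positivity

theorem ne_sum_le (hna : IsNonarchimedean v) {c : ℝ} (hc : 0 ≤ c) {ι : Type*} (s : Finset ι)
    (P : ι → L[X]) {t : ℝ} (ht : 0 ≤ t) (h : ∀ i ∈ s, (P i).gaussNorm v c ≤ t) :
    (∑ i ∈ s, P i).gaussNorm v c ≤ t := by
  classical
  induction s using Finset.induction_on with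
  | empty => simpa using ht
  | insert j s hj ih =>
    rw [Finset.sum_insert hj]
    refine (isNonarchimedean_gaussNorm v hna hc _ _).trans (max_le ?_ ?_)
    · exact h j (Finset.mem_insert_self _ _)
    · exact ih (fun i hi => h i (Finset.mem_insert_of_mem hi))

theorem ne_taylor_le (hna : IsNonarchimedean v) {θ : L} (hθ : v θ ≤ 1) (P : L[X]) :
    (taylor θ P).gaussNorm v 1 ≤ P.gaussNorm v 1 := by
  have h0 := gaussNorm_nonneg v P (zero_le_one (α := ℝ))
  have hX : (X + C θ : L[X]).gaussNorm v 1 ≤ 1 := by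
    have h := gaussNorm_X_sub_C (v := v) one_pos (-θ)
    have e : (X - C (-θ) : L[X]) = X + C θ := by rw [C_neg, sub_neg_eq_add]
    rw [← e, h, v.map_neg]
    exact max_le le_rfl hθ
  have hX0 := gaussNorm_nonneg v (X + C θ : L[X]) (zero_le_one (α := ℝ))
  rw [taylor_apply, comp_eq_sum_left]
  unfold Polynomial.sum
  apply ne_sum_le hna zero_le_one _ _ h0
  intro i _
  rw [gaussNorm_mul hna one_pos, gaussNorm_C, gaussNorm_pow' hna one_pos]
  calc v (P.coeff i) * (X + C θ : L[X]).gaussNorm v 1 ^ i ≤ P.gaussNorm v 1 * 1 := by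
        apply mul_le_mul (ne_coeff_le P i) (pow_le_one₀ hX0 hX) (by positivity) h0
    _ = _ := mul_one _

theorem ne_taylor_eq (hna : IsNonarchimedean v) {θ : L} (hθ : v θ ≤ 1) (P : L[X]) :
    (taylor θ P).gaussNorm v 1 = P.gaussNorm v 1 := by
  apply le_antisymm (ne_taylor_le hna hθ P)
  have h := ne_taylor_le hna (θ := -θ) (by rwa [v.map_neg]) (taylor θ P)
  rwa [taylor_taylor, neg_add_cancel, taylor_zero] at h

/-- at a root with large derivative the last index is one, for every small radius -/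
theorem ne_last_one (hna : IsNonarchimedean v) {F : L[X]} (hFc : ∀ i, v (F.coeff i) ≤ 1)
    {θ : L} (hθ : v θ ≤ 1) (hroot : F.eval θ = 0) {r : ℝ} (hr : 0 < r)
    (hrF : r < v ((derivative F).eval θ)) : Last v r (taylor θ F) 1 := by
  have hF1 : F.gaussNorm v 1 ≤ 1 := ne_gaussNorm_le (fun i => by
    rw [one_pow, mul_one]; exact hFc i)
  have hc : ∀ i, v ((taylor θ F).coeff i) ≤ 1 := fun i =>
    (ne_coeff_le _ i).trans ((ne_taylor_le hna hθ F).trans hF1)
  have h1 : (taylor θ F).coeff 1 = (derivative F).eval θ := by rw [taylor_coeff_one]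
  have h0 : (taylor θ F).coeff 0 = 0 := by rw [taylor_coeff_zero, hroot]
  have hr1 : r ≤ 1 := hrF.le.trans (by rw [← h1]; exact hc 1)
  have hlt : ∀ j, 1 < j → v ((taylor θ F).coeff j) * r ^ j < v ((taylor θ F).coeff 1) * r ^ 1 := by
    intro j hj
    calc v ((taylor θ F).coeff j) * r ^ j ≤ 1 * r ^ 2 := by
          apply mul_le_mul (hc j) (pow_le_pow_of_le_one hr.le hr1 (by omega)) (by positivity)
            zero_le_one
      _ = r * r := by ring
      _ < v ((derivative F).eval θ) * r := mul_lt_mul_of_pos_right hrF hr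
      _ = _ := by rw [h1, pow_one]
  have hgn : v ((taylor θ F).coeff 1) * r ^ 1 = (taylor θ F).gaussNorm v r := by
    apply le_antisymm ((taylor θ F).le_gaussNorm v hr.le 1)
    apply ne_gaussNorm_le
    intro i
    match i with
    | 0 =>
      rw [h0, map_zero, zero_mul]
      have := v.nonneg ((taylor θ F).coeff 1)
      positivity
    | 1 => exact le_rfl
    | (k + 2) => exact (hlt (k + 2) (by omega)).le
  refine ⟨hgn, fun j hj => ?_⟩
  rw [← hgn]
  exact hlt j hj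

/-- PARITY LEMMA for every degree: `A^2 - F B^2` cannot be small -/
theorem ne_parity (hna : IsNonarchimedean v) {F A B : L[X]} {D θ : L} {Δ : ℕ}
    (hFc : ∀ i, v (F.coeff i) ≤ 1) (hθ : v θ ≤ 1) (hroot : F.eval θ = 0)
    (hD : D ≠ 0) (hD1 : v D ≤ 1) (hDF : v D ≤ v ((derivative F).eval θ))
    (hA : A.natDegree ≤ Δ) :
    (A.gaussNorm v 1) ^ 2 * (v D) ^ (2 * Δ) ≤ (A ^ 2 - F * B ^ 2).gaussNorm v 1 := by
  have hD0 : 0 < v D := v.pos hD
  have key : ∀ r : ℝ, 0 < r → r < v D →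
      (A.gaussNorm v 1) ^ 2 * r ^ (2 * Δ) ≤ (A ^ 2 - F * B ^ 2).gaussNorm v 1 := by
    intro r hr hrD
    have hr1 : r ≤ 1 := hrD.le.trans hD1
    have hstep : ((taylor θ A).gaussNorm v r) ^ 2 ≤ (A ^ 2 - F * B ^ 2).gaussNorm v 1 := by
      have hN : (taylor θ (A ^ 2 - F * B ^ 2)).gaussNorm v r ≤
          (A ^ 2 - F * B ^ 2).gaussNorm v 1 :=
        (ne_mono_radius hr.le hr1 _).trans (ne_taylor_le hna hθ _)
      refine le_trans ?_ hN
      have hNe : taylor θ (A ^ 2 - F * B ^ 2) =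
          (taylor θ A) ^ 2 - (taylor θ F) * (taylor θ B) ^ 2 := by
        rw [map_sub, taylor_pow, taylor_mul, taylor_pow]
      rw [hNe]
      set A' := taylor θ A with hA'
      set B' := taylor θ B with hB'
      have eA : (A' ^ 2).gaussNorm v r = (A'.gaussNorm v r) ^ 2 := gaussNorm_pow' hna hr _ _
      rw [← eA]
      by_cases hA0 : A' = 0
      · rw [hA0]
        have : ((0 : L[X]) ^ 2) = 0 := by ring
        rw [this, gaussNorm_zero]
        exact gaussNorm_nonneg v _ hr.le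
      by_cases hB0 : B' = 0
      · rw [hB0]
        have : A' ^ 2 - taylor θ F * (0 : L[X]) ^ 2 = A' ^ 2 := by ring
        rw [this]
      obtain ⟨i, hi⟩ := exists_last (v := v) hr hA0
      obtain ⟨j, hj⟩ := exists_last (v := v) hr hB0
      have hF1 := ne_last_one hna hFc hθ hroot hr (hrD.trans_le hDF)
      have hF0 : taylor θ F ≠ 0 := by
        intro h
        have h1 : (taylor θ F).coeff 1 = (derivative F).eval θ := by rw [taylor_coeff_one]
        rw [h, coeff_zero] at h1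
        rw [← h1, map_zero] at hDF
        linarith
      have h1 : Last v r (A' ^ 2) (i + i) := by rw [pow_two]; exact hi.mul hna hr hA0 hA0 hi
      have h2 : Last v r (taylor θ F * B' ^ 2) (1 + (j + j)) := by
        rw [pow_two]
        exact hF1.mul hna hr hF0 (mul_ne_zero hB0 hB0) (hj.mul hna hr hB0 hB0 hj)
      have := h1.sub hna hr h2 (by omega)
      exact (le_max_left _ _).trans this
    have hdeg : (taylor θ A).natDegree ≤ Δ := by rw [natDegree_taylor]; exact hA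
    have h3 := ne_radius_le (v := v) hr hr1 hdeg
    rw [ne_taylor_eq hna hθ] at h3
    have h0 := gaussNorm_nonneg v A (zero_le_one (α := ℝ))
    calc (A.gaussNorm v 1) ^ 2 * r ^ (2 * Δ) = (r ^ Δ * A.gaussNorm v 1) ^ 2 := by ring
      _ ≤ ((taylor θ A).gaussNorm v r) ^ 2 :=
          pow_le_pow_left₀ (mul_nonneg (pow_nonneg hr.le _) h0) h3 2
      _ ≤ _ := hstep
  -- let `r` tend to `v D`
  have hcont : Filter.Tendsto (fun r : ℝ => (A.gaussNorm v 1) ^ 2 * r ^ (2 * Δ))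
      (nhdsWithin (v D) (Set.Iio (v D))) (nhds ((A.gaussNorm v 1) ^ 2 * (v D) ^ (2 * Δ))) := by
    have : Continuous (fun r : ℝ => (A.gaussNorm v 1) ^ 2 * r ^ (2 * Δ)) := by fun_prop
    exact (this.tendsto _).mono_left nhdsWithin_le_nhds
  refine le_of_tendsto hcont ?_
  filter_upwards [Ioo_mem_nhdsLT hD0] with r hr
  exact key r hr.1 hr.2

/-- size of `A + B y` -/
noncomputable def nsz (v : AbsoluteValue L ℝ) {F : L[X]} (z : QuadraticAlgebra L[X] F 0) : ℝ :=
  max (z.re.gaussNorm v 1) (z.im.gaussNorm v 1)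

theorem nsz_nonneg {F : L[X]} (z : QuadraticAlgebra L[X] F 0) : 0 ≤ nsz v z :=
  le_max_of_le_left (gaussNorm_nonneg v _ zero_le_one)

theorem nsz_mul_le (hna : IsNonarchimedean v) {F : L[X]} (hFc : ∀ i, v (F.coeff i) ≤ 1) {η : L}
    (hη : v η ≤ 1) (z : QuadraticAlgebra L[X] F 0) :
    nsz v ((⟨C η, 1⟩ : QuadraticAlgebra L[X] F 0) * z) ≤ nsz v z := by
  have hF1 : F.gaussNorm v 1 ≤ 1 := ne_gaussNorm_le (fun i => by
    rw [one_pow, mul_one]; exact hFc i)
  have hη1 : (C η : L[X]).gaussNorm v 1 ≤ 1 := by rw [gaussNorm_C]; exact hη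
  have hre := gaussNorm_nonneg v z.re (zero_le_one (α := ℝ))
  have him := gaussNorm_nonneg v z.im (zero_le_one (α := ℝ))
  have hCη := gaussNorm_nonneg v (C η : L[X]) (zero_le_one (α := ℝ))
  have hFn := gaussNorm_nonneg v F (zero_le_one (α := ℝ))
  have h1 : (C η * z.re).gaussNorm v 1 ≤ nsz v z := by
    rw [gaussNorm_mul hna one_pos]
    calc _ ≤ 1 * z.re.gaussNorm v 1 := mul_le_mul_of_nonneg_right hη1 hre
      _ ≤ _ := by rw [one_mul]; exact le_max_left _ _
  have h2 : (F * z.im).gaussNorm v 1 ≤ nsz v z := by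
    rw [gaussNorm_mul hna one_pos]
    calc _ ≤ 1 * z.im.gaussNorm v 1 := mul_le_mul_of_nonneg_right hF1 him
      _ ≤ _ := by rw [one_mul]; exact le_max_right _ _
  have h3 : (C η * z.im).gaussNorm v 1 ≤ nsz v z := by
    rw [gaussNorm_mul hna one_pos]
    calc _ ≤ 1 * z.im.gaussNorm v 1 := mul_le_mul_of_nonneg_right hη1 him
      _ ≤ _ := by rw [one_mul]; exact le_max_right _ _
  have h4 : z.re.gaussNorm v 1 ≤ nsz v z := le_max_left _ _
  unfold nsz at *
  apply max_le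
  · have e : ((⟨C η, 1⟩ : QuadraticAlgebra L[X] F 0) * z).re = C η * z.re + F * z.im := by
      simp only [QuadraticAlgebra.re_mul]
      ring
    rw [e]
    exact (isNonarchimedean_gaussNorm v hna zero_le_one _ _).trans (max_le h1 h2)
  · have e : ((⟨C η, 1⟩ : QuadraticAlgebra L[X] F 0) * z).im = C η * z.im + z.re := by
      simp only [QuadraticAlgebra.im_mul]
      ring
    rw [e]
    exact (isNonarchimedean_gaussNorm v hna zero_le_one _ _).trans (max_le h3 h4)

theorem nsz_pow_mul_le (hna : IsNonarchimedean v) {F : L[X]} (hFc : ∀ i, v (F.coeff i) ≤ 1) {η : L}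
    (hη : v η ≤ 1) (M : ℕ) (z : QuadraticAlgebra L[X] F 0) :
    nsz v ((⟨C η, 1⟩ : QuadraticAlgebra L[X] F 0) ^ M * z) ≤ nsz v z := by
  induction M with
  | zero => rw [pow_zero, one_mul]
  | succ M ih =>
    rw [pow_succ', mul_assoc]
    exact (nsz_mul_le hna hFc hη _).trans ih

theorem nsz_lin (hna : IsNonarchimedean v) {F : L[X]} {ξ : L} (hξ : v ξ ≤ 1) (M : ℕ)
    (z : QuadraticAlgebra L[X] F 0) :
    nsz v ((algebraMap L[X] (QuadraticAlgebra L[X] F 0) (X - C ξ)) ^ M * z) = nsz v z := by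
  have h1 : ((X - C ξ : L[X]) ^ M).gaussNorm v 1 = 1 := by
    rw [gaussNorm_pow' hna one_pos, gaussNorm_X_sub_C one_pos, max_eq_left hξ, one_pow]
  rw [← map_pow, QuadraticAlgebra.algebraMap_eq]
  unfold nsz
  have e1 : ((⟨(X - C ξ) ^ M, 0⟩ : QuadraticAlgebra L[X] F 0) * z).re = (X - C ξ) ^ M * z.re := by
    simp
  have e2 : ((⟨(X - C ξ) ^ M, 0⟩ : QuadraticAlgebra L[X] F 0) * z).im = (X - C ξ) ^ M * z.im := by
    simp
  rw [e1, e2, gaussNorm_mul hna one_pos, gaussNorm_mul hna one_pos, h1, one_mul, one_mul]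

theorem cancel_alg {F p : L[X]} (hp : p ≠ 0) {z w : QuadraticAlgebra L[X] F 0}
    (h : algebraMap L[X] (QuadraticAlgebra L[X] F 0) p * z =
      algebraMap L[X] (QuadraticAlgebra L[X] F 0) p * w) : z = w := by
  rw [QuadraticAlgebra.algebraMap_eq] at h
  ext1
  · have h2 := congrArg QuadraticAlgebra.re h
    rw [QuadraticAlgebra.re_mul, QuadraticAlgebra.re_mul] at h2
    simp only [mul_zero, zero_mul, add_zero] at h2
    exact mul_left_cancel₀ hp h2
  · have h2 := congrArg QuadraticAlgebra.im h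
    rw [QuadraticAlgebra.im_mul, QuadraticAlgebra.im_mul] at h2
    simp only [mul_zero, zero_mul, add_zero] at h2
    exact mul_left_cancel₀ hp h2

/-- the second relation of `psi` -/
theorem psi_second {F f1 : L[X]} {ξ η : L} (hη : η ^ 2 = F.eval ξ)
    (hf1 : f1 * (X - C ξ) = F - C (F.eval ξ)) (hf10 : f1 ≠ 0) (M : ℕ)
    (z ψ : QuadraticAlgebra L[X] F 0)
    (hpsi : (algebraMap L[X] (QuadraticAlgebra L[X] F 0) f1) ^ M * z = ⟨-C η, 1⟩ ^ M * ψ) :
    (algebraMap L[X] (QuadraticAlgebra L[X] F 0) (X - C ξ)) ^ M * ψ =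
      (⟨C η, 1⟩ : QuadraticAlgebra L[X] F 0) ^ M * z := by
  have hb : (⟨-C η, 1⟩ : QuadraticAlgebra L[X] F 0) * ⟨C η, 1⟩ =
      algebraMap L[X] (QuadraticAlgebra L[X] F 0) f1 *
        algebraMap L[X] (QuadraticAlgebra L[X] F 0) (X - C ξ) := by
    rw [← map_mul, hf1, QuadraticAlgebra.algebraMap_eq]
    ext1
    · simp only [QuadraticAlgebra.re_mul]
      rw [← hη, C_pow]
      ring
    · simp only [QuadraticAlgebra.im_mul]
      ring
  have h1 : (algebraMap L[X] (QuadraticAlgebra L[X] F 0) f1) ^ M *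
      ((algebraMap L[X] (QuadraticAlgebra L[X] F 0) (X - C ξ)) ^ M * ψ) =
      (algebraMap L[X] (QuadraticAlgebra L[X] F 0) f1) ^ M *
      ((⟨C η, 1⟩ : QuadraticAlgebra L[X] F 0) ^ M * z) := by
    calc _ = ((algebraMap L[X] (QuadraticAlgebra L[X] F 0) f1) *
          (algebraMap L[X] (QuadraticAlgebra L[X] F 0) (X - C ξ))) ^ M * ψ := by
          rw [mul_pow, mul_assoc]
      _ = (⟨C η, 1⟩ : QuadraticAlgebra L[X] F 0) ^ M * (⟨-C η, 1⟩ ^ M * ψ) := by
          rw [← hb, mul_pow]; ring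
      _ = _ := by rw [← hpsi]; ring
  rw [← map_pow _ f1 M] at h1
  exact cancel_alg (pow_ne_zero _ hf10) h1

/-- the local bound at a nonarchimedean place, every degree -/
theorem padic_bound_all (hna : IsNonarchimedean v) {F a b : L[X]} {D θ : L} (hF : F.Monic)
    (hFc : ∀ i, v (F.coeff i) ≤ 1) (ha : ∀ i, v (a.coeff i) ≤ 1)
    (hb : ∀ i, v (b.coeff i) ≤ 1) (hD : D ≠ 0) (hD1 : v D ≤ 1) (h2 : (2 : L) ≠ 0)
    (h21 : v 2 ≤ 1) (hroot : F.eval θ = 0)
    (hab : a * F + b * derivative F = C D) (M Δ : ℕ) (Z : Multiset L) (A B : L[X]) (κ : L)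
    (hN : A ^ 2 - F * B ^ 2 = C κ * (Z.map (fun z => X - C z)).prod)
    (hA : A.natDegree ≤ Δ)
    (A1 B1 f1 : L[X]) (ξ η : L) (hη : η ^ 2 = F.eval ξ)
    (h0 : A.eval ξ + B.eval ξ * η = 0)
    (hf1 : f1 * (X - C ξ) = F - C (F.eval ξ))
    (hpsi : (algebraMap L[X] (QuadraticAlgebra L[X] F 0) f1) ^ M * ⟨A, B⟩ =
      ⟨-C η, 1⟩ ^ M * ⟨A1, B1⟩) :
    (v (2 * A.eval ξ)) ^ 2 * (v D) ^ (2 * Δ) ≤ ((v (4 * D ^ 2))⁻¹) ^ M *
      ((v (2 * η)) ^ 2 / (max 1 (v ξ)) ^ F.natDegree) ^ M * (max 1 (v ξ)) ^ (2 * Δ) *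
      (v κ * (Z.map (fun z => max 1 (v z))).prod) := by
  set ρ := max 1 (v ξ) with hρ
  have hρ1 : (1 : ℝ) ≤ ρ := le_max_left _ _
  have hρ0 : (0 : ℝ) < ρ := by linarith
  have hE : (A ^ 2 - F * B ^ 2).gaussNorm v 1 =
      v κ * (Z.map (fun z => max 1 (v z))).prod := by
    rw [hN, gaussNorm_mul hna one_pos, gaussNorm_C, gaussNorm_prod hna one_pos]
  rw [← hE]
  set E := (A ^ 2 - F * B ^ 2).gaussNorm v 1 with hEdef
  have hE0 : 0 ≤ E := gaussNorm_nonneg v _ zero_le_one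
  have hη' : (-η) ^ 2 = F.eval ξ := by rw [neg_sq]; exact hη
  have h2A : A.eval ξ + B.eval ξ * (-η) = 2 * A.eval ξ := by linear_combination -h0
  have hvD : 0 < v D := v.pos hD
  have h4 : v (4 * D ^ 2) = (v 2) ^ 2 * (v D) ^ 2 := by
    rw [show (4 : L) = 2 ^ 2 by norm_num, map_mul, map_pow, map_pow]
  have hv2 : 0 < v 2 := v.pos h2
  have hF1 : F.gaussNorm v 1 ≤ 1 := ne_gaussNorm_le (fun i => by
    rw [one_pow, mul_one]; exact hFc i)
  have evle : ∀ (P : L[X]) (x : L), v x ≤ 1 → (∀ i, v (P.coeff i) ≤ 1) → v (P.eval x) ≤ 1 := by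
    intro P x hx hP
    exact (eval_le_gaussNorm hna one_pos P hx).trans (ne_gaussNorm_le (fun i => by
      rw [one_pow, mul_one]; exact hP i))
  have hθ : v θ ≤ 1 := by
    by_contra hgt
    rw [not_le] at hgt
    have h := eval_big hna hF hFc hgt
    rw [hroot, map_zero] at h
    have : 0 < v θ ^ F.natDegree := pow_pos (by linarith) _
    linarith
  have hDF : v D ≤ v ((derivative F).eval θ) := by
    have h := congrArg (eval θ) hab
    rw [eval_C, eval_add, eval_mul, eval_mul, hroot, mul_zero, zero_add] at h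
    rw [← h, map_mul]
    calc v (b.eval θ) * v ((derivative F).eval θ) ≤ 1 * v ((derivative F).eval θ) :=
          mul_le_mul_of_nonneg_right (evle b θ hθ hb) (v.nonneg _)
      _ = _ := one_mul _
  have hDΔ0 : 0 ≤ (v D) ^ (2 * Δ) := pow_nonneg hvD.le _
  have hpar := ne_parity hna (B := B) hFc hθ hroot hD hD1 hDF hA
  rw [← hEdef] at hpar
  by_cases hcase : v (F.eval ξ) < v D
  · have hξ1 : v ξ ≤ 1 := by
      by_contra hgt
      rw [not_le] at hgt
      have := eval_big hna hF hFc hgt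
      have h1 : (1 : ℝ) ≤ (v ξ) ^ F.natDegree := one_le_pow₀ hgt.le
      linarith
    have hρe : ρ = 1 := by rw [hρ]; exact max_eq_left hξ1
    have hη1 : v η ≤ 1 := by
      have h1 : (v η) ^ 2 ≤ 1 := by
        rw [← map_pow, hη]
        exact hcase.le.trans hD1
      exact (pow_le_one_iff_of_nonneg (v.nonneg _) two_ne_zero).1 h1
    have hder : derivative F = derivative f1 * (X - C ξ) + f1 := by
      have h := congrArg derivative hf1
      rw [derivative_sub, derivative_C, sub_zero, derivative_mul, derivative_sub, derivative_X,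
        derivative_C, sub_zero, mul_one] at h
      exact h.symm
    have hf1ξ : (derivative F).eval ξ = f1.eval ξ := by
      rw [hder]; simp
    have hDle : v D ≤ v (f1.eval ξ) := by
      have h := congrArg (eval ξ) hab
      rw [eval_C, eval_add, eval_mul, eval_mul, hf1ξ] at h
      have h3 := hna (a.eval ξ * F.eval ξ) (b.eval ξ * f1.eval ξ)
      rw [h] at h3
      rcases le_max_iff.1 h3 with h4 | h4
      · exfalso
        rw [map_mul] at h4
        have h5 : v (a.eval ξ) * v (F.eval ξ) ≤ 1 * v (F.eval ξ) :=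
          mul_le_mul_of_nonneg_right (evle a ξ hξ1 ha) (v.nonneg _)
        linarith
      · rw [map_mul] at h4
        have h5 : v (b.eval ξ) * v (f1.eval ξ) ≤ 1 * v (f1.eval ξ) :=
          mul_le_mul_of_nonneg_right (evle b ξ hξ1 hb) (v.nonneg _)
        linarith
    have hf10 : f1 ≠ 0 := by
      intro h
      rw [h, eval_zero, map_zero] at hDle
      linarith
    have hev := congrArg (evalAt (K := L) ξ (-η) (by rw [hη']; simp)) hpsi
    rw [map_mul, map_mul, map_pow, map_pow] at hev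
    simp only [evalAt_apply, QuadraticAlgebra.algebraMap_re, QuadraticAlgebra.algebraMap_im,
      map_zero, zero_mul, add_zero, map_neg, aeval_C, map_one, one_mul,
      Algebra.algebraMap_self, RingHom.id_apply, coe_aeval_eq_eval] at hev
    rw [h2A] at hev
    -- size of psi
    have hsec := psi_second hη hf1 hf10 M ⟨A, B⟩ ⟨A1, B1⟩ hpsi
    have hsz : nsz v (⟨A1, B1⟩ : QuadraticAlgebra L[X] F 0) ≤
        nsz v (⟨A, B⟩ : QuadraticAlgebra L[X] F 0) := by
      rw [← nsz_lin hna hξ1 M (⟨A1, B1⟩ : QuadraticAlgebra L[X] F 0), hsec]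
      exact nsz_pow_mul_le hna hFc hη1 M _
    have hA0 := gaussNorm_nonneg v A (zero_le_one (α := ℝ))
    have hB0 := gaussNorm_nonneg v B (zero_le_one (α := ℝ))
    have hDΔ1 : (v D) ^ (2 * Δ) ≤ 1 := pow_le_one₀ hvD.le hD1
    have hBpar : (B.gaussNorm v 1) ^ 2 * (v D) ^ (2 * Δ) ≤ E := by
      have hFB : (F * B ^ 2).gaussNorm v 1 ≤ max ((A.gaussNorm v 1) ^ 2) E := by
        have e : F * B ^ 2 = A ^ 2 + (-(A ^ 2 - F * B ^ 2)) := by ring
        rw [e]
        refine (isNonarchimedean_gaussNorm v hna zero_le_one _ _).trans (max_le_max ?_ ?_)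
        · rw [gaussNorm_pow' hna one_pos]
        · rw [gaussNorm_neg' hna one_pos]
      have hFge : 1 ≤ F.gaussNorm v 1 := by
        have := ne_coeff_le (v := v) F F.natDegree
        rwa [hF.coeff_natDegree, map_one] at this
      rw [gaussNorm_mul hna one_pos, gaussNorm_pow' hna one_pos] at hFB
      have h5 : (B.gaussNorm v 1) ^ 2 ≤ max ((A.gaussNorm v 1) ^ 2) E := by
        calc (B.gaussNorm v 1) ^ 2 = 1 * (B.gaussNorm v 1) ^ 2 := (one_mul _).symm
          _ ≤ F.gaussNorm v 1 * (B.gaussNorm v 1) ^ 2 :=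
              mul_le_mul_of_nonneg_right hFge (sq_nonneg _)
          _ ≤ _ := hFB
      rcases le_max_iff.1 h5 with h6 | h6
      · exact (mul_le_mul_of_nonneg_right h6 hDΔ0).trans hpar
      · calc (B.gaussNorm v 1) ^ 2 * (v D) ^ (2 * Δ) ≤ E * 1 :=
              mul_le_mul h6 hDΔ1 hDΔ0 hE0
          _ = E := mul_one _
    have hsz2 : (nsz v (⟨A, B⟩ : QuadraticAlgebra L[X] F 0)) ^ 2 * (v D) ^ (2 * Δ) ≤ E := by
      unfold nsz
      rcases max_choice (A.gaussNorm v 1) (B.gaussNorm v 1) with h | h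
      · rw [h]; exact hpar
      · rw [h]; exact hBpar
    have hpt : v (A1.eval ξ + B1.eval ξ * -η) ≤ nsz v (⟨A1, B1⟩ : QuadraticAlgebra L[X] F 0) := by
      refine (hna _ _).trans (max_le ?_ ?_)
      · exact (eval_le_gaussNorm hna one_pos A1 hξ1).trans (le_max_left _ _)
      · rw [map_mul, v.map_neg]
        calc v (B1.eval ξ) * v η ≤ v (B1.eval ξ) * 1 :=
              mul_le_mul_of_nonneg_left hη1 (v.nonneg _)
          _ = v (B1.eval ξ) := mul_one _
          _ ≤ _ := (eval_le_gaussNorm hna one_pos B1 hξ1).trans (le_max_right _ _)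
    have hpt2 : (v (A1.eval ξ + B1.eval ξ * -η)) ^ 2 * (v D) ^ (2 * Δ) ≤ E := by
      have h7 : (v (A1.eval ξ + B1.eval ξ * -η)) ^ 2 ≤
          (nsz v (⟨A, B⟩ : QuadraticAlgebra L[X] F 0)) ^ 2 :=
        pow_le_pow_left₀ (v.nonneg _) (hpt.trans hsz) 2
      exact (mul_le_mul_of_nonneg_right h7 hDΔ0).trans hsz2
    have hfin : (v (f1.eval ξ)) ^ (2 * M) * ((v (2 * A.eval ξ)) ^ 2 * (v D) ^ (2 * Δ)) ≤
        (v (2 * η)) ^ (2 * M) * E := by
      have h : v (f1.eval ξ) ^ M * v (2 * A.eval ξ) =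
          v (-η + -η) ^ M * v (A1.eval ξ + B1.eval ξ * -η) := by
        rw [← map_pow, ← map_mul, hev, map_mul, map_pow]
      have e1 : v (-η + -η) = v (2 * η) := by
        rw [show -η + -η = -(2 * η) by ring, v.map_neg]
      rw [e1] at h
      calc (v (f1.eval ξ)) ^ (2 * M) * ((v (2 * A.eval ξ)) ^ 2 * (v D) ^ (2 * Δ))
          = (v (f1.eval ξ) ^ M * v (2 * A.eval ξ)) ^ 2 * (v D) ^ (2 * Δ) := by ring
        _ = (v (2 * η)) ^ (2 * M) *
            ((v (A1.eval ξ + B1.eval ξ * -η)) ^ 2 * (v D) ^ (2 * Δ)) := by rw [h]; ring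
        _ ≤ _ := mul_le_mul_of_nonneg_left hpt2 (pow_nonneg (v.nonneg _) _)
    rw [hρe, one_pow, div_one, one_pow, mul_one, h4]
    have hDM : (v D) ^ (2 * M) ≤ (v (f1.eval ξ)) ^ (2 * M) := pow_le_pow_left₀ hvD.le hDle _
    set Y := (v (2 * A.eval ξ)) ^ 2 * (v D) ^ (2 * Δ) with hY
    have hY0 : 0 ≤ Y := mul_nonneg (pow_nonneg (v.nonneg _) _) hDΔ0
    have h6 : (v D) ^ (2 * M) * Y ≤ (v (2 * η)) ^ (2 * M) * E :=
      (mul_le_mul_of_nonneg_right hDM hY0).trans hfin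
    have h7 : (v 2) ^ (2 * M) ≤ 1 := pow_le_one₀ hv2.le h21
    have e5 : (((v 2) ^ 2 * (v D) ^ 2)⁻¹) ^ M * ((v (2 * η)) ^ 2) ^ M * E =
        ((v (2 * η)) ^ (2 * M) * E) / ((v 2) ^ (2 * M) * (v D) ^ (2 * M)) := by
      rw [inv_pow, mul_pow, ← pow_mul, ← pow_mul, ← pow_mul]; field_simp
 
    rw [e5, le_div_iff₀ (mul_pos (pow_pos hv2 _) (pow_pos hvD _))]
    calc Y * ((v 2) ^ (2 * M) * (v D) ^ (2 * M))
        = (v 2) ^ (2 * M) * ((v D) ^ (2 * M) * Y) := by ring
      _ ≤ 1 * ((v D) ^ (2 * M) * Y) :=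
          mul_le_mul_of_nonneg_right h7 (mul_nonneg (pow_nonneg hvD.le _) hY0)
      _ ≤ _ := by rw [one_mul]; exact h6
  · rw [not_lt] at hcase
    have hA1 : v (A.eval ξ) ≤ ρ ^ Δ * A.gaussNorm v 1 :=
      (eval_le_gaussNorm hna hρ0 A (le_max_right _ _)).trans (ne_big_radius_le hρ1 hA)
    have h2A1 : v (2 * A.eval ξ) ≤ ρ ^ Δ * A.gaussNorm v 1 := by
      rw [map_mul]
      calc v 2 * v (A.eval ξ) ≤ 1 * v (A.eval ξ) := mul_le_mul_of_nonneg_right h21 (v.nonneg _)
        _ ≤ _ := by rw [one_mul]; exact hA1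
    have hY : (v (2 * A.eval ξ)) ^ 2 * (v D) ^ (2 * Δ) ≤ ρ ^ (2 * Δ) * E := by
      calc (v (2 * A.eval ξ)) ^ 2 * (v D) ^ (2 * Δ)
          ≤ (ρ ^ Δ * A.gaussNorm v 1) ^ 2 * (v D) ^ (2 * Δ) :=
            mul_le_mul_of_nonneg_right (pow_le_pow_left₀ (v.nonneg _) h2A1 2) hDΔ0
        _ = ρ ^ (2 * Δ) * ((A.gaussNorm v 1) ^ 2 * (v D) ^ (2 * Δ)) := by ring
        _ ≤ _ := mul_le_mul_of_nonneg_left hpar (pow_nonneg hρ0.le _)
    refine hY.trans ?_
    have hbig : v D * ρ ^ F.natDegree ≤ v (F.eval ξ) := by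
      by_cases hξ1 : v ξ ≤ 1
      · rw [hρ, max_eq_left hξ1, one_pow, mul_one]; exact hcase
      · rw [not_le] at hξ1
        rw [eval_big hna hF hFc hξ1, hρ, max_eq_right hξ1.le]
        calc v D * v ξ ^ F.natDegree ≤ 1 * v ξ ^ F.natDegree :=
              mul_le_mul_of_nonneg_right hD1 (pow_nonneg (v.nonneg _) _)
          _ = _ := one_mul _
    have hfac : 1 ≤ (v (4 * D ^ 2))⁻¹ * ((v (2 * η)) ^ 2 / ρ ^ F.natDegree) := by
      rw [h4, map_mul, mul_pow, ← map_pow v η, hη]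
      have e : ((v 2) ^ 2 * (v D) ^ 2)⁻¹ * ((v 2) ^ 2 * v (F.eval ξ) / ρ ^ F.natDegree) =
          v (F.eval ξ) / ((v D) ^ 2 * ρ ^ F.natDegree) := by
        field_simp
      rw [e, le_div_iff₀ (mul_pos (pow_pos hvD 2) (pow_pos hρ0 _)), one_mul]
      calc v D ^ 2 * ρ ^ F.natDegree = v D * (v D * ρ ^ F.natDegree) := by ring
        _ ≤ 1 * (v D * ρ ^ F.natDegree) :=
            mul_le_mul_of_nonneg_right hD1 (mul_nonneg hvD.le (pow_nonneg hρ0.le _))
        _ ≤ _ := by rw [one_mul]; exact hbig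
    rw [← mul_pow, mul_assoc]
    calc ρ ^ (2 * Δ) * E = 1 * (ρ ^ (2 * Δ) * E) := (one_mul _).symm
      _ ≤ _ := mul_le_mul_of_nonneg_right (one_le_pow₀ hfac)
          (mul_nonneg (pow_nonneg hρ0.le _) hE0)

end Pool.TT
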