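import Pool.Agent.Lib.MP_695920_nt.TT.NTLoc
import Pool.Agent.Lib.MP_695920_nt.TT.Even.NEPadic

/-! TT, letter G for every degree, part NE4a: near-torsion data, evaluation at the roots of `w`,
the function `psi`, products of the local bounds (dnotes of helper93 and helper26). -/

set_option autoImplicit false

namespace Pool.TT

open Polynomial

/-- near-torsion data over `ℚ` for a monic integer polynomial `f0` of any degree -/
structure NEData {ι : Type*} [Fintype ι] (f0 : ℤ[X]) (x : ι → ℤ) (w : ℚ[X]) where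
  v : ℚ[X]
  M : ℕ
  a : ι → ℕ
  V : ι → ℚ[X]
  φ : Crd (f0.map (Int.castRingHom ℚ))
  κ : ℚ
  hw : w.Monic
  hdeg : 2 * w.natDegree < f0.natDegree
  hdvd : w ∣ f0.map (Int.castRingHom ℚ) - v ^ 2
  hM : 0 < M
  ha : 2 * ∑ i, a i ≤ M
  hκ : κ ≠ 0
  hspan : Ideal.span {φ} =
    pt (f0.map (Int.castRingHom ℚ)) w v ^ M *
      ∏ i, pt (f0.map (Int.castRingHom ℚ)) (X - C (x i : ℚ)) (V i) ^ a i
  hnorm : φ.norm = C κ * (w ^ M * ∏ i, (X - C (x i : ℚ)) ^ a i)
  hre : 4 * φ.re.natDegree + 2 * (w.natDegree * M) + M ≤ 2 * (f0.natDegree * M)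

/-- the standing hypotheses on `f0` -/
structure NEHyp (f0 : ℤ[X]) : Prop where
  monic : f0.Monic
  irr : Irreducible (f0.map (Int.castRingHom ℚ))
  two : 2 ≤ f0.natDegree

variable {ι : Type*} [Fintype ι] {f0 : ℤ[X]} {x : ι → ℤ} {w : ℚ[X]}

theorem ne_natDegree_map {L : Type*} [Field L] (H : NEHyp f0) (al : ℤ →+* L) :
    (f0.map al).natDegree = f0.natDegree := H.monic.natDegree_map _

theorem ne_aeval_f_ne_zero (H : NEHyp f0) {L : Type*} [Field L] [Algebra ℚ L]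
    (hw : w.Monic) (hdeg : 2 * w.natDegree < f0.natDegree) {ξ : L}
    (hξ : aeval ξ w = 0) : aeval ξ (f0.map (Int.castRingHom ℚ)) ≠ 0 := by
  intro h
  have h1 : f0.map (Int.castRingHom ℚ) = minpoly ℚ ξ :=
    minpoly.eq_of_irreducible_of_monic H.irr h (H.monic.map _)
  have h2 : f0.map (Int.castRingHom ℚ) ∣ w := by rw [h1]; exact minpoly.dvd ℚ ξ hξ
  have h3 := natDegree_le_of_dvd h2 hw.ne_zero
  rw [ne_natDegree_map H] at h3
  omega

section Data

variable (H : NEHyp f0) (d : NEData f0 x w) {L : Type*} [Field L] [Algebra ℚ L]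

theorem NEData.eta_sq {ξ : L} (hξ : aeval ξ w = 0) :
    (aeval ξ d.v) ^ 2 = aeval ξ (f0.map (Int.castRingHom ℚ)) := by
  obtain ⟨c, hc⟩ := d.hdvd
  have h := congrArg (aeval ξ) hc
  rw [map_sub, map_pow, map_mul, hξ, zero_mul, sub_eq_zero] at h
  exact h.symm

include H in
theorem NEData.eta_ne {ξ : L} (hξ : aeval ξ w = 0) : aeval ξ d.v ≠ 0 := by
  intro h
  have h1 := d.eta_sq hξ
  rw [h] at h1
  exact ne_aeval_f_ne_zero H d.hw d.hdeg hξ (by rw [← h1]; ring)

theorem NEData.mem : d.φ ∈ pt (f0.map (Int.castRingHom ℚ)) w d.v ^ d.M := by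
  have h : Ideal.span {d.φ} ≤ pt (f0.map (Int.castRingHom ℚ)) w d.v ^ d.M := by
    rw [d.hspan]
    exact Ideal.mul_le_left (R := Crd (f0.map (Int.castRingHom ℚ)))
  exact (Ideal.span_singleton_le_iff_mem _).1 h

theorem NEData.eval_eq {ξ : L} (hξ : aeval ξ w = 0) :
    aeval ξ d.φ.re + aeval ξ d.φ.im * aeval ξ d.v = 0 := by
  have h1 := Ideal.pow_le_self d.hM.ne' d.mem
  have h2 := nt_pt_le_ker (d.eta_sq hξ) hξ rfl h1
  rwa [RingHom.mem_ker, evalAt_apply] at h2

include H in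
theorem NEData.re_ne [CharZero L] {ξ : L} (hξ : aeval ξ w = 0) (hx : ∀ i, ξ ≠ (x i : L)) :
    aeval ξ d.φ.re ≠ 0 := by
  intro h0
  have h1 := d.eval_eq hξ
  have hη := d.eta_ne H hξ
  rw [h0, zero_add] at h1
  have h2 : aeval ξ d.φ.im = 0 := by
    rcases mul_eq_zero.1 h1 with h | h
    · exact h
    · exact absurd h hη
  have hsq : (-(aeval ξ d.v)) ^ 2 = aeval ξ (f0.map (Int.castRingHom ℚ)) := by
    rw [neg_sq]; exact d.eta_sq hξ
  have hprime : (RingHom.ker (evalAt ξ (-(aeval ξ d.v)) hsq)).IsPrime := RingHom.ker_isPrime _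
  have hmem : Ideal.span {d.φ} ≤ RingHom.ker (evalAt ξ (-(aeval ξ d.v)) hsq) := by
    rw [Ideal.span_singleton_le_iff_mem, RingHom.mem_ker, evalAt_apply, h0, h2]
    ring
  rw [d.hspan, hprime.mul_le] at hmem
  rcases hmem with h | h
  · have h3 := (nt_pt_le_ker_iff hsq (hprime.le_of_pow_le h)).2
    apply hη
    have h4 : (2 : L) * aeval ξ d.v = 0 := by linear_combination h3
    rcases mul_eq_zero.1 h4 with h5 | h5
    · exact absurd h5 two_ne_zero
    · exact h5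
  · rw [hprime.prod_le] at h
    obtain ⟨i, _, hi⟩ := h
    have h3 := (nt_pt_le_ker_iff hsq (hprime.le_of_pow_le hi)).1
    apply hx i
    simpa [sub_eq_zero] using h3

/-- the function `psi` -/
theorem NEData.exists_psi {ξ : L} (hξ : aeval ξ w = 0) (f1 : L[X])
    (hf1 : f1 * (X - C ξ) = (f0.map (Int.castRingHom ℚ)).map (algebraMap ℚ L) -
      C (((f0.map (Int.castRingHom ℚ)).map (algebraMap ℚ L)).eval ξ)) :
    ∃ A1 B1 : L[X],
      (algebraMap L[X] (QuadraticAlgebra L[X]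
        ((f0.map (Int.castRingHom ℚ)).map (algebraMap ℚ L)) 0) f1) ^ d.M *
        ⟨d.φ.re.map (algebraMap ℚ L), d.φ.im.map (algebraMap ℚ L)⟩ =
      ⟨-C (aeval ξ d.v), 1⟩ ^ d.M * ⟨A1, B1⟩ := by
  set f := f0.map (Int.castRingHom ℚ) with hf
  set F := f.map (algebraMap ℚ L) with hF
  set al := algebraMap ℚ L with hal
  set b : QuadraticAlgebra L[X] F 0 := ⟨-C (aeval ξ d.v), 1⟩ with hb
  set g : QuadraticAlgebra L[X] F 0 := algebraMap L[X] (QuadraticAlgebra L[X] F 0) f1 with hg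
  set I := Ideal.map (mapCrd al f) (pt f w d.v) with hI
  -- `f_1 (x - ξ) = (y - η)(y + η)`
  have hb2 : b * ⟨C (aeval ξ d.v), 1⟩ = g * ⟨X - C ξ, 0⟩ := by
    have e : F.eval ξ = (aeval ξ d.v) ^ 2 := by
      rw [d.eta_sq hξ, hF, eval_map_algebraMap]
    rw [hg, QuadraticAlgebra.algebraMap_eq, hb]
    ext1
    · simp only [QuadraticAlgebra.re_mul]
      rw [hf1, e, C_pow]
      ring
    · simp only [QuadraticAlgebra.im_mul]
      ring
  have hkey : Ideal.span {g} * I ≤ Ideal.span {b} := by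
    rw [hI, pt, Ideal.map_span, Ideal.span_mul_span', Ideal.span_le]
    intro z hz
    obtain ⟨g', hg', z', hz', rfl⟩ := hz
    rw [Set.mem_singleton_iff.1 hg']
    obtain ⟨z'', hz'', rfl⟩ := hz'
    change g * _ ∈ Ideal.span {b}
    rw [Ideal.mem_span_singleton]
    rcases hz'' with hz'' | hz''
    · rw [hz'']
      have hroot : (w.map al).IsRoot ξ := by
        rw [IsRoot.def, eval_map_algebraMap]; exact hξ
      obtain ⟨w', hw'⟩ := dvd_iff_isRoot.2 hroot
      have e : mapCrd al f ⟨w, 0⟩ = ⟨X - C ξ, 0⟩ * ⟨w', 0⟩ := by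
        rw [mapCrd_apply]
        ext1
        · simp [hw']
        · simp
      rw [e, ← mul_assoc, ← hb2]
      exact ⟨⟨C (aeval ξ d.v), 1⟩ * ⟨w', 0⟩, by ring⟩
    · rw [Set.mem_singleton_iff.1 hz'']
      have hroot : (d.v.map al - C (aeval ξ d.v)).IsRoot ξ := by
        rw [IsRoot.def, eval_sub, eval_C, eval_map_algebraMap, sub_self]
      obtain ⟨v', hv'⟩ := dvd_iff_isRoot.2 hroot
      have e : mapCrd al f ⟨-d.v, 1⟩ = b - ⟨X - C ξ, 0⟩ * ⟨v', 0⟩ := by
        rw [mapCrd_apply, hb]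
        ext1
        · simp only [Polynomial.map_neg, QuadraticAlgebra.re_sub, QuadraticAlgebra.re_mul]
          linear_combination -hv'
        · simp
      rw [e, mul_sub, ← mul_assoc, ← hb2]
      exact ⟨g - ⟨C (aeval ξ d.v), 1⟩ * ⟨v', 0⟩, by ring⟩
  have hpow : Ideal.span {g ^ d.M} * I ^ d.M ≤ Ideal.span {b ^ d.M} := by
    rw [← Ideal.span_singleton_pow, ← Ideal.span_singleton_pow, ← mul_pow]
    exact Ideal.pow_right_mono hkey _
  have hmem : mapCrd al f d.φ ∈ I ^ d.M := by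
    rw [hI, ← Ideal.map_pow]
    exact Ideal.mem_map_of_mem _ d.mem
  have h1 : g ^ d.M * mapCrd al f d.φ ∈ Ideal.span {b ^ d.M} :=
    hpow (Ideal.mul_mem_mul (Ideal.mem_span_singleton_self _) hmem)
  rw [Ideal.mem_span_singleton] at h1
  obtain ⟨c, hc⟩ := h1
  exact ⟨c.re, c.im, hc⟩

/-- the norm over `L`: the multiset of its roots -/
theorem NEData.norm_map [IsAlgClosed L] :
    (d.φ.re.map (algebraMap ℚ L)) ^ 2 - (f0.map (Int.castRingHom ℚ)).map (algebraMap ℚ L) *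
      (d.φ.im.map (algebraMap ℚ L)) ^ 2
      = C (algebraMap ℚ L d.κ) * (((d.M • (w.map (algebraMap ℚ L)).roots +
        ∑ i, d.a i • ({(x i : L)} : Multiset L))).map (fun z => X - C z)).prod := by
  set al := algebraMap ℚ L with hal
  have hwL : (w.map al) = ((w.map al).roots.map (fun z => X - C z)).prod := by
    have h := (IsAlgClosed.splits (w.map al)).eq_prod_roots
    rwa [(d.hw.map al).leadingCoeff, C_1, one_mul] at h
  have hprod : (((d.M • (w.map al).roots +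
        ∑ i, d.a i • ({(x i : L)} : Multiset L))).map (fun z => X - C z)).prod =
        (w ^ d.M * ∏ i, (X - C (x i : ℚ)) ^ d.a i).map al := by
    rw [Multiset.map_add, Multiset.prod_add, Multiset.map_nsmul, Multiset.prod_nsmul, ← hwL,
      Polynomial.map_mul, Polynomial.map_pow, Polynomial.map_prod]
    congr 1
    have : ∀ s : Finset ι, ((∑ i ∈ s, d.a i • ({(x i : L)} : Multiset L)).map
        (fun z => X - C z)).prod = ∏ i ∈ s, ((X - C (x i : ℚ)) ^ d.a i).map al := by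
      classical
      intro s
      induction s using Finset.induction_on with
      | empty => simp
      | insert j t hj ih =>
        rw [Finset.sum_insert hj, Finset.prod_insert hj, Multiset.map_add, Multiset.prod_add, ih,
          Multiset.map_nsmul, Multiset.prod_nsmul]
        simp
    exact this Finset.univ
  have hn : (d.φ.re.map al) ^ 2 - (f0.map (Int.castRingHom ℚ)).map al * (d.φ.im.map al) ^ 2 =
      d.φ.norm.map al := by
    rw [QuadraticAlgebra.norm_def]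
    simp only [Polynomial.map_add, Polynomial.map_sub, Polynomial.map_mul, Polynomial.map_zero]
    ring
  rw [hprod, hn, d.hnorm, Polynomial.map_mul, map_C]

omit [Field L] [Algebra ℚ L] in
theorem ne_prod_Z_le (v : L → ℝ) (R : Multiset L) (a : ι → ℕ) (x : ι → L) {X0 : ℝ}
    (hX0 : 1 ≤ X0) (hx : ∀ i, v (x i) ≤ X0) (M : ℕ) :
    ((M • R + ∑ i, a i • ({x i} : Multiset L)).map (fun z => max 1 (v z))).prod ≤
      (R.map (fun z => max 1 (v z))).prod ^ M * X0 ^ (∑ i, a i) := by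
  have h := prod_Z_le v R a x hX0 hx (le_refl (1 : ℝ)) M
  rwa [one_pow, one_mul, one_mul] at h

/-- the product inequality at one place, every degree -/
theorem NEData.local_prod {L : Type} [Field L] [Algebra ℚ L] [IsAlgClosed L]
    (v : AbsoluteValue L ℝ) {K X0 δ : ℝ} (hK : 0 ≤ K) (hδ : 0 < δ)
    (hX0 : 1 ≤ X0)
    (hx : ∀ i, v (x i : L) ≤ X0) (w1 : ℚ[X]) (hw1 : w1.Monic) (hdvd : w1 ∣ w)
    (e0 : ℕ)
    (he0 : f0.natDegree * d.M = e0 + 2 * d.φ.re.natDegree)
    (r s : ℚ)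
    (hr : algebraMap ℚ L r =
      (((w1.map (algebraMap ℚ L)).roots).map (fun ξ => aeval ξ (C 2 * d.φ.re))).prod)
    (hs : algebraMap ℚ L s =
      (((w1.map (algebraMap ℚ L)).roots).map (fun ξ => aeval ξ (C 2 * d.v))).prod)
    (hLB : ∀ ξ : L, aeval ξ w = 0 →
      (v (2 * aeval ξ d.φ.re)) ^ 2 * δ ^ (2 * d.φ.re.natDegree) ≤ K ^ d.M *
        ((v (2 * aeval ξ d.v)) ^ 2 / (max 1 (v ξ)) ^ f0.natDegree) ^ d.M *
        (max 1 (v ξ)) ^ (2 * d.φ.re.natDegree) *
        (v (algebraMap ℚ L d.κ) * (((d.M • (w.map (algebraMap ℚ L)).roots +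
          ∑ i, d.a i • ({(x i : L)} : Multiset L))).map
            (fun z => max 1 (v z))).prod)) :
    (v (algebraMap ℚ L r)) ^ 2 *
      (((w1.map (algebraMap ℚ L)).roots).map (fun z => max 1 (v z))).prod ^ e0 ≤
    ((δ ^ (2 * d.φ.re.natDegree))⁻¹ * (K ^ d.M * v (algebraMap ℚ L d.κ) * X0 ^ (∑ i, d.a i) *
      (((w.map (algebraMap ℚ L)).roots).map (fun z => max 1 (v z))).prod ^ d.M)) ^ w1.natDegree *
      (v (algebraMap ℚ L s)) ^ (2 * d.M) := by
  set al := algebraMap ℚ L with hal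
  set Λ := (((w.map al).roots).map (fun z => max 1 (v z))).prod with hΛ
  have hΛ0 : 0 ≤ Λ := Multiset.prod_nonneg (by
    intro r hr
    obtain ⟨z, _, rfl⟩ := Multiset.mem_map.1 hr
    exact le_max_of_le_left zero_le_one)
  have hcard1 : Multiset.card (w1.map al).roots = w1.natDegree := by
    rw [← natDegree_map al]
    exact (IsAlgClosed.splits (w1.map al)).natDegree_eq_card_roots.symm
  set T := 2 * d.φ.re.natDegree with hT
  have hκv : 0 ≤ v (al d.κ) := v.nonneg _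
  have hX00 : 0 < X0 := by linarith
  have hδT : 0 < δ ^ T := pow_pos hδ _
  have hCC : 0 ≤ K ^ d.M * v (al d.κ) * X0 ^ (∑ i, d.a i) * Λ ^ d.M :=
    mul_nonneg (mul_nonneg (mul_nonneg (pow_nonneg hK _) hκv) (pow_nonneg hX00.le _))
      (pow_nonneg hΛ0 _)
  have hstep := prod_step ((w1.map al).roots) (fun ξ => v (aeval ξ (C 2 * d.φ.re)))
    (fun ξ => v (aeval ξ (C 2 * d.v))) (fun ξ => max 1 (v ξ)) (fun _ => v.nonneg _)
    (fun _ => v.nonneg _) (fun _ => le_max_of_le_left zero_le_one)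
    ((δ ^ T)⁻¹ * (K ^ d.M * v (al d.κ) * X0 ^ (∑ i, d.a i) * Λ ^ d.M))
    (mul_nonneg (inv_nonneg.2 hδT.le) hCC) e0 d.M ?_
  · have e1 : (((w1.map al).roots).map (fun ξ => v (aeval ξ (C 2 * d.φ.re)))).prod =
        v (al r) := by
      rw [hr, map_multiset_prod, Multiset.map_map]; rfl
    have e2 : (((w1.map al).roots).map (fun ξ => v (aeval ξ (C 2 * d.v)))).prod =
        v (al s) := by
      rw [hs, map_multiset_prod, Multiset.map_map]; rfl
    rw [e1, e2, hcard1] at hstep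
    exact hstep
  · intro ξ hξ
    have hξ1 : aeval ξ w1 = 0 := by
      have := (mem_roots ((hw1.map al).ne_zero)).1 hξ
      rwa [IsRoot.def, eval_map_algebraMap] at this
    have hξw : aeval ξ w = 0 := by
      obtain ⟨c, hc⟩ := hdvd
      rw [hc, map_mul, hξ1, zero_mul]
    have hb := hLB ξ hξw
    set ρ := max 1 (v ξ) with hρ
    have hρ1 : (1 : ℝ) ≤ ρ := le_max_left _ _
    have hρ0 : (0 : ℝ) < ρ := by linarith
    have hZ := ne_prod_Z_le v (w.map al).roots d.a (fun i => (x i : L)) hX0 hx d.M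
    rw [← hΛ] at hZ
    have e1 : aeval ξ (C 2 * d.φ.re) = 2 * aeval ξ d.φ.re := by
      rw [map_mul, aeval_C]; simp
    have e2 : aeval ξ (C 2 * d.v) = 2 * aeval ξ d.v := by
      rw [map_mul, aeval_C]; simp
    rw [e1, e2]
    set n := f0.natDegree with hn
    set c := v (2 * aeval ξ d.v) with hc
    have hc0 : 0 ≤ c := v.nonneg _
    set b := v (2 * aeval ξ d.φ.re) with hbd
    have hb2 : b ^ 2 * δ ^ T ≤ K ^ d.M * (c ^ 2 / ρ ^ n) ^ d.M * ρ ^ T *
        (v (al d.κ) * (Λ ^ d.M * X0 ^ (∑ i, d.a i))) := by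
      refine hb.trans (mul_le_mul_of_nonneg_left (mul_le_mul_of_nonneg_left hZ hκv) ?_)
      exact mul_nonneg (mul_nonneg (pow_nonneg hK _)
        (pow_nonneg (div_nonneg (sq_nonneg _) (pow_nonneg hρ0.le _)) _)) (pow_nonneg hρ0.le _)
    have e3 : K ^ d.M * (c ^ 2 / ρ ^ n) ^ d.M * ρ ^ T *
        (v (al d.κ) * (Λ ^ d.M * X0 ^ (∑ i, d.a i))) =
        ((K ^ d.M * v (al d.κ) * X0 ^ (∑ i, d.a i) * Λ ^ d.M) * c ^ (2 * d.M)) / ρ ^ e0 := by
      rw [eq_div_iff (pow_pos hρ0 _).ne', div_pow, ← pow_mul, ← pow_mul, he0, pow_add]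
      have h1 : ρ ^ e0 ≠ 0 := (pow_pos hρ0 _).ne'
      have h2 : ρ ^ T ≠ 0 := (pow_pos hρ0 _).ne'
      field_simp
    rw [e3, le_div_iff₀ (pow_pos hρ0 _)] at hb2
    rw [mul_assoc, inv_mul_eq_div, le_div_iff₀ hδT]
    calc b ^ 2 * ρ ^ e0 * δ ^ T = b ^ 2 * δ ^ T * ρ ^ e0 := by ring
      _ ≤ _ := hb2

end Data

end Pool.TT
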