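import Pool.Agent.Lib.MP_695920_nt.TT.NTFin
import Pool.Agent.Lib.MP_695920_nt.TT.Even.NEAlg

/-! TT, letter G for every degree, part NE4b: the `p`-adic and the complex places and the
finiteness of the polynomials `w` (dnotes of helper93 and helper26, MP_695920_nt). -/

set_option autoImplicit false

namespace Pool.TT

open Polynomial

/-- Bezout identity with integer coefficients -/
theorem ne_exists_bezout {f0 : ℤ[X]} (H : NEHyp f0) :
    ∃ (a b : ℤ[X]) (D : ℤ), D ≠ 0 ∧ a * f0 + b * derivative f0 = C D := by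
  have hdeg : f0.natDegree ≠ 0 := by have := H.two; omega
  obtain ⟨p, q, -, -, hpq⟩ := exists_mul_add_mul_eq_C_resultant (m := f0.natDegree)
    (n := (derivative f0).natDegree) f0 (derivative f0) le_rfl le_rfl (Or.inl hdeg)
  refine ⟨p, q, resultant f0 (derivative f0) f0.natDegree (derivative f0).natDegree,
    ?_, by rw [← hpq]; ring⟩
  intro h0
  have h1 := resultant_map_map (Int.castRingHom ℚ) (f := f0) (g := derivative f0)
    (m := f0.natDegree) (n := (derivative f0).natDegree)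
  rw [h0, map_zero] at h1
  have hsep : (f0.map (Int.castRingHom ℚ)).Separable := H.irr.separable
  have hcop : IsCoprime (f0.map (Int.castRingHom ℚ))
    (derivative (f0.map (Int.castRingHom ℚ))) := hsep
  have h2 := resultant_ne_zero (f0.map (Int.castRingHom ℚ))
    (derivative (f0.map (Int.castRingHom ℚ))) hcop
  apply h2
  have e1 : (f0.map (Int.castRingHom ℚ)).natDegree = f0.natDegree := ne_natDegree_map H _
  have e2 : derivative (f0.map (Int.castRingHom ℚ)) =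
      (derivative f0).map (Int.castRingHom ℚ) := by
    rw [derivative_map]
  have e3 : (derivative (f0.map (Int.castRingHom ℚ))).natDegree = (derivative f0).natDegree := by
    rw [e2]
    exact natDegree_map_eq_of_injective (by exact Int.cast_injective) _
  rw [e1, e3, e2]
  exact h1

theorem ne_one_le {L : Type*} (v : L → ℝ) (S : Multiset L) :
    1 ≤ (S.map (fun z => max 1 (v z))).prod := by
  apply Multiset.one_le_prod
  intro x hx
  obtain ⟨z, _, rfl⟩ := Multiset.mem_map.1 hx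
  exact le_max_left _ _

variable {ι : Type*} [Fintype ι] {f0 : ℤ[X]} {x : ι → ℤ} {w : ℚ[X]}

theorem NEData.padic (p : ℕ) [Fact p.Prime] (H : NEHyp f0) (d : NEData f0 x w)
    {a b : ℤ[X]} {D : ℤ} (hD : D ≠ 0) (hab : a * f0 + b * derivative f0 = C D)
    {s0 : Multiset ℤ} {w1 : ℚ[X]} (hw1 : w1.Monic)
    (hw : w = (s0.map (fun k : ℤ => X - C (k : ℚ))).prod * w1) (e : ℕ)
    (he : f0.natDegree * d.M = e + w1.natDegree * d.M + 2 * d.φ.re.natDegree) (r s : ℚ)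
    (hr : algebraMap ℚ (PadicAlgCl p) r = (((w1.map (algebraMap ℚ (PadicAlgCl p))).roots).map
      (fun ξ => aeval ξ (C 2 * d.φ.re))).prod)
    (hs : algebraMap ℚ (PadicAlgCl p) s = (((w1.map (algebraMap ℚ (PadicAlgCl p))).roots).map
      (fun ξ => aeval ξ (C 2 * d.v))).prod)
    {W : ℤ[X]} {c : ℚ} (hW : W.IsPrimitive) (hWc : W.map (Int.castRingHom ℚ) = C c * w) :
    ‖(r : ℚ_[p])‖ ^ 2 * (‖((4 * (D : ℚ) ^ 2 : ℚ) : ℚ_[p])‖ ^ d.M *
      ‖(((D : ℤ) : ℚ) : ℚ_[p])‖ ^ (2 * d.φ.re.natDegree)) ^ w1.natDegree ≤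
      ‖(d.κ : ℚ_[p])‖ ^ w1.natDegree * ‖(s : ℚ_[p])‖ ^ (2 * d.M) * ‖(c : ℚ_[p])‖ ^ e := by
  set al := algebraMap ℚ (PadicAlgCl p) with hal
  set v := vp p with hv
  have hna : IsNonarchimedean v := vp_na p
  have hint : ∀ Q : ℤ[X], ∀ i, v ((Q.map (Int.castRingHom (PadicAlgCl p))).coeff i) ≤ 1 := by
    intro Q i
    rw [coeff_map]
    exact vp_int p _
  have hF : (f0.map (Int.castRingHom ℚ)).map al = f0.map (Int.castRingHom (PadicAlgCl p)) := by
    rw [map_map]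
    congr 1
  set Λ := (((w.map al).roots).map (fun z => max 1 (v z))).prod with hΛ
  have hΛ1 : 1 ≤ Λ := ne_one_le _ _
  have hΛe : (((w1.map al).roots).map (fun z => max 1 (v z))).prod = Λ := by
    rw [hΛ, roots_split hw1 hw, Multiset.map_add, Multiset.prod_add, Multiset.map_map]
    have : (s0.map ((fun z => max 1 (v z)) ∘ fun k : ℤ => (k : PadicAlgCl p))).prod = 1 := by
      apply Multiset.prod_eq_one
      intro x hx
      obtain ⟨k, _, rfl⟩ := Multiset.mem_map.1 hx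
      exact max_eq_left (vp_int p k)
    rw [this, one_mul]
  have hD' : ((D : ℤ) : PadicAlgCl p) ≠ 0 := by exact_mod_cast hD
  have hDv : 0 < v ((D : ℤ) : PadicAlgCl p) := v.pos hD'
  have habL : (a.map (Int.castRingHom (PadicAlgCl p))) * (f0.map (Int.castRingHom ℚ)).map al +
      (b.map (Int.castRingHom (PadicAlgCl p))) * derivative ((f0.map (Int.castRingHom ℚ)).map al) =
      C ((D : ℤ) : PadicAlgCl p) := by
    have h := congrArg (Polynomial.map (Int.castRingHom (PadicAlgCl p))) hab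
    rw [Polynomial.map_add, Polynomial.map_mul, Polynomial.map_mul, map_C, ← derivative_map,
      ← hF] at h
    simpa using h
  have h4D : al (4 * (D : ℚ) ^ 2) = 4 * ((D : ℤ) : PadicAlgCl p) ^ 2 := by
    simp
  have hK : 0 ≤ (v (4 * ((D : ℤ) : PadicAlgCl p) ^ 2))⁻¹ := inv_nonneg.2 (v.nonneg _)
  have hFn : ((f0.map (Int.castRingHom ℚ)).map al).natDegree = f0.natDegree := by
    rw [natDegree_map, ne_natDegree_map H]
  -- a root of `f`
  obtain ⟨θ, hθ⟩ : ∃ θ, ((f0.map (Int.castRingHom ℚ)).map al).eval θ = 0 := by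
    refine IsAlgClosed.exists_root _ (degree_ne_of_natDegree_ne (n := 0) ?_)
    rw [hFn]
    have := H.two
    omega
  have hloc := d.local_prod (L := PadicAlgCl p) v hK hDv le_rfl (fun i => vp_int p (x i)) w1 hw1
    ⟨_, by rw [hw, mul_comm]⟩ (e + w1.natDegree * d.M) he r s hr hs ?_
  · rw [hΛe, ← hΛ, one_pow, mul_one] at hloc
    have hc1 : 1 ≤ v (al c) * Λ := by
      -- a unit coefficient of `W`
      have hex : ∃ i, ¬ (p : ℤ) ∣ W.coeff i := by
        by_contra hall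
        push Not at hall
        have h1 : C (p : ℤ) ∣ W := (C_dvd_iff_dvd_coeff _ _).2 hall
        have h2 := hW _ h1
        have h3 : (p : ℤ).natAbs = 1 := Int.isUnit_iff_natAbs_eq.1 h2
        have h4 := (Fact.out : p.Prime).one_lt
        simp at h3
        omega
      obtain ⟨i, hi⟩ := hex
      have h1 : v ((W.map (Int.castRingHom (PadicAlgCl p))).coeff i) = 1 := by
        rw [coeff_map]
        have h2 : (Int.castRingHom (PadicAlgCl p)) (W.coeff i) = al ((W.coeff i : ℤ) : ℚ) := by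
          simp
        rw [h2, hv, vp_rat]
        have h3 : (((W.coeff i : ℤ) : ℚ) : ℚ_[p]) = ((W.coeff i : ℤ) : ℚ_[p]) := by simp
        rw [h3, Padic.norm_intCast_eq_one_iff]
        exact (Int.isCoprime_iff_gcd_eq_one.2 (by
          have h4 : Nat.Coprime p (W.coeff i).natAbs := by
            rw [Nat.Prime.coprime_iff_not_dvd (Fact.out : p.Prime)]
            intro h5
            exact hi (Int.natCast_dvd.2 h5)
          rw [Int.gcd_eq_natAbs, Int.natAbs_natCast]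
          exact h4.symm))
      have h2 : W.map (Int.castRingHom (PadicAlgCl p)) = C (al c) * w.map al := by
        have h3 := congrArg (Polynomial.map al) hWc
        rw [map_map, Polynomial.map_mul, map_C] at h3
        rw [← h3]
        congr 1
      rw [h2, coeff_C_mul, map_mul] at h1
      have h3 : v ((w.map al).coeff i) ≤ Λ := by
        refine (ne_coeff_le (w.map al) i).trans ?_
        have h5 : w.map al = ((w.map al).roots.map (fun z => X - C z)).prod := by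
          have h := (IsAlgClosed.splits (w.map al)).eq_prod_roots
          rwa [(d.hw.map al).leadingCoeff, C_1, one_mul] at h
        rw [h5, gaussNorm_prod hna one_pos]
      calc (1 : ℝ) = v (al c) * v ((w.map al).coeff i) := h1.symm
        _ ≤ _ := mul_le_mul_of_nonneg_left h3 (v.nonneg _)
    have er : v (al r) = ‖(r : ℚ_[p])‖ := vp_rat p r
    have es : v (al s) = ‖(s : ℚ_[p])‖ := vp_rat p s
    have ec : v (al c) = ‖(c : ℚ_[p])‖ := vp_rat p c
    have ek : v (al d.κ) = ‖(d.κ : ℚ_[p])‖ := vp_rat p d.κ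
    have eD : v ((D : ℤ) : PadicAlgCl p) = ‖(((D : ℤ) : ℚ) : ℚ_[p])‖ := by
      have h1 : ((D : ℤ) : PadicAlgCl p) = al ((D : ℤ) : ℚ) := by simp
      rw [h1]; exact vp_rat p _
    have e4 : v (4 * ((D : ℤ) : PadicAlgCl p) ^ 2) = ‖((4 * (D : ℚ) ^ 2 : ℚ) : ℚ_[p])‖ := by
      rw [← h4D]; exact vp_rat p _
    rw [← er, ← es, ← ec, ← e4, ← ek, ← eD]
    set κ := v (4 * ((D : ℤ) : PadicAlgCl p) ^ 2) with hκ
    set δ := v ((D : ℤ) : PadicAlgCl p) with hδ
    set kk := v (al d.κ) with hkk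
    set T := 2 * d.φ.re.natDegree with hT
    set n1 := w1.natDegree with hn1
    have hκ0 : 0 < κ := v.pos (by simp [hD'])
    have hΛ0 : 0 < Λ := by linarith
    have hG0 : 0 < κ ^ d.M * δ ^ T := mul_pos (pow_pos hκ0 _) (pow_pos hDv _)
    -- cancel
    have h5 : (v (al r)) ^ 2 * (κ ^ d.M * δ ^ T) ^ n1 * Λ ^ e ≤
        kk ^ n1 * (v (al s)) ^ (2 * d.M) := by
      have h6 : ((δ ^ T)⁻¹ * (κ⁻¹ ^ d.M * kk * Λ ^ d.M)) ^ n1 =
          kk ^ n1 * Λ ^ (n1 * d.M) / (κ ^ d.M * δ ^ T) ^ n1 := by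
        have e7 : (δ ^ T)⁻¹ * (κ⁻¹ ^ d.M * kk * Λ ^ d.M) =
            (kk * Λ ^ d.M) / (κ ^ d.M * δ ^ T) := by
          rw [inv_pow]
          have h1 := (pow_pos hκ0 d.M).ne'
          have h2 := (pow_pos hDv T).ne'
          field_simp
        rw [e7, div_pow, mul_pow, ← pow_mul, mul_comm d.M n1]
      rw [h6, pow_add, ← mul_assoc, div_mul_eq_mul_div, le_div_iff₀ (pow_pos hG0 _)] at hloc
      have h10 : 0 < Λ ^ (n1 * d.M) := pow_pos hΛ0 _
      refine le_of_mul_le_mul_left ?_ h10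
      calc Λ ^ (n1 * d.M) * ((v (al r)) ^ 2 * (κ ^ d.M * δ ^ T) ^ n1 * Λ ^ e)
          = (v (al r)) ^ 2 * Λ ^ e * Λ ^ (n1 * d.M) * (κ ^ d.M * δ ^ T) ^ n1 := by
            ring
        _ ≤ kk ^ n1 * Λ ^ (n1 * d.M) * (v (al s)) ^ (2 * d.M) := hloc
        _ = _ := by ring
    have h11 : 1 ≤ (v (al c)) ^ e * Λ ^ e := by
      rw [← mul_pow]; exact one_le_pow₀ hc1
    have h12 : 0 ≤ (v (al r)) ^ 2 * (κ ^ d.M * δ ^ T) ^ n1 :=
      mul_nonneg (sq_nonneg _) (pow_nonneg hG0.le _)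
    have h13 : 0 ≤ (v (al c)) ^ e := pow_nonneg (v.nonneg _) _
    calc (v (al r)) ^ 2 * (κ ^ d.M * δ ^ T) ^ n1
        ≤ (v (al r)) ^ 2 * (κ ^ d.M * δ ^ T) ^ n1 * ((v (al c)) ^ e * Λ ^ e) :=
          le_mul_of_one_le_right h12 h11
      _ = (v (al r)) ^ 2 * (κ ^ d.M * δ ^ T) ^ n1 * Λ ^ e * (v (al c)) ^ e := by ring
      _ ≤ (kk ^ n1 * (v (al s)) ^ (2 * d.M)) * (v (al c)) ^ e :=
          mul_le_mul_of_nonneg_right h5 h13
  · intro ξ hξ
    have hN := d.norm_map (L := PadicAlgCl p)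
    have hdvdf : (X - C ξ) ∣ (f0.map (Int.castRingHom ℚ)).map al -
        C (((f0.map (Int.castRingHom ℚ)).map al).eval ξ) := by
      rw [dvd_iff_isRoot, IsRoot.def, eval_sub, eval_C, sub_self]
    obtain ⟨f1, hf1⟩ := hdvdf
    have hf1' : f1 * (X - C ξ) = (f0.map (Int.castRingHom ℚ)).map al -
        C (((f0.map (Int.castRingHom ℚ)).map al).eval ξ) := by rw [hf1]; ring
    obtain ⟨A1, B1, hpsi⟩ := d.exists_psi hξ f1 hf1'
    have hsq : (aeval ξ d.v) ^ 2 = ((f0.map (Int.castRingHom ℚ)).map al).eval ξ := by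
      rw [eval_map_algebraMap]; exact d.eta_sq hξ
    have h0 : (d.φ.re.map al).eval ξ + (d.φ.im.map al).eval ξ * aeval ξ d.v = 0 := by
      rw [eval_map_algebraMap, eval_map_algebraMap]; exact d.eval_eq hξ
    have h := padic_bound_all (v := v) hna (F := (f0.map (Int.castRingHom ℚ)).map al)
      (a := a.map (Int.castRingHom (PadicAlgCl p))) (b := b.map (Int.castRingHom (PadicAlgCl p)))
      (D := ((D : ℤ) : PadicAlgCl p)) ((H.monic.map _).map al)
      (by rw [hF]; exact hint _) (hint a) (hint b) hD'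
      (vp_int p D) two_ne_zero (by simpa using vp_int p 2) hθ habL d.M d.φ.re.natDegree _
      (d.φ.re.map al)
      (d.φ.im.map al) (al d.κ) hN (by rw [natDegree_map]) A1 B1 f1 ξ
      (aeval ξ d.v) hsq h0 hf1' hpsi
    rw [hFn, eval_map_algebraMap] at h
    exact h

/-- the conclusion of `complex_bound_all` -/
def CBoundAll (f : ℤ[X]) (K : ℝ) : Prop :=
  ∀ (M Dl : ℕ) (Z : Multiset ℂ) (A B A1 B1 f1 : ℂ[X]) (kap ξ η : ℂ),
      Multiset.card Z ≤ f.natDegree * M → Dl ≤ f.natDegree * M → A.natDegree ≤ Dl →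
      A ^ 2 - f.map (Int.castRingHom ℂ) * B ^ 2 = C kap * (Z.map (fun z => X - C z)).prod →
      η ^ 2 = (f.map (Int.castRingHom ℂ)).eval ξ → η ≠ 0 →
      A.eval ξ + B.eval ξ * η = 0 →
      f1 * (X - C ξ) =
        f.map (Int.castRingHom ℂ) - C ((f.map (Int.castRingHom ℂ)).eval ξ) →
      (algebraMap ℂ[X] (QuadraticAlgebra ℂ[X] (f.map (Int.castRingHom ℂ)) 0) f1) ^ M *
          ⟨A, B⟩ =
        (⟨-C η, 1⟩ : QuadraticAlgebra ℂ[X] (f.map (Int.castRingHom ℂ)) 0) ^ M * ⟨A1, B1⟩ →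
      ‖2 * A.eval ξ‖ ^ 2 ≤
        K ^ M * (‖2 * η‖ ^ 2 / (max 1 ‖ξ‖) ^ f.natDegree) ^ M * (max 1 ‖ξ‖) ^ (2 * Dl) * ‖kap‖ *
          (Z.map (fun z => max 1 ‖z‖)).prod

theorem NEData.card_le (d : NEData f0 x w) :
    w.natDegree * d.M + ∑ i, d.a i ≤ f0.natDegree * d.M := by
  have h1 := d.ha
  have h2 : (2 * w.natDegree + 1) * d.M ≤ f0.natDegree * d.M :=
    Nat.mul_le_mul_right _ d.hdeg
  nlinarith [d.hM]

theorem NEData.cplx_local (H : NEHyp f0) (d : NEData f0 x w)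
    {K : ℝ} (hK : CBoundAll f0 K) (ξ : ℂ) (hξ : aeval ξ w = 0) :
      (vc (2 * aeval ξ d.φ.re)) ^ 2 * (1 : ℝ) ^ (2 * d.φ.re.natDegree) ≤ K ^ d.M *
        ((vc (2 * aeval ξ d.v)) ^ 2 / (max 1 (vc ξ)) ^ f0.natDegree) ^ d.M *
        (max 1 (vc ξ)) ^ (2 * d.φ.re.natDegree) *
        (vc (algebraMap ℚ ℂ d.κ) * (((d.M • (w.map (algebraMap ℚ ℂ)).roots +
          ∑ i, d.a i • ({(x i : ℂ)} : Multiset ℂ))).map
            (fun z => max 1 (vc z))).prod) := by
  set al := algebraMap ℚ ℂ with hal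
  have hF : (f0.map (Int.castRingHom ℚ)).map al = f0.map (Int.castRingHom ℂ) := by
    rw [map_map]
    congr 1
  have hN := d.norm_map (L := ℂ)
  have hdvdf : (X - C ξ) ∣ (f0.map (Int.castRingHom ℚ)).map al -
      C (((f0.map (Int.castRingHom ℚ)).map al).eval ξ) := by
    rw [dvd_iff_isRoot, IsRoot.def, eval_sub, eval_C, sub_self]
  obtain ⟨f1, hf1⟩ := hdvdf
  have hf1' : f1 * (X - C ξ) = (f0.map (Int.castRingHom ℚ)).map al -
      C (((f0.map (Int.castRingHom ℚ)).map al).eval ξ) := by rw [hf1]; ring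
  obtain ⟨A1, B1, hpsi⟩ := d.exists_psi hξ f1 hf1'
  have hpsi' : ∀ G : ℂ[X], G = (f0.map (Int.castRingHom ℚ)).map al →
      (algebraMap ℂ[X] (QuadraticAlgebra ℂ[X] G 0) f1) ^ d.M *
        ⟨d.φ.re.map al, d.φ.im.map al⟩ = ⟨-C (aeval ξ d.v), 1⟩ ^ d.M * ⟨A1, B1⟩ := by
    rintro G rfl
    exact hpsi
  have hsq : (aeval ξ d.v) ^ 2 = ((f0.map (Int.castRingHom ℚ)).map al).eval ξ := by
    rw [eval_map_algebraMap]; exact d.eta_sq hξ
  have h0 : (d.φ.re.map al).eval ξ + (d.φ.im.map al).eval ξ * aeval ξ d.v = 0 := by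
    rw [eval_map_algebraMap, eval_map_algebraMap]; exact d.eval_eq hξ
  have hcard : Multiset.card (d.M • (w.map al).roots +
      ∑ i, d.a i • ({(x i : ℂ)} : Multiset ℂ)) ≤ f0.natDegree * d.M := by
    have h1 : Multiset.card (w.map al).roots = w.natDegree := by
      rw [← natDegree_map al]
      exact (IsAlgClosed.splits (w.map al)).natDegree_eq_card_roots.symm
    rw [Multiset.card_add, Multiset.card_nsmul, h1, Multiset.card_sum]
    simp only [Multiset.card_nsmul, Multiset.card_singleton, mul_one]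
    have := d.card_le
    simpa [mul_comm] using this
  have hDl : d.φ.re.natDegree ≤ f0.natDegree * d.M := by
    have := d.hre
    omega
  have h := hK d.M d.φ.re.natDegree
    (d.M • (w.map al).roots + ∑ i, d.a i • ({(x i : ℂ)} : Multiset ℂ))
    (d.φ.re.map al) (d.φ.im.map al) A1 B1 f1 (al d.κ) ξ (aeval ξ d.v) hcard hDl
    (by rw [natDegree_map])
    (by rw [← hF]; exact hN)
    (by rw [← hF]; exact hsq) (d.eta_ne H hξ) h0 (by rw [← hF]; exact hf1')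
    (hpsi' _ hF.symm)
  rw [eval_map_algebraMap] at h
  rw [one_pow, mul_one, ← mul_assoc]
  exact h

theorem NEData.cplx (H : NEHyp f0) (d : NEData f0 x w)
    {K X0 : ℝ} (hK1 : 1 ≤ K) (hK : CBoundAll f0 K) (hX0 : 1 ≤ X0)
    (hx : ∀ i, ‖(x i : ℂ)‖ ≤ X0) {s0 : Multiset ℤ} {w1 : ℚ[X]} (hw1 : w1.Monic)
    (hw : w = (s0.map (fun k : ℤ => X - C (k : ℚ))).prod * w1)
    (hs0 : ∀ k ∈ s0, ∃ i, k = x i) (e : ℕ)
    (he : f0.natDegree * d.M = e + w1.natDegree * d.M + 2 * d.φ.re.natDegree) (r s : ℚ)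
    (hr : algebraMap ℚ ℂ r = (((w1.map (algebraMap ℚ ℂ)).roots).map
      (fun ξ => aeval ξ (C 2 * d.φ.re))).prod)
    (hs : algebraMap ℚ ℂ s = (((w1.map (algebraMap ℚ ℂ)).roots).map
      (fun ξ => aeval ξ (C 2 * d.v))).prod) :
    (|r| : ℝ) ^ 2 * (((w.map (algebraMap ℚ ℂ)).roots).map (fun z => max 1 ‖z‖)).prod ^ e ≤
      (X0 ^ (2 * f0.natDegree ^ 2) * K ^ f0.natDegree) ^ d.M * (|d.κ| : ℝ) ^ w1.natDegree *
        (|s| : ℝ) ^ (2 * d.M) := by
  set al := algebraMap ℚ ℂ with hal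
  set n := f0.natDegree with hn
  set Λ := (((w.map al).roots).map (fun z => max 1 ‖z‖)).prod with hΛ
  set Λ1 := (((w1.map al).roots).map (fun z => max 1 ‖z‖)).prod with hΛ1
  have h1Λ : 1 ≤ Λ := ne_one_le _ _
  have h1Λ1 : 1 ≤ Λ1 := ne_one_le _ _
  have hdeg : w.natDegree = Multiset.card s0 + w1.natDegree := by
    have h1 : Multiset.card (w.map al).roots = w.natDegree := by
      rw [← natDegree_map al]
      exact (IsAlgClosed.splits (w.map al)).natDegree_eq_card_roots.symm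
    have h2 : Multiset.card (w1.map al).roots = w1.natDegree := by
      rw [← natDegree_map al]
      exact (IsAlgClosed.splits (w1.map al)).natDegree_eq_card_roots.symm
    rw [← h1, ← h2, roots_split hw1 hw, Multiset.card_add, Multiset.card_map]
  have hwn : w.natDegree ≤ n := by have := d.hdeg; omega
  have hΛle : Λ ≤ X0 ^ n * Λ1 := by
    rw [hΛ, roots_split hw1 hw, Multiset.map_add, Multiset.prod_add, Multiset.map_map]
    apply mul_le_mul_of_nonneg_right _ (by linarith)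
    have : ∀ S : Multiset ℤ, (∀ k ∈ S, ∃ i, k = x i) →
        (S.map ((fun z => max 1 ‖z‖) ∘ fun k : ℤ => (k : ℂ))).prod ≤ X0 ^ (Multiset.card S) := by
      intro S
      induction S using Multiset.induction_on with
      | empty => intro _; simp
      | cons k S ih =>
        intro hS
        rw [Multiset.map_cons, Multiset.prod_cons, Multiset.card_cons, pow_succ, mul_comm]
        apply mul_le_mul (ih (fun j hj => hS j (Multiset.mem_cons_of_mem hj))) _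
          (le_max_of_le_left zero_le_one) (pow_nonneg (by linarith) _)
        obtain ⟨i, hi⟩ := hS k (Multiset.mem_cons_self k S)
        change max 1 ‖(k : ℂ)‖ ≤ X0
        rw [hi]
        exact max_le hX0 (hx i)
    refine (this s0 hs0).trans (pow_le_pow_right₀ hX0 (by omega))
  have hloc := d.local_prod (L := ℂ) vc (δ := 1) (by linarith) one_pos hX0 hx w1 hw1
    ⟨_, by rw [hw, mul_comm]⟩ (e + w1.natDegree * d.M) he r s hr hs
    (fun ξ hξ => d.cplx_local H hK ξ hξ)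
  have er : vc (al r) = (|r| : ℝ) := by
    rw [vc_apply]; simp
  have es : vc (al s) = (|s| : ℝ) := by
    rw [vc_apply]; simp
  have ek : vc (al d.κ) = (|d.κ| : ℝ) := by
    rw [vc_apply]; simp
  rw [er, es, ek, one_pow, inv_one, one_mul] at hloc
  change (|r| : ℝ) ^ 2 * Λ1 ^ (e + w1.natDegree * d.M) ≤
    (K ^ d.M * (|d.κ| : ℝ) * X0 ^ (∑ i, d.a i) * Λ ^ d.M) ^ w1.natDegree *
      (|s| : ℝ) ^ (2 * d.M) at hloc
  have hΛ0 : 0 < Λ := by linarith
  have hK0 : 0 < K := by linarith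
  have hX00 : 0 < X0 := by linarith
  set kk := (|d.κ| : ℝ) with hkk
  have hkk0 : 0 ≤ kk := abs_nonneg _
  set E := e + w1.natDegree * d.M with hE
  have hEn : E ≤ n * d.M := by
    rw [he, hE]; omega
  have h3 : (|r| : ℝ) ^ 2 * Λ ^ E ≤ X0 ^ (n * E) *
      ((K ^ d.M * kk * X0 ^ (∑ i, d.a i) * Λ ^ d.M) ^
      w1.natDegree * (|s| : ℝ) ^ (2 * d.M)) := by
    calc (|r| : ℝ) ^ 2 * Λ ^ E ≤ (|r| : ℝ) ^ 2 * (X0 ^ n * Λ1) ^ E := by gcongr
      _ = X0 ^ (n * E) * ((|r| : ℝ) ^ 2 * Λ1 ^ E) := by rw [mul_pow, ← pow_mul]; ring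
      _ ≤ _ := mul_le_mul_of_nonneg_left hloc (pow_nonneg hX00.le _)
  have h4 : (|r| : ℝ) ^ 2 * Λ ^ e * Λ ^ (w1.natDegree * d.M) ≤
      (X0 ^ (n * E + (∑ i, d.a i) * w1.natDegree) * K ^ (d.M * w1.natDegree) *
        kk ^ w1.natDegree * (|s| : ℝ) ^ (2 * d.M)) * Λ ^ (w1.natDegree * d.M) := by
    calc (|r| : ℝ) ^ 2 * Λ ^ e * Λ ^ (w1.natDegree * d.M) = (|r| : ℝ) ^ 2 * Λ ^ E := by
          rw [hE, pow_add]; ring
      _ ≤ _ := h3
      _ = _ := by
          rw [mul_pow, mul_pow, mul_pow, ← pow_mul, ← pow_mul, ← pow_mul, pow_add,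
            mul_comm d.M w1.natDegree]
          ring
  have h5 := le_of_mul_le_mul_right h4 (pow_pos hΛ0 _)
  refine h5.trans ?_
  apply mul_le_mul_of_nonneg_right _ (pow_nonneg (abs_nonneg _) _)
  apply mul_le_mul_of_nonneg_right _ (pow_nonneg hkk0 _)
  rw [mul_pow, ← pow_mul, ← pow_mul]
  have hw1n : w1.natDegree ≤ n := by omega
  have hn1 : 1 ≤ n := by have := d.hdeg; omega
  have hsum : ∑ i, d.a i ≤ d.M := by have := d.ha; omega
  apply mul_le_mul _ _ (pow_nonneg hK0.le _) (pow_nonneg hX00.le _)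
  · apply pow_le_pow_right₀ hX0
    calc n * E + (∑ i, d.a i) * w1.natDegree ≤ n * (n * d.M) + d.M * n := by
          apply Nat.add_le_add (Nat.mul_le_mul_left _ hEn) (Nat.mul_le_mul hsum hw1n)
      _ ≤ 2 * n ^ 2 * d.M := by nlinarith [Nat.mul_le_mul_right (n * d.M) hn1]
  · apply pow_le_pow_right₀ hK1
    rw [mul_comm]
    exact Nat.mul_le_mul_right _ hw1n

/-- the polynomials `w` of near-torsion classes are finitely many, every degree -/
theorem ne_finite_w (H : NEHyp f0) {K : ℝ} (hK1 : 1 ≤ K) (hK : CBoundAll f0 K) (x : ι → ℤ) :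
    {w : ℚ[X] | Nonempty (NEData f0 x w)}.Finite := by
  classical
  obtain ⟨a, b, D, hD, hab⟩ := ne_exists_bezout H
  set X0 : ℝ := 1 + ∑ i, ‖(x i : ℂ)‖ with hX0d
  have hX0 : 1 ≤ X0 := by
    rw [hX0d]
    have : 0 ≤ ∑ i, ‖(x i : ℂ)‖ := Finset.sum_nonneg (fun i _ => norm_nonneg _)
    linarith
  have hx : ∀ i, ‖(x i : ℂ)‖ ≤ X0 := by
    intro i
    have : ‖(x i : ℂ)‖ ≤ ∑ i, ‖(x i : ℂ)‖ :=
      Finset.single_le_sum (f := fun i => ‖(x i : ℂ)‖) (fun i _ => norm_nonneg _)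
        (Finset.mem_univ i)
    rw [hX0d]; linarith
  set n := f0.natDegree with hn
  set δ : ℝ := |((4 * (D : ℚ) ^ 2 : ℚ) : ℝ)| with hδ
  set D1 : ℝ := |(((D : ℤ) : ℚ) : ℝ)| with hD1
  have hD11 : 1 ≤ D1 := by
    rw [hD1]
    have h1 : (1 : ℤ) ≤ |D| := Int.one_le_abs hD
    have h2 : (1 : ℝ) ≤ |(D : ℝ)| := by exact_mod_cast h1
    simpa using h2
  have hδ1 : 1 ≤ δ := by
    rw [hδ]
    have h1 : (1 : ℤ) ≤ D ^ 2 := by
      have := sq_nonneg D
      have h2 : D ^ 2 ≠ 0 := pow_ne_zero 2 hD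
      omega
    have h3 : (1 : ℝ) ≤ (D : ℝ) ^ 2 := by exact_mod_cast h1
    push_cast
    rw [abs_of_nonneg (by positivity)]
    linarith
  set B : ℝ := X0 ^ (2 * n ^ 2) * K ^ n * (δ ^ n * D1 ^ (n ^ 2)) with hB
  have hB1 : 1 ≤ B := by
    rw [hB]
    have h1 : 1 ≤ X0 ^ (2 * n ^ 2) := one_le_pow₀ hX0
    have h2 : 1 ≤ K ^ n := one_le_pow₀ hK1
    have h3 : 1 ≤ δ ^ n := one_le_pow₀ hδ1
    have h4 : 1 ≤ D1 ^ (n ^ 2) := one_le_pow₀ hD11
    exact one_le_mul_of_one_le_of_one_le (one_le_mul_of_one_le_of_one_le h1 h2)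
      (one_le_mul_of_one_le_of_one_le h3 h4)
  have hB0 : 0 ≤ B := by linarith
  have hBn : 0 ≤ B ^ 2 := sq_nonneg _
  have hfin := Polynomial.finite_mahlerMeasure_le n (⟨B ^ 2, hBn⟩ : NNReal)
  refine (hfin.image (fun W : ℤ[X] =>
    C ((W.map (Int.castRingHom ℚ)).leadingCoeff)⁻¹ * W.map (Int.castRingHom ℚ))).subset ?_
  rintro w ⟨d⟩
  obtain ⟨s0, w1, hw1, hw, hs0, hw1x⟩ := exists_split (Finset.univ.image x) w d.hw
  have hs0' : ∀ k ∈ s0, ∃ i, k = x i := by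
    intro k hk
    obtain ⟨i, _, hi⟩ := Finset.mem_image.1 (hs0 k hk)
    exact ⟨i, hi.symm⟩
  have hw1x' : ∀ i, w1.eval (x i : ℚ) ≠ 0 :=
    fun i => hw1x _ (Finset.mem_image_of_mem _ (Finset.mem_univ i))
  have hw1le : w1.natDegree ≤ w.natDegree :=
    natDegree_le_of_dvd ⟨_, by rw [hw, mul_comm]⟩ d.hw.ne_zero
  have hw1n : w1.natDegree ≤ n := by
    have := d.hdeg
    omega
  -- the exponent
  obtain ⟨e, he, he2⟩ : ∃ e : ℕ, n * d.M =
      e + w1.natDegree * d.M + 2 * d.φ.re.natDegree ∧ d.M ≤ 2 * e := by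
    have h2 : w1.natDegree * d.M ≤ w.natDegree * d.M := Nat.mul_le_mul_right _ hw1le
    have h3 : 4 * d.φ.re.natDegree + 2 * (w.natDegree * d.M) + d.M ≤ 2 * (n * d.M) := d.hre
    refine ⟨n * d.M - (w1.natDegree * d.M + 2 * d.φ.re.natDegree), ?_, ?_⟩
    · omega
    · omega
  obtain ⟨r, hr⟩ := exists_rat_prod w1 (C 2 * d.φ.re) hw1
  obtain ⟨s, hs⟩ := exists_rat_prod w1 (C 2 * d.v) hw1
  obtain ⟨W, c, hc0, hW, hWc⟩ := exists_primitive d.hw.ne_zero
  -- roots of `w1`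
  have hroot : ∀ ξ ∈ (w1.map (algebraMap ℚ ℂ)).roots, aeval ξ w = 0 ∧ ∀ i, ξ ≠ (x i : ℂ) := by
    intro ξ hξ
    have hξ1 : aeval ξ w1 = 0 := by
      have := (mem_roots ((hw1.map _).ne_zero)).1 hξ
      rwa [IsRoot.def, eval_map_algebraMap] at this
    refine ⟨?_, ?_⟩
    · rw [hw, map_mul, hξ1, mul_zero]
    · intro i hi
      apply hw1x' i
      rw [hi] at hξ1
      have h2 : aeval ((x i : ℂ)) w1 = algebraMap ℚ ℂ (w1.eval (x i : ℚ)) := by
        rw [← aeval_algebraMap_apply_eq_algebraMap_eval]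
        simp
      rw [h2] at hξ1
      exact (map_eq_zero (algebraMap ℚ ℂ)).1 hξ1
  have hr0 : r ≠ 0 := by
    intro h0
    have h := hr ℂ
    rw [h0, map_zero] at h
    have h1 := Multiset.prod_eq_zero_iff.1 h.symm
    obtain ⟨ξ, hξ, hξ0⟩ := Multiset.mem_map.1 h1
    obtain ⟨hξw, hξx⟩ := hroot ξ hξ
    rw [map_mul, aeval_C] at hξ0
    rcases mul_eq_zero.1 hξ0 with h2 | h2
    · simp at h2
    · exact d.re_ne H hξw hξx h2
  have hs0n : s ≠ 0 := by
    intro h0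
    have h := hs ℂ
    rw [h0, map_zero] at h
    have h1 := Multiset.prod_eq_zero_iff.1 h.symm
    obtain ⟨ξ, hξ, hξ0⟩ := Multiset.mem_map.1 h1
    obtain ⟨hξw, _⟩ := hroot ξ hξ
    rw [map_mul, aeval_C] at hξ0
    rcases mul_eq_zero.1 hξ0 with h2 | h2
    · simp at h2
    · exact d.eta_ne H hξw h2
  set T := 2 * d.φ.re.natDegree with hT
  set G : ℚ := (4 * (D : ℚ) ^ 2) ^ d.M * ((D : ℤ) : ℚ) ^ T with hG
  set q : ℚ := r ^ 2 * G ^ w1.natDegree / (d.κ ^ w1.natDegree * s ^ (2 * d.M) * c ^ e) with hq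
  have hDq : ((D : ℤ) : ℚ) ≠ 0 := by exact_mod_cast hD
  have hG0 : G ≠ 0 := by
    rw [hG]
    exact mul_ne_zero (pow_ne_zero _ (mul_ne_zero (by norm_num) (pow_ne_zero 2 hDq)))
      (pow_ne_zero _ hDq)
  have hq0 : q ≠ 0 := by
    rw [hq]
    exact div_ne_zero (mul_ne_zero (pow_ne_zero _ hr0) (pow_ne_zero _ hG0))
      (mul_ne_zero (mul_ne_zero (pow_ne_zero _ d.hκ) (pow_ne_zero _ hs0n)) (pow_ne_zero _ hc0))
  have hq1 : 1 ≤ |q| := by
    apply one_le_abs_of_padic hq0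
    intro p hp
    have h := d.padic p H hD hab hw1 hw e he r s (hr (PadicAlgCl p)) (hs (PadicAlgCl p)) hW hWc
    have hsn : 0 < ‖(s : ℚ_[p])‖ := by
      rw [norm_pos_iff]; exact_mod_cast hs0n
    have hcn : 0 < ‖(c : ℚ_[p])‖ := by
      rw [norm_pos_iff]; exact_mod_cast hc0
    have hkn : 0 < ‖(d.κ : ℚ_[p])‖ := by
      rw [norm_pos_iff]; exact_mod_cast d.hκ
    have h1 : ‖(q : ℚ_[p])‖ = ‖(r : ℚ_[p])‖ ^ 2 *
        (‖((4 * (D : ℚ) ^ 2 : ℚ) : ℚ_[p])‖ ^ d.M * ‖(((D : ℤ) : ℚ) : ℚ_[p])‖ ^ T) ^ w1.natDegree /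
        (‖(d.κ : ℚ_[p])‖ ^ w1.natDegree * ‖(s : ℚ_[p])‖ ^ (2 * d.M) * ‖(c : ℚ_[p])‖ ^ e) := by
      rw [hq, hG]
      simp only [Rat.cast_div, Rat.cast_mul, Rat.cast_pow, norm_div, norm_mul, norm_pow]
    rw [h1, div_le_one (mul_pos (mul_pos (pow_pos hkn _) (pow_pos hsn _)) (pow_pos hcn _))]
    exact h
  have hcp := d.cplx H hK1 hK hX0 hx hw1 hw hs0' e he r s (hr ℂ) (hs ℂ)
  set Λ := (((w.map (algebraMap ℚ ℂ)).roots).map (fun z => max 1 ‖z‖)).prod with hΛ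
  have hΛ1 : 1 ≤ Λ := ne_one_le _ _
  have hΛ0 : 0 < Λ := by linarith
  have hsp : 0 < (|(s : ℝ)|) := abs_pos.2 (by exact_mod_cast hs0n)
  have hcpos : 0 < (|(c : ℝ)|) := abs_pos.2 (by exact_mod_cast hc0)
  have hkpos : 0 < (|(d.κ : ℝ)|) := abs_pos.2 (by exact_mod_cast d.hκ)
  set G1 : ℝ := δ ^ d.M * D1 ^ T with hG1
  have hG10 : 0 ≤ G1 := mul_nonneg (pow_nonneg (by linarith) _) (pow_nonneg (by linarith) _)
  -- archimedean form of `1 ≤ |q|`
  have hq2 : |(d.κ : ℝ)| ^ w1.natDegree * |(s : ℝ)| ^ (2 * d.M) * |(c : ℝ)| ^ e ≤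
      |(r : ℝ)| ^ 2 * G1 ^ w1.natDegree := by
    have h1 : (1 : ℝ) ≤ |(q : ℝ)| := by
      have : ((1 : ℚ) : ℝ) ≤ ((|q| : ℚ) : ℝ) := by exact_mod_cast hq1
      simpa using this
    have h2 : |(q : ℝ)| = |(r : ℝ)| ^ 2 * G1 ^ w1.natDegree /
        (|(d.κ : ℝ)| ^ w1.natDegree * |(s : ℝ)| ^ (2 * d.M) * |(c : ℝ)| ^ e) := by
      rw [hq, hG, hG1, hδ, hD1]
      simp only [Rat.cast_div, Rat.cast_mul, Rat.cast_pow, abs_div, abs_mul, abs_pow]
    rw [h2, one_le_div (mul_pos (mul_pos (pow_pos hkpos _) (pow_pos hsp _))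
      (pow_pos hcpos _))] at h1
    exact h1
  have hG1B : G1 ^ w1.natDegree ≤ (δ ^ n * D1 ^ (n ^ 2)) ^ d.M := by
    have hTn : T ≤ n * d.M := by
      have h3 : 4 * d.φ.re.natDegree + 2 * (w.natDegree * d.M) + d.M ≤ 2 * (n * d.M) := d.hre
      rw [hT]
      omega
    rw [hG1, mul_pow, mul_pow, ← pow_mul, ← pow_mul, ← pow_mul, ← pow_mul]
    apply mul_le_mul _ _ (pow_nonneg (by linarith) _) (pow_nonneg (by linarith) _)
    · apply pow_le_pow_right₀ hδ1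
      rw [mul_comm]
      exact Nat.mul_le_mul_right _ hw1n
    · apply pow_le_pow_right₀ hD11
      calc T * w1.natDegree ≤ (n * d.M) * n := Nat.mul_le_mul hTn hw1n
        _ = n ^ 2 * d.M := by ring
  have hfinal : (|(c : ℝ)| * Λ) ^ e ≤ B ^ d.M := by
    have hP0 : 0 < |(d.κ : ℝ)| ^ w1.natDegree * |(s : ℝ)| ^ (2 * d.M) :=
      mul_pos (pow_pos hkpos _) (pow_pos hsp _)
    have hXK : 0 ≤ (X0 ^ (2 * n ^ 2) * K ^ n) ^ d.M :=
      pow_nonneg (mul_nonneg (pow_nonneg (by linarith) _) (pow_nonneg (by linarith) _)) _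
    have h1 : (|(d.κ : ℝ)| ^ w1.natDegree * |(s : ℝ)| ^ (2 * d.M)) * ((|(c : ℝ)| * Λ) ^ e) ≤
        (|(d.κ : ℝ)| ^ w1.natDegree * |(s : ℝ)| ^ (2 * d.M)) * B ^ d.M := by
      calc (|(d.κ : ℝ)| ^ w1.natDegree * |(s : ℝ)| ^ (2 * d.M)) * ((|(c : ℝ)| * Λ) ^ e)
          = (|(d.κ : ℝ)| ^ w1.natDegree * |(s : ℝ)| ^ (2 * d.M) * |(c : ℝ)| ^ e) * Λ ^ e := by
            rw [mul_pow]; ring
        _ ≤ (|(r : ℝ)| ^ 2 * G1 ^ w1.natDegree) * Λ ^ e :=
            mul_le_mul_of_nonneg_right hq2 (pow_nonneg hΛ0.le _)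
        _ = (|(r : ℝ)| ^ 2 * Λ ^ e) * G1 ^ w1.natDegree := by ring
        _ ≤ ((X0 ^ (2 * n ^ 2) * K ^ n) ^ d.M * |(d.κ : ℝ)| ^ w1.natDegree *
              |(s : ℝ)| ^ (2 * d.M)) * G1 ^ w1.natDegree :=
            mul_le_mul_of_nonneg_right hcp (pow_nonneg hG10 _)
        _ ≤ ((X0 ^ (2 * n ^ 2) * K ^ n) ^ d.M * |(d.κ : ℝ)| ^ w1.natDegree *
              |(s : ℝ)| ^ (2 * d.M)) * (δ ^ n * D1 ^ (n ^ 2)) ^ d.M := by
            apply mul_le_mul_of_nonneg_left hG1B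
            exact mul_nonneg (mul_nonneg hXK (pow_nonneg hkpos.le _)) (pow_nonneg hsp.le _)
        _ = _ := by rw [hB, mul_pow (X0 ^ (2 * n ^ 2) * K ^ n)]; ring
    exact le_of_mul_le_mul_left h1 hP0
  have hbound : |(c : ℝ)| * Λ ≤ B ^ 2 := by
    by_cases hle : |(c : ℝ)| * Λ ≤ 1
    · exact hle.trans (one_le_pow₀ hB1)
    · rw [not_le] at hle
      have hcΛ : 0 ≤ |(c : ℝ)| * Λ := by linarith
      have h1 : (|(c : ℝ)| * Λ) ^ d.M ≤ (B ^ 2) ^ d.M := by
        calc (|(c : ℝ)| * Λ) ^ d.M ≤ (|(c : ℝ)| * Λ) ^ (2 * e) := pow_le_pow_right₀ hle.le he2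
          _ = ((|(c : ℝ)| * Λ) ^ e) ^ 2 := by rw [← pow_mul, mul_comm 2 e]
          _ ≤ (B ^ d.M) ^ 2 := pow_le_pow_left₀ (pow_nonneg hcΛ _) hfinal 2
          _ = (B ^ 2) ^ d.M := by rw [← pow_mul, ← pow_mul, mul_comm]
      exact le_of_pow_le_pow_left₀ d.hM.ne' hBn h1
  -- the Mahler measure of `W`
  have hWC : W.map (Int.castRingHom ℂ) = C ((c : ℚ) : ℂ) * w.map (algebraMap ℚ ℂ) := by
    have h3 := congrArg (Polynomial.map (algebraMap ℚ ℂ)) hWc
    rw [map_map, Polynomial.map_mul, map_C] at h3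
    have h4 : (algebraMap ℚ ℂ).comp (Int.castRingHom ℚ) = Int.castRingHom ℂ := RingHom.ext_int _ _
    rw [h4] at h3
    simpa using h3
  refine ⟨W, ⟨?_, ?_⟩, ?_⟩
  · have h1 : (W.map (Int.castRingHom ℚ)).natDegree = W.natDegree :=
      natDegree_map_eq_of_injective (by exact Int.cast_injective) _
    rw [← h1, hWc, natDegree_C_mul hc0]
    have := d.hdeg
    omega
  · change (W.map (Int.castRingHom ℂ)).mahlerMeasure ≤ B ^ 2
    rw [mahlerMeasure_eq_leadingCoeff_mul_prod_roots, hWC, roots_C_mul _ (by exact_mod_cast hc0),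
      leadingCoeff_mul, leadingCoeff_C, (d.hw.map _).leadingCoeff, mul_one]
    have h1 : ‖((c : ℚ) : ℂ)‖ = |(c : ℝ)| := by
      simp
    rw [h1]
    exact hbound
  · simp only
    rw [hWc, leadingCoeff_mul, leadingCoeff_C, d.hw.leadingCoeff, mul_one, ← mul_assoc, ← C_mul,
      inv_mul_cancel₀ hc0, C_1, one_mul]

end Pool.TT
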