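import Pool.Agent.Lib.MP_695920_nt.TT.NTPigeon
import Pool.Agent.Lib.MP_695920_nt.TT.Even.ERed
import Pool.Agent.Lib.MP_695920_nt.TT.Even.NEComplex
import Pool.Agent.Lib.MP_695920_nt.TT.Even.NEFin

/-! TT, letter G for even degree: `Cl / Cl ^ 2` bounds the rank of the classes of integral points
(helper26; the near-torsion set is finite). -/

set_option autoImplicit false

open Polynomial

namespace Pool.TT

/-- finitely many classes for one `w` -/
theorem ne_finite_fibre (f : ℚ[X]) [hg : GoodF f] (w : ℚ[X]) (hw : w ≠ 0) :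
    {c : ClassGroup (Crd f) | ∃ v : ℚ[X], w ∣ f - v ^ 2 ∧ cle f w v = c}.Finite := by
  classical
  have hne : Ideal.span {(⟨w, 0⟩ : Crd f)} ≠ ⊥ := by
    rw [Ne, Ideal.span_singleton_eq_bot]
    intro h
    exact hw (congrArg QuadraticAlgebra.re h)
  have hfin : {J : Ideal (Crd f) | J ∣ Ideal.span {(⟨w, 0⟩ : Crd f)}}.Finite := by
    rw [← Set.finite_coe_iff]
    exact @Finite.of_fintype _
      (UniqueFactorizationMonoid.fintypeSubtypeDvd (Ideal.span {(⟨w, 0⟩ : Crd f)}) hne)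
  let F : Ideal (Crd f) → ClassGroup (Crd f) := fun J =>
    if h : J ≠ ⊥ then ClassGroup.mk0 ⟨J, mem_nonZeroDivisors_of_ne_zero h⟩ else 1
  refine (hfin.image F).subset ?_
  rintro c ⟨v, hv, hc⟩
  refine ⟨pt f w v, ⟨pt f w (-v), (pt_mul_conj f hg.sqf w v hv).symm⟩, ?_⟩
  simp only [F]
  rw [dif_pos (pt_ne_bot f w v)]
  exact hc

section Rank

variable {ι : Type*} [Fintype ι] {f0 : ℤ[X]} [hg : GoodF (f0.map (Int.castRingHom ℚ))]

/-- data from a near-torsion relation, even degree -/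
theorem ne_data (H : NEHyp f0) {h : ℕ} (hn : f0.natDegree = 2 * h) {Y : LS}
    (hY : Y * Y = iot (f0.map (Int.castRingHom ℚ))) (x y : ι → ℤ)
    (heq : ∀ i, y i ^ 2 = f0.eval (x i))
    (c : ClassGroup (Crd (f0.map (Int.castRingHom ℚ)))) (M : ℕ)
    (m : ι → ℤ) (hM : 0 < M)
    (hc : c ^ M = ∏ i, cle (f0.map (Int.castRingHom ℚ)) (X - C (x i : ℚ)) (C (y i : ℚ)) ^ m i)
    (hm : 2 * ∑ i, |m i| ≤ (M : ℤ)) :
    ∃ w v : ℚ[X], w ∣ f0.map (Int.castRingHom ℚ) - v ^ 2 ∧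
      cle (f0.map (Int.castRingHom ℚ)) w v = c ∧ Nonempty (NEData f0 x w) := by
  classical
  have hnf : (f0.map (Int.castRingHom ℚ)).natDegree = 2 * h := by
    rw [H.monic.natDegree_map, hn]
  let e : ι → ℤ := fun i => if 0 ≤ m i then -y i else y i
  let a : ι → ℕ := fun i => (m i).natAbs
  have hpt : ∀ i, (X - C (x i : ℚ)) ∣ f0.map (Int.castRingHom ℚ) - (C (y i : ℚ)) ^ 2 := by
    intro i
    rw [dvd_iff_isRoot, IsRoot.def, eval_sub, eval_pow, eval_C, eval_intCast_map]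
    have h := heq i
    have h2 : ((f0.eval (x i) : ℤ) : ℚ) = (y i : ℚ) ^ 2 := by
      rw [← h]; push_cast; ring
    simp only [eq_intCast, Int.cast_id]
    rw [h2]; ring
  have hpte : ∀ i, (X - C (x i : ℚ)) ∣ f0.map (Int.castRingHom ℚ) - (C (e i : ℚ)) ^ 2 := by
    intro i
    have h1 : (C (e i : ℚ) : ℚ[X]) ^ 2 = (C (y i : ℚ)) ^ 2 := by
      simp only [e]
      split_ifs
      · push_cast
        rw [C_neg, neg_sq]
      · rfl
    rw [h1]
    exact hpt i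
  have hcle : ∀ i, cle (f0.map (Int.castRingHom ℚ)) (X - C (x i : ℚ)) (C (e i : ℚ)) ^ a i =
      (cle (f0.map (Int.castRingHom ℚ)) (X - C (x i : ℚ)) (C (y i : ℚ)) ^ m i)⁻¹ := by
    intro i
    simp only [e, a]
    by_cases h : 0 ≤ m i
    · rw [if_pos h]
      have h1 : (C (((-y i : ℤ)) : ℚ) : ℚ[X]) = -C (y i : ℚ) := by
        push_cast
        rw [C_neg]
      rw [h1, cle_neg (f0.map (Int.castRingHom ℚ)) _ _ (hpt i)]
      obtain ⟨k, hk⟩ := Int.eq_ofNat_of_zero_le h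
      rw [hk]
      simp
    · rw [if_neg h]
      rw [← zpow_natCast, Int.ofNat_natAbs_of_nonpos (by omega), zpow_neg]
  obtain ⟨w, v, φ, hw, hdeg, -, hdvd, hcl, -, hspan, ⟨κ, hκ, hnorm⟩, hre⟩ :=
    exists_reduced_even hY hnf (fun i => X - C (x i : ℚ)) (fun i => C (e i : ℚ)) a
      (fun i => monic_X_sub_C _) hpte c M hM (by
        rw [Finset.prod_congr rfl (fun i _ => hcle i), hc, Finset.prod_inv_distrib,
          mul_inv_cancel])
  refine ⟨w, v, hdvd, hcl, ?_⟩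
  have ha : 2 * ∑ i, a i ≤ M := by
    have h1 : ((2 * ∑ i, a i : ℕ) : ℤ) ≤ (M : ℤ) := by
      push_cast
      simp only [a, Int.natCast_natAbs]
      exact hm
    exact_mod_cast h1
  have hdeg' : 2 * w.natDegree < f0.natDegree := by
    rwa [H.monic.natDegree_map] at hdeg
  refine ⟨⟨v, M, a, fun i => C (e i : ℚ), φ, κ, hw, hdeg', hdvd, hM, ha, hκ, hspan, hnorm, ?_⟩⟩
  have hS : ∑ i, a i * (X - C (x i : ℚ) : ℚ[X]).natDegree = ∑ i, a i := by
    refine Finset.sum_congr rfl fun i _ => ?_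
    rw [natDegree_X_sub_C, mul_one]
  rw [hS] at hre
  have hd : w.natDegree + 1 ≤ h := by omega
  have hd2 : (w.natDegree + 1) * M ≤ h * M := Nat.mul_le_mul_right _ hd
  rw [hn]
  nlinarith

/-- G: `Cl/Cl^2` bounds the rank of the classes of integral points, even degree. -/
theorem class_rank_even_aux (H : NEHyp f0) {h : ℕ} (hn : f0.natDegree = 2 * h) {Y : LS}
    (hY : Y * Y = iot (f0.map (Int.castRingHom ℚ))) (x y : ι → ℤ)
    (heq : ∀ i, y i ^ 2 = f0.eval (x i)) (r : ℕ)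
    (hfin : Finite (ClassGroup (Crd (f0.map (Int.castRingHom ℚ))) ⧸
      (powMonoidHom 2 : ClassGroup (Crd (f0.map (Int.castRingHom ℚ))) →* _).range))
    (hr : Nat.card (ClassGroup (Crd (f0.map (Int.castRingHom ℚ))) ⧸
      (powMonoidHom 2 : ClassGroup (Crd (f0.map (Int.castRingHom ℚ))) →* _).range) ≤ 2 ^ r)
    (S : Finset ι) (hS : r < S.card) :
    ∃ m : ι → ℤ, m ≠ 0 ∧ (∀ i, i ∉ S → m i = 0) ∧
      ∏ i, cle (f0.map (Int.castRingHom ℚ)) (X - C (x i : ℚ)) (C (y i : ℚ)) ^ m i = 1 := by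
  obtain ⟨K, hK1, hK⟩ := Pool.TTE.complex_bound_all f0 H.monic H.two (ne_exists_bezout H)
  refine exists_dependent _ r ?_ hr S hS
  have hW := ne_finite_w H hK1 hK x
  refine (hW.biUnion (t := fun w => {c : ClassGroup (Crd (f0.map (Int.castRingHom ℚ))) |
    ∃ v : ℚ[X], w ∣ f0.map (Int.castRingHom ℚ) - v ^ 2 ∧
      cle (f0.map (Int.castRingHom ℚ)) w v = c}) ?_).subset ?_
  · rintro w ⟨d⟩
    exact ne_finite_fibre (f0.map (Int.castRingHom ℚ)) w d.hw.ne_zero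
  · rintro c ⟨M, m, hM, hc, hm⟩
    obtain ⟨w, v, hdvd, hcl, hd⟩ := ne_data H hn hY x y heq c M m hM hc hm
    exact Set.mem_biUnion hd ⟨v, hdvd, hcl⟩

end Rank

end Pool.TT
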