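import Pool.Agent.Lib.MP_695920_nt.TT.Even.EPts
import Pool.Agent.Lib.MP_695920_nt.TT.Even.NEClassRank

set_option autoImplicit false

/-!
TEAM TWOTORSION, even degree: near-torsion (OWNER helper26, with helper25).
-/

open Polynomial Pool.TT

namespace Pool.TTE

/-- `Cl/Cl^2` bounds the rank of the classes of integral points. -/
theorem class_rank_even {ι : Type*} [Fintype ι] (P : EPts ι) (r : ℕ)
    (hfin : Finite (ClassGroup (Crd P.f) ⧸ (powMonoidHom 2 : ClassGroup (Crd P.f) →* _).range))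
    (hr : Nat.card (ClassGroup (Crd P.f) ⧸ (powMonoidHom 2 : ClassGroup (Crd P.f) →* _).range) ≤
      2 ^ r) (S : Finset ι) (hS : r < S.card) :
    ∃ m : ι → ℤ, m ≠ 0 ∧ (∀ i, i ∉ S → m i = 0) ∧ ∏ i, P.cls i ^ m i = 1 := by
  obtain ⟨s, -, hs⟩ := P.root
  obtain ⟨h, hh⟩ := P.even
  have hn : P.f0.natDegree = 2 * h := by rw [hh]; ring
  have H : NEHyp P.f0 := ⟨P.monic, P.f_irr, by have := P.four; omega⟩
  obtain ⟨Y, hY⟩ := exists_Y P.f0 P.monic hn s hs
  have hg : GoodF (P.f0.map (Int.castRingHom ℚ)) :=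
    ⟨P.f_irr.squarefree, P.f_irr.natDegree_pos⟩
  exact class_rank_even_aux H hn hY P.x P.y P.eq r hfin hr S hS

end Pool.TTE
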