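import Pool.Agent.Lib.MP_695920_nt.TT.Even.ERing

set_option autoImplicit false

/-!
TEAM TWOTORSION, EVEN DEGREES: reduced representatives `(w, y - v)`, `2 deg w < deg f`, of the
classes, for monic squarefree `f` of any degree.
-/

open Polynomial

namespace Pool.TT

/-- Every class has a reduced representative (`f` monic squarefree, not constant, any degree). -/
theorem exists_reduced_g (f : ℚ[X]) [hg : GoodF f] (hm : f.Monic) (c : ClassGroup (Crd f)) :
    ∃ w v : ℚ[X], w.Monic ∧ 2 * w.natDegree < f.natDegree ∧ v.degree < w.degree ∧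
      w ∣ f - v ^ 2 ∧ cle f w v = c := by
  classical
  have hex : ∃ m : ℕ, ∃ w v : ℚ[X], w.Monic ∧ w ∣ f - v ^ 2 ∧ cle f w v = c ∧
      w.natDegree = m := by
    obtain ⟨w, v, hw, -, hd, hc⟩ := exists_rep f c
    exact ⟨_, w, v, hw, hd, hc, rfl⟩
  obtain ⟨w, v1, hw, hwv1, hcl1, hdeg⟩ := Nat.find_spec hex
  set v := v1 %ₘ w with hv
  have hvv : w ∣ v1 - v := by
    refine ⟨v1 /ₘ w, ?_⟩
    have := modByMonic_add_div v1 w
    linear_combination -this
  have hwv : w ∣ f - v ^ 2 := dvd_of_congr hwv1 hvv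
  have hcl : cle f w v = c := by rw [← cle_congr f hwv1 hvv, hcl1]
  have hvw : v.degree < w.degree := degree_modByMonic_lt _ hw
  refine ⟨w, v, hw, ?_, hvw, hwv, hcl⟩
  by_contra hlt
  push Not at hlt
  have hpos : 0 < f.natDegree := hg.pos
  have hwpos : 0 < w.natDegree := by omega
  have hvd : v.natDegree < w.natDegree := by
    rcases eq_or_ne v 0 with h | h
    · rw [h, natDegree_zero]
      exact hwpos
    · exact natDegree_lt_natDegree h hvw
  -- a representative `V` of `v` with `deg (f - V ^ 2) < 2 deg w`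
  obtain ⟨V, hV1, hV2⟩ : ∃ V : ℚ[X], w ∣ v - V ∧ (f - V ^ 2).natDegree < 2 * w.natDegree := by
    rcases Nat.lt_or_ge f.natDegree (2 * w.natDegree) with h | h
    · refine ⟨v, by simp, ?_⟩
      refine lt_of_le_of_lt (natDegree_sub_le _ _) ?_
      rw [max_lt_iff, natDegree_pow]
      omega
    · have he : f.natDegree = 2 * w.natDegree := le_antisymm hlt h
      refine ⟨v + w, ⟨-1, by ring⟩, ?_⟩
      have hVm : (v + w).Monic := hw.add_of_right hvw
      have hVd : (v + w).natDegree = w.natDegree :=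
        natDegree_add_eq_right_of_natDegree_lt hvd
      have h1 : (f - (v + w) ^ 2).degree < f.degree := by
        refine degree_sub_lt ?_ hm.ne_zero ?_
        · rw [degree_eq_natDegree hm.ne_zero, degree_eq_natDegree (hVm.pow 2).ne_zero, natDegree_pow,
            hVd, he]
        · rw [hm.leadingCoeff, (hVm.pow 2).leadingCoeff]
      have h2 : f - (v + w) ^ 2 ≠ 0 := sub_sq_ne_zero_g hg.sqf hg.pos _
      rw [← he]
      exact natDegree_lt_natDegree h2 h1
  have hwV : w ∣ f - V ^ 2 := dvd_of_congr hwv hV1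
  have hclV : cle f w V = c := by rw [← cle_congr f hwv hV1, hcl]
  obtain ⟨w1, hw1⟩ := hwV
  have hfv : f - V ^ 2 ≠ 0 := sub_sq_ne_zero_g hg.sqf hg.pos V
  have hw10 : w1 ≠ 0 := by
    rintro rfl
    exact hfv (by rw [hw1, mul_zero])
  have hlc : w1.leadingCoeff ≠ 0 := leadingCoeff_ne_zero.2 hw10
  have hd2 : (f - V ^ 2).natDegree = w.natDegree + w1.natDegree := by
    rw [hw1, natDegree_mul hw.ne_zero hw10]
  have hmul : w * (w1 * C w1.leadingCoeff⁻¹) = C w1.leadingCoeff⁻¹ * (f - V ^ 2) := by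
    rw [hw1]
    ring
  have hstep := cle_step f (inv_ne_zero hlc) hmul
  refine Nat.find_min hex (m := w1.natDegree) (by omega)
    ⟨w1 * C w1.leadingCoeff⁻¹, -V, monic_mul_leadingCoeff_inv hw10, ?_, ?_, ?_⟩
  · rw [neg_sq]
    have : w1 * C w1.leadingCoeff⁻¹ ∣ C w1.leadingCoeff⁻¹ * (f - V ^ 2) :=
      ⟨w, by rw [← hmul, mul_comm]⟩
    exact (IsUnit.dvd_mul_left (isUnit_C.2 (isUnit_iff_ne_zero.2 (inv_ne_zero hlc)))).1 this
  · rw [← hstep, hclV]
  · rw [natDegree_mul_C (inv_ne_zero hlc)]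

end Pool.TT
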