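import Pool.Agent.Lib.MP_695920_nt.TT.EvenVal

set_option autoImplicit false

/-!
TEAM TWOTORSION (any degree), letter F: the image of the 2-descent map modulo `ℚ^*` is
unramified outside `2 disc f`.
-/

open Polynomial NumberField IsDedekindDomain

namespace Pool.TT

/-- In a principal ideal domain `S` with fraction field `M`: if `y^2 = f(x)`, `f` monic,
`f(θ) = 0` and `f'(θ)` is a unit, then `x = p / q` with `p, q` coprime and `p - θ q` a unit times
a square. -/
theorem unit_mul_sq_pq {S M : Type*} [CommRing S] [IsDomain S] [IsPrincipalIdealRing S] [Field M]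
    [Algebra S M] [IsFractionRing S M] (f : S[X]) (hm : f.Monic) (θ : S)
    (hθ : f.eval θ = 0) (hu : IsUnit (f.derivative.eval θ)) (x y : M)
    (hxy : y ^ 2 = Polynomial.aeval x f) :
    ∃ (p q : S), q ≠ 0 ∧ IsCoprime p q ∧ algebraMap S M p = algebraMap S M q * x ∧
      ∃ (u : Sˣ) (b : S), p - θ * q = u * b ^ 2 := by
  classical
  set i := algebraMap S M with hi
  have hinj : Function.Injective i := IsFractionRing.injective S M
  obtain ⟨g, hg⟩ : ∃ g : S[X], f = (X - C θ) * g := by
    have := dvd_iff_isRoot.2 hθ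
    exact this
  have hgm : g.Monic := by
    have := hm
    rw [hg] at this
    exact (monic_X_sub_C θ).of_mul_monic_left this
  have hgu : IsUnit (g.eval θ) := by
    have : f.derivative.eval θ = g.eval θ := by
      rw [hg]; simp [derivative_mul]
    rwa [this] at hu
  -- numerator and denominator
  obtain ⟨p, q, hq0, hcop, hx⟩ : ∃ p q : S, q ≠ 0 ∧ IsCoprime p q ∧ x = i p / i q := by
    refine ⟨IsFractionRing.num S x, IsFractionRing.den S x, ?_, ?_, ?_⟩
    · exact nonZeroDivisors.coe_ne_zero _
    · exact (IsFractionRing.num_den_reduced S x).isCoprime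
    · exact (IsFractionRing.mk'_num_den' S x).symm
  have hq0' : i q ≠ 0 := by simpa using (map_ne_zero_iff i hinj).2 hq0
  have h4 : i p = i q * x := by rw [hx]; field_simp
  set E : S := (g.scaleRoots q).eval p with hE
  have hE' : i E = i q ^ g.natDegree * Polynomial.aeval x g := by
    have h1 := scaleRoots_eval₂_mul (p := g) i x q
    rw [← h4] at h1
    rw [hE, ← Polynomial.eval₂_at_apply, h1, Polynomial.aeval_def]
  have h3 : Polynomial.aeval x f = (x - i θ) * Polynomial.aeval x g := by
    rw [hg]; simp [hi]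
  -- coprimality
  have hc1 : IsCoprime q (p - θ * q) := by
    have : IsCoprime q p := hcop.symm
    have h := this.add_mul_right_right (-θ)
    convert h using 1; ring
  have hpE : IsCoprime (p - θ * q) E := by
    have h1 : (p - q * θ) ∣ E - (g.scaleRoots q).eval (q * θ) :=
      Polynomial.sub_dvd_eval_sub _ _ _
    rw [scaleRoots_eval_mul] at h1
    obtain ⟨t, ht⟩ := h1
    have h2 : E = q ^ g.natDegree * g.eval θ + (p - θ * q) * t := by
      have : (p - θ * q) * t = (p - q * θ) * t := by ring
      rw [this, ← ht]; ring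
    rw [h2]
    have h3 : IsCoprime (p - θ * q) (q ^ g.natDegree * g.eval θ) := by
      refine IsCoprime.mul_right (hc1.symm.pow_right) ?_
      obtain ⟨r, hr⟩ := hgu.exists_left_inv
      exact ⟨0, r, by rw [zero_mul, zero_add, hr]⟩
    exact h3.add_mul_left_right t
  -- the square
  obtain ⟨e, k, hek⟩ : ∃ e k : ℕ, g.natDegree + 1 + e = 2 * k := by
    rcases Nat.even_or_odd' g.natDegree with ⟨c, hc | hc⟩
    · exact ⟨1, c + 1, by omega⟩
    · exact ⟨0, c + 1, by omega⟩
  have hz2 : (y * i q ^ k) ^ 2 = i ((p - θ * q) * (q ^ e * E)) := by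
    rw [map_mul, map_mul, hE', map_sub, map_mul, h4, mul_pow, hxy, h3, ← pow_mul,
      mul_comm k 2, ← hek, map_pow]
    ring
  obtain ⟨z, hz⟩ : ∃ z : S, i z = y * i q ^ k := by
    have hint : IsIntegral S (y * i q ^ k) := by
      refine IsIntegral.of_pow (n := 2) (by norm_num) ?_
      rw [hz2]
      exact isIntegral_algebraMap
    exact IsIntegrallyClosed.isIntegral_iff.1 hint
  have hzz : (p - θ * q) * (q ^ e * E) = z ^ 2 := by
    apply hinj
    rw [map_pow, hz, hz2]
  obtain ⟨b, hb⟩ := exists_associated_pow_of_mul_eq_pow'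
    (IsCoprime.mul_right (hc1.symm.pow_right) hpE) hzz
  obtain ⟨u, hu⟩ := hb
  exact ⟨p, q, hq0, hcop, h4, u, b, by rw [← hu]; ring⟩

/-- `W` is primitive for the valuation `ν`. -/
def Prim {K Γ : Type*} [Field K] [LinearOrderedCommGroupWithZero Γ] (ν : Valuation K Γ)
    (W : K[X]) : Prop :=
  (∀ i, ν (W.coeff i) ≤ 1) ∧ ∃ i, ν (W.coeff i) = 1

theorem Prim.mul {K Γ : Type*} [Field K] [LinearOrderedCommGroupWithZero Γ] {ν : Valuation K Γ}
    {P Q : K[X]} (hP : Prim ν P) (hQ : Prim ν Q) : Prim ν (P * Q) := by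
  classical
  obtain ⟨hP1, hP2⟩ := hP
  obtain ⟨hQ1, hQ2⟩ := hQ
  refine ⟨fun n => ?_, ?_⟩
  · rw [coeff_mul]
    refine Valuation.map_sum_le ν fun x _ => ?_
    rw [map_mul]
    exact mul_le_one' (hP1 _) (hQ1 _)
  · set i := Nat.find hP2 with hi
    set j := Nat.find hQ2 with hj
    have hi1 : ν (P.coeff i) = 1 := Nat.find_spec hP2
    have hj1 : ν (Q.coeff j) = 1 := Nat.find_spec hQ2
    have hi2 : ∀ k < i, ν (P.coeff k) < 1 := fun k hk =>
      lt_of_le_of_ne (hP1 k) (Nat.find_min hP2 hk)
    have hj2 : ∀ k < j, ν (Q.coeff k) < 1 := fun k hk =>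
      lt_of_le_of_ne (hQ1 k) (Nat.find_min hQ2 hk)
    refine ⟨i + j, ?_⟩
    have hmem : (i, j) ∈ Finset.HasAntidiagonal.antidiagonal (i + j) := by simp
    rw [coeff_mul, ← Finset.add_sum_erase _ _ hmem]
    have h1 : ν (P.coeff i * Q.coeff j) = 1 := by rw [map_mul, hi1, hj1, one_mul]
    have h2 : ν (∑ x ∈ (Finset.HasAntidiagonal.antidiagonal (i + j)).erase (i, j),
        P.coeff x.1 * Q.coeff x.2) < 1 := by
      refine Valuation.map_sum_lt ν one_ne_zero fun x hx => ?_
      rw [Finset.mem_erase] at hx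
      obtain ⟨hx1, hx2'⟩ := hx
      have hx2 : x.1 + x.2 = i + j := by simpa using hx2'
      rw [map_mul]
      rcases lt_trichotomy x.1 i with h | h | h
      · calc ν (P.coeff x.1) * ν (Q.coeff x.2) ≤ ν (P.coeff x.1) * 1 := by
              gcongr; exact hQ1 _
          _ < 1 := by rw [mul_one]; exact hi2 _ h
      · exfalso
        apply hx1
        ext
        · exact h
        · show x.2 = j
          omega
      · have h3 : x.2 < j := by omega
        calc ν (P.coeff x.1) * ν (Q.coeff x.2) ≤ 1 * ν (Q.coeff x.2) := by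
              gcongr; exact hP1 _
          _ < 1 := by rw [one_mul]; exact hj2 _ h3
    rw [Valuation.map_add_eq_of_lt_left ν (by rw [h1]; exact h2), h1]

theorem Prim.unique {K Γ : Type*} [Field K] [LinearOrderedCommGroupWithZero Γ]
    {ν : Valuation K Γ} {W : K[X]} {c d : K} (hc : Prim ν (C c * W)) (hd : Prim ν (C d * W)) :
    ν c = ν d := by
  have key : ∀ a b : K, Prim ν (C a * W) → Prim ν (C b * W) → ν a ≤ ν b := by
    intro a b ha hb
    obtain ⟨i, hi⟩ := hb.2
    have h1 := ha.1 i
    rw [coeff_C_mul, map_mul] at hi h1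
    have hw : ν (W.coeff i) ≠ 0 := by
      intro h0
      rw [h0, mul_zero] at hi
      exact zero_ne_one hi
    rw [← hi] at h1
    exact le_of_mul_le_mul_right h1 (zero_lt_iff.2 hw)
  exact le_antisymm (key c d hc hd) (key d c hd hc)

theorem prod_embeddings {K M Ω : Type*} [Field K] [CharZero K] [Field M] [Algebra K M]
    [FiniteDimensional K M] [Algebra.IsSeparable K M] [Field Ω] [Algebra K Ω] [IsAlgClosed Ω]
    (pb : PowerBasis K M) (p q : M) (hp : p = q * pb.gen) :
    (C (Algebra.norm K q) * minpoly K pb.gen).map (algebraMap K Ω) =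
      ∏ σ : M →ₐ[K] Ω, (C (σ q) * X - C (σ p)) := by
  classical
  have hinf : (Set.range (algebraMap K Ω)).Infinite :=
    Set.infinite_range_of_injective (algebraMap K Ω).injective
  refine Polynomial.eq_of_infinite_eval_eq _ _ (hinf.mono ?_)
  rintro _ ⟨t, rfl⟩
  show eval _ _ = eval _ _
  rw [Polynomial.eval_map_apply, eval_mul, eval_C, ← norm_algebraMap_sub_gen, ← map_mul,
    Algebra.norm_eq_prod_embeddings K Ω, Polynomial.eval_prod]
  refine Finset.prod_congr rfl fun σ _ => ?_
  rw [mul_sub, ← hp]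
  simp

/-- (E2): `N(q) h` is primitive, where `x = p / q` is a root of `h` and `p, q` are coprime
integral elements. -/
theorem prim_norm {O K M : Type*} [CommRing O] [IsDomain O] [IsDiscreteValuationRing O]
    [Field K] [CharZero K] [Algebra O K] [IsFractionRing O K] {Γ : Type*}
    [LinearOrderedCommGroupWithZero Γ] (ν : Valuation K Γ)
    (hν : ν.Integers O) [Field M] [Algebra K M] [FiniteDimensional K M]
    [Algebra O M] [IsScalarTower O K M] (pb : PowerBasis K M) (p q a b : M)
    (hp : p = q * pb.gen) (ip : IsIntegral O p) (iq : IsIntegral O q) (ia : IsIntegral O a)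
    (ib : IsIntegral O b) (hab : a * p + b * q = 1) :
    Prim ν (C (Algebra.norm K q) * minpoly K pb.gen) := by
  classical
  let Ω := AlgebraicClosure K
  have hst : IsScalarTower O K Ω := inferInstance
  let T := integralClosure O Ω
  have hinjT : Function.Injective (algebraMap T Ω) := Subtype.val_injective
  have hOΩ : Function.Injective (algebraMap O Ω) := by
    rw [IsScalarTower.algebraMap_eq O K Ω]
    exact (algebraMap K Ω).injective.comp (IsFractionRing.injective O K)
  have hOT : Function.Injective (algebraMap O T) := by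
    intro x y hxy
    apply hOΩ
    have := congrArg (algebraMap T Ω) hxy
    rwa [← IsScalarTower.algebraMap_apply, ← IsScalarTower.algebraMap_apply] at this
  obtain ⟨Q, hQm, hQ⟩ := Ideal.exists_ideal_over_maximal_of_isIntegral (S := T)
    (IsLocalRing.maximalIdeal O) (by
      rw [(RingHom.injective_iff_ker_eq_bot _).1 hOT]; exact bot_le)
  have hσ : ∀ (σ : M →ₐ[K] Ω) (z : M), IsIntegral O z → IsIntegral O (σ z) := by
    intro σ z hz
    exact hz.map (σ.restrictScalars O)
  -- integral lifts
  let L : (z : M) → IsIntegral O z → (M →ₐ[K] Ω) → T := fun z hz σ => ⟨σ z, hσ σ z hz⟩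
  let F : T[X] := ∏ σ : M →ₐ[K] Ω, (C (L q iq σ) * X - C (L p ip σ))
  have hF : F.map (algebraMap T Ω) =
      (C (Algebra.norm K q) * minpoly K pb.gen).map (algebraMap K Ω) := by
    rw [prod_embeddings pb p q hp]
    simp only [F, Polynomial.map_prod, Polynomial.map_sub, Polynomial.map_mul, Polynomial.map_C,
      Polynomial.map_X]
    rfl
  set G := C (Algebra.norm K q) * minpoly K pb.gen with hG
  -- coefficients
  have hco : ∀ i, algebraMap T Ω (F.coeff i) = algebraMap K Ω (G.coeff i) := by
    intro i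
    rw [← Polynomial.coeff_map, hF, Polynomial.coeff_map]
  have hO : ∀ i, ∃ c : O, algebraMap O K c = G.coeff i := by
    intro i
    have h1 : IsIntegral O (algebraMap K Ω (G.coeff i)) := by
      rw [← hco i]
      exact (F.coeff i).2
    have h2 : IsIntegral O (G.coeff i) :=
      (isIntegral_algebraMap_iff (algebraMap K Ω).injective).1 h1
    exact IsIntegrallyClosed.isIntegral_iff.1 h2
  refine ⟨fun i => ?_, ?_⟩
  · obtain ⟨c, hc⟩ := hO i
    rw [← hc]
    exact hν.map_le_one c
  · by_contra hcon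
    push Not at hcon
    have hmem : ∀ i, F.coeff i ∈ Q := by
      intro i
      obtain ⟨c, hc⟩ := hO i
      have h1 : c ∈ IsLocalRing.maximalIdeal O := by
        rw [IsLocalRing.mem_maximalIdeal, mem_nonunits_iff, hν.isUnit_iff_valuation_eq_one, hc]
        exact hcon i
      have h2 : algebraMap O T c = F.coeff i := by
        apply hinjT
        rw [hco i, ← hc, ← IsScalarTower.algebraMap_apply, ← IsScalarTower.algebraMap_apply]
      rw [← hQ, Ideal.mem_comap, h2] at h1
      exact h1
    have hz : F.map (Ideal.Quotient.mk Q) = 0 := by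
      ext i
      rw [Polynomial.coeff_map, coeff_zero]
      exact Ideal.Quotient.eq_zero_iff_mem.2 (hmem i)
    have hdom : IsDomain (T ⧸ Q) := Ideal.Quotient.isDomain Q
    simp only [F, Polynomial.map_prod, Finset.prod_eq_zero_iff] at hz
    obtain ⟨σ, -, h0⟩ := hz
    rw [Polynomial.map_sub, Polynomial.map_mul, Polynomial.map_C, Polynomial.map_X,
      Polynomial.map_C] at h0
    have h1 : Ideal.Quotient.mk Q (L q iq σ) = 0 := by
      have := congrArg (fun P => Polynomial.coeff P 1) h0
      simpa using this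
    have h2 : Ideal.Quotient.mk Q (L p ip σ) = 0 := by
      have := congrArg (fun P => Polynomial.coeff P 0) h0
      simpa using this
    have h3 : L a ia σ * L p ip σ + L b ib σ * L q iq σ = 1 := by
      apply hinjT
      show σ a * σ p + σ b * σ q = 1
      rw [← map_mul, ← map_mul, ← map_add, hab, map_one]
    have h4 := congrArg (Ideal.Quotient.mk Q) h3
    rw [map_add, map_mul, map_mul, h1, h2, mul_zero, mul_zero, add_zero, map_one] at h4
    exact zero_ne_one h4

/-- (E3) one irreducible factor over `K`, any degree of `f`. -/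
theorem isSquare_irred_g {O K : Type*} [CommRing O] [IsDomain O] [IsDiscreteValuationRing O]
    [Field K] [CharZero K] [Algebra O K] [IsFractionRing O K] {Γ : Type*}
    [LinearOrderedCommGroupWithZero Γ] (ν : Valuation K Γ) (hν : ν.Integers O)
    (f : O[X]) (hm : f.Monic) (θ : O) (hθ : f.eval θ = 0) (hu : IsUnit (f.derivative.eval θ))
    (h V : K[X]) (hh : Irreducible h) (hhm : h.Monic)
    (hdvd : h ∣ f.map (algebraMap O K) - V ^ 2) :
    ∃ c : K, c ≠ 0 ∧ Prim ν (C c * h) ∧ IsSquare (ν (c * h.eval (algebraMap O K θ))) := by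
  have hfact : Fact (Irreducible h) := ⟨hh⟩
  have hh0 : h ≠ 0 := hh.ne_zero
  have hfd : FiniteDimensional K (AdjoinRoot h) :=
    Module.Finite.of_basis (AdjoinRoot.powerBasis hh0).basis
  have hst : IsScalarTower O K (AdjoinRoot h) := inferInstance
  have hxy : (Polynomial.aeval (AdjoinRoot.root h) V) ^ 2 =
      Polynomial.aeval (AdjoinRoot.root h) f := by
    have h1 : Polynomial.aeval (AdjoinRoot.root h) (f.map (algebraMap O K) - V ^ 2) = 0 := by
      obtain ⟨t, ht⟩ := hdvd
      rw [ht, map_mul]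
      have : Polynomial.aeval (AdjoinRoot.root h) h = 0 := by
        rw [AdjoinRoot.aeval_eq, AdjoinRoot.mk_self]
      rw [this, zero_mul]
    rw [map_sub, map_pow, Polynomial.aeval_map_algebraMap, sub_eq_zero] at h1
    exact h1.symm
  have hpid : IsPrincipalIdealRing (integralClosure O (AdjoinRoot h)) :=
    pid_integralClosure O K (AdjoinRoot h)
  have hfr : IsFractionRing (integralClosure O (AdjoinRoot h)) (AdjoinRoot h) :=
    integralClosure.isFractionRing_of_finite_extension K (AdjoinRoot h)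
  set S := integralClosure O (AdjoinRoot h) with hS
  set j : O →+* S := algebraMap O S with hj
  obtain ⟨p, q, hq0, ⟨a, b, hab⟩, hpq, u, β, hβ⟩ := unit_mul_sq_pq (S := S) (M := AdjoinRoot h)
    (f.map j) (hm.map j) (j θ) (by rw [Polynomial.eval_map_apply, hθ, map_zero])
    (by
      rw [derivative_map, Polynomial.eval_map_apply]
      exact hu.map j) (AdjoinRoot.root h) (Polynomial.aeval (AdjoinRoot.root h) V) (by
      rw [hxy, Polynomial.aeval_map_algebraMap])
  set pb := AdjoinRoot.powerBasis hh0 with hpb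
  have hgen : pb.gen = AdjoinRoot.root h := AdjoinRoot.powerBasis_gen hh0
  have hmin : minpoly K pb.gen = h := by
    rw [hgen, AdjoinRoot.minpoly_root hh0, hhm.leadingCoeff, inv_one, map_one, mul_one]
  have hinjS : Function.Injective (algebraMap S (AdjoinRoot h)) :=
    IsFractionRing.injective S (AdjoinRoot h)
  have hq' : (q : AdjoinRoot h) ≠ 0 := by
    intro h0
    apply hq0
    apply hinjS
    rw [map_zero]
    exact h0
  refine ⟨Algebra.norm K (q : AdjoinRoot h), ?_, ?_, ?_⟩
  · exact (Algebra.norm_ne_zero_iff).2 hq'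
  · have := prim_norm (M := AdjoinRoot h) ν hν pb (p : AdjoinRoot h) q a b
      (by rw [hgen]; exact hpq) p.2 q.2 a.2 b.2 (by
        have := congrArg (algebraMap S (AdjoinRoot h)) hab
        rw [map_add, map_mul, map_mul, map_one] at this
        exact this)
    rwa [hmin] at this
  · have h1 := norm_algebraMap_sub_gen pb (algebraMap O K θ)
    rw [hmin] at h1
    rw [← h1, ← map_mul]
    have h2 : (q : AdjoinRoot h) * (algebraMap K (AdjoinRoot h) (algebraMap O K θ) - pb.gen) =
        (-1) * ((p - j θ * q : S) : AdjoinRoot h) := by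
      have e1 : ((p - j θ * q : S) : AdjoinRoot h) =
          (p : AdjoinRoot h) - algebraMap K (AdjoinRoot h) (algebraMap O K θ) * q := by
        rw [← IsScalarTower.algebraMap_apply]
        rfl
      have e2 : (p : AdjoinRoot h) = q * pb.gen := by rw [hgen]; exact hpq
      rw [e1, e2]; ring
    rw [h2, hβ, map_mul, map_mul]
    refine IsSquare.mul ?_ ?_
    · have h4 : (Algebra.norm K (-1 : AdjoinRoot h)) =
          (-1) ^ (Module.finrank K (AdjoinRoot h)) := by
        have : (-1 : AdjoinRoot h) = algebraMap K _ (-1) := by simp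
        rw [this, Algebra.norm_algebraMap]
      rw [h4, map_pow, Valuation.map_neg, map_one, one_pow]
      exact IsSquare.one
    · have e3 : ((u * β ^ 2 : S) : AdjoinRoot h) =
          ((u : S) : AdjoinRoot h) * ((β : AdjoinRoot h)) ^ 2 := rfl
      rw [e3, map_mul, map_mul, map_pow, map_pow,
        valuation_norm_unit ν (fun y => hν.map_le_one y) u, one_mul]
      exact ⟨_, pow_two _⟩

theorem isSquare_poly_g {O K : Type*} [CommRing O] [IsDomain O] [IsDiscreteValuationRing O]
    [Field K] [CharZero K] [Algebra O K] [IsFractionRing O K] {Γ : Type*}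
    [LinearOrderedCommGroupWithZero Γ] (ν : Valuation K Γ) (hν : ν.Integers O)
    (f : O[X]) (hm : f.Monic) (θ : O) (hθ : f.eval θ = 0) (hu : IsUnit (f.derivative.eval θ))
    (V : K[X]) (N : ℕ) : ∀ (W : K[X]), W.natDegree ≤ N → W.Monic →
    W ∣ f.map (algebraMap O K) - V ^ 2 →
    ∃ c : K, c ≠ 0 ∧ Prim ν (C c * W) ∧ IsSquare (ν (c * W.eval (algebraMap O K θ))) := by
  have h1 : Prim ν (C (1 : K) * 1) := by
    refine ⟨fun i => ?_, 0, by simp⟩
    rw [map_one, one_mul, coeff_one]
    split_ifs <;> simp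
  induction N with
  | zero =>
    intro W hW hWm _
    rw [eq_one_of_monic_natDegree_zero hWm (by omega)]
    exact ⟨1, one_ne_zero, h1, by simp⟩
  | succ N ih =>
    intro W hW hWm hdvd
    by_cases h0 : W.natDegree = 0
    · rw [eq_one_of_monic_natDegree_zero hWm h0]
      exact ⟨1, one_ne_zero, h1, by simp⟩
    · obtain ⟨g, hgm, hgi, hgW⟩ := Polynomial.exists_monic_irreducible_factor W (by
        intro hun
        exact h0 (natDegree_eq_zero_of_isUnit hun))
      obtain ⟨W', hW'⟩ := hgW
      have hW'm : W'.Monic := by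
        rw [hW'] at hWm
        exact hgm.of_mul_monic_left hWm
      have hd : W.natDegree = g.natDegree + W'.natDegree := by
        rw [hW', hgm.natDegree_mul hW'm]
      have hg1 : 0 < g.natDegree := hgi.natDegree_pos
      obtain ⟨c1, hc1, hp1, hs1⟩ := isSquare_irred_g ν hν f hm θ hθ hu g V hgi hgm
        ((Dvd.intro W' hW'.symm).trans hdvd)
      obtain ⟨c2, hc2, hp2, hs2⟩ := ih W' (by omega) hW'm ((Dvd.intro_left g hW'.symm).trans hdvd)
      refine ⟨c1 * c2, mul_ne_zero hc1 hc2, ?_, ?_⟩
      · have e : C (c1 * c2) * W = (C c1 * g) * (C c2 * W') := by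
          rw [hW', map_mul]; ring
        rw [e]
        exact hp1.mul hp2
      · have e : c1 * c2 * W.eval (algebraMap O K θ) =
            (c1 * g.eval (algebraMap O K θ)) * (c2 * W'.eval (algebraMap O K θ)) := by
          rw [hW', eval_mul]; ring
        rw [e, map_mul]
        exact hs1.mul hs2

theorem ev_exists_primitive {w : ℚ[X]} (hw : w ≠ 0) :
    ∃ (W : ℤ[X]) (c : ℚ), c ≠ 0 ∧ W.IsPrimitive ∧ W.map (Int.castRingHom ℚ) = C c * w := by
  obtain ⟨b, hbm, hb⟩ := IsLocalization.integerNormalization_spec (nonZeroDivisors ℤ) w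
  set W' := IsLocalization.integerNormalization (nonZeroDivisors ℤ) w with hW'
  have hb0 : (b : ℤ) ≠ 0 := nonZeroDivisors.ne_zero hbm
  have h1 : W'.map (Int.castRingHom ℚ) = C ((b : ℤ) : ℚ) * w := by
    have h2 : W'.map (Int.castRingHom ℚ) = b • w := hb
    rw [h2]
    ext i
    rw [coeff_C_mul, coeff_smul]
    simp
  have hW0 : W' ≠ 0 := by
    intro h0
    rw [h0, Polynomial.map_zero] at h1
    have h3 := mul_eq_zero.1 h1.symm
    rcases h3 with h3 | h3
    · rw [C_eq_zero] at h3
      exact hb0 (by exact_mod_cast h3)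
    · exact hw h3
  have hc : W'.content ≠ 0 := by rwa [Ne, content_eq_zero_iff]
  refine ⟨W'.primPart, (b : ℤ) / (W'.content : ℚ), ?_, isPrimitive_primPart _, ?_⟩
  · apply div_ne_zero
    · exact_mod_cast hb0
    · exact_mod_cast hc
  · have h4 := W'.eq_C_content_mul_primPart
    have h5 := congrArg (Polynomial.map (Int.castRingHom ℚ)) h4
    rw [h1, Polynomial.map_mul, map_C] at h5
    have h6 : (W'.content : ℚ) ≠ 0 := by exact_mod_cast hc
    have h7 : C ((W'.content : ℚ)) * (W'.primPart.map (Int.castRingHom ℚ)) =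
        C ((W'.content : ℚ)) * (C ((b : ℤ) / (W'.content : ℚ)) * w) := by
      rw [← mul_assoc, ← C_mul, mul_div_cancel₀ _ h6, h5]
      rfl
    exact mul_left_cancel₀ (by rwa [Ne, C_eq_zero]) h7

/-- F2 for every degree: up to one rational factor the values `w(θ)` have even valuation
outside `2 disc f`. -/
theorem even_val_all (f0 : ℤ[X]) (hm : f0.Monic) (h0 : 0 < f0.natDegree) (K : Type) [Field K]
    [NumberField K] (θ : 𝓞 K) (hθ : Polynomial.aeval θ f0 = 0) (w v : ℚ[X]) (hw : w.Monic)
    (h : w ∣ f0.map (Int.castRingHom ℚ) - v ^ 2) :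
    ∃ r : ℚ, r ≠ 0 ∧ ∀ 𝔭 : HeightOneSpectrum (𝓞 K),
      ((2 * f0.discr : ℤ) : 𝓞 K) ∉ 𝔭.asIdeal →
      IsSquare (𝔭.valuation K (algebraMap ℚ K r * Polynomial.aeval (θ : K) w)) := by
  obtain ⟨W0, r, hr, hprim, hW0⟩ := ev_exists_primitive hw.ne_zero
  refine ⟨r, hr, fun 𝔭 h𝔭 => ?_⟩
  -- `f0'(θ) ∉ 𝔭`
  have hder : Polynomial.aeval θ f0.derivative ∉ 𝔭.asIdeal := by
    intro hmem
    apply h𝔭
    obtain ⟨p, q, -, -, e⟩ := exists_mul_add_mul_eq_C_resultant (m := f0.natDegree)
      (n := f0.natDegree - 1) f0 f0.derivative le_rfl (natDegree_derivative_le _)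
      (Or.inl (by omega))
    rw [resultant_deriv (natDegree_pos_iff_degree_pos.1 h0), hm.leadingCoeff, mul_one] at e
    have e2 := congrArg (Polynomial.aeval θ) e
    rw [map_add, map_mul, map_mul, hθ, zero_mul, zero_add] at e2
    have e3 : Polynomial.aeval θ (C ((-1) ^ (f0.natDegree * (f0.natDegree - 1) / 2) * f0.discr)) =
        (((-1) ^ (f0.natDegree * (f0.natDegree - 1) / 2) * f0.discr : ℤ) : 𝓞 K) := by
      rw [Polynomial.aeval_C]; rfl
    rw [e3] at e2
    have h5 : (((-1) ^ (f0.natDegree * (f0.natDegree - 1) / 2) * f0.discr : ℤ) : 𝓞 K) ∈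
        𝔭.asIdeal := by
      rw [← e2]
      exact Ideal.mul_mem_right _ _ hmem
    have h6 : ((2 * f0.discr : ℤ) : 𝓞 K) =
        (((2 * (-1) ^ (f0.natDegree * (f0.natDegree - 1) / 2)) : ℤ) : 𝓞 K) *
        (((-1) ^ (f0.natDegree * (f0.natDegree - 1) / 2) * f0.discr : ℤ) : 𝓞 K) := by
      rw [← Int.cast_mul]
      congr 1
      have h7 : ((-1 : ℤ) ^ (f0.natDegree * (f0.natDegree - 1) / 2)) *
          ((-1 : ℤ) ^ (f0.natDegree * (f0.natDegree - 1) / 2)) = 1 := by
        rw [← mul_pow]; simp
      calc 2 * f0.discr = 2 * (((-1 : ℤ) ^ (f0.natDegree * (f0.natDegree - 1) / 2)) *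
          ((-1 : ℤ) ^ (f0.natDegree * (f0.natDegree - 1) / 2))) * f0.discr := by rw [h7]; ring
        _ = _ := by ring
    rw [h6]
    exact Ideal.mul_mem_left _ _ h5
  have hval : 𝔭.valuation K (algebraMap (𝓞 K) K (Polynomial.aeval θ f0.derivative)) = 1 := by
    rw [HeightOneSpectrum.valuation_of_algebraMap]
    have h1 := (𝔭.intValuation_lt_one_iff_mem (Polynomial.aeval θ f0.derivative)).not.2 hder
    exact le_antisymm (𝔭.intValuation_le_one _) (not_lt.1 h1)
  set ζ : (𝔭.valuation K).integer := ⟨algebraMap (𝓞 K) K θ, 𝔭.valuation_le_one θ⟩ with hζ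
  have hev : ∀ g : ℤ[X], algebraMap (𝔭.valuation K).integer K
      ((g.map (Int.castRingHom (𝔭.valuation K).integer)).eval ζ) =
      algebraMap (𝓞 K) K (Polynomial.aeval θ g) := by
    intro g
    rw [← Polynomial.eval_map_apply, Polynomial.map_map, ← Polynomial.aeval_algebraMap_apply,
      Polynomial.aeval_def, Polynomial.eval_map]
    congr 1
  have hinj : Function.Injective (algebraMap (𝔭.valuation K).integer K) :=
    IsFractionRing.injective _ _
  have hroot : (f0.map (Int.castRingHom (𝔭.valuation K).integer)).eval ζ = 0 := by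
    apply hinj
    rw [hev, hθ, map_zero, map_zero]
  have hunit : IsUnit ((f0.map (Int.castRingHom (𝔭.valuation K).integer)).derivative.eval ζ) := by
    rw [derivative_map]
    refine (Valuation.integer.integers (𝔭.valuation K)).isUnit_iff_valuation_eq_one.2 ?_
    rw [hev, hval]
  obtain ⟨c, hc0, hcp, hcs⟩ := isSquare_poly_g (𝔭.valuation K)
    (Valuation.integer.integers (𝔭.valuation K))
    (f0.map (Int.castRingHom (𝔭.valuation K).integer)) (hm.map _)
    ζ hroot hunit (v.map (algebraMap ℚ K)) w.natDegree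
    (w.map (algebraMap ℚ K)) (by rw [hw.natDegree_map]) (hw.map _) (by
      have h1 := Polynomial.map_dvd (algebraMap ℚ K) h
      rw [Polynomial.map_sub, Polynomial.map_pow, Polynomial.map_map] at h1
      rw [Polynomial.map_map]
      have e1 : (algebraMap ℚ K).comp (Int.castRingHom ℚ) = (algebraMap (𝔭.valuation K).integer K).comp
          (Int.castRingHom (𝔭.valuation K).integer) := RingHom.ext_int _ _
      rw [e1] at h1
      exact h1)
  -- `r w = W0` is primitive
  have hWp : Prim (𝔭.valuation K) (C (algebraMap ℚ K r) * w.map (algebraMap ℚ K)) := by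
    have e1 : C (algebraMap ℚ K r) * w.map (algebraMap ℚ K) = W0.map (Int.castRingHom K) := by
      rw [← Polynomial.map_C, ← Polynomial.map_mul, ← hW0, Polynomial.map_map]
      congr 1
      exact RingHom.ext_int _ _
    rw [e1]
    have hint : ∀ z : ℤ, 𝔭.valuation K (z : K) ≤ 1 := by
      intro z
      have : (z : K) = algebraMap (𝓞 K) K (z : 𝓞 K) := by simp
      rw [this]
      exact 𝔭.valuation_le_one _
    refine ⟨fun i => ?_, ?_⟩
    · rw [Polynomial.coeff_map]
      exact hint _
    · by_contra hcon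
      push Not at hcon
      have hmem : ∀ i, W0.coeff i ∈ 𝔭.asIdeal.comap (algebraMap ℤ (𝓞 K)) := by
        intro i
        have h1 := hcon i
        rw [Polynomial.coeff_map] at h1
        have h2 : 𝔭.valuation K ((W0.coeff i : ℤ) : K) < 1 := lt_of_le_of_ne (hint _) h1
        have h3 : ((W0.coeff i : ℤ) : K) = algebraMap (𝓞 K) K (W0.coeff i : 𝓞 K) := by simp
        rw [h3, HeightOneSpectrum.valuation_of_algebraMap,
          HeightOneSpectrum.intValuation_lt_one_iff_mem] at h2
        rw [Ideal.mem_comap]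
        simpa using h2
      obtain ⟨g, hg⟩ := (IsPrincipalIdealRing.principal
        (𝔭.asIdeal.comap (algebraMap ℤ (𝓞 K)))).principal
      have hdvd : C g ∣ W0 := by
        rw [C_dvd_iff_dvd_coeff]
        intro i
        have := hmem i
        rw [hg] at this
        exact Ideal.mem_span_singleton.1 this
      have hun : IsUnit g := hprim g hdvd
      have htop : 𝔭.asIdeal.comap (algebraMap ℤ (𝓞 K)) = ⊤ := by
        rw [hg]
        exact Ideal.span_singleton_eq_top.2 hun
      exact (Ideal.comap_ne_top (algebraMap ℤ (𝓞 K)) 𝔭.isPrime.ne_top) htop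
  have hνrc : 𝔭.valuation K (algebraMap ℚ K r) = 𝔭.valuation K c := hWp.unique hcp
  rw [Polynomial.eval_map_algebraMap] at hcs
  rw [map_mul] at hcs ⊢
  rw [hνrc]
  exact hcs

/-- helper3's form. -/
theorem even_val_even (f0 : ℤ[X]) (hm : f0.Monic) (_hev : Even f0.natDegree)
    (h0 : 0 < f0.natDegree) (K : Type) [Field K]
    [NumberField K] (θ : 𝓞 K) (hθ : Polynomial.aeval θ f0 = 0) (w v : ℚ[X]) (hw : w.Monic)
    (h : w ∣ f0.map (Int.castRingHom ℚ) - v ^ 2) :
    ∃ r : ℚ, r ≠ 0 ∧ ∀ 𝔭 : HeightOneSpectrum (𝓞 K),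
      ((2 * f0.discr : ℤ) : 𝓞 K) ∉ 𝔭.asIdeal →
      IsSquare (𝔭.valuation K (algebraMap ℚ K r * Polynomial.aeval (θ : K) w)) :=
  even_val_all f0 hm h0 K θ hθ w v hw h

end Pool.TT
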