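import Pool.Agent.Lib.MP_695920_nt.TT.Even.EMu
import Pool.Agent.Lib.MP_695920_nt.TT.Even.EReduced
import Pool.Agent.Lib.MP_695920_nt.TT.Even.EVal
import Pool.Agent.Lib.MP_695920_nt.TT.Descent

set_option autoImplicit false

/-!
TEAM TWOTORSION, even degree, F4: two-descent.
-/

open Polynomial NumberField IsDedekindDomain

namespace Pool.TT

/-- F4, even degree -/
theorem two_descent_even (f0 : ℤ[X]) (hm0 : f0.Monic) (hirr0 : Irreducible f0)
    (hev : Even f0.natDegree) [hirr : Fact (Irreducible (f0.map (Int.castRingHom ℚ)))]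
    (K : Type) [Field K] [NumberField K] (θ : 𝓞 K) (hθ : minpoly ℤ θ = f0)
    (hK : Module.finrank ℚ K = f0.natDegree) :
    Finite (ClassGroup (Crd (f0.map (Int.castRingHom ℚ))) ⧸
      (powMonoidHom 2 : ClassGroup (Crd (f0.map (Int.castRingHom ℚ))) →* _).range) ∧
    Nat.card (ClassGroup (Crd (f0.map (Int.castRingHom ℚ))) ⧸
      (powMonoidHom 2 : ClassGroup (Crd (f0.map (Int.castRingHom ℚ))) →* _).range) ≤
      Nat.card {x : ClassGroup (𝓞 K) // x ^ 2 = 1} *
        2 ^ (f0.natDegree * (1 + (2 * f0.discr).natAbs.primeFactors.card)) := by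
  classical
  set f : ℚ[X] := f0.map (Int.castRingHom ℚ) with hf
  have hm : f.Monic := hm0.map _
  have hdeg : f.natDegree = f0.natDegree := hm0.natDegree_map _
  have hi : Irreducible f := hirr.out
  have hD : (2 * f0.discr : ℤ) ≠ 0 :=
    mul_ne_zero two_ne_zero (poly_discr_ne_zero f0 hm0 hirr0)
  obtain ⟨S, hScard, hS⟩ := primes_above K (2 * f0.discr) hD
  have hroot : Polynomial.aeval θ f0 = 0 := by
    rw [← hθ]
    exact minpoly.aeval ℤ θ
  have hrootK : Polynomial.aeval (θ : K) f = 0 := by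
    have h1 := congrArg (algebraMap (𝓞 K) K) hroot
    rw [map_zero, ← aeval_algebraMap_apply] at h1
    rw [hf, ← h1]
    rw [aeval_def, eval₂_map, aeval_def]
    congr 1
    exact RingHom.ext_int _ _
  have hfin : Module.finrank ℚ K = f.natDegree := by rw [hK, hdeg]
  have hmin : f = minpoly ℚ (θ : K) := minpoly.eq_of_irreducible_of_monic hi hrootK hm
  -- representatives
  have hrep : ∀ c : ClassGroup (Crd f), ∃ w v : ℚ[X], w.Monic ∧
      Polynomial.aeval (θ : K) w ≠ 0 ∧ w ∣ f - v ^ 2 ∧ cle f w v = c := by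
    intro c
    obtain ⟨w, v, hw, hwd, -, hwv, hcl⟩ := exists_reduced_g f hm c
    refine ⟨w, v, hw, ?_, hwv, hcl⟩
    intro h0
    have h1 : f ∣ w := by
      rw [hmin]
      exact minpoly.dvd ℚ _ h0
    have h2 := natDegree_le_of_dvd h1 hw.ne_zero
    omega
  choose w v hw hne hwv hcl using hrep
  have hval : ∀ c, ∃ r : ℚ, r ≠ 0 ∧ ∀ 𝔭 : HeightOneSpectrum (𝓞 K),
      ((2 * f0.discr : ℤ) : 𝓞 K) ∉ 𝔭.asIdeal →
      IsSquare (𝔭.valuation K (algebraMap ℚ K r * Polynomial.aeval (θ : K) (w c))) := fun c =>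
    even_val_even f0 hm0 hev (by rw [← hdeg]; exact hi.natDegree_pos) K θ hroot (w c) (v c)
      (hw c) (hwv c)
  choose r hr hrval using hval
  have hmu0 : ∀ c, algebraMap ℚ K (r c) * Polynomial.aeval (θ : K) (w c) ≠ 0 := fun c =>
    mul_ne_zero (by rw [Ne, map_eq_zero]; exact hr c) (hne c)
  let μ : ClassGroup (Crd f) → Kˣ := fun c => Units.mk0 _ (hmu0 c)
  set Q := ClassGroup (Crd f) ⧸ (powMonoidHom 2 : ClassGroup (Crd f) →* _).range with hQ
  have hsep : ∀ a b : Q, IsSquare (μ a.out * μ b.out) → a = b := by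
    intro a b hab
    obtain ⟨z, hz⟩ := hab
    have h2 := congrArg (fun x : Kˣ => (x : K)) hz
    simp only [Units.val_mul, μ, Units.val_mk0] at h2
    have hra : algebraMap ℚ K (r a.out) ≠ 0 := by rw [Ne, map_eq_zero]; exact hr _
    have hrb : algebraMap ℚ K (r b.out) ≠ 0 := by rw [Ne, map_eq_zero]; exact hr _
    have h3 := mu_square_even f (θ : K) hm (by rw [hdeg]; exact hev) hrootK hfin _ (v a.out) _
      (v b.out) (hwv a.out) (hne _) (hwv b.out) (hne _)
      (fun c => ⟨w c, v c, hw c, hne c, hwv c, hcl c⟩)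
      (r a.out * r b.out)⁻¹ (inv_ne_zero (mul_ne_zero (hr _) (hr _))) (z : K) (by
        rw [map_inv₀, map_mul]
        field_simp
        linear_combination h2)
    rw [hcl, hcl] at h3
    obtain ⟨c, hc⟩ := h3
    rw [← QuotientGroup.out_eq' a, ← QuotientGroup.out_eq' b, QuotientGroup.eq]
    refine ⟨(Quotient.out a)⁻¹ * c, ?_⟩
    rw [powMonoidHom_apply, pow_two, mul_mul_mul_comm, ← hc]
    group
  have hbound : ∀ s : Finset Q, s.card ≤ Nat.card {x : ClassGroup (𝓞 K) // x ^ 2 = 1} *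
        2 ^ (f0.natDegree * (1 + (2 * f0.discr).natAbs.primeFactors.card)) := by
    intro s
    have hinj : Function.Injective fun q : Q => μ q.out := by
      intro a b hab
      refine hsep a b ⟨μ b.out, ?_⟩
      have : μ a.out = μ b.out := hab
      rw [this]
    have h1 := selmer_card K S (s.image fun q : Q => μ q.out) (by
      intro a ha 𝔭 h𝔭
      obtain ⟨q, -, rfl⟩ := Finset.mem_image.1 ha
      have h2 : ((2 * f0.discr : ℤ) : 𝓞 K) ∉ 𝔭.asIdeal := fun h => h𝔭 (hS 𝔭 h)
      exact hrval q.out 𝔭 h2) (by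
      intro a ha b hb hab
      obtain ⟨q, -, rfl⟩ := Finset.mem_image.1 ha
      obtain ⟨q', -, rfl⟩ := Finset.mem_image.1 hb
      rw [hsep q q' hab])
    rw [Finset.card_image_of_injective _ hinj] at h1
    refine h1.trans (Nat.mul_le_mul_left _ (Nat.pow_le_pow_right two_pos ?_))
    rw [hK] at hScard
    rw [hK, mul_add, mul_one]
    exact Nat.add_le_add_left hScard _
  exact finite_and_card_le _ hbound

end Pool.TT
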