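import Pool.Agent.Lib.MP_695920_nt.TT.Even.EPts
import Pool.Agent.Lib.MP_695920_nt.TT.Even.EDesc

set_option autoImplicit false

/-!
TEAM TWOTORSION, even degree: two-descent.
-/

open Polynomial NumberField IsDedekindDomain Pool.TT

namespace Pool.TTE

theorem two_descent_even {ι : Type*} (P : EPts ι) (K : Type) [Field K] [NumberField K]
    (θ : 𝓞 K) (hθ : minpoly ℤ θ = P.f0) (hK : Module.finrank ℚ K = P.f0.natDegree) :
    Finite (ClassGroup (Crd P.f) ⧸ (powMonoidHom 2 : ClassGroup (Crd P.f) →* _).range) ∧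
    Nat.card (ClassGroup (Crd P.f) ⧸ (powMonoidHom 2 : ClassGroup (Crd P.f) →* _).range) ≤
      Nat.card {x : ClassGroup (𝓞 K) // x ^ 2 = 1} *
        2 ^ (P.f0.natDegree * (1 + (2 * P.f0.discr).natAbs.primeFactors.card)) := by
  have hirr : Fact (Irreducible (P.f0.map (Int.castRingHom ℚ))) := ⟨P.f_irr⟩
  exact Pool.TT.two_descent_even P.f0 P.monic P.irr P.even K θ hθ hK

end Pool.TTE
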