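import Pool.Agent.Lib.MP_695920_nt.TT.Ideals1
import Pool.Agent.Lib.MP_695920_nt.TT.IdealForm

set_option autoImplicit false

/-!
TEAM TWOTORSION, EVEN DEGREES: the ring `ℚ[x,y]/(y^2 - f)` for `f` squarefree and not constant, of
any degree: it is a Dedekind domain, and its ideals are `c (w, y - v)`.
-/

open Polynomial

namespace Pool.TT

/-- `f` squarefree and not constant. -/
class GoodF (f : ℚ[X]) : Prop where
  /-- squarefree -/
  sqf : Squarefree f
  /-- not constant -/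
  pos : 0 < f.natDegree

instance goodF_of_irreducible (f : ℚ[X]) [h : Fact (Irreducible f)] : GoodF f :=
  ⟨h.out.squarefree, h.out.natDegree_pos⟩

/-- `A ^ 2 = f B ^ 2` with `f` squarefree and not constant forces `A = B = 0`. -/
theorem sq_eq_mul_sq_g {k : Type*} [Field k] {f : k[X]} (hs : Squarefree f)
    (hp : 0 < f.natDegree) : ∀ (n : ℕ) (A B : k[X]), B.natDegree = n → A ^ 2 = f * B ^ 2 →
      A = 0 ∧ B = 0 := by
  intro n
  induction n using Nat.strong_induction_on with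
  | _ n ih =>
    intro A B hn h
    have hf0 : f ≠ 0 := hs.ne_zero
    obtain ⟨A1, hA1⟩ : f ∣ A := (hs.dvd_pow_iff_dvd two_ne_zero).1 (by rw [h]; exact dvd_mul_right _ _)
    have h1 : B ^ 2 = f * A1 ^ 2 := by
      apply mul_left_cancel₀ hf0
      rw [← h, hA1]
      ring
    obtain ⟨B1, hB1⟩ : f ∣ B := (hs.dvd_pow_iff_dvd two_ne_zero).1 (by rw [h1]; exact dvd_mul_right _ _)
    have h2 : A1 ^ 2 = f * B1 ^ 2 := by
      apply mul_left_cancel₀ hf0
      rw [← h1, hB1]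
      ring
    by_cases hB : B = 0
    · refine ⟨?_, hB⟩
      rw [hB] at h
      simpa using h
    · have hB10 : B1 ≠ 0 := by
        rintro rfl
        rw [mul_zero] at hB1
        exact hB hB1
      have hlt : B1.natDegree < n := by
        rw [← hn, hB1, natDegree_mul hf0 hB10]
        omega
      exact absurd (ih _ hlt A1 B1 rfl h2).2 hB10

/-- A squarefree polynomial which is not constant is not a square. -/
theorem sub_sq_ne_zero_g {k : Type*} [Field k] {f : k[X]} (hs : Squarefree f)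
    (hp : 0 < f.natDegree) (v : k[X]) : f - v ^ 2 ≠ 0 := by
  intro h
  have h1 : v ^ 2 = f * 1 ^ 2 := by
    rw [one_pow, mul_one]
    exact (sub_eq_zero.1 h).symm
  exact one_ne_zero (sq_eq_mul_sq_g hs hp _ v 1 rfl h1).2

/-- The norm of a nonzero element is nonzero. -/
theorem norm_crd_ne_zero_g {k : Type*} [Field k] {f : k[X]} (hs : Squarefree f)
    (hp : 0 < f.natDegree) {z : Crd f} (hz : z ≠ 0) : z.norm ≠ 0 := by
  intro h
  rw [norm_crd, sub_eq_zero] at h
  obtain ⟨h1, h2⟩ := sq_eq_mul_sq_g hs hp _ _ _ rfl h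
  exact hz (QuadraticAlgebra.ext h1 h2)

/-- The coordinate ring is a domain. -/
theorem isDomain_crd_g {k : Type*} [Field k] {f : k[X]} (hs : Squarefree f)
    (hp : 0 < f.natDegree) : IsDomain (Crd f) := by
  have : NoZeroDivisors (Crd f) := by
    refine ⟨fun {a b} hab => ?_⟩
    by_contra hcon
    push Not at hcon
    have h1 := norm_crd_ne_zero_g hs hp hcon.1
    have h2 := norm_crd_ne_zero_g hs hp hcon.2
    have h3 : (a * b).norm = 0 := by rw [hab, QuadraticAlgebra.norm_zero]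
    rw [map_mul] at h3
    exact (mul_ne_zero h1 h2) h3
  exact NoZeroDivisors.to_isDomain _

instance isDomain_goodF (f : ℚ[X]) [h : GoodF f] : IsDomain (Crd f) := isDomain_crd_g h.sqf h.pos

/-- `f` is not a square in the field of rational functions. -/
theorem no_root_g (f : ℚ[X]) (hs : Squarefree f) (hp : 0 < f.natDegree) (r : FractionRing ℚ[X]) :
    r ^ 2 ≠ algebraMap ℚ[X] (FractionRing ℚ[X]) f + 0 * r := by
  intro h
  rw [zero_mul, add_zero] at h
  obtain ⟨u, w, hw, rfl⟩ := IsFractionRing.div_surjective (A := ℚ[X]) r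
  have hw0 : w ≠ 0 := nonZeroDivisors.ne_zero hw
  have hw1 : algebraMap ℚ[X] (FractionRing ℚ[X]) w ≠ 0 := by
    intro h0
    exact hw0 ((IsFractionRing.injective ℚ[X] (FractionRing ℚ[X])) (by rw [h0, map_zero]))
  rw [div_pow, div_eq_iff (pow_ne_zero 2 hw1), ← map_pow, ← map_pow, ← map_mul] at h
  have h1 := (IsFractionRing.injective ℚ[X] (FractionRing ℚ[X])) h
  exact hw0 (sq_eq_mul_sq_g hs hp _ _ _ rfl h1).2

/-- The structure of the ideals, for any field and any `f` which is not a square (the proof is that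
of `exists_form`). -/
theorem exists_form_g {F : Type*} [Field F] {f : F[X]} (hns : ∀ v : F[X], f - v ^ 2 ≠ 0)
    (J : Ideal (Crd f))
    (hJ : J ≠ ⊥) :
    ∃ c w v : F[X], c.Monic ∧ w.Monic ∧ v.degree < w.degree ∧ w ∣ f - v ^ 2 ∧
      J = Ideal.span {(⟨c, 0⟩ : Crd f)} * pt f w v := by
  classical
  -- the ideal of the second coordinates
  let I1 : Ideal F[X] :=
    { carrier := {b | ∃ a, (⟨a, b⟩ : Crd f) ∈ J}
      add_mem' := by
        rintro b b' ⟨a, ha⟩ ⟨a', ha'⟩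
        refine ⟨a + a', ?_⟩
        exact J.add_mem ha ha'
      zero_mem' := ⟨0, J.zero_mem⟩
      smul_mem' := by
        rintro c b ⟨a, ha⟩
        refine ⟨c * a, ?_⟩
        have := J.mul_mem_left (⟨c, 0⟩ : Crd f) ha
        rw [QuadraticAlgebra.mk_mul_mk] at this
        simpa using this }
  have hI1 : ∀ b, b ∈ I1 ↔ ∃ a, (⟨a, b⟩ : Crd f) ∈ J := fun b => Iff.rfl
  have him : ∀ z ∈ J, QuadraticAlgebra.im z ∈ I1 := fun z hz => ⟨z.re, hz⟩
  have hre : ∀ z ∈ J, QuadraticAlgebra.re z ∈ I1 := by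
    intro z hz
    have h1 := J.mul_mem_left (⟨0, 1⟩ : Crd f) hz
    have h2 := him _ h1
    rw [QuadraticAlgebra.im_mul] at h2
    simpa using h2
  have hI1ne : I1 ≠ ⊥ := by
    intro h
    apply hJ
    rw [eq_bot_iff]
    intro z hz
    rw [Ideal.mem_bot]
    have h1 := him z hz
    have h2 := hre z hz
    rw [h, Ideal.mem_bot] at h1 h2
    apply QuadraticAlgebra.ext
    · exact h2
    · exact h1
  obtain ⟨c, hc, hcI⟩ : ∃ c : F[X], c.Monic ∧ I1 = Ideal.span {c} := by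
    obtain ⟨c0, hc0⟩ := (IsPrincipalIdealRing.principal I1).1
    have hc00 : c0 ≠ 0 := by
      rintro rfl
      apply hI1ne
      rw [hc0]
      simp
    refine ⟨c0 * C (c0.leadingCoeff)⁻¹, monic_mul_leadingCoeff_inv hc00, ?_⟩
    rw [hc0]
    refine (Ideal.span_singleton_mul_right_unit ?_ _).symm
    rw [isUnit_C]
    exact isUnit_iff_ne_zero.2 (inv_ne_zero (leadingCoeff_ne_zero.2 hc00))
  have hcim : ∀ z ∈ J, c ∣ QuadraticAlgebra.im z := fun z hz => by
    have := him z hz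
    rwa [hcI, Ideal.mem_span_singleton] at this
  have hcre : ∀ z ∈ J, c ∣ QuadraticAlgebra.re z := fun z hz => by
    have := hre z hz
    rwa [hcI, Ideal.mem_span_singleton] at this
  obtain ⟨v0, hv0⟩ : ∃ v0 : F[X], (⟨-(c * v0), c⟩ : Crd f) ∈ J := by
    have h1 : c ∈ I1 := by rw [hcI]; exact Ideal.mem_span_singleton_self c
    obtain ⟨a, ha⟩ := (hI1 c).1 h1
    obtain ⟨k, hk⟩ := hcre _ ha
    simp only at hk
    refine ⟨-k, ?_⟩
    rw [hk] at ha
    have e : -(c * -k) = c * k := by ring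
    rwa [e]
  -- the ideal of the first coordinates
  let I2 : Ideal F[X] :=
    { carrier := {a | (⟨c * a, 0⟩ : Crd f) ∈ J}
      add_mem' := by
        intro a a' ha ha'
        have h1 : (⟨c * a + c * a', 0 + 0⟩ : Crd f) ∈ J := J.add_mem ha ha'
        have e : (⟨c * a + c * a', 0 + 0⟩ : Crd f) = ⟨c * (a + a'), 0⟩ := by
          apply QuadraticAlgebra.ext
          · exact (mul_add c a a').symm
          · exact add_zero _
        rw [e] at h1
        exact h1
      zero_mem' := by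
        have := J.zero_mem
        have e : (⟨c * 0, 0⟩ : Crd f) = 0 := by rw [mul_zero]; rfl
        change (⟨c * 0, 0⟩ : Crd f) ∈ J
        rwa [e]
      smul_mem' := by
        intro b a ha
        have := J.mul_mem_left (⟨b, 0⟩ : Crd f) ha
        rw [QuadraticAlgebra.mk_mul_mk] at this
        change (⟨c * (b * a), 0⟩ : Crd f) ∈ J
        have e : c * (b * a) = b * (c * a) := by ring
        rw [e]
        simpa using this }
  have hI2 : ∀ a, a ∈ I2 ↔ (⟨c * a, 0⟩ : Crd f) ∈ J := fun a => Iff.rfl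
  have hfv : f - v0 ^ 2 ∈ I2 := by
    rw [hI2]
    have h1 := J.mul_mem_right (⟨v0, 1⟩ : Crd f) hv0
    rw [QuadraticAlgebra.mk_mul_mk] at h1
    have e1 : -(c * v0) * v0 + f * c * 1 = c * (f - v0 ^ 2) := by ring
    have e2 : -(c * v0) * 1 + c * v0 + 0 * c * 1 = 0 := by ring
    rwa [e1, e2] at h1
  obtain ⟨w, hw, hwI⟩ : ∃ w : F[X], w.Monic ∧ I2 = Ideal.span {w} := by
    obtain ⟨w0, hw0⟩ := (IsPrincipalIdealRing.principal I2).1
    have hw00 : w0 ≠ 0 := by
      rintro rfl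
      have h1 := hfv
      rw [hw0] at h1
      have h2 : f - v0 ^ 2 = 0 := by simpa using h1
      exact hns v0 h2
    refine ⟨w0 * C (w0.leadingCoeff)⁻¹, monic_mul_leadingCoeff_inv hw00, ?_⟩
    rw [hw0]
    refine (Ideal.span_singleton_mul_right_unit ?_ _).symm
    rw [isUnit_C]
    exact isUnit_iff_ne_zero.2 (inv_ne_zero (leadingCoeff_ne_zero.2 hw00))
  have hI2' : ∀ a, w ∣ a ↔ (⟨c * a, 0⟩ : Crd f) ∈ J := by
    intro a
    rw [← hI2, hwI, Ideal.mem_span_singleton]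
  have hwf0 : w ∣ f - v0 ^ 2 := by
    rwa [hwI, Ideal.mem_span_singleton] at hfv
  have hvv : w ∣ v0 - v0 %ₘ w := by
    refine ⟨v0 /ₘ w, ?_⟩
    have := modByMonic_add_div v0 w
    linear_combination -this
  refine ⟨c, w, v0 %ₘ w, hc, hw, degree_modByMonic_lt _ hw, dvd_of_congr hwf0 hvv, ?_⟩
  rw [← pt_congr hwf0 hvv]
  ext z
  rw [Ideal.mem_span_singleton_mul]
  constructor
  · intro hz
    obtain ⟨a, ha⟩ := hcre z hz
    obtain ⟨b, hb⟩ := hcim z hz
    refine ⟨⟨a, b⟩, ?_, ?_⟩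
    · rw [mem_pt hwf0, hI2']
      have h1 := J.sub_mem hz (J.mul_mem_left (⟨b, 0⟩ : Crd f) hv0)
      have e : z - (⟨b, 0⟩ : Crd f) * ⟨-(c * v0), c⟩ = ⟨c * (a + b * v0), 0⟩ := by
        apply QuadraticAlgebra.ext
        · rw [QuadraticAlgebra.re_sub, QuadraticAlgebra.re_mul, ha]
          ring
        · rw [QuadraticAlgebra.im_sub, QuadraticAlgebra.im_mul, hb]
          ring
      rwa [e] at h1
    · apply QuadraticAlgebra.ext
      · rw [QuadraticAlgebra.re_mul, ha]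
        ring
      · rw [QuadraticAlgebra.im_mul, hb]
        ring
  · rintro ⟨⟨a, b⟩, hab, rfl⟩
    rw [mem_pt hwf0, hI2'] at hab
    simp only at hab
    have h1 := J.add_mem hab (J.mul_mem_left (⟨b, 0⟩ : Crd f) hv0)
    have e : (⟨c * (a + b * v0), 0⟩ : Crd f) + ⟨b, 0⟩ * ⟨-(c * v0), c⟩ = ⟨c, 0⟩ * ⟨a, b⟩ := by
      apply QuadraticAlgebra.ext
      · rw [QuadraticAlgebra.re_add, QuadraticAlgebra.re_mul, QuadraticAlgebra.re_mul]
        ring
      · rw [QuadraticAlgebra.im_add, QuadraticAlgebra.im_mul, QuadraticAlgebra.im_mul]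
        ring
    rwa [e] at h1

/-- The coordinate ring is a Dedekind domain. -/
instance isDedekind_goodF (f : ℚ[X]) [h : GoodF f] : IsDedekindDomain (Crd f) := by
  have hs := h.sqf
  have hp := h.pos
  have : Fact (∀ r : FractionRing ℚ[X], r ^ 2 ≠
      algebraMap ℚ[X] (FractionRing ℚ[X]) f + 0 * r) := ⟨no_root_g f hs hp⟩
  let _ : Algebra (Crd f) (Crf f) := (toCrf f).toAlgebra
  have ht : IsScalarTower ℚ[X] (Crd f) (Crf f) := by
    refine IsScalarTower.of_algebraMap_eq fun r => ?_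
    show _ = toCrf f _
    ext
    · rw [toCrf_re]; rfl
    · rw [toCrf_im, QuadraticAlgebra.algebraMap_im, map_zero]; rfl
  have hcl : IsIntegralClosure (Crd f) ℚ[X] (Crf f) := by
    refine ⟨?_, fun {x} => int_iff f hs x⟩
    intro a b hab
    have h1 := congrArg QuadraticAlgebra.re hab
    have h2 := congrArg QuadraticAlgebra.im hab
    have hinj : Function.Injective (algebraMap ℚ[X] (FractionRing ℚ[X])) :=
      IsFractionRing.injective ℚ[X] (FractionRing ℚ[X])
    exact QuadraticAlgebra.ext (hinj h1) (hinj h2)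
  exact IsIntegralClosure.isDedekindDomain ℚ[X] (FractionRing ℚ[X]) (Crf f) (Crd f)


section classes

variable (f : ℚ[X])

/-- The class of `(w, y - v)`. -/
noncomputable def cle [h : GoodF f] (w v : ℚ[X]) : ClassGroup (Crd f) :=
  ClassGroup.mk0 ⟨pt f w v, mem_nonZeroDivisors_of_ne_zero (pt_ne_bot f w v)⟩

variable [hg : GoodF f]

theorem cle_neg (w v : ℚ[X]) (h : w ∣ f - v ^ 2) : cle f w (-v) = (cle f w v)⁻¹ := by
  refine eq_inv_of_mul_eq_one_right ?_
  rw [cle, cle, ← map_mul, ClassGroup.mk0_eq_one_iff]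
  refine ⟨⟨(⟨w, 0⟩ : Crd f), ?_⟩⟩
  show pt f w v * pt f w (-v) = _
  rw [pt_mul_conj f hg.sqf w v h]

theorem cle_congr {w v v' : ℚ[X]} (h : w ∣ f - v ^ 2) (hv : w ∣ v - v') :
    cle f w v = cle f w v' := by
  unfold cle
  congr 1
  exact Subtype.ext (pt_congr h hv)

theorem cle_mul_of_principal {w v w' v' : ℚ[X]}
    (h : (pt f w v * pt f w' v').IsPrincipal) : cle f w v * cle f w' v' = 1 := by
  unfold cle
  rw [← map_mul, ClassGroup.mk0_eq_one_iff]
  exact h

/-- One step of the reduction. -/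
theorem cle_step {w w' v : ℚ[X]} {k : ℚ} (hk : k ≠ 0) (h : w * w' = C k * (f - v ^ 2)) :
    cle f w v = cle f w' (-v) := by
  have h1 : cle f w v * cle f w' v = 1 := cle_mul_of_principal f (by
    rw [pt_mul_pt_of_mul two_ne_zero hg.sqf hk h]
    exact ⟨⟨_, rfl⟩⟩)
  have hw' : w' ∣ f - v ^ 2 := by
    have hCk : IsUnit (C k : ℚ[X]) := isUnit_C.2 (isUnit_iff_ne_zero.2 hk)
    rw [← hCk.dvd_mul_left]
    exact ⟨w, by rw [← h]; ring⟩
  rw [cle_neg f w' v hw']
  exact eq_inv_of_mul_eq_one_left h1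

/-- The structure of the ideals. -/
theorem ideal_form_g (J : Ideal (Crd f)) (hJ : J ≠ ⊥) :
    ∃ c w v : ℚ[X], c.Monic ∧ w.Monic ∧ v.degree < w.degree ∧ w ∣ f - v ^ 2 ∧
      J = Ideal.span {(⟨c, 0⟩ : Crd f)} * pt f w v :=
  exists_form_g (sub_sq_ne_zero_g hg.sqf hg.pos) J hJ

/-- Every class is the class of some `(w, y - v)`. -/
theorem exists_rep (c : ClassGroup (Crd f)) :
    ∃ w v : ℚ[X], w.Monic ∧ v.degree < w.degree ∧ w ∣ f - v ^ 2 ∧ cle f w v = c := by
  obtain ⟨J, rfl⟩ := ClassGroup.mk0_surjective c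
  obtain ⟨c0, w, v, hc, hw, hv, hd, hJ⟩ := ideal_form_g f (J : Ideal (Crd f))
    (nonZeroDivisors.ne_zero J.2)
  refine ⟨w, v, hw, hv, hd, ?_⟩
  unfold cle
  rw [ClassGroup.mk0_eq_mk0_iff]
  refine ⟨⟨c0, 0⟩, 1, ?_, one_ne_zero, ?_⟩
  · intro h0
    have := congrArg QuadraticAlgebra.re h0
    simp only [QuadraticAlgebra.re_zero] at this
    exact hc.ne_zero this
  · rw [Ideal.span_singleton_one, Ideal.one_eq_top.symm, one_mul]
    exact hJ.symm

omit hg in
/-- The product of an ideal product with its conjugate. -/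
theorem prod_mul_conj_g (hs : Squarefree f) {ι : Type*} (s : Finset ι) (w v : ι → ℚ[X])
    (a : ι → ℕ) (h : ∀ i ∈ s, w i ∣ f - v i ^ 2) (φ : Crd f) :
    (Ideal.span {φ} * ∏ i ∈ s, pt f (w i) (v i) ^ a i) *
      (Ideal.span {φ} * ∏ i ∈ s, pt f (w i) (v i) ^ a i).map (conj f) =
      Ideal.span {algebraMap ℚ[X] (Crd f) (φ.norm * ∏ i ∈ s, w i ^ a i)} := by
  rw [Ideal.map_mul, Ideal.map_span, Set.image_singleton, conj_apply,
    show Ideal.map (conj f) (∏ i ∈ s, pt f (w i) (v i) ^ a i) =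
      ∏ i ∈ s, Ideal.map (conj f) (pt f (w i) (v i) ^ a i) from
        map_prod (Ideal.mapHom (conj f)) _ _]
  have h1 : (Ideal.span {φ} * ∏ i ∈ s, pt f (w i) (v i) ^ a i) *
      (Ideal.span {star φ} * ∏ i ∈ s, Ideal.map (conj f) (pt f (w i) (v i) ^ a i)) =
      (Ideal.span {φ} * Ideal.span {star φ}) *
        ∏ i ∈ s, (pt f (w i) (v i) ^ a i * Ideal.map (conj f) (pt f (w i) (v i) ^ a i)) := by
    rw [Finset.prod_mul_distrib]
    ring
  rw [h1]
  have h2 : ∀ i ∈ s, pt f (w i) (v i) ^ a i * Ideal.map (conj f) (pt f (w i) (v i) ^ a i) =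
      Ideal.span {algebraMap ℚ[X] (Crd f) (w i ^ a i)} := by
    intro i hi
    rw [Ideal.map_pow, map_conj_pt, ← mul_pow, pt_mul_conj f hs _ _ (h i hi),
      Ideal.span_singleton_pow, map_pow]
    rfl
  rw [Finset.prod_congr rfl h2, Ideal.prod_span_singleton, Ideal.span_singleton_mul_span_singleton,
    ← QuadraticAlgebra.algebraMap_norm_eq_mul_star, Ideal.span_singleton_mul_span_singleton,
    map_mul, map_prod]

/-- Two equal ideal products have equal norms up to a rational constant. -/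
theorem norm_relation_g {ι κ : Type*} (s : Finset ι) (t : Finset κ) (w v : ι → ℚ[X])
    (w' v' : κ → ℚ[X]) (a : ι → ℕ) (a' : κ → ℕ)
    (h : ∀ i ∈ s, w i ∣ f - v i ^ 2) (h' : ∀ i ∈ t, w' i ∣ f - v' i ^ 2) (φ φ' : Crd f)
    (hI : Ideal.span {φ} * ∏ i ∈ s, pt f (w i) (v i) ^ a i =
      Ideal.span {φ'} * ∏ i ∈ t, pt f (w' i) (v' i) ^ a' i) :
    Associated (φ.norm * ∏ i ∈ s, w i ^ a i) (φ'.norm * ∏ i ∈ t, w' i ^ a' i) := by
  have h1 := prod_mul_conj_g f hg.sqf s w v a h φ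
  have h2 := prod_mul_conj_g f hg.sqf t w' v' a' h' φ'
  rw [hI, h2] at h1
  refine associated_of_dvd_dvd ?_ ?_
  · rw [← QuadraticAlgebra.algebraMap_dvd_iff_dvd (a := f) (b := 0),
      ← Ideal.span_singleton_le_span_singleton, h1]
  · rw [← QuadraticAlgebra.algebraMap_dvd_iff_dvd (a := f) (b := 0),
      ← Ideal.span_singleton_le_span_singleton, h1]

/-- The generator of a principal product of ideals, with its norm. -/
theorem exists_function_principal {ι : Type*} [Fintype ι] (w v : ι → ℚ[X]) (a : ι → ℕ)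
    (h : ∀ i, w i ∣ f - v i ^ 2)
    (hrel : (∏ i, pt f (w i) (v i) ^ a i).IsPrincipal) :
    ∃ φ : Crd f, φ ≠ 0 ∧ Ideal.span {φ} = ∏ i, pt f (w i) (v i) ^ a i ∧
      ∃ κ : ℚ, κ ≠ 0 ∧ φ.norm = C κ * ∏ i, w i ^ a i := by
  classical
  obtain ⟨φ, hφ⟩ := hrel.principal
  have hφ' : ∏ i, pt f (w i) (v i) ^ a i = Ideal.span {φ} := hφ
  have hφ0 : φ ≠ 0 := by
    rintro rfl
    have h3 : ∏ i, pt f (w i) (v i) ^ a i ≠ 0 := by
      rw [Finset.prod_ne_zero_iff]
      intro i _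
      exact pow_ne_zero _ (pt_ne_bot f (w i) (v i))
    apply h3
    rw [hφ']
    simp
  have h4 : Associated (φ.norm * ∏ i ∈ (∅ : Finset ι), w i ^ a i)
      ((1 : Crd f).norm * ∏ i ∈ Finset.univ, w i ^ a i) := by
    refine norm_relation_g f ∅ Finset.univ w v w v a a (by simp) (fun i _ => h i) φ 1 ?_
    rw [Finset.prod_empty, mul_one, hφ', Ideal.span_singleton_one, Ideal.one_eq_top.symm, one_mul]
  rw [Finset.prod_empty, mul_one, QuadraticAlgebra.norm_one, one_mul] at h4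
  have hn0 : φ.norm ≠ 0 := norm_crd_ne_zero_g hg.sqf hg.pos hφ0
  refine ⟨φ, hφ0, hφ'.symm, ?_⟩
  obtain ⟨u, hu⟩ := h4.symm
  obtain ⟨c, hc⟩ := Polynomial.isUnit_iff.1 u.isUnit
  refine ⟨c, hc.1.ne_zero, ?_⟩
  rw [← hu, hc.2, mul_comm]

/-- A relation gives a function with the right norm up to a constant. -/
theorem exists_function_g {ι : Type*} [Fintype ι] (w v : ι → ℚ[X]) (a : ι → ℕ)
    (h : ∀ i, w i ∣ f - v i ^ 2)
    (hrel : ∏ i, cle f (w i) (v i) ^ a i = 1) :
    ∃ φ : Crd f, φ ≠ 0 ∧ Ideal.span {φ} = ∏ i, pt f (w i) (v i) ^ a i ∧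
      ∃ κ : ℚ, κ ≠ 0 ∧ φ.norm = C κ * ∏ i, w i ^ a i := by
  classical
  have h1 : ∏ i, cle f (w i) (v i) ^ a i =
      ClassGroup.mk0 (∏ i, (⟨pt f (w i) (v i), mem_nonZeroDivisors_of_ne_zero
        (pt_ne_bot f (w i) (v i))⟩ : nonZeroDivisors (Ideal (Crd f))) ^ a i) := by
    rw [map_prod]
    refine Finset.prod_congr rfl fun i _ => ?_
    rw [map_pow, cle]
  rw [h1, ClassGroup.mk0_eq_one_iff] at hrel
  have h2 : ((∏ i, (⟨pt f (w i) (v i), mem_nonZeroDivisors_of_ne_zero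
        (pt_ne_bot f (w i) (v i))⟩ : nonZeroDivisors (Ideal (Crd f))) ^ a i :
        nonZeroDivisors (Ideal (Crd f))) : Ideal (Crd f)) = ∏ i, pt f (w i) (v i) ^ a i := by
    rw [Submonoid.coe_finsetProd]
    refine Finset.prod_congr rfl fun i _ => ?_
    rw [SubmonoidClass.coe_pow]
  rw [h2] at hrel
  exact exists_function_principal f w v a h hrel

omit hg in
/-- Units of the coordinate ring have constant norm. -/
theorem norm_unit (u : (Crd f)ˣ) : ∃ κ : ℚ, κ ≠ 0 ∧ (u : Crd f).norm = C κ := by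
  have h1 : IsUnit ((u : Crd f).norm) := u.isUnit.map QuadraticAlgebra.norm
  obtain ⟨c, hc, h2⟩ := Polynomial.isUnit_iff.1 h1
  exact ⟨c, hc.ne_zero, h2.symm⟩

end classes

end Pool.TT
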