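import Pool.Agent.Lib.MP_695920_nt.TT.BPMain
import Pool.Agent.Lib.MP_695920_nt.TT.Even.ERing

/-! # Few integral points on `y ^ 2 = F t`, `F` not a square, of any degree -/

namespace Pool.Agent.Lib.MP_695920_nt.TTE

open Polynomial Pool.Agent.Lib.MP_695920_nt.TT

/-- `F` is not a square in the field of rational functions. -/
def NSq (F : ℤ[X]) : Prop :=
  ∀ A B : ℚ[X], A ^ 2 = B ^ 2 * F.map (Int.castRingHom ℚ) → A = 0 ∧ B = 0

theorem NSq.ne_zero {F : ℤ[X]} (h : NSq F) : F ≠ 0 := by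
  rintro rfl
  exact one_ne_zero (h 0 1 (by simp)).2

theorem nsq_of_squarefree {F : ℤ[X]} (hs : Squarefree (F.map (Int.castRingHom ℚ)))
    (hp : 0 < F.natDegree) : NSq F := by
  intro A B h
  have h1 : (F.map (Int.castRingHom ℚ)).natDegree = F.natDegree :=
    natDegree_map_eq_of_injective Int.cast_injective F
  exact Pool.TT.sq_eq_mul_sq_g hs (by rw [h1]; exact hp) _ A B rfl (by rw [h, mul_comm])

theorem NSq.comp_linear {F : ℤ[X]} (h : NSq F) {m : ℤ} (hm : m ≠ 0) (a : ℤ) :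
    NSq (F.comp (C m * X + C a)) := by
  intro A B hAB
  have hm' : (m : ℚ) ≠ 0 := by exact_mod_cast hm
  let l : ℚ[X] := C ((m : ℚ)⁻¹) * (X - C (a : ℚ))
  have hl : (C (m : ℚ) * X + C (a : ℚ)).comp l = X := by
    simp only [l, add_comp, mul_comp, C_comp, X_comp]
    rw [← mul_assoc, ← C_mul, mul_inv_cancel₀ hm', C_1]
    ring
  have hl' : l.comp (C (m : ℚ) * X + C (a : ℚ)) = X := by
    simp only [l, mul_comp, C_comp, sub_comp, X_comp]
    rw [add_sub_cancel_right, ← mul_assoc, ← C_mul, inv_mul_cancel₀ hm', C_1, one_mul]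
  have h1 : (F.comp (C m * X + C a)).map (Int.castRingHom ℚ) =
      (F.map (Int.castRingHom ℚ)).comp (C (m : ℚ) * X + C (a : ℚ)) := by
    rw [Polynomial.map_comp]
    simp
  rw [h1] at hAB
  have h2 := congrArg (fun P : ℚ[X] => P.comp l) hAB
  simp only [mul_comp, pow_comp, comp_assoc, hl, comp_X] at h2
  obtain ⟨h3, h4⟩ := h (A.comp l) (B.comp l) h2
  have back : ∀ P : ℚ[X], P.comp l = 0 → P = 0 := by
    intro P hP
    have := congrArg (fun Q : ℚ[X] => Q.comp (C (m : ℚ) * X + C (a : ℚ))) hP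
    simp only [comp_assoc, hl', comp_X, zero_comp] at this
    exact this
  exact ⟨back A h3, back B h4⟩

/-- A residue class modulo a large prime contains few points. -/
theorem class_card_e {k : ℕ} (F : ℤ[X]) (hF : NSq F) {q : ℕ} (hq : q.Prime) {T Z : ℝ}
    (hT : 1 ≤ T) (hZ : 1 ≤ Z)
    (hsize : ((k + k).factorial : ℝ) * (T ^ (k * (k - 1)) * Z ^ k) <
      (q : ℝ) ^ ((k + k) * (k + k - 1) / 2))
    {t0 y0 : ℤ} (h2 : ¬ (q : ℤ) ∣ 2 * y0) (P : Finset ℤ)
    (h : ∀ t ∈ P, ∃ y : ℤ, |(t : ℝ)| ≤ T ∧ |(y : ℝ)| ≤ Z ∧ y ^ 2 = F.eval t ∧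
      (q : ℤ) ∣ t - t0 ∧ (q : ℤ) ∣ y - y0) : P.card ≤ 2 * k + F.natDegree := by
  classical
  choose! y hy using h
  let S : Set (ℚ × ℚ) := (fun t : ℤ => ((t : ℚ), (y t : ℚ))) '' P
  obtain ⟨A, B, hAB, dA, dB, hS⟩ := exists_AB (k := k) S (by
    intro p hp
    choose t ht htp using hp
    have h1 := minor_zero F hq hT hZ hsize h2 t (fun i => y (t i)) (fun i => hy (t i) (ht i))
    have h3 := congrArg (Int.castRingHom ℚ) h1
    rw [RingHom.map_det, map_zero] at h3
    rw [← h3]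
    congr 1
    ext i j
    simp only [RingHom.mapMatrix_apply, Matrix.map_apply, Matrix.of_apply]
    rw [mono_map, ← htp i]
    rfl)
  let G : ℚ[X] := A ^ 2 - B ^ 2 * F.map (Int.castRingHom ℚ)
  have hFd : (F.map (Int.castRingHom ℚ)).natDegree = F.natDegree :=
    natDegree_map_eq_of_injective Int.cast_injective F
  have hG0 : G ≠ 0 := by
    intro hG
    have h1 : A ^ 2 = B ^ 2 * F.map (Int.castRingHom ℚ) := sub_eq_zero.1 hG
    have h3 := hF A B h1
    rcases hAB with h4 | h4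
    · exact h4 h3.1
    · exact h4 h3.2
  have hroot : ∀ t ∈ P, G.IsRoot (t : ℚ) := by
    intro t ht
    have h1 := hS ((t : ℚ), (y t : ℚ)) ⟨t, ht, rfl⟩
    simp only at h1
    have h3 : ((y t : ℚ)) ^ 2 = (F.map (Int.castRingHom ℚ)).eval (t : ℚ) := by
      have := (hy t ht).2.2.1
      have h4 : (F.map (Int.castRingHom ℚ)).eval (t : ℚ) = ((F.eval t : ℤ) : ℚ) := by
        rw [← eq_intCast (Int.castRingHom ℚ) t, eval_map_apply]
        rfl
      rw [h4, ← this]
      push_cast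
      ring
    simp only [IsRoot, G, eval_sub, eval_mul, eval_pow]
    rw [← h3]
    linear_combination (A.eval (t : ℚ) - B.eval (t : ℚ) * (y t : ℚ)) * h1
  have hdA : A.natDegree ≤ k := by
    rcases eq_or_ne A 0 with h1 | h1
    · simp [h1]
    · exact ((natDegree_lt_iff_degree_lt h1).2 dA).le
  have hdB : B.natDegree ≤ k := by
    rcases eq_or_ne B 0 with h1 | h1
    · simp [h1]
    · exact ((natDegree_lt_iff_degree_lt h1).2 dB).le
  have hGd : G.natDegree ≤ 2 * k + F.natDegree := by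
    refine (natDegree_sub_le _ _).trans (max_le ?_ ?_)
    · rw [natDegree_pow]
      omega
    · refine natDegree_mul_le.trans ?_
      rw [natDegree_pow, hFd]
      omega
  have hinj : (P.image (fun t : ℤ => (t : ℚ))).card = P.card :=
    Finset.card_image_of_injective _ Int.cast_injective
  rw [← hinj]
  calc (P.image (fun t : ℤ => (t : ℚ))).card ≤ G.roots.toFinset.card := by
        apply Finset.card_le_card
        intro x hx
        obtain ⟨t, ht, rfl⟩ := Finset.mem_image.1 hx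
        rw [Multiset.mem_toFinset, mem_roots hG0]
        exact hroot t ht
    _ ≤ Multiset.card G.roots := Multiset.toFinset_card_le _
    _ ≤ G.natDegree := card_roots' G
    _ ≤ _ := hGd

/-- All classes modulo one prime. -/
theorem prime_card_e {k : ℕ} (F : ℤ[X]) (hF : NSq F) {q : ℕ} (hq : q.Prime) {T Z : ℝ}
    (hT : 1 ≤ T) (hZ : 1 ≤ Z)
    (hsize : ((k + k).factorial : ℝ) * (T ^ (k * (k - 1)) * Z ^ k) <
      (q : ℝ) ^ ((k + k) * (k + k - 1) / 2))
    (P : Finset ℤ) (y : ℤ → ℤ)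
    (h : ∀ t ∈ P, |(t : ℝ)| ≤ T ∧ |(y t : ℝ)| ≤ Z ∧ (y t) ^ 2 = F.eval t ∧
      ¬ (q : ℤ) ∣ 2 * y t) : P.card ≤ (2 * k + F.natDegree) * (2 * q) := by
  classical
  have : Fact q.Prime := ⟨hq⟩
  let g : ℤ → ZMod q × ZMod q := fun t => ((t : ZMod q), (y t : ZMod q))
  have h1 : P.card ≤ (2 * k + F.natDegree) * (P.image g).card := by
    apply Finset.card_le_mul_card_image
    intro ab hab
    obtain ⟨t0, ht0, rfl⟩ := Finset.mem_image.1 hab
    apply class_card_e F hF hq hT hZ hsize (t0 := t0) (y0 := y t0) (h t0 ht0).2.2.2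
    intro t ht
    obtain ⟨ht1, ht2⟩ := Finset.mem_filter.1 ht
    obtain ⟨e1, e2, e3, -⟩ := h t ht1
    simp only [g, Prod.mk.injEq] at ht2
    refine ⟨y t, e1, e2, e3, ?_, ?_⟩
    · exact (ZMod.intCast_eq_intCast_iff_dvd_sub _ _ _).1 ht2.1.symm
    · exact (ZMod.intCast_eq_intCast_iff_dvd_sub _ _ _).1 ht2.2.symm
  refine h1.trans (Nat.mul_le_mul_left _ ?_)
  refine (Finset.card_le_card ?_).trans
    (card_curve_le fun a => (F.map (Int.castRingHom (ZMod q))).eval a)
  intro ab hab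
  obtain ⟨t, ht, rfl⟩ := Finset.mem_image.1 hab
  rw [Finset.mem_filter]
  refine ⟨Finset.mem_univ _, ?_⟩
  have e3 := (h t ht).2.2.1
  simp only [g]
  have e4 : (F.map (Int.castRingHom (ZMod q))).eval (t : ZMod q) = ((F.eval t : ℤ) : ZMod q) := by
    rw [← eq_intCast (Int.castRingHom (ZMod q)) t, eval_map_apply]
    rfl
  rw [e4, ← e3]
  push_cast
  ring

theorem bp_k_e {k : ℕ} (hk : 1 ≤ k) (F : ℤ[X]) (hF : NSq F) {T Y : ℝ} (hT : 1 ≤ T)
    (hY : 1 ≤ Y) (P : Finset ℤ)
    (h : ∀ t ∈ P, |(t : ℝ)| ≤ T ∧ |((F.eval t : ℤ) : ℝ)| ≤ Y ∧ IsSquare (F.eval t)) :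
    (P.card : ℝ) ≤ (F.natDegree + (2 * k + F.natDegree) * (2 * 2 ^ (2 * k + 1)) *
      (2 * ((k + k).factorial : ℝ))) * (√T * Y ^ (1 / (4 * (k : ℝ) - 2))) := by
  classical
  have hk' : (1 : ℝ) ≤ k := by exact_mod_cast hk
  have hF0 : F ≠ 0 := hF.ne_zero
  have hs : ∀ t : ℤ, ∃ y : ℤ, t ∈ P → y ^ 2 = F.eval t := by
    intro t
    by_cases ht : t ∈ P
    · obtain ⟨y, hy⟩ := (h t ht).2.2
      exact ⟨y, fun _ => by rw [hy]; ring⟩
    · exact ⟨0, fun h => absurd h ht⟩
  choose y hy using hs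
  set A := √T with hA
  set B := Y ^ (1 / (4 * (k : ℝ) - 2)) with hB
  have hA1 : 1 ≤ A := Real.one_le_sqrt.2 hT
  have hA2 : A ^ 2 = T := Real.sq_sqrt (by linarith)
  have hB1 : 1 ≤ B := Real.one_le_rpow hY (by apply div_nonneg <;> linarith)
  have hBZ : B ^ (2 * k - 1) = √Y := by
    rw [hB, ← Real.rpow_natCast, ← Real.rpow_mul (by linarith), Real.sqrt_eq_rpow]
    congr 1
    rw [Nat.cast_sub (by omega)]
    push_cast
    have : (4 * (k : ℝ) - 2) ≠ 0 := by linarith
    field_simp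
    ring
  have hZ1 : 1 ≤ √Y := Real.one_le_sqrt.2 hY
  set c : ℝ := ((k + k).factorial : ℝ) with hc
  have hc2 : 2 ≤ c := by
    have : (2 : ℕ) ≤ (k + k).factorial := by
      calc 2 = Nat.factorial 2 := rfl
        _ ≤ (k + k).factorial := Nat.factorial_le (by omega)
    rw [hc]
    exact_mod_cast this
  set Q := c * (A * B) with hQ
  have hAB : 1 ≤ A * B := one_le_mul_of_one_le_of_one_le hA1 hB1
  have hQ2 : 2 ≤ Q := by nlinarith
  set N := ⌈Q⌉₊ with hN
  have hN0 : N ≠ 0 := by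
    have := Nat.ceil_pos.2 (show 0 < Q by linarith)
    omega
  have hNQ : Q ≤ N := Nat.le_ceil Q
  have hNQ2 : (N : ℝ) ≤ 2 * Q := by
    have := Nat.ceil_lt_add_one (show 0 ≤ Q by linarith)
    linarith
  obtain ⟨p, hp1, hp2, hp3, hp4⟩ := exists_primes N hN0
  have hpQ : ∀ j, Q < p j := fun j => hNQ.trans_lt (by exact_mod_cast hp2 j)
  -- split
  set P0 := P.filter fun t => F.eval t = 0 with hP0
  set P1 := P.filter fun t => ¬ F.eval t = 0 with hP1
  have hcard : P.card = P0.card + P1.card := (Finset.card_filter_add_card_filter_not _).symm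
  have h0 : P0.card ≤ F.natDegree :=
    card_zero_le F hF0 P0 fun t ht => (Finset.mem_filter.1 ht).2
  have hyZ : ∀ t ∈ P, |(y t : ℝ)| ≤ √Y := by
    intro t ht
    apply Real.abs_le_sqrt
    have h1 := hy t ht
    have h2 := (h t ht).2.1
    have h3 : ((y t : ℝ)) ^ 2 = ((F.eval t : ℤ) : ℝ) := by
      rw [← h1]
      push_cast
      ring
    rw [h3]
    exact (le_abs_self _).trans h2
  have hex : ∀ t ∈ P1, ∃ j ∈ Finset.range (2 * k), ¬ (p j : ℤ) ∣ 2 * y t := by
    intro t ht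
    obtain ⟨ht1, ht2⟩ := Finset.mem_filter.1 ht
    by_contra hcon
    push Not at hcon
    have hy0 : y t ≠ 0 := by
      intro h0
      apply ht2
      rw [← hy t ht1, h0]
      ring
    have hdvd : ∀ j ∈ Finset.range (2 * k), (p j : ℤ) ∣ y t := by
      intro j hj
      have h1 := hcon j hj
      have h2 : IsCoprime (p j : ℤ) 2 := by
        have : Nat.Coprime (p j) 2 := by
          rw [Nat.coprime_primes (hp1 j) Nat.prime_two]
          have h3 := hpQ j
          intro h4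
          rw [h4] at h3
          norm_num at h3
          linarith
        exact_mod_cast Nat.isCoprime_iff_coprime.2 this
      exact h2.dvd_of_dvd_mul_left h1
    have hprod : (∏ j ∈ Finset.range (2 * k), (p j : ℤ)) ∣ y t := by
      apply Finset.prod_dvd_of_coprime _ hdvd
      intro i _ j _ hij
      apply Nat.isCoprime_iff_coprime.2
      rw [Nat.coprime_primes (hp1 i) (hp1 j)]
      exact fun h => hij (hp4.injective h)
    have h5 : (∏ j ∈ Finset.range (2 * k), (p j : ℤ)) ≤ |y t| :=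
      Int.le_of_dvd (abs_pos.2 hy0) ((dvd_abs _ _).2 hprod)
    have h6 : (∏ j ∈ Finset.range (2 * k), (p j : ℝ)) ≤ |(y t : ℝ)| := by
      have := (Int.cast_le (R := ℝ)).2 h5
      push_cast at this
      exact this
    have h7 : B ^ (2 * k) < ∏ j ∈ Finset.range (2 * k), (p j : ℝ) := by
      have : B ^ (2 * k) = ∏ j ∈ Finset.range (2 * k), B := by simp
      rw [this]
      apply Finset.prod_lt_prod_of_nonempty
      · intro j _
        linarith
      · intro j _
        have := hpQ j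
        nlinarith
      · exact Finset.nonempty_range_iff.2 (by omega)
    have h8 : √Y ≤ B ^ (2 * k) := by
      rw [← hBZ]
      exact pow_le_pow_right₀ hB1 (by omega)
    have := hyZ t ht1
    linarith
  have hsub : P1 ⊆ (Finset.range (2 * k)).biUnion fun j => P1.filter fun t => ¬ (p j : ℤ) ∣ 2 * y t := by
    intro t ht
    obtain ⟨j, hj, hj'⟩ := hex t ht
    exact Finset.mem_biUnion.2 ⟨j, hj, Finset.mem_filter.2 ⟨ht, hj'⟩⟩
  have h1 : (P1.card : ℝ) ≤ (2 * k + F.natDegree) * (2 * 2 ^ (2 * k + 1)) * (N : ℝ) := by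
    have e1 : P1.card ≤ ∑ j ∈ Finset.range (2 * k), (2 * k + F.natDegree) * (2 * p j) := by
      refine (Finset.card_le_card hsub).trans (Finset.card_biUnion_le.trans ?_)
      apply Finset.sum_le_sum
      intro j _
      apply prime_card_e F hF (hp1 j) hT hZ1 (size_aux hk (by linarith) hA1 hB1 hA2 hBZ (hpQ j))
        _ y
      intro t ht
      obtain ⟨ht1, ht2⟩ := Finset.mem_filter.1 ht
      have ht3 := (Finset.mem_filter.1 ht1).1
      exact ⟨(h t ht3).1, hyZ t ht3, hy t ht3, ht2⟩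
    have e2 : ∑ j ∈ Finset.range (2 * k), (2 * k + F.natDegree) * (2 * p j) ≤
        (2 * k + F.natDegree) * (2 * 2 ^ (2 * k + 1)) * N := by
      calc _ ≤ ∑ j ∈ Finset.range (2 * k), (2 * k + F.natDegree) * (2 * (2 ^ (j + 1) * N)) :=
            Finset.sum_le_sum fun j _ => Nat.mul_le_mul_left _ (Nat.mul_le_mul_left _ (hp3 j))
        _ = (2 * k + F.natDegree) * (2 * (2 * ∑ j ∈ Finset.range (2 * k), 2 ^ j)) * N := by
            rw [Finset.mul_sum, Finset.mul_sum, Finset.mul_sum, Finset.sum_mul]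
            apply Finset.sum_congr rfl
            intro j _
            ring
        _ ≤ _ := by
            apply Nat.mul_le_mul_right
            apply Nat.mul_le_mul_left
            apply Nat.mul_le_mul_left
            have : ∑ j ∈ Finset.range (2 * k), 2 ^ j < 2 ^ (2 * k) :=
              Nat.geomSum_lt (by norm_num) (by simp)
            rw [pow_succ]
            omega
    exact_mod_cast e1.trans e2
  have h0' : (P0.card : ℝ) ≤ F.natDegree * (A * B) := by
    have : (P0.card : ℝ) ≤ F.natDegree := by exact_mod_cast h0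
    have h2 : (0 : ℝ) ≤ F.natDegree := Nat.cast_nonneg _
    nlinarith
  have hfin : (P1.card : ℝ) ≤ (2 * k + F.natDegree) * (2 * 2 ^ (2 * k + 1)) * (2 * c) * (A * B) := by
    refine h1.trans ?_
    calc (2 * (k : ℝ) + F.natDegree) * (2 * 2 ^ (2 * k + 1)) * (N : ℝ) ≤
          (2 * (k : ℝ) + F.natDegree) * (2 * 2 ^ (2 * k + 1)) * (2 * Q) :=
          mul_le_mul_of_nonneg_left hNQ2 (by positivity)
      _ = _ := by rw [hQ]; ring
  rw [hcard]
  push_cast
  calc (P0.card : ℝ) + P1.card ≤ F.natDegree * (A * B) +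
        (2 * k + F.natDegree) * (2 * 2 ^ (2 * k + 1)) * (2 * c) * (A * B) := add_le_add h0' hfin
    _ = _ := by ring

/-- **Bombieri-Pila** for the curves `y ^ 2 = F t`, `F` not a square, with a constant which depends
only on the degree `n` and on `ε`. -/
theorem bp_e (n : ℕ) {ε : ℝ} (hε : 0 < ε) : ∃ K : ℝ, 0 < K ∧
    ∀ F : ℤ[X], F.natDegree = n → NSq F → ∀ T Y : ℝ, 1 ≤ T → 1 ≤ Y → ∀ P : Finset ℤ,
      (∀ t ∈ P, |(t : ℝ)| ≤ T ∧ |((F.eval t : ℤ) : ℝ)| ≤ Y ∧ IsSquare (F.eval t)) →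
      (P.card : ℝ) ≤ K * √T * Y ^ ε := by
  obtain ⟨k, hk⟩ := exists_nat_gt (1 / ε + 1)
  have hk1 : 1 ≤ k := by
    have : (0 : ℝ) < k := by
      have : 0 < 1 / ε := by positivity
      linarith
    exact_mod_cast this
  have hk1' : (1 : ℝ) ≤ k := by exact_mod_cast hk1
  refine ⟨n + (2 * k + n) * (2 * 2 ^ (2 * k + 1)) * (2 * ((k + k).factorial : ℝ)), ?_, ?_⟩
  · have : 0 < (2 * (k : ℝ) + n) := by
      have : (0 : ℝ) ≤ n := Nat.cast_nonneg n
      linarith
    have : (0 : ℝ) ≤ n := Nat.cast_nonneg n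
    positivity
  · intro F hF hNS T Y hT hY P h
    have h1 := bp_k_e hk1 F hNS hT hY P h
    rw [hF] at h1
    refine h1.trans ?_
    rw [← mul_assoc]
    apply mul_le_mul_of_nonneg_left
    · apply Real.rpow_le_rpow_of_exponent_le hY
      have h2 : 1 / ε < 4 * (k : ℝ) - 2 := by linarith
      have h3 : 0 < 1 / ε := by positivity
      rw [div_le_iff₀ (by linarith)]
      have := mul_lt_mul_of_pos_left h2 hε
      rw [mul_one_div_cancel hε.ne'] at this
      linarith
    · positivity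

end Pool.Agent.Lib.MP_695920_nt.TTE
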