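import Pool.Agent.Lib.MP_695920_nt.TT.BadMain
import Pool.Agent.Lib.MP_695920_nt.TT.Even.EBP

/-! # The number of bad integral points, any degree -/

namespace Pool.Agent.Lib.MP_695920_nt.TTE

open Polynomial Pool.Agent.Lib.MP_695920_nt.TT

/-- The conclusion of `bp_e` for one `n`. -/
def BPBoundE (n : ℕ) (ε K : ℝ) : Prop :=
  ∀ F : ℤ[X], F.natDegree = n → NSq F → ∀ T Y : ℝ, 1 ≤ T → 1 ≤ Y → ∀ P : Finset ℤ,
    (∀ t ∈ P, |(t : ℝ)| ≤ T ∧ |((F.eval t : ℤ) : ℝ)| ≤ Y ∧ IsSquare (F.eval t)) →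
    (P.card : ℝ) ≤ K * √T * Y ^ ε

theorem fiber_card_e {n : ℕ} {ε K : ℝ} (hK : 0 < K) (hbp : BPBoundE n ε K) (f : ℤ[X])
    (hNS : NSq f)
    (hfn : f.natDegree = n) {M : ℕ} (hM : 0 < M) {T Y : ℝ} (hT : 1 ≤ T) (hY : 1 ≤ Y)
    (P : Finset ℤ) (hmod : ∀ x ∈ P, ∀ y ∈ P, (M : ℤ) ∣ x - y)
    (hdist : ∀ x ∈ P, ∀ y ∈ P, |((x - y : ℤ) : ℝ)| ≤ T * M)
    (h : ∀ x ∈ P, |((f.eval x : ℤ) : ℝ)| ≤ Y ∧ IsSquare (f.eval x)) :
    (P.card : ℝ) ≤ K * √T * Y ^ ε := by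
  classical
  rcases P.eq_empty_or_nonempty with hP | ⟨x0, hx0⟩
  · rw [hP]
    simp only [Finset.card_empty, Nat.cast_zero]
    positivity
  · have hM' : (M : ℤ) ≠ 0 := by exact_mod_cast hM.ne'
    have hMr : (0 : ℝ) < M := by exact_mod_cast hM
    have hdiv : ∀ x ∈ P, (M : ℤ) * ((x - x0) / M) = x - x0 := fun x hx =>
      Int.mul_ediv_cancel' (hmod x hx x0 hx0)
    have hinj : Set.InjOn (fun x : ℤ => (x - x0) / (M : ℤ)) (P : Set ℤ) := by
      intro x hx y hy hxy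
      have h1 := hdiv x hx
      have h2 := hdiv y hy
      simp only at hxy
      rw [hxy, h2] at h1
      linarith
    rw [← Finset.card_image_of_injOn hinj]
    let F : ℤ[X] := f.comp (C (M : ℤ) * X + C x0)
    have hF : F.natDegree = n := by
      simp only [F]
      rw [natDegree_comp, natDegree_linear hM', mul_one, hfn]
    apply hbp F hF (hNS.comp_linear hM' x0) T Y hT hY
    intro t ht
    obtain ⟨x, hx, rfl⟩ := Finset.mem_image.1 ht
    have h1 := hdiv x hx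
    have h2 : F.eval ((x - x0) / (M : ℤ)) = f.eval x := by
      simp only [F, eval_comp, eval_add, eval_mul, eval_C, eval_X]
      rw [h1]
      congr 1
      ring
    rw [h2]
    refine ⟨?_, h x hx⟩
    have h3 : ((((x - x0) / (M : ℤ) : ℤ)) : ℝ) = ((x - x0 : ℤ) : ℝ) / M := by
      rw [eq_div_iff hMr.ne', mul_comm]
      exact_mod_cast h1
    rw [h3, abs_div, abs_of_pos hMr, div_le_iff₀ hMr]
    exact hdist x hx x0 hx0

/-- The points with a given greatest common divisor. -/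
theorem gcd_card_e {n : ℕ} (hn : 0 < n) {ε K : ℝ} (hK : 0 < K) (hbp : BPBoundE n ε K) (f : ℤ[X])
    (hNS : NSq f)
    (hf : f.Monic) (hfn : f.natDegree = n) {L Y : ℝ} (hL : 1 ≤ L) (hY : 1 ≤ Y) {g H : ℕ}
    (hH0 : H ≠ 0) (hgH : g ^ 2 ≤ 4 * H) (hdiv : ∀ y : ℤ, (g : ℤ) ∣ 2 * y → (H : ℤ) ∣ y ^ 2)
    (P : Finset ℤ)
    (h : ∀ x ∈ P, |((f.eval x : ℤ) : ℝ)| ≤ Y ∧ ∃ y : ℤ, 0 < y ∧ y ^ 2 = f.eval x ∧
      (g : ℤ) ∣ 2 * y ∧ 2 * (y : ℝ) ≤ g * L) :
    (P.card : ℝ) ≤ n * (n ^ H.primeFactors.card : ℕ) *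
      (K * √(2 * L ^ (2 / (n : ℝ))) * Y ^ ε) := by
  classical
  have hnr : (0 : ℝ) < n := by exact_mod_cast hn
  set M := modulus n H with hM
  have hM0 : 0 < M := modulus_pos n H
  have hMn : H ≤ M ^ n := le_modulus_pow hn hH0
  set T : ℝ := 2 * L ^ (2 / (n : ℝ)) with hT
  have hL1 : 1 ≤ L ^ (2 / (n : ℝ)) := Real.one_le_rpow hL (by positivity)
  have hT1 : 1 ≤ T := by rw [hT]; linarith
  set r : ℝ := L ^ (2 / (n : ℝ)) * M with hr
  have hr0 : 0 ≤ r := by positivity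
  have hLn : (L ^ (2 / (n : ℝ))) ^ n = L ^ 2 := by
    rw [← Real.rpow_natCast, ← Real.rpow_mul (by linarith), div_mul_cancel₀ _ hnr.ne']
    exact_mod_cast Real.rpow_natCast L 2
  have hsmall : ∀ x ∈ P, |((f.eval x : ℤ) : ℝ)| ≤ r ^ n := by
    intro x hx
    obtain ⟨-, y, hy0, hy, -, hy2⟩ := h x hx
    rw [← hy]
    push_cast
    rw [abs_of_nonneg (by positivity), hr, mul_pow, hLn]
    have h1 : (0 : ℝ) < y := by exact_mod_cast hy0
    have h2 : (2 * (y : ℝ)) ^ 2 ≤ (g * L) ^ 2 := pow_le_pow_left₀ (by positivity) hy2 2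
    have h3 : ((g : ℝ)) ^ 2 ≤ 4 * (M : ℝ) ^ n := by
      have : ((g ^ 2 : ℕ) : ℝ) ≤ ((4 * M ^ n : ℕ) : ℝ) := by
        exact_mod_cast hgH.trans (Nat.mul_le_mul_left _ hMn)
      push_cast at this
      exact this
    have h4 := mul_le_mul_of_nonneg_right h3 (show 0 ≤ L ^ 2 by positivity)
    nlinarith
  set B : ℝ := K * √T * Y ^ ε with hB
  have hB0 : 0 ≤ B := by positivity
  -- one root
  have hone : ∀ z : ℂ, ((P.filter fun x : ℤ => ‖(x : ℂ) - z‖ ≤ r).card : ℝ) ≤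
      (n ^ H.primeFactors.card : ℕ) * B := by
    intro z
    set Q := P.filter fun x : ℤ => ‖(x : ℂ) - z‖ ≤ r with hQ
    have hQP : ∀ x ∈ Q, x ∈ P ∧ ‖(x : ℂ) - z‖ ≤ r := fun x hx => Finset.mem_filter.1 hx
    have h1 : Q.card ≤ ⌊B⌋₊ * (Q.image fun x : ℤ => (x : ZMod M)).card := by
      apply Finset.card_le_mul_card_image
      intro a _
      apply Nat.le_floor
      apply fiber_card_e hK hbp f hNS hfn hM0 hT1 hY
      · intro x hx y hy
        have hx' := (Finset.mem_filter.1 hx).2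
        have hy' := (Finset.mem_filter.1 hy).2
        apply (ZMod.intCast_eq_intCast_iff_dvd_sub _ _ _).1
        rw [hx', hy']
      · intro x hx y hy
        have hx' := (hQP x (Finset.mem_filter.1 hx).1).2
        have hy' := (hQP y (Finset.mem_filter.1 hy).1).2
        rw [← norm_int]
        push_cast
        calc ‖(x : ℂ) - y‖ = ‖((x : ℂ) - z) - ((y : ℂ) - z)‖ := by ring_nf
          _ ≤ ‖(x : ℂ) - z‖ + ‖(y : ℂ) - z‖ := norm_sub_le _ _
          _ ≤ r + r := add_le_add hx' hy'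
          _ = T * M := by rw [hr, hT]; ring
      · intro x hx
        have hx' := (hQP x (Finset.mem_filter.1 hx).1).1
        obtain ⟨e1, y, -, e2, -⟩ := h x hx'
        exact ⟨e1, ⟨y, by rw [← e2]; ring⟩⟩
    have h2 := card_classes hn hH0 f hf hfn Q (by
      intro x hx
      obtain ⟨-, y, -, e2, e3, -⟩ := h x (hQP x hx).1
      rw [← e2]
      exact hdiv y e3)
    calc (Q.card : ℝ) ≤ ((⌊B⌋₊ * (Q.image fun x : ℤ => (x : ZMod M)).card : ℕ) : ℝ) := by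
          exact_mod_cast h1
      _ = (⌊B⌋₊ : ℝ) * ((Q.image fun x : ℤ => (x : ZMod M)).card : ℝ) := by push_cast; ring
      _ ≤ B * ((n ^ H.primeFactors.card : ℕ) : ℝ) :=
          mul_le_mul (Nat.floor_le hB0) (by exact_mod_cast h2) (Nat.cast_nonneg _) hB0
      _ = _ := by ring
  have hroots : ((f.map (Int.castRingHom ℂ)).roots.toFinset.card : ℝ) ≤ n := by
    have h1 := (Multiset.toFinset_card_le (f.map (Int.castRingHom ℂ)).roots).trans
      (card_roots' (f.map (Int.castRingHom ℂ)))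
    rw [hf.natDegree_map, hfn] at h1
    exact_mod_cast h1
  have hsub : P ⊆ (f.map (Int.castRingHom ℂ)).roots.toFinset.biUnion fun z =>
      P.filter fun x : ℤ => ‖(x : ℂ) - z‖ ≤ r := by
    intro x hx
    obtain ⟨z, hz, hz'⟩ := exists_root_near hn f hf hfn hr0 (hsmall x hx)
    exact Finset.mem_biUnion.2 ⟨z, hz, Finset.mem_filter.2 ⟨hx, hz'⟩⟩
  calc (P.card : ℝ) ≤ ((∑ z ∈ (f.map (Int.castRingHom ℂ)).roots.toFinset,
        (P.filter fun x : ℤ => ‖(x : ℂ) - z‖ ≤ r).card : ℕ) : ℝ) := by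
        exact_mod_cast (Finset.card_le_card hsub).trans Finset.card_biUnion_le
    _ ≤ ∑ _z ∈ (f.map (Int.castRingHom ℂ)).roots.toFinset,
        ((n ^ H.primeFactors.card : ℕ) : ℝ) * B := by
        push_cast
        apply Finset.sum_le_sum
        intro z _
        have := hone z
        push_cast at this
        exact this
    _ = ((f.map (Int.castRingHom ℂ)).roots.toFinset.card : ℝ) *
        (((n ^ H.primeFactors.card : ℕ) : ℝ) * B) := by
        rw [Finset.sum_const, nsmul_eq_mul]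
    _ ≤ n * (((n ^ H.primeFactors.card : ℕ) : ℝ) * B) :=
        mul_le_mul_of_nonneg_right hroots (by positivity)
    _ = _ := by ring

theorem bad_card_e {n : ℕ} (hn0 : 0 < n) {ε K1 K2 K3 : ℝ} (hε : 0 < ε) (hK1 : 1 ≤ K1)
    (h1 : ∀ m : ℕ, m ≠ 0 → (m.divisors.card : ℝ) ≤ K1 * (m : ℝ) ^ ε) (hK2 : 0 < K2)
    (h2 : ∀ m : ℕ, m ≠ 0 → (n : ℝ) ^ m.primeFactors.card ≤ K2 * (m : ℝ) ^ ε)
    (hK3 : 0 < K3) (hbp : BPBoundE n ε K3) (f : ℤ[X])
    (hf : f.Monic) (hfn : f.natDegree = n) (hsep : (f.map (Int.castRingHom ℚ)).Separable)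
    {R L : ℝ} (hR : 1 ≤ R) (hL : 1 ≤ L)
    (hroots : ∀ z : ℂ, (f.map (Int.castRingHom ℂ)).IsRoot z → ‖z‖ ≤ R) (P : Finset ℤ)
    (hP : ∀ x ∈ P, |(x : ℝ)| ≤ R ∧ ∃ y : ℤ, 0 < y ∧ y ^ 2 = f.eval x ∧
      2 * (y : ℝ) ≤ L * (Int.gcd (2 * y) (f.derivative.eval x) : ℝ)) :
    (P.card : ℝ) ≤ K1 * n * K2 * K3 * √2 * (2 * R) ^ (ε * (3 * (n * n + 2) + n)) *
      L ^ (1 / (n : ℝ)) := by
  classical
  have hNS : NSq f := nsq_of_squarefree hsep.squarefree (by omega)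
  have hnr : (0 : ℝ) < n := by exact_mod_cast hn0
  obtain ⟨a, b, D, hD0, hab, hD⟩ := disc_bound hn0 f hf hfn hsep hR hroots
  set W : ℝ := 2 * R with hW
  have hW2 : 2 ≤ W := by linarith
  have hW1 : 1 ≤ W := by linarith
  set N0 : ℕ := (4 * D).natAbs with hN0
  have hN00 : N0 ≠ 0 := Int.natAbs_ne_zero.2 (mul_ne_zero (by norm_num) hD0)
  have hN0W : (N0 : ℝ) ≤ W ^ (n * n + 2) := by
    have e1 : (N0 : ℝ) = |((4 * D : ℤ) : ℝ)| := by
      rw [hN0, Nat.cast_natAbs, Int.cast_abs]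
    rw [e1, Int.cast_mul, abs_mul, pow_add]
    push_cast
    rw [abs_of_pos (by norm_num : (0 : ℝ) < 4), mul_comm]
    apply mul_le_mul hD _ (by norm_num) (by positivity)
    nlinarith
  have hN01 : (1 : ℝ) ≤ N0 := by exact_mod_cast Nat.one_le_iff_ne_zero.2 hN00
  have hs : ∀ x : ℤ, ∃ y : ℤ, x ∈ P → (0 < y ∧ y ^ 2 = f.eval x ∧
      2 * (y : ℝ) ≤ L * (Int.gcd (2 * y) (f.derivative.eval x) : ℝ)) := by
    intro x
    by_cases hx : x ∈ P
    · obtain ⟨y, hy⟩ := (hP x hx).2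
      exact ⟨y, fun _ => hy⟩
    · exact ⟨0, fun h => absurd h hx⟩
  choose y hy using hs
  let G : ℤ → ℕ := fun x => Int.gcd (2 * y x) (f.derivative.eval x)
  have hG : ∀ x ∈ P, G x ∈ N0.divisors := by
    intro x hx
    rw [Nat.mem_divisors]
    refine ⟨?_, hN00⟩
    have e1 : ((G x : ℕ) : ℤ) ∣ 2 * y x := Int.gcd_dvd_left _ _
    have e2 : ((G x : ℕ) : ℤ) ∣ f.derivative.eval x := Int.gcd_dvd_right _ _
    have e3 : ((G x : ℕ) : ℤ) ∣ 4 * D := by
      have e4 := congrArg (Polynomial.eval x) hab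
      simp only [eval_add, eval_mul, eval_C] at e4
      have e5 : 4 * D = (2 * y x) * (2 * y x * a.eval x) + f.derivative.eval x * (4 * b.eval x) := by
        have e6 := (hy x hx).2.1
        rw [← e6] at e4
        linear_combination -4 * e4
      rw [e5]
      exact dvd_add (e1.mul_right _) (e2.mul_right _)
    rw [hN0]
    exact Int.natCast_dvd.1 e3
  set Y : ℝ := W ^ n with hY
  have hY1 : 1 ≤ Y := one_le_pow₀ hW1
  have hL1 : 1 ≤ L ^ (2 / (n : ℝ)) := Real.one_le_rpow hL (by positivity)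
  set Bd : ℝ := n * (K2 * W ^ (ε * (2 * (n * n + 2)))) *
      (K3 * √(2 * L ^ (2 / (n : ℝ))) * Y ^ ε) with hBd
  have hBd0 : 0 ≤ Bd := by positivity
  have hone : ∀ g ∈ N0.divisors, ((P.filter fun x => G x = g).card : ℝ) ≤ Bd := by
    intro g hg
    have hg0 : g ≠ 0 := (Nat.pos_of_mem_divisors hg).ne'
    have hgN : g ≤ N0 := Nat.divisor_le hg
    obtain ⟨H, hH0, hH1, hH2, hH3⟩ := exists_large_divisor hg0
    have e1 := gcd_card_e hn0 hK3 hbp f hNS hf hfn hL hY1 hH0 hH2 hH3 (P.filter fun x => G x = g) (by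
      intro x hx
      obtain ⟨hx1, hx2⟩ := Finset.mem_filter.1 hx
      refine ⟨?_, y x, (hy x hx1).1, (hy x hx1).2.1, ?_, ?_⟩
      · exact abs_eval_le f hf hfn hR hroots (hP x hx1).1
      · rw [← hx2]
        exact Int.gcd_dvd_left _ _
      · rw [← hx2, mul_comm]
        rw [mul_comm (G x : ℝ) L]
        have := (hy x hx1).2.2
        rw [mul_comm 2 (y x : ℝ)] at this
        exact this)
    refine e1.trans ?_
    rw [hBd]
    apply mul_le_mul_of_nonneg_right _ (by positivity)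
    apply mul_le_mul_of_nonneg_left _ hnr.le
    push_cast
    refine (h2 H hH0).trans (mul_le_mul_of_nonneg_left ?_ hK2.le)
    have e2 : (H : ℝ) ≤ W ^ (2 * (n * n + 2)) := by
      calc (H : ℝ) ≤ ((g ^ 2 : ℕ) : ℝ) := by exact_mod_cast hH1
        _ ≤ (N0 : ℝ) ^ 2 := by
            push_cast
            exact pow_le_pow_left₀ (Nat.cast_nonneg g) (by exact_mod_cast hgN) 2
        _ ≤ (W ^ (n * n + 2)) ^ 2 := pow_le_pow_left₀ (Nat.cast_nonneg _) hN0W 2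
        _ = _ := by rw [← pow_mul]; ring_nf
    calc (H : ℝ) ^ ε ≤ (W ^ (2 * (n * n + 2))) ^ ε :=
          Real.rpow_le_rpow (Nat.cast_nonneg _) e2 hε.le
      _ = W ^ (ε * (2 * (n * n + 2))) := by
          rw [← Real.rpow_natCast, ← Real.rpow_mul (by linarith)]
          congr 1
          push_cast
          ring
  have hsub : P ⊆ N0.divisors.biUnion fun g => P.filter fun x => G x = g := by
    intro x hx
    exact Finset.mem_biUnion.2 ⟨G x, hG x hx, Finset.mem_filter.2 ⟨hx, rfl⟩⟩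
  have hsum : (P.card : ℝ) ≤ (N0.divisors.card : ℝ) * Bd := by
    calc (P.card : ℝ) ≤ ((∑ g ∈ N0.divisors, (P.filter fun x => G x = g).card : ℕ) : ℝ) := by
          exact_mod_cast (Finset.card_le_card hsub).trans Finset.card_biUnion_le
      _ ≤ ∑ _g ∈ N0.divisors, Bd := by
          push_cast
          exact Finset.sum_le_sum hone
      _ = _ := by rw [Finset.sum_const, nsmul_eq_mul]
  have hdiv : (N0.divisors.card : ℝ) ≤ K1 * W ^ (ε * (n * n + 2)) := by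
    refine (h1 N0 hN00).trans (mul_le_mul_of_nonneg_left ?_ (by linarith))
    calc (N0 : ℝ) ^ ε ≤ (W ^ (n * n + 2)) ^ ε :=
          Real.rpow_le_rpow (Nat.cast_nonneg _) hN0W hε.le
      _ = W ^ (ε * (n * n + 2)) := by
          rw [← Real.rpow_natCast, ← Real.rpow_mul (by linarith)]
          congr 1
          push_cast
          ring
  refine hsum.trans ((mul_le_mul_of_nonneg_right hdiv hBd0).trans (le_of_eq ?_))
  have e1 : √(2 * L ^ (2 / (n : ℝ))) = √2 * L ^ (1 / (n : ℝ)) := by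
    rw [Real.sqrt_mul (by norm_num), Real.sqrt_eq_rpow (L ^ (2 / (n : ℝ))),
      ← Real.rpow_mul (by linarith)]
    congr 2
    field_simp
  have e2 : Y ^ ε = W ^ (ε * n) := by
    rw [hY, ← Real.rpow_natCast, ← Real.rpow_mul (by linarith)]
    congr 1
    ring
  have e3 : W ^ (ε * (3 * (n * n + 2) + n)) =
      W ^ (ε * ((n : ℝ) * n + 2)) * (W ^ (ε * (2 * ((n : ℝ) * n + 2))) * W ^ (ε * n)) := by
    rw [← Real.rpow_add (by linarith), ← Real.rpow_add (by linarith)]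
    congr 1
    ring
  rw [hBd, e1, e2, e3]
  ring

/-- **The bad points.** All constants depend only on `n` and `ε`. -/
theorem bad_points_e (n : ℕ) (hn0 : 0 < n) {ε : ℝ} (hε : 0 < ε) : ∃ C0 : ℝ, 0 < C0 ∧
    ∀ f : ℤ[X], f.Monic → f.natDegree = n → (f.map (Int.castRingHom ℚ)).Separable →
    ∀ R L : ℝ, 1 ≤ R → 1 ≤ L →
    (∀ z : ℂ, (f.map (Int.castRingHom ℂ)).IsRoot z → ‖z‖ ≤ R) → ∀ P : Finset ℤ,
    (∀ x ∈ P, |(x : ℝ)| ≤ R ∧ ∃ y : ℤ, 0 < y ∧ y ^ 2 = f.eval x ∧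
      2 * (y : ℝ) ≤ L * (Int.gcd (2 * y) (f.derivative.eval x) : ℝ)) →
    (P.card : ℝ) ≤ C0 * R ^ ε * L ^ (1 / (n : ℝ)) := by
  have hnr : (0 : ℝ) < n := by exact_mod_cast hn0
  have hc : (0 : ℝ) < 3 * (n * n + 2) + n := by positivity
  set δ : ℝ := ε / (3 * (n * n + 2) + n) with hδ
  have hδ0 : 0 < δ := by positivity
  have hδe : δ * (3 * (n * n + 2) + n) = ε := div_mul_cancel₀ _ hc.ne'
  obtain ⟨K1, hK1, h1⟩ := MP14ee70.card_divisors_le δ hδ0
  obtain ⟨K2, hK2, h2⟩ := Pool.Agent.Lib.MP_695920_nt.pow_omega_le (n : ℝ)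
    (by exact_mod_cast hn0) δ hδ0
  obtain ⟨K3, hK3, h3⟩ := bp_e n hδ0
  refine ⟨K1 * n * K2 * K3 * √2 * 2 ^ ε, by positivity, ?_⟩
  intro f hf hfn hsep R L hR hL hroots P hP
  have := bad_card_e hn0 hδ0 hK1 h1 hK2 h2 hK3 h3 f hf hfn hsep hR hL hroots P hP
  rw [hδe, Real.mul_rpow (by norm_num) (by linarith)] at this
  refine this.trans (le_of_eq ?_)
  ring

/-- The same with sets. -/
theorem bad_points_ncard_e (n : ℕ) (hn0 : 0 < n) {ε : ℝ} (hε : 0 < ε) : ∃ C0 : ℝ, 0 < C0 ∧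
    ∀ f : ℤ[X], f.Monic → f.natDegree = n → (f.map (Int.castRingHom ℚ)).Separable →
    ∀ R L : ℝ, 1 ≤ R → 1 ≤ L →
    (∀ z : ℂ, (f.map (Int.castRingHom ℂ)).IsRoot z → ‖z‖ ≤ R) →
    ({x : ℤ | |(x : ℝ)| ≤ R ∧ ∃ y : ℤ, 0 < y ∧ y ^ 2 = f.eval x ∧
      2 * (y : ℝ) ≤ L * (Int.gcd (2 * y) (f.derivative.eval x) : ℝ)}.ncard : ℝ) ≤
      C0 * R ^ ε * L ^ (1 / (n : ℝ)) := by
  classical
  obtain ⟨C0, hC0, h⟩ := bad_points_e n hn0 hε
  refine ⟨C0, hC0, fun f hf hfn hsep R L hR hL hroots => ?_⟩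
  set S : Set ℤ := {x : ℤ | |(x : ℝ)| ≤ R ∧ ∃ y : ℤ, 0 < y ∧ y ^ 2 = f.eval x ∧
      2 * (y : ℝ) ≤ L * (Int.gcd (2 * y) (f.derivative.eval x) : ℝ)} with hS
  have hfin : S.Finite := by
    apply (Set.finite_Icc (-(⌈R⌉ : ℤ)) ⌈R⌉).subset
    intro x hx
    have h1 := abs_le.1 hx.1
    have h2 := Int.le_ceil R
    rw [Set.mem_Icc]
    constructor
    · have : (-(⌈R⌉ : ℤ) : ℝ) ≤ (x : ℝ) := by linarith [h1.1]
      exact_mod_cast this
    · have : (x : ℝ) ≤ (⌈R⌉ : ℤ) := by linarith [h1.2]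
      exact_mod_cast this
  rw [Set.ncard_eq_toFinset_card S hfin]
  apply h f hf hfn hsep R L hR hL hroots
  intro x hx
  exact hfin.mem_toFinset.1 hx

end Pool.Agent.Lib.MP_695920_nt.TTE
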