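import Pool.Agent.Lib.MP_695920_nt.TT.Even.ERing

set_option autoImplicit false

/-!
TEAM TWOTORSION, EVEN DEGREES: the two places at infinity. For `f` of even degree with a square
root `Y` in the Laurent series in `1 / x`, the two maps `A + B y ↦ A ± B Y` and the pole orders.
-/

open Polynomial

namespace Pool.TT

/-- Laurent series in `1 / x`. -/
abbrev LS : Type := LaurentSeries ℚ

/-- `x ↦ 1 / T`. -/
noncomputable def iot : ℚ[X] →+* LS :=
  Polynomial.eval₂RingHom (HahnSeries.C : ℚ →+* LS) (HahnSeries.single (-1 : ℤ) (1 : ℚ) : LS)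

theorem iot_C (a : ℚ) : iot (C a) = HahnSeries.single (0 : ℤ) a := by
  rw [iot, coe_eval₂RingHom, eval₂_C]
  rfl

theorem iot_X_pow (n : ℕ) : iot (X ^ n) = HahnSeries.single (-(n : ℤ)) (1 : ℚ) := by
  induction n with
  | zero => simp
  | succ n ih =>
    have h1 : iot X = HahnSeries.single (-1 : ℤ) (1 : ℚ) := by
      rw [iot, coe_eval₂RingHom, eval₂_X]
    have h2 : (-((n + 1 : ℕ) : ℤ)) = -(n : ℤ) + -1 := by
      push_cast
      ring
    rw [pow_succ, map_mul, ih, h1, HahnSeries.single_mul_single, mul_one, h2]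

theorem iot_monomial (n : ℕ) (a : ℚ) : iot (monomial n a) = HahnSeries.single (-(n : ℤ)) a := by
  rw [← C_mul_X_pow_eq_monomial, map_mul, iot_C, iot_X_pow, HahnSeries.single_mul_single, zero_add,
    mul_one]

theorem iot_coeff (p : ℚ[X]) (k : ℕ) : (iot p).coeff (-(k : ℤ)) = p.coeff k := by
  induction p using Polynomial.induction_on' with
  | add p q hp hq => rw [map_add, HahnSeries.coeff_add, hp, hq, coeff_add]
  | monomial n a =>
    rw [iot_monomial, HahnSeries.coeff_single, coeff_monomial]
    by_cases h : n = k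
    · subst h
      simp
    · have h1 : ¬ (-(k : ℤ)) = -(n : ℤ) := by
        intro h2
        apply h
        have := neg_injective h2
        exact_mod_cast this.symm
      rw [if_neg h1, if_neg h]

theorem iot_coeff_pos (p : ℚ[X]) (k : ℤ) (hk : 0 < k) : (iot p).coeff k = 0 := by
  induction p using Polynomial.induction_on' with
  | add p q hp hq => rw [map_add, HahnSeries.coeff_add, hp, hq, add_zero]
  | monomial n a =>
    rw [iot_monomial, HahnSeries.coeff_single]
    have h1 : ¬ k = -(n : ℤ) := by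
      intro h2
      omega
    rw [if_neg h1]

theorem iot_injective : Function.Injective iot := by
  intro p q h
  ext k
  rw [← iot_coeff, ← iot_coeff, h]

/-- A nonzero series whose coefficients vanish below `N` has order at least `N`. -/
theorem le_order {x : LS} (hx : x ≠ 0) {N : ℤ} (h : ∀ k < N, x.coeff k = 0) : N ≤ x.order := by
  by_contra hlt
  push Not at hlt
  exact hx (HahnSeries.coeff_order_eq_zero.1 (h _ hlt))

theorem coeff_of_lt {x : LS} {N : ℤ} (h : N ≤ x.order) (k : ℤ) (hk : k < N) : x.coeff k = 0 :=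
  HahnSeries.coeff_eq_zero_of_lt_order (lt_of_lt_of_le hk h)

theorem order_iot {p : ℚ[X]} (hp : p ≠ 0) : (iot p).order = -(p.natDegree : ℤ) := by
  have h0 : iot p ≠ 0 := by
    intro h
    exact hp (iot_injective (by rw [h, map_zero]))
  apply le_antisymm
  · apply HahnSeries.order_le_of_coeff_ne_zero
    rw [iot_coeff]
    exact leadingCoeff_ne_zero.2 hp
  · apply le_order h0
    intro k hk
    obtain ⟨m, hm⟩ : ∃ m : ℕ, k = -(m : ℤ) := ⟨(-k).toNat, by omega⟩
    rw [hm, iot_coeff]
    exact coeff_eq_zero_of_natDegree_lt (by omega)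

/-- `single (-n) 1` times the reversed polynomial is the image of the polynomial. -/
theorem iot_eq_reverse (f : ℚ[X]) : iot f = HahnSeries.single (-(f.natDegree : ℤ)) (1 : ℚ) *
    (HahnSeries.ofPowerSeries ℤ ℚ (f.reverse : PowerSeries ℚ)) := by
  ext k
  rw [HahnSeries.coeff_single_mul, one_mul, sub_neg_eq_add]
  rcases lt_or_ge 0 k with hk | hk
  · rw [iot_coeff_pos _ _ hk]
    obtain ⟨m, hm⟩ : ∃ m : ℕ, k + f.natDegree = (m : ℤ) := ⟨(k + f.natDegree).toNat, by omega⟩
    rw [hm, LaurentSeries.coeff_coe_powerSeries, Polynomial.coeff_coe]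
    refine (coeff_eq_zero_of_natDegree_lt ?_).symm
    exact lt_of_le_of_lt (reverse_natDegree_le f) (by omega)
  · obtain ⟨j, hj⟩ : ∃ j : ℕ, k = -(j : ℤ) := ⟨(-k).toNat, by omega⟩
    rw [hj, iot_coeff]
    rcases le_or_gt j f.natDegree with h | h
    · obtain ⟨m, hm⟩ : ∃ m : ℕ, f.natDegree = j + m := ⟨f.natDegree - j, by omega⟩
      have h1 : (-(j : ℤ)) + f.natDegree = (m : ℤ) := by
        rw [hm]
        push_cast
        ring
      rw [h1, LaurentSeries.coeff_coe_powerSeries, Polynomial.coeff_coe, coeff_reverse]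
      rw [revAt_le (by omega)]
      congr 1
      omega
    · rw [coeff_eq_zero_of_natDegree_lt h]
      symm
      have h2 : (-(j : ℤ)) + f.natDegree < 0 := by omega
      rw [PowerSeries.coeff_coe, if_pos h2]

/-- A square root of the reversed polynomial gives a square root of the polynomial. -/
theorem sqrt_of_reverse (f : ℚ[X]) (h : ℕ) (hn : f.natDegree = 2 * h) (s : PowerSeries ℚ)
    (hs : s ^ 2 = (f.reverse : PowerSeries ℚ)) :
    (HahnSeries.single (-(h : ℤ)) (1 : ℚ) * HahnSeries.ofPowerSeries ℤ ℚ s : LS) *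
      (HahnSeries.single (-(h : ℤ)) (1 : ℚ) * HahnSeries.ofPowerSeries ℤ ℚ s : LS) = iot f := by
  rw [iot_eq_reverse, ← hs, map_pow, hn]
  have h1 : (HahnSeries.single (-((2 * h : ℕ) : ℤ)) (1 : ℚ) : LS) =
      HahnSeries.single (-(h : ℤ)) (1 : ℚ) * HahnSeries.single (-(h : ℤ)) (1 : ℚ) := by
    have h2 : (-((2 * h : ℕ) : ℤ)) = -(h : ℤ) + -(h : ℤ) := by
      push_cast
      ring
    rw [HahnSeries.single_mul_single, mul_one, h2]
  rw [h1]
  ring

/-- The map `A + B y ↦ A + B Y` for a square root `Y` of `f`. -/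
noncomputable def PY {f : ℚ[X]} (Y : LS) (hY : Y * Y = iot f) : Crd f →+* LS where
  toFun z := iot z.re + iot z.im * Y
  map_zero' := by simp
  map_one' := by simp [QuadraticAlgebra.re_one, QuadraticAlgebra.im_one]
  map_add' a b := by
    rw [QuadraticAlgebra.re_add, QuadraticAlgebra.im_add, map_add, map_add]
    ring
  map_mul' a b := by
    rw [QuadraticAlgebra.re_mul, QuadraticAlgebra.im_mul]
    simp only [map_add, map_mul, zero_mul, add_zero]
    rw [← hY]
    ring

section PYsec

variable {f : ℚ[X]} {Y : LS} (hY : Y * Y = iot f)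

theorem PY_apply (z : Crd f) : PY Y hY z = iot z.re + iot z.im * Y := rfl

theorem hYneg (hY : Y * Y = iot f) : (-Y) * (-Y) = iot f := by rw [neg_mul_neg, hY]

theorem PY_mul_neg (z : Crd f) : PY Y hY z * PY (-Y) (hYneg hY) z = iot z.norm := by
  rw [PY_apply, PY_apply, norm_crd, map_sub, map_mul, map_pow, map_pow, ← hY]
  ring

theorem PY_add_neg (z : Crd f) : PY Y hY z + PY (-Y) (hYneg hY) z = iot (2 * z.re) := by
  rw [PY_apply, PY_apply, map_mul, map_ofNat]
  ring

theorem PY_ne_zero (hg : GoodF f) {z : Crd f} (hz : z ≠ 0) : PY Y hY z ≠ 0 := by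
  intro h
  have h1 := PY_mul_neg hY z
  rw [h, zero_mul] at h1
  exact norm_crd_ne_zero_g hg.sqf hg.pos hz (iot_injective (by rw [← h1, map_zero]))

/-- The pole order. -/
noncomputable def po (Y : LS) (hY : Y * Y = iot f) (z : Crd f) : ℤ := -(PY Y hY z).order

theorem po_mul (hg : GoodF f) {z z' : Crd f} (hz : z ≠ 0) (hz' : z' ≠ 0) :
    po Y hY (z * z') = po Y hY z + po Y hY z' := by
  rw [po, po, po, map_mul, HahnSeries.order_mul (PY_ne_zero hY hg hz) (PY_ne_zero hY hg hz')]
  ring

theorem po_pow (z : Crd f) (n : ℕ) : po Y hY (z ^ n) = n * po Y hY z := by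
  rw [po, po, map_pow, HahnSeries.order_pow]
  rw [nsmul_eq_mul]
  ring

theorem po_add_po_neg (hg : GoodF f) {z : Crd f} (hz : z ≠ 0) :
    po Y hY z + po (-Y) (hYneg hY) z = (z.norm.natDegree : ℤ) := by
  have h1 := PY_mul_neg hY z
  have h2 := congrArg HahnSeries.order h1
  rw [HahnSeries.order_mul (PY_ne_zero hY hg hz) (PY_ne_zero (hYneg hY) hg hz),
    order_iot (norm_crd_ne_zero_g hg.sqf hg.pos hz)] at h2
  rw [po, po]
  linarith

/-- The degree of the rational part is at most the maximum of the two pole orders. -/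
theorem natDegree_re_le (hg : GoodF f) {z : Crd f} (hz : z ≠ 0) (N : ℤ) (h1 : po Y hY z ≤ N)
    (h2 : po (-Y) (hYneg hY) z ≤ N) : (z.re.natDegree : ℤ) ≤ N := by
  by_cases hre : z.re = 0
  · rw [hre, natDegree_zero]
    have h3 := po_add_po_neg hY hg hz
    push_cast
    have h4 : (0 : ℤ) ≤ (z.norm.natDegree : ℤ) := by positivity
    linarith
  · have h20 : (2 * z.re : ℚ[X]) ≠ 0 := mul_ne_zero two_ne_zero hre
    have h3 := PY_add_neg hY z
    have h4 : (iot (2 * z.re)).order = -(z.re.natDegree : ℤ) := by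
      rw [order_iot h20]
      congr 2
      have : (2 * z.re : ℚ[X]) = C 2 * z.re := rfl
      rw [this, natDegree_C_mul two_ne_zero]
    have h5 : -N ≤ (iot (2 * z.re)).order := by
      apply le_order
      · intro h
        exact h20 (iot_injective (by rw [h, map_zero]))
      · intro k hk
        rw [← h3, HahnSeries.coeff_add,
          coeff_of_lt (N := -N) (by rw [po] at h1; linarith) k hk,
          coeff_of_lt (N := -N) (by rw [po] at h2; linarith) k hk, add_zero]
    rw [h4] at h5
    linarith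

include hY in
theorem order_Y (hf : f ≠ 0) {h : ℕ} (hn : f.natDegree = 2 * h) : Y.order = -(h : ℤ) := by
  have hY0 : Y ≠ 0 := by
    rintro rfl
    rw [zero_mul] at hY
    exact hf (iot_injective (by rw [← hY, map_zero]))
  have h1 := congrArg HahnSeries.order hY
  rw [HahnSeries.order_mul hY0 hY0, order_iot hf, hn] at h1
  push_cast at h1
  linarith

/-- A degree bound gives a bound for the pole order. -/
theorem coeff_PY_eq_zero (hf : f ≠ 0) {h : ℕ} (hn : f.natDegree = 2 * h) (a0 : ℕ) (z : Crd f)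
    (hA : z.re.degree < (a0 + 1 : ℕ)) (hB : z.im.degree < (a0 + 1 - h : ℕ)) (k : ℤ)
    (hk : k < -(a0 : ℤ)) : (PY Y hY z).coeff k = 0 := by
  rw [PY_apply, HahnSeries.coeff_add]
  have h1 : (iot z.re).coeff k = 0 := by
    by_cases hz : z.re = 0
    · rw [hz, map_zero, HahnSeries.coeff_zero]
    · apply coeff_of_lt (N := -(a0 : ℤ)) _ k hk
      rw [order_iot hz]
      have := (natDegree_lt_iff_degree_lt hz).2 hA
      omega
  have h2 : (iot z.im * Y).coeff k = 0 := by
    by_cases hz : z.im = 0
    · rw [hz, map_zero, zero_mul, HahnSeries.coeff_zero]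
    · apply coeff_of_lt (N := -(a0 : ℤ)) _ k hk
      have hY0 : Y ≠ 0 := by
        rintro rfl
        rw [zero_mul] at hY
        exact hf (iot_injective (by rw [← hY, map_zero]))
      have h0 : iot z.im ≠ 0 := by
        intro h0
        exact hz (iot_injective (by rw [h0, map_zero]))
      rw [HahnSeries.order_mul h0 hY0, order_iot hz, order_Y hY hf hn]
      have := (natDegree_lt_iff_degree_lt hz).2 hB
      omega
  rw [h1, h2, add_zero]

end PYsec

end Pool.TT
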