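import Pool.Agent.Lib.MP_695920_nt.TT.Even.Good
import Pool.Agent.Lib.MP_695920_nt.TT.Even.EPole

set_option autoImplicit false

/-!
TEAM TWOTORSION, even degree, (3.4): the two integral invariants of a function at infinity and
the good functions (OWNER helper31).
-/

open Polynomial Pool.TT

namespace Pool.TTE

/-- Two rational numbers with the same valuations at all primes agree up to the sign. -/
private theorem cor_eq_or_neg {a b : ℚ} (ha : a ≠ 0) (hb : b ≠ 0)
    (h : ∀ p : ℕ, p.Prime → padicValRat p a = padicValRat p b) : a = b ∨ a = -b := by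
  have key : ∀ q : ℚ, q ≠ 0 → (∀ p : ℕ, p.Prime → padicValRat p q = 0) → q = 1 ∨ q = -1 := by
    intro q hq hp
    have hden : q.den = 1 := by
      by_contra hne
      obtain ⟨p, hpp, hpd⟩ := Nat.exists_prime_and_dvd hne
      have := Fact.mk hpp
      have h1 := hp p hpp
      rw [padicValRat_def] at h1
      have h2 : ¬ (p : ℤ) ∣ q.num := by
        intro h3
        have h4 : p ∣ q.num.natAbs := Int.natCast_dvd.1 h3
        have h5 : p ∣ 1 := by
          have := Nat.dvd_gcd h4 hpd
          rwa [q.reduced] at this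
        exact hpp.one_lt.ne' (Nat.dvd_one.1 h5)
      rw [padicValInt.eq_zero_of_not_dvd h2] at h1
      have h5 : 1 ≤ padicValNat p q.den := one_le_padicValNat_of_dvd q.den_ne_zero hpd
      omega
    have hnum : q.num.natAbs = 1 := by
      by_contra hne
      obtain ⟨p, hpp, hpd⟩ := Nat.exists_prime_and_dvd hne
      have := Fact.mk hpp
      have h1 := hp p hpp
      rw [padicValRat_def, hden, padicValInt, padicValNat_one_right] at h1
      have h5 : 1 ≤ padicValNat p q.num.natAbs :=
        one_le_padicValNat_of_dvd (Int.natAbs_ne_zero.2 (Rat.num_ne_zero.2 hq)) hpd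
      omega
    have hq1 : q = (q.num : ℚ) := by
      have := Rat.num_div_den q
      rw [hden, Nat.cast_one, div_one] at this
      exact this.symm
    rcases Int.natAbs_eq q.num with h6 | h6
    · left
      rw [hq1, h6, hnum]
      norm_num
    · right
      rw [hq1, h6, hnum]
      norm_num
  have h1 := key (a / b) (div_ne_zero ha hb) (by
    intro p hp
    have := Fact.mk hp
    rw [padicValRat.div ha hb, h p hp, sub_self])
  rcases h1 with h1 | h1
  · left
    rwa [div_eq_one_iff_eq hb] at h1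
  · right
    rw [div_eq_iff hb] at h1
    rw [h1]
    ring

/-- The discriminant of a monic irreducible integral polynomial is not zero. -/
private theorem cor_discr_ne_zero (f0 : ℤ[X]) (hm : f0.Monic) (hirr : Irreducible f0) :
    f0.discr ≠ 0 := by
  intro h0
  have hf : Irreducible (f0.map (Int.castRingHom ℚ)) :=
    (Polynomial.Monic.irreducible_iff_irreducible_map_fraction_map (K := ℚ) hm).1 hirr
  have hsep : (f0.map (Int.castRingHom ℚ)).Separable := hf.separable
  have hdeg : (f0.map (Int.castRingHom ℚ)).natDegree = f0.natDegree := hm.natDegree_map _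
  have hpos : 0 < f0.natDegree := by
    rw [← hdeg]
    exact hf.natDegree_pos
  have h1 := resultant_deriv (f := f0) (natDegree_pos_iff_degree_pos.1 hpos)
  rw [h0, mul_zero] at h1
  have h2 := congrArg (Int.castRingHom ℚ) h1
  rw [map_zero, ← resultant_map_map, ← derivative_map] at h2
  have h3 : (derivative (f0.map (Int.castRingHom ℚ))).natDegree = f0.natDegree - 1 := by
    rw [Polynomial.natDegree_derivative, hdeg]
  rw [← h3, ← hdeg] at h2
  exact resultant_ne_zero _ _ hsep h2

/-- Common primitive integral multiples. -/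
private theorem cor_scale (A B : ℚ[X]) (hAB : A ≠ 0) : ∃ (r : ℚ) (A0 B0 : ℤ[X]), r ≠ 0 ∧
    A = C r * A0.map (Int.castRingHom ℚ) ∧ B = C r * B0.map (Int.castRingHom ℚ) ∧
    ∀ p : ℕ, p.Prime → ¬ (C (p : ℤ) ∣ A0 ∧ C (p : ℤ) ∣ B0) := by
  obtain ⟨b1, hb1m, hb1⟩ := IsLocalization.integerNormalization_spec (nonZeroDivisors ℤ) A
  obtain ⟨b2, hb2m, hb2⟩ := IsLocalization.integerNormalization_spec (nonZeroDivisors ℤ) B
  set A' := IsLocalization.integerNormalization (nonZeroDivisors ℤ) A with hA'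
  set B' := IsLocalization.integerNormalization (nonZeroDivisors ℤ) B with hB'
  have hb10 : (b1 : ℤ) ≠ 0 := nonZeroDivisors.ne_zero hb1m
  have hb20 : (b2 : ℤ) ≠ 0 := nonZeroDivisors.ne_zero hb2m
  have e1 : A'.map (Int.castRingHom ℚ) = C ((b1 : ℤ) : ℚ) * A := by
    have : A'.map (algebraMap ℤ ℚ) = ((b1 : ℤ) : ℚ) • A := by
      rw [hb1]
      ext k
      simp
    rw [smul_eq_C_mul] at this
    exact this
  have e2 : B'.map (Int.castRingHom ℚ) = C ((b2 : ℤ) : ℚ) * B := by
    have : B'.map (algebraMap ℤ ℚ) = ((b2 : ℤ) : ℚ) • B := by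
      rw [hb2]
      ext k
      simp
    rw [smul_eq_C_mul] at this
    exact this
  set A1 : ℤ[X] := C (b2 : ℤ) * A' with hA1
  set B1 : ℤ[X] := C (b1 : ℤ) * B' with hB1
  have hA10 : A1 ≠ 0 := by
    intro h
    have h1 : A1.map (Int.castRingHom ℚ) = 0 := by rw [h, Polynomial.map_zero]
    rw [hA1, Polynomial.map_mul, map_C, e1] at h1
    rcases mul_eq_zero.1 h1 with h2 | h2
    · rw [C_eq_zero, eq_intCast] at h2
      exact hb20 (by exact_mod_cast h2)
    · rcases mul_eq_zero.1 h2 with h3 | h3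
      · rw [C_eq_zero] at h3
        exact hb10 (by exact_mod_cast h3)
      · exact hAB h3
  set g : ℤ := gcd A1.content B1.content with hg
  have hg0 : g ≠ 0 := by
    intro h
    rw [hg, gcd_eq_zero_iff] at h
    exact hA10 (content_eq_zero_iff.1 h.1)
  obtain ⟨A0, hA0⟩ : C g ∣ A1 := dvd_content_iff_C_dvd.1 (gcd_dvd_left _ _)
  obtain ⟨B0, hB0⟩ : C g ∣ B1 := dvd_content_iff_C_dvd.1 (gcd_dvd_right _ _)
  have hgq : (g : ℚ) ≠ 0 := by exact_mod_cast hg0
  have hb1q : ((b1 : ℤ) : ℚ) ≠ 0 := by exact_mod_cast hb10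
  have hb2q : ((b2 : ℤ) : ℚ) ≠ 0 := by exact_mod_cast hb20
  have hbb : (((b1 : ℤ) : ℚ) * ((b2 : ℤ) : ℚ)) ≠ 0 := mul_ne_zero hb1q hb2q
  have hcc : (C (((b1 : ℤ) : ℚ) * ((b2 : ℤ) : ℚ)) : ℚ[X]) ≠ 0 := by
    rw [Ne, C_eq_zero]
    exact hbb
  refine ⟨(g : ℚ) / (((b1 : ℤ) : ℚ) * ((b2 : ℤ) : ℚ)), A0, B0, div_ne_zero hgq hbb, ?_, ?_, ?_⟩
  · apply mul_left_cancel₀ hcc
    rw [← mul_assoc, ← C_mul, mul_div_cancel₀ _ hbb]
    have h1 : A1.map (Int.castRingHom ℚ) = C (g : ℚ) * A0.map (Int.castRingHom ℚ) := by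
      rw [hA0, Polynomial.map_mul, map_C]
      rfl
    rw [← h1, hA1, Polynomial.map_mul, map_C, e1, C_mul]
    simp only [eq_intCast]
    ring
  · apply mul_left_cancel₀ hcc
    rw [← mul_assoc, ← C_mul, mul_div_cancel₀ _ hbb]
    have h1 : B1.map (Int.castRingHom ℚ) = C (g : ℚ) * B0.map (Int.castRingHom ℚ) := by
      rw [hB0, Polynomial.map_mul, map_C]
      rfl
    rw [← h1, hB1, Polynomial.map_mul, map_C, e2, C_mul]
    simp only [eq_intCast]
    ring
  · rintro p hp ⟨⟨a, ha⟩, ⟨b, hb⟩⟩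
    have h1 : g * p ∣ A1.content := by
      rw [dvd_content_iff_C_dvd]
      exact ⟨a, by rw [hA0, ha, C_mul]; ring⟩
    have h2 : g * p ∣ B1.content := by
      rw [dvd_content_iff_C_dvd]
      exact ⟨b, by rw [hB0, hb, C_mul]; ring⟩
    have h3 : g * p ∣ g := dvd_gcd h1 h2
    have h4 : (p : ℤ) ∣ 1 := by
      obtain ⟨k, hk⟩ := h3
      refine ⟨k, ?_⟩
      apply mul_left_cancel₀ hg0
      rw [mul_one, ← mul_assoc]
      exact hk
    exact hp.one_lt.ne' (Nat.dvd_one.1 (by exact_mod_cast h4))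

/-- A monic polynomial is squarefree modulo the primes which do not divide the discriminant. -/
private theorem cor_sqf (f0 : ℤ[X]) (hm : f0.Monic) (h0 : 0 < f0.natDegree) (p : ℕ)
    [hp : Fact p.Prime] (hpd : ¬ p ∣ (2 * f0.discr).natAbs) :
    Squarefree (f0.map (Int.castRingHom (ZMod p))) := by
  apply Separable.squarefree
  obtain ⟨a, b, -, -, e⟩ := exists_mul_add_mul_eq_C_resultant (m := f0.natDegree)
    (n := f0.natDegree - 1) f0 f0.derivative le_rfl (natDegree_derivative_le _)
    (Or.inl (by omega))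
  rw [resultant_deriv (natDegree_pos_iff_degree_pos.1 h0), hm.leadingCoeff, mul_one] at e
  set ε : ℤ := (-1) ^ (f0.natDegree * (f0.natDegree - 1) / 2) with hε
  have hεε : ε * ε = 1 := by
    rw [hε, ← mul_pow]
    simp
  have hu : ((Int.castRingHom (ZMod p)) (ε * f0.discr)) ≠ 0 := by
    intro h
    rw [eq_intCast, ZMod.intCast_zmod_eq_zero_iff_dvd] at h
    apply hpd
    rw [← Int.natCast_dvd]
    have : 2 * f0.discr = 2 * ε * (ε * f0.discr) := by
      calc 2 * f0.discr = 2 * (ε * ε) * f0.discr := by rw [hεε]; ring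
        _ = _ := by ring
    rw [this]
    exact dvd_mul_of_dvd_right h _
  have e2 := congrArg (Polynomial.map (Int.castRingHom (ZMod p))) e
  rw [Polynomial.map_add, Polynomial.map_mul, Polynomial.map_mul, map_C, ← derivative_map] at e2
  set u := (Int.castRingHom (ZMod p)) (ε * f0.discr) with hu'
  refine ⟨C u⁻¹ * a.map (Int.castRingHom (ZMod p)), C u⁻¹ * b.map (Int.castRingHom (ZMod p)), ?_⟩
  calc C u⁻¹ * a.map (Int.castRingHom (ZMod p)) * f0.map (Int.castRingHom (ZMod p)) +
        C u⁻¹ * b.map (Int.castRingHom (ZMod p)) *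
          derivative (f0.map (Int.castRingHom (ZMod p)))
      = C u⁻¹ * (f0.map (Int.castRingHom (ZMod p)) * a.map (Int.castRingHom (ZMod p)) +
          derivative (f0.map (Int.castRingHom (ZMod p))) *
            b.map (Int.castRingHom (ZMod p))) := by ring
    _ = 1 := by
        rw [e2, ← C_mul, inv_mul_cancel₀ hu, C_1]

private theorem cor_dvd_of_map_zero (p : ℕ) (A : ℤ[X])
    (h : A.map (Int.castRingHom (ZMod p)) = 0) : C (p : ℤ) ∣ A := by
  rw [C_dvd_iff_dvd_coeff]
  intro i
  have h1 := congrArg (fun q => q.coeff i) h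
  simp only [coeff_map, coeff_zero, eq_intCast] at h1
  exact (ZMod.intCast_zmod_eq_zero_iff_dvd _ _).1 h1

/-- The valuations of the two leading coefficients outside the discriminant. -/
private theorem cor_val (f0 : ℤ[X]) (hm : f0.Monic) (h0 : 0 < f0.natDegree) (p : ℕ)
    [hp : Fact p.Prime] (hpd : ¬ p ∣ (2 * f0.discr).natAbs) (A B : ℚ[X]) (hA : A ≠ 0) (hB : B ≠ 0)
    (h : ℕ) (hn : f0.natDegree = 2 * h) (hdeg : A.natDegree = B.natDegree + h)
    (h1 : A.leadingCoeff + B.leadingCoeff ≠ 0) (h2 : A.leadingCoeff - B.leadingCoeff ≠ 0)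
    (κ : ℚ) (N : ℤ[X]) (hN : N.Monic)
    (hnorm : A ^ 2 - f0.map (Int.castRingHom ℚ) * B ^ 2 = C κ * N.map (Int.castRingHom ℚ)) :
    padicValRat p (A.leadingCoeff + B.leadingCoeff) =
      padicValRat p (A.leadingCoeff - B.leadingCoeff) := by
  obtain ⟨r, A0, B0, hr, eA, eB, hprim⟩ := cor_scale A B hA
  have hinj : Function.Injective (Int.castRingHom ℚ) := Int.cast_injective
  have hA0 : A0 ≠ 0 := by
    rintro rfl
    rw [Polynomial.map_zero, mul_zero] at eA
    exact hA eA
  have hB0 : B0 ≠ 0 := by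
    rintro rfl
    rw [Polynomial.map_zero, mul_zero] at eB
    exact hB eB
  have dA : A.natDegree = A0.natDegree := by
    rw [eA, natDegree_C_mul hr, natDegree_map_eq_of_injective hinj]
  have dB : B.natDegree = B0.natDegree := by
    rw [eB, natDegree_C_mul hr, natDegree_map_eq_of_injective hinj]
  have lA : A.leadingCoeff = r * (A0.leadingCoeff : ℚ) := by
    rw [eA, leadingCoeff_mul, leadingCoeff_C, leadingCoeff_map_of_injective hinj, eq_intCast]
  have lB : B.leadingCoeff = r * (B0.leadingCoeff : ℚ) := by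
    rw [eB, leadingCoeff_mul, leadingCoeff_C, leadingCoeff_map_of_injective hinj, eq_intCast]
  set a := A0.leadingCoeff with ha
  set b := B0.leadingCoeff with hb
  have hab1 : a + b ≠ 0 := by
    intro h3
    apply h1
    rw [lA, lB, ← mul_add]
    have : ((a : ℚ) + b) = ((a + b : ℤ) : ℚ) := by push_cast; ring
    rw [this, h3, Int.cast_zero, mul_zero]
  have hab2 : a - b ≠ 0 := by
    intro h3
    apply h2
    rw [lA, lB, ← mul_sub]
    have : ((a : ℚ) - b) = ((a - b : ℤ) : ℚ) := by push_cast; ring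
    rw [this, h3, Int.cast_zero, mul_zero]
  -- the norm of the integral function
  set M : ℤ[X] := A0 ^ 2 - f0 * B0 ^ 2 with hM
  have hMc : M.coeff (2 * A0.natDegree) = (a + b) * (a - b) := by
    have e1 : (A0 ^ 2).coeff (2 * A0.natDegree) = a ^ 2 := by
      rw [← natDegree_pow, ← Polynomial.leadingCoeff, leadingCoeff_pow]
    have e2 : (f0 * B0 ^ 2).coeff (2 * A0.natDegree) = b ^ 2 := by
      have : 2 * A0.natDegree = (f0 * B0 ^ 2).natDegree := by
        rw [natDegree_mul hm.ne_zero (pow_ne_zero 2 hB0), natDegree_pow, hn, ← dB, ← dA, hdeg]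
        ring
      rw [this, ← Polynomial.leadingCoeff, leadingCoeff_mul, leadingCoeff_pow, hm.leadingCoeff,
        one_mul]
    rw [hM, coeff_sub, e1, e2]
    ring
  have hMdeg : M.natDegree = 2 * A0.natDegree := by
    apply le_antisymm
    · refine (natDegree_sub_le _ _).trans (max_le ?_ ?_)
      · rw [natDegree_pow]
      · rw [natDegree_mul hm.ne_zero (pow_ne_zero 2 hB0), natDegree_pow, hn, ← dB, ← dA, hdeg]
        omega
    · apply le_natDegree_of_ne_zero
      rw [hMc]
      exact mul_ne_zero hab1 hab2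
  have hMlc : M.leadingCoeff = (a + b) * (a - b) := by
    rw [Polynomial.leadingCoeff, hMdeg, hMc]
  have hMN : M = C M.leadingCoeff * N := by
    have e1 : M.map (Int.castRingHom ℚ) = C (κ / r ^ 2) * N.map (Int.castRingHom ℚ) := by
      have hr2 : (C (r ^ 2) : ℚ[X]) ≠ 0 := by
        rw [Ne, C_eq_zero]
        exact pow_ne_zero 2 hr
      apply mul_left_cancel₀ hr2
      rw [← mul_assoc, ← C_mul, mul_div_cancel₀ _ (pow_ne_zero 2 hr), ← hnorm, hM, eA, eB,
        Polynomial.map_sub, Polynomial.map_mul, Polynomial.map_pow, Polynomial.map_pow, C_pow]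
      ring
    have e2 : ((M.leadingCoeff : ℤ) : ℚ) = κ / r ^ 2 := by
      have := congrArg Polynomial.leadingCoeff e1
      rw [leadingCoeff_mul, leadingCoeff_C, leadingCoeff_map_of_injective hinj,
        (hN.map _).leadingCoeff, mul_one, eq_intCast] at this
      exact this
    apply Polynomial.map_injective _ hinj
    rw [e1, Polynomial.map_mul, map_C, eq_intCast, e2]
  have hpc : ¬ (p : ℤ) ∣ (a + b) * (a - b) := by
    intro hdv
    rw [← hMlc] at hdv
    have e1 : M.map (Int.castRingHom (ZMod p)) = 0 := by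
      rw [hMN, Polynomial.map_mul, map_C, eq_intCast,
        (ZMod.intCast_zmod_eq_zero_iff_dvd _ _).2 hdv, C_0, zero_mul]
    rw [hM, Polynomial.map_sub, Polynomial.map_mul, Polynomial.map_pow, Polynomial.map_pow,
      sub_eq_zero] at e1
    have e2 := sq_eq_mul_sq_g (cor_sqf f0 hm h0 p hpd) (by rw [hm.natDegree_map]; exact h0) _ _ _
      rfl e1
    exact hprim p hp.out ⟨cor_dvd_of_map_zero p A0 e2.1, cor_dvd_of_map_zero p B0 e2.2⟩
  have hp1 : ¬ (p : ℤ) ∣ a + b := fun h3 => hpc (dvd_mul_of_dvd_left h3 _)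
  have hp2 : ¬ (p : ℤ) ∣ a - b := fun h3 => hpc (dvd_mul_of_dvd_right h3 _)
  have q1 : A.leadingCoeff + B.leadingCoeff = r * ((a + b : ℤ) : ℚ) := by
    rw [lA, lB]; push_cast; ring
  have q2 : A.leadingCoeff - B.leadingCoeff = r * ((a - b : ℤ) : ℚ) := by
    rw [lA, lB]; push_cast; ring
  rw [q1, q2, padicValRat.mul hr (by exact_mod_cast hab1), padicValRat.mul hr (by exact_mod_cast hab2),
    padicValRat.of_int, padicValRat.of_int, padicValInt.eq_zero_of_not_dvd hp1,
    padicValInt.eq_zero_of_not_dvd hp2]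

section inf

variable {f : ℚ[X]} {Y : LS} (hY : Y * Y = iot f)

private theorem cor_star (z : Crd f) : PY Y hY (star z) = PY (-Y) (hYneg hY) z := by
  rw [PY_apply, PY_apply, QuadraticAlgebra.re_star, QuadraticAlgebra.im_star]
  simp

private theorem cor_star' (z : Crd f) : PY (-Y) (hYneg hY) (star z) = PY Y hY z := by
  rw [PY_apply, PY_apply, QuadraticAlgebra.re_star, QuadraticAlgebra.im_star]
  simp

private theorem cor_alg (p : ℚ[X]) : PY Y hY (algebraMap ℚ[X] (Crd f) p) = iot p := by
  rw [PY_apply]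
  simp [QuadraticAlgebra.algebraMap_re, QuadraticAlgebra.algebraMap_im]

private theorem cor_lc_mul {x y : LS} :
    (x * y).leadingCoeff = x.leadingCoeff * y.leadingCoeff :=
  HahnSeries.leadingCoeff_mul x y

/-- The coefficients at the common degree. -/
private theorem cor_coeff (hf : f.Monic) {h : ℕ} (hn : f.natDegree = 2 * h)
    (hlc : Y.coeff (-(h : ℤ)) = 1) (z : Crd f) (hB : z.im ≠ 0)
    (hdeg : z.re.natDegree = z.im.natDegree + h) :
    (PY Y hY z).coeff (-(z.re.natDegree : ℤ)) = z.re.leadingCoeff + z.im.leadingCoeff := by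
  rw [PY_apply, HahnSeries.coeff_add, iot_coeff]
  have h1 := HahnSeries.coeff_mul_order_add_order (iot z.im) Y
  rw [order_iot hB, order_Y hY hf.ne_zero hn, HahnSeries.leadingCoeff_eq, HahnSeries.leadingCoeff_eq,
    order_iot hB, order_Y hY hf.ne_zero hn, hlc, iot_coeff, mul_one] at h1
  have h2 : -(z.re.natDegree : ℤ) = -(z.im.natDegree : ℤ) + -(h : ℤ) := by
    rw [hdeg]
    push_cast
    ring
  rw [h2, h1]
  rfl

end inf

/-- There are additive invariants `χ none` (difference of the pole orders at the two points at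
infinity) and `χ (some p)`, `p ∣ 2 disc f` (the `p`-adic valuation of the quotient of the leading
coefficients), which vanish on `ℚ[x]`, such that a function whose norm is a constant times a monic
integral polynomial and whose invariants are zero is good. -/
theorem exists_chars (f0 : ℤ[X]) (hm : f0.Monic) (he : Even f0.natDegree) (hirr : Irreducible f0)
    (hs : ∃ s : PowerSeries ℤ, PowerSeries.constantCoeff s = 1 ∧
      s ^ 2 = (f0.reverse : PowerSeries ℤ)) :
    ∃ χ : Option (2 * f0.discr).natAbs.primeFactors → Crd (f0.map (Int.castRingHom ℚ)) → ℤ,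
      (∀ k φ ψ, φ ≠ 0 → ψ ≠ 0 → χ k (φ * ψ) = χ k φ + χ k ψ) ∧
      (∀ k φ, χ k (star φ) = -χ k φ) ∧
      (∀ k (p : ℚ[X]), p ≠ 0 → χ k (algebraMap ℚ[X] (Crd (f0.map (Int.castRingHom ℚ))) p) = 0) ∧
      ∀ φ : Crd (f0.map (Int.castRingHom ℚ)), φ ≠ 0 →
        (∃ (κ : ℚ) (N : ℤ[X]), κ ≠ 0 ∧ N.Monic ∧
          φ.norm = C κ * N.map (Int.castRingHom ℚ)) → (∀ k, χ k φ = 0) → Good φ := by
  classical
  obtain ⟨h, hn⟩ : ∃ h : ℕ, f0.natDegree = 2 * h := by
    obtain ⟨h, hh⟩ := he
    exact ⟨h, by omega⟩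
  obtain ⟨s, hs1, hs2⟩ := hs
  have hinj : Function.Injective (Int.castRingHom ℚ) := Int.cast_injective
  set f : ℚ[X] := f0.map (Int.castRingHom ℚ) with hf
  have hfirr : Irreducible f :=
    (Polynomial.Monic.irreducible_iff_irreducible_map_fraction_map (K := ℚ) hm).1 hirr
  have hfact : Fact (Irreducible f) := ⟨hfirr⟩
  have hg : GoodF f := goodF_of_irreducible f
  have hfm : f.Monic := hm.map _
  have hfn : f.natDegree = 2 * h := by rw [hf, hm.natDegree_map, hn]
  set sQ : PowerSeries ℚ := PowerSeries.map (Int.castRingHom ℚ) s with hsQ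
  have hsQ2 : sQ ^ 2 = (f.reverse : PowerSeries ℚ) := by
    rw [hsQ, ← map_pow, hs2]
    ext k
    rw [PowerSeries.coeff_map, Polynomial.coeff_coe, Polynomial.coeff_coe, coeff_reverse,
      coeff_reverse, hf, coeff_map, hm.natDegree_map]
  have hsQ1 : PowerSeries.coeff 0 sQ = 1 := by
    rw [hsQ, PowerSeries.coeff_map, PowerSeries.coeff_zero_eq_constantCoeff, hs1, map_one]
  set Y : LS := HahnSeries.single (-(h : ℤ)) (1 : ℚ) * HahnSeries.ofPowerSeries ℤ ℚ sQ with hYdef
  have hY : Y * Y = iot f := sqrt_of_reverse f h hfn sQ hsQ2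
  have hYl : Y.coeff (-(h : ℤ)) = 1 := by
    rw [hYdef, HahnSeries.coeff_single_mul, one_mul, sub_self]
    have := LaurentSeries.coeff_coe_powerSeries sQ 0
    rw [Nat.cast_zero, hsQ1] at this
    exact this
  have hpo : ∀ {φ : Crd f}, φ ≠ 0 → PY Y hY φ ≠ 0 := fun hφ => PY_ne_zero hY hg hφ
  have hpo' : ∀ {φ : Crd f}, φ ≠ 0 → PY (-Y) (hYneg hY) φ ≠ 0 :=
    fun hφ => PY_ne_zero (hYneg hY) hg hφ
  refine ⟨fun k φ => match k with
    | none => (PY Y hY φ).order - (PY (-Y) (hYneg hY) φ).order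
    | some p => padicValRat p.1 (PY Y hY φ).leadingCoeff -
        padicValRat p.1 (PY (-Y) (hYneg hY) φ).leadingCoeff, ?_, ?_, ?_, ?_⟩
  · rintro (_ | ⟨p, hp⟩) φ ψ hφ hψ
    · show (PY Y hY (φ * ψ)).order - (PY (-Y) (hYneg hY) (φ * ψ)).order = _
      rw [map_mul, map_mul, HahnSeries.order_mul (hpo hφ) (hpo hψ),
        HahnSeries.order_mul (hpo' hφ) (hpo' hψ)]
      ring
    · have : Fact p.Prime := ⟨Nat.prime_of_mem_primeFactors hp⟩
      show padicValRat p (PY Y hY (φ * ψ)).leadingCoeff -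
        padicValRat p (PY (-Y) (hYneg hY) (φ * ψ)).leadingCoeff = _
      rw [map_mul, map_mul, cor_lc_mul, cor_lc_mul,
        padicValRat.mul (HahnSeries.leadingCoeff_ne_zero.2 (hpo hφ))
          (HahnSeries.leadingCoeff_ne_zero.2 (hpo hψ)),
        padicValRat.mul (HahnSeries.leadingCoeff_ne_zero.2 (hpo' hφ))
          (HahnSeries.leadingCoeff_ne_zero.2 (hpo' hψ))]
      ring
  · rintro (_ | ⟨p, hp⟩) φ
    · show (PY Y hY (star φ)).order - (PY (-Y) (hYneg hY) (star φ)).order = _
      rw [cor_star hY, cor_star' hY]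
      ring
    · show padicValRat p (PY Y hY (star φ)).leadingCoeff -
        padicValRat p (PY (-Y) (hYneg hY) (star φ)).leadingCoeff = _
      rw [cor_star hY, cor_star' hY]
      ring
  · rintro (_ | ⟨p, hp⟩) q hq
    · show (PY Y hY (algebraMap ℚ[X] (Crd f) q)).order -
        (PY (-Y) (hYneg hY) (algebraMap ℚ[X] (Crd f) q)).order = _
      rw [cor_alg, cor_alg, sub_self]
    · show padicValRat p (PY Y hY (algebraMap ℚ[X] (Crd f) q)).leadingCoeff -
        padicValRat p (PY (-Y) (hYneg hY) (algebraMap ℚ[X] (Crd f) q)).leadingCoeff = _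
      rw [cor_alg, cor_alg, sub_self]
  · rintro φ hφ ⟨κ, N, hκ, hN, hnorm⟩ hχ
    have hχ0 : (PY Y hY φ).order - (PY (-Y) (hYneg hY) φ).order = 0 := hχ none
    have hχp : ∀ p (hp : p ∈ (2 * f0.discr).natAbs.primeFactors),
        padicValRat p (PY Y hY φ).leadingCoeff -
          padicValRat p (PY (-Y) (hYneg hY) φ).leadingCoeff = 0 := fun p hp => hχ (some ⟨p, hp⟩)
    intro hdegeq
    -- both coordinates are not zero
    have hB0 : φ.im ≠ 0 := by
      intro h0
      rw [h0, zero_pow two_ne_zero, mul_zero, degree_zero, degree_eq_bot] at hdegeq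
      exact hφ (QuadraticAlgebra.ext (pow_eq_zero_iff two_ne_zero |>.1 hdegeq) h0)
    have hA0 : φ.re ≠ 0 := by
      intro h0
      rw [h0, zero_pow two_ne_zero, degree_zero] at hdegeq
      exact mul_ne_zero hfm.ne_zero (pow_ne_zero 2 hB0) (degree_eq_bot.1 hdegeq.symm)
    have hd : φ.re.natDegree = φ.im.natDegree + h := by
      have h1 := natDegree_eq_of_degree_eq hdegeq
      rw [natDegree_pow, natDegree_mul hfm.ne_zero (pow_ne_zero 2 hB0), natDegree_pow, hfn] at h1
      omega
    set d : ℤ := (φ.re.natDegree : ℤ) with hddef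
    have c1 : (PY Y hY φ).coeff (-d) = φ.re.leadingCoeff + φ.im.leadingCoeff :=
      cor_coeff hY hfm hfn hYl φ hB0 hd
    have c2 : (PY (-Y) (hYneg hY) φ).coeff (-d) = φ.re.leadingCoeff - φ.im.leadingCoeff := by
      have h1 : (PY Y hY (star φ)).coeff (-d) =
          (star φ).re.leadingCoeff + (star φ).im.leadingCoeff := by
        have e1 : (star φ).re = φ.re := by simp [QuadraticAlgebra.re_star]
        have e2 : (star φ).im = -φ.im := by simp [QuadraticAlgebra.im_star]
        have := cor_coeff hY hfm hfn hYl (star φ) (by rw [e2]; exact neg_ne_zero.2 hB0)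
          (by rw [e1, e2, natDegree_neg]; exact hd)
        rw [e1] at this ⊢
        exact this
      have e1 : (star φ).re = φ.re := by simp [QuadraticAlgebra.re_star]
      have e2 : (star φ).im = -φ.im := by simp [QuadraticAlgebra.im_star]
      rw [cor_star, e1, e2, leadingCoeff_neg] at h1
      rw [h1]
      ring
    -- the orders are at least `-d`
    have v1 : ∀ k < -d, (PY Y hY φ).coeff k = 0 := by
      intro k hk
      refine coeff_PY_eq_zero hY hfm.ne_zero hfn φ.re.natDegree φ ?_ ?_ k hk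
      · rw [degree_eq_natDegree hA0]
        exact_mod_cast Nat.lt_succ_self _
      · rw [degree_eq_natDegree hB0]
        have : φ.im.natDegree < φ.re.natDegree + 1 - h := by omega
        exact_mod_cast this
    have v2 : ∀ k < -d, (PY (-Y) (hYneg hY) φ).coeff k = 0 := by
      intro k hk
      refine coeff_PY_eq_zero (hYneg hY) hfm.ne_zero hfn φ.re.natDegree φ ?_ ?_ k hk
      · rw [degree_eq_natDegree hA0]
        exact_mod_cast Nat.lt_succ_self _
      · rw [degree_eq_natDegree hB0]
        have : φ.im.natDegree < φ.re.natDegree + 1 - h := by omega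
        exact_mod_cast this
    have o1 := le_order (hpo hφ) v1
    have o2 := le_order (hpo' hφ) v2
    have hlA : φ.re.leadingCoeff ≠ 0 := leadingCoeff_ne_zero.2 hA0
    have hlB : φ.im.leadingCoeff ≠ 0 := leadingCoeff_ne_zero.2 hB0
    have oo : (PY Y hY φ).order = -d := by
      by_contra hne
      have hlt1 : -d < (PY Y hY φ).order := lt_of_le_of_ne o1 (Ne.symm hne)
      have hlt2 : -d < (PY (-Y) (hYneg hY) φ).order := by omega
      have z1 := HahnSeries.coeff_eq_zero_of_lt_order hlt1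
      have z2 := HahnSeries.coeff_eq_zero_of_lt_order hlt2
      rw [c1] at z1
      rw [c2] at z2
      apply hlA
      linarith
    have oo' : (PY (-Y) (hYneg hY) φ).order = -d := by omega
    have l1 : (PY Y hY φ).leadingCoeff = φ.re.leadingCoeff + φ.im.leadingCoeff := by
      rw [HahnSeries.leadingCoeff_eq, oo, c1]
    have l2 : (PY (-Y) (hYneg hY) φ).leadingCoeff = φ.re.leadingCoeff - φ.im.leadingCoeff := by
      rw [HahnSeries.leadingCoeff_eq, oo', c2]
    have n1 : φ.re.leadingCoeff + φ.im.leadingCoeff ≠ 0 := by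
      rw [← l1]
      exact HahnSeries.leadingCoeff_ne_zero.2 (hpo hφ)
    have n2 : φ.re.leadingCoeff - φ.im.leadingCoeff ≠ 0 := by
      rw [← l2]
      exact HahnSeries.leadingCoeff_ne_zero.2 (hpo' hφ)
    rw [norm_crd] at hnorm
    have hval : ∀ p : ℕ, p.Prime → padicValRat p (φ.re.leadingCoeff + φ.im.leadingCoeff) =
        padicValRat p (φ.re.leadingCoeff - φ.im.leadingCoeff) := by
      intro p hp
      have : Fact p.Prime := ⟨hp⟩
      by_cases hpd : p ∣ (2 * f0.discr).natAbs ∧ (2 * f0.discr).natAbs ≠ 0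
      · have := hχp p (Nat.mem_primeFactors.2 ⟨hp, hpd.1, hpd.2⟩)
        rw [l1, l2] at this
        linarith
      · have hD : (2 * f0.discr : ℤ) ≠ 0 := mul_ne_zero two_ne_zero (cor_discr_ne_zero f0 hm hirr)
        have hpd' : ¬ p ∣ (2 * f0.discr).natAbs := fun h4 => hpd ⟨h4, Int.natAbs_ne_zero.2 hD⟩
        have h0 : 0 < f0.natDegree := by
          have := hfirr.natDegree_pos
          rwa [hf, hm.natDegree_map] at this
        exact cor_val f0 hm h0 p hpd' φ.re φ.im hA0 hB0 h hn hd n1 n2 κ N hN hnorm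
    rcases cor_eq_or_neg n1 n2 hval with h3 | h3
    · apply hlB
      linarith
    · apply hlA
      linarith

end Pool.TTE
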