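import Mathlib

set_option autoImplicit false

/-!
TEAM TWOTORSION, even degree: one integral condition costs one in the rank.
-/

namespace Pool.TTE

private theorem drop_aux {ι κ : Type*} (Γ : AddSubgroup ((ι → ℤ) × (κ → ℤ)))
    (r : ℕ) (h : ∀ S : Finset ι, r < S.card → ∃ m c, (m, c) ∈ Γ ∧ m ≠ 0 ∧ ∀ i, i ∉ S → m i = 0)
    (T : Finset κ) : ∀ S : Finset ι, r + T.card < S.card →
      ∃ m c, (m, c) ∈ Γ ∧ m ≠ 0 ∧ (∀ i, i ∉ S → m i = 0) ∧ ∀ t ∈ T, c t = 0 := by
  classical
  induction T using Finset.induction_on with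
  | empty =>
    intro S hS
    obtain ⟨m, c, h1, h2, h3⟩ := h S (by simpa using hS)
    exact ⟨m, c, h1, h2, h3, by simp⟩
  | insert t T ht ih =>
    intro S hS
    rw [Finset.card_insert_of_notMem ht] at hS
    obtain ⟨m1, c1, h1, h2, h3, h4⟩ := ih S (by omega)
    by_cases hc : c1 t = 0
    · refine ⟨m1, c1, h1, h2, h3, ?_⟩
      intro s hs
      rcases Finset.mem_insert.1 hs with rfl | hs
      · exact hc
      · exact h4 s hs
    · obtain ⟨i, hi⟩ := Function.ne_iff.1 h2
      have hiS : i ∈ S := by
        by_contra h5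
        exact hi (h3 i h5)
      obtain ⟨m2, c2, g1, g2, g3, g4⟩ := ih (S.erase i) (by
        rw [Finset.card_erase_of_mem hiS]
        omega)
      refine ⟨c1 t • m2 - c2 t • m1, c1 t • c2 - c2 t • c1, ?_, ?_, ?_, ?_⟩
      · have := Γ.sub_mem (Γ.zsmul_mem g1 (c1 t)) (Γ.zsmul_mem h1 (c2 t))
        simpa using this
      · intro h0
        by_cases hc2 : c2 t = 0
        · obtain ⟨k, hk⟩ := Function.ne_iff.1 g2
          have := congrFun h0 k
          simp only [Pi.sub_apply, Pi.smul_apply, hc2, smul_eq_mul, zero_mul, sub_zero,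
            Pi.zero_apply, mul_eq_zero] at this
          rcases this with h5 | h5
          · exact hc h5
          · exact hk h5
        · have := congrFun h0 i
          simp only [Pi.sub_apply, Pi.smul_apply, smul_eq_mul, Pi.zero_apply,
            g3 i (Finset.notMem_erase i S), mul_zero, zero_sub, neg_eq_zero, mul_eq_zero] at this
          rcases this with h5 | h5
          · exact hc2 h5
          · exact hi h5
      · intro k hk
        simp only [Pi.sub_apply, Pi.smul_apply, smul_eq_mul,
          h3 k hk, g3 k (fun h5 => hk (Finset.mem_of_mem_erase h5)), mul_zero, sub_zero]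
      · intro s hs
        simp only [Pi.sub_apply, Pi.smul_apply, smul_eq_mul]
        rcases Finset.mem_insert.1 hs with rfl | hs
        · ring
        · rw [h4 s hs, g4 s hs]
          ring

/-- If every set with more than `r` elements carries a nonzero relation, then every set with more
than `r + |κ|` elements carries one with all the characters zero. -/
theorem drop_chars {ι κ : Type*} [Fintype ι] [Fintype κ] (Γ : AddSubgroup ((ι → ℤ) × (κ → ℤ)))
    (r : ℕ) (h : ∀ S : Finset ι, r < S.card → ∃ m c, (m, c) ∈ Γ ∧ m ≠ 0 ∧ ∀ i, i ∉ S → m i = 0)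
    (S : Finset ι) (hS : r + Fintype.card κ < S.card) :
    ∃ m, (m, 0) ∈ Γ ∧ m ≠ 0 ∧ ∀ i, i ∉ S → m i = 0 := by
  obtain ⟨m, c, h1, h2, h3, h4⟩ := drop_aux Γ r h Finset.univ S (by simpa using hS)
  have hc : c = 0 := funext fun t => h4 t (Finset.mem_univ t)
  exact ⟨m, by rw [hc] at h1; exact h1, h2, h3⟩

end Pool.TTE
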