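import Pool.Agent.Lib.MP_695920_nt.TT.Even.Repulsion
import Pool.Agent.Lib.MP_695920_nt.TT.Even.Drop
import Pool.Agent.Lib.MP_695920_nt.TT.Even.Corank

set_option autoImplicit false

/-!
TEAM TWOTORSION, even degree: relations with a good generator.
-/

open Polynomial Pool.TT

namespace Pool.TTE

/-! ### signed powers -/

/-- signed powers in a monoid -/
def pw {M : Type*} [Monoid M] (a a' : M) (k : ℤ) : M :=
  if k < 0 then a' ^ k.natAbs else a ^ k.natAbs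

theorem pw_nat {M : Type*} [Monoid M] (a a' : M) (n : ℕ) : pw a a' (n : ℤ) = a ^ n := by
  unfold pw
  rw [if_neg (by omega), Int.natAbs_natCast]

theorem pw_neg {M : Type*} [Monoid M] (a a' : M) (n : ℕ) : pw a a' (-(n : ℤ)) = a' ^ n := by
  unfold pw
  rw [Int.natAbs_neg, Int.natAbs_natCast]
  split_ifs with h
  · rfl
  · have : n = 0 := by omega
    rw [this, pow_zero, pow_zero]

theorem pw_swap {M : Type*} [Monoid M] (a a' : M) (k : ℤ) : pw a a' (-k) = pw a' a k := by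
  obtain ⟨n, rfl | rfl⟩ := k.eq_nat_or_neg
  · rw [pw_neg, pw_nat]
  · rw [neg_neg, pw_nat, pw_neg]

theorem pw_mul {M : Type*} [CommMonoid M] {a a' t : M} (h : a * a' = t) (k l : ℤ) :
    ∃ e : ℕ, pw a a' k * pw a a' l = t ^ e * pw a a' (k + l) := by
  have key : ∀ (b b' : M), b * b' = t → ∀ n m : ℕ, ∃ e : ℕ,
      b ^ n * b' ^ m = t ^ e * pw b b' (n - m) := by
    intro b b' hb n m
    rcases le_total n m with h1 | h1
    · obtain ⟨c, rfl⟩ := Nat.exists_eq_add_of_le h1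
      refine ⟨n, ?_⟩
      have h2 : (n : ℤ) - ((n + c : ℕ) : ℤ) = -(c : ℤ) := by push_cast; ring
      rw [h2, pw_neg, ← hb, mul_pow, pow_add]
      ac_rfl
    · obtain ⟨c, rfl⟩ := Nat.exists_eq_add_of_le h1
      refine ⟨m, ?_⟩
      have h2 : ((m + c : ℕ) : ℤ) - (m : ℤ) = (c : ℤ) := by push_cast; ring
      rw [h2, pw_nat, ← hb, mul_pow, pow_add]
      ac_rfl
  obtain ⟨n, rfl | rfl⟩ := k.eq_nat_or_neg <;> obtain ⟨m, rfl | rfl⟩ := l.eq_nat_or_neg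
  · refine ⟨0, ?_⟩
    rw [pw_nat, pw_nat, pow_zero, one_mul, ← pow_add, ← Nat.cast_add, pw_nat]
  · obtain ⟨e, he⟩ := key a a' h n m
    refine ⟨e, ?_⟩
    rw [pw_nat, pw_neg, he, sub_eq_add_neg]
  · obtain ⟨e, he⟩ := key a a' h m n
    refine ⟨e, ?_⟩
    rw [pw_nat, pw_neg, mul_comm, he, sub_eq_add_neg, add_comm]
  · refine ⟨0, ?_⟩
    rw [pw_neg, pw_neg, pow_zero, one_mul, ← pow_add, ← neg_add, ← Nat.cast_add, pw_neg]

variable {ι : Type*} [Fintype ι]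

/-- the ideal of the relation `m`: `∏ I_i ^ (m_i)`, the conjugate ideal for negative exponents -/
noncomputable def EPts.J (P : EPts ι) (m : ι → ℤ) : Ideal (Crd P.f) :=
  ∏ i, pt P.f (X - C (P.x i : ℚ)) (C ((if m i < 0 then -P.y i else P.y i : ℤ) : ℚ)) ^
    (m i).natAbs

/-- the relation `m` has a good generator -/
def EPts.GoodRel (P : EPts ι) (m : ι → ℤ) : Prop :=
  ∃ φ : Crd P.f, φ ≠ 0 ∧ Good φ ∧ Ideal.span {φ} = P.J m

omit [Fintype ι] in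
theorem EPts.dvd_pt (P : EPts ι) (i : ι) :
    (X - C (P.x i : ℚ)) ∣ P.f - C (P.y i : ℚ) ^ 2 := by
  have h1 : P.f.eval (P.x i : ℚ) = (P.y i : ℚ) ^ 2 := by
    rw [EPts.f, eval_intCast_map, Int.cast_id, ← P.eq i]
    simp
  rw [← C_pow, ← h1]
  exact X_sub_C_dvd_sub_C_eval

theorem EPts.J_eq (P : EPts ι) (m : ι → ℤ) :
    P.J m = ∏ i, pw (pt P.f (X - C (P.x i : ℚ)) (C (P.y i : ℚ)))
      (pt P.f (X - C (P.x i : ℚ)) (-C (P.y i : ℚ))) (m i) := by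
  unfold EPts.J pw
  refine Finset.prod_congr rfl fun i _ => ?_
  split_ifs with h
  · push_cast
    rw [C_neg]
  · rfl

theorem EPts.J_zero (P : EPts ι) : P.J 0 = Ideal.span {(1 : Crd P.f)} := by
  unfold EPts.J
  simp

theorem EPts.J_neg (P : EPts ι) (m : ι → ℤ) : (P.J m).map (conj P.f) = P.J (-m) := by
  rw [EPts.J_eq, EPts.J_eq]
  rw [show Ideal.map (conj P.f) (∏ i, pw (pt P.f (X - C (P.x i : ℚ)) (C (P.y i : ℚ)))
      (pt P.f (X - C (P.x i : ℚ)) (-C (P.y i : ℚ))) (m i)) =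
      ∏ i, Ideal.map (conj P.f) (pw (pt P.f (X - C (P.x i : ℚ)) (C (P.y i : ℚ)))
      (pt P.f (X - C (P.x i : ℚ)) (-C (P.y i : ℚ))) (m i)) from
        map_prod (Ideal.mapHom (conj P.f)) _ _]
  refine Finset.prod_congr rfl fun i _ => ?_
  rw [Pi.neg_apply, pw_swap]
  unfold pw
  split_ifs
  · rw [Ideal.map_pow, map_conj_pt, neg_neg]
  · rw [Ideal.map_pow, map_conj_pt]

theorem EPts.J_mul (P : EPts ι) (m m' : ι → ℤ) : ∃ p : ℚ[X], p ≠ 0 ∧
    P.J m * P.J m' = Ideal.span {(⟨p, 0⟩ : Crd P.f)} * P.J (m + m') := by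
  have h1 : ∀ i, ∃ e : ℕ, pw (pt P.f (X - C (P.x i : ℚ)) (C (P.y i : ℚ)))
      (pt P.f (X - C (P.x i : ℚ)) (-C (P.y i : ℚ))) (m i) *
      pw (pt P.f (X - C (P.x i : ℚ)) (C (P.y i : ℚ)))
      (pt P.f (X - C (P.x i : ℚ)) (-C (P.y i : ℚ))) (m' i) =
      Ideal.span {(⟨X - C (P.x i : ℚ), 0⟩ : Crd P.f)} ^ e *
      pw (pt P.f (X - C (P.x i : ℚ)) (C (P.y i : ℚ)))
      (pt P.f (X - C (P.x i : ℚ)) (-C (P.y i : ℚ))) (m i + m' i) := fun i =>
    pw_mul (pt_mul_conj P.f P.f_irr.squarefree _ _ (P.dvd_pt i)) _ _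
  choose e he using h1
  refine ⟨∏ i, (X - C (P.x i : ℚ)) ^ e i,
    Finset.prod_ne_zero_iff.2 fun i _ => pow_ne_zero _ (X_sub_C_ne_zero _), ?_⟩
  rw [EPts.J_eq, EPts.J_eq, EPts.J_eq, ← Finset.prod_mul_distrib,
    Finset.prod_congr rfl fun i _ => he i, Finset.prod_mul_distrib]
  congr 1
  have h2 : (⟨∏ i, (X - C (P.x i : ℚ)) ^ e i, 0⟩ : Crd P.f) =
      algebraMap ℚ[X] (Crd P.f) (∏ i, (X - C (P.x i : ℚ)) ^ e i) := rfl
  rw [h2, map_prod, ← Ideal.prod_span_singleton]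
  refine Finset.prod_congr rfl fun i _ => ?_
  rw [Ideal.span_singleton_pow, map_pow]
  rfl

/-- the product of two generators -/
theorem EPts.gen_mul (P : EPts ι) {m m' : ι → ℤ} {φ φ' : Crd P.f}
    (h : Ideal.span {φ} = P.J m) (h' : Ideal.span {φ'} = P.J m') :
    ∃ (p : ℚ[X]) (ψ : Crd P.f), p ≠ 0 ∧ φ * φ' = (⟨p, 0⟩ : Crd P.f) * ψ ∧
      Ideal.span {ψ} = P.J (m + m') := by
  obtain ⟨p, hp, hJ⟩ := P.J_mul m m'
  rw [← h, ← h', Ideal.span_singleton_mul_span_singleton] at hJ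
  have hp0 : (⟨p, 0⟩ : Crd P.f) ≠ 0 := fun h0 => hp (congrArg QuadraticAlgebra.re h0)
  obtain ⟨ψ, hψ⟩ : (⟨p, 0⟩ : Crd P.f) ∣ φ * φ' := by
    rw [← Ideal.span_singleton_le_span_singleton, hJ]
    exact Ideal.mul_le_left
  refine ⟨p, ψ, hp, hψ, ?_⟩
  rw [hψ, ← Ideal.span_singleton_mul_span_singleton] at hJ
  have hs0 : Ideal.span {(⟨p, 0⟩ : Crd P.f)} ≠ ⊥ := by
    rwa [Ne, Ideal.span_singleton_eq_bot]
  exact mul_left_cancel₀ hs0 hJ

theorem EPts.gen_star (P : EPts ι) {m : ι → ℤ} {φ : Crd P.f} (h : Ideal.span {φ} = P.J m) :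
    Ideal.span {star φ} = P.J (-m) := by
  rw [← P.J_neg, ← h, Ideal.map_span, Set.image_singleton, conj_apply]

/-- the group of the relations with a good generator -/
noncomputable def EPts.rel (P : EPts ι) : AddSubgroup (ι → ℤ) where
  carrier := {m | P.GoodRel m}
  zero_mem' := ⟨1, one_ne_zero, good_poly one_ne_zero, P.J_zero.symm⟩
  add_mem' := by
    rintro m m' ⟨φ, hφ, hg, hJ⟩ ⟨φ', hφ', hg', hJ'⟩
    obtain ⟨h, hh⟩ := P.even
    have hfd : P.f.natDegree = 2 * h := by rw [P.f_natDegree]; omega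
    obtain ⟨p, ψ, hp, hψ, hJψ⟩ := P.gen_mul hJ hJ'
    refine ⟨ψ, ?_, ?_, hJψ⟩
    · rintro rfl
      rw [mul_zero] at hψ
      exact mul_ne_zero hφ hφ' hψ
    · have h1 := Good.mul P.f_monic hfd hg hg'
      rw [hψ] at h1
      exact good_of_poly_mul P.f_monic hfd h1
  neg_mem' := by
    rintro m ⟨φ, hφ, hg, hJ⟩
    refine ⟨star φ, ?_, hg.star, P.gen_star hJ⟩
    intro h0
    apply hφ
    have h1 := congrArg star h0
    rwa [star_star, star_zero] at h1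

theorem EPts.mem_rel (P : EPts ι) (m : ι → ℤ) : m ∈ P.rel ↔ P.GoodRel m := Iff.rfl

/-- **Repulsion** -/
theorem repulsion_even (P : EPts ι) (ρ : ℝ) (hρ : 1 ≤ ρ)
    (hroots : ∀ z : ℂ, (P.f0.map (Int.castRingHom ℂ)).IsRoot z → ‖z‖ ≤ ρ)
    (hx : ∀ i, |(P.x i : ℝ)| ≤ ρ) (m : ι → ℤ) (hm : m ∈ P.rel) (j : ι) :
    |(m j : ℝ)| * Real.log (2 * P.y j / P.g j) ≤
      (∑ i, |(m i : ℝ)|) * Real.log (100 * Real.sqrt ρ) := by
  obtain ⟨φ, -, hg, hJ⟩ := hm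
  exact repulsion_of P ρ hρ hroots hx m φ hg hJ j

/-- a relation between the classes has a generator -/
theorem EPts.exists_gen (P : EPts ι) (m : ι → ℤ) (hm : ∏ i, P.cls i ^ m i = 1) :
    ∃ φ : Crd P.f, φ ≠ 0 ∧ Ideal.span {φ} = P.J m := by
  have hdvd : ∀ i, (X - C (P.x i : ℚ)) ∣
      P.f - (C ((if m i < 0 then -P.y i else P.y i : ℤ) : ℚ)) ^ 2 := by
    intro i
    have h1 : (C ((if m i < 0 then -P.y i else P.y i : ℤ) : ℚ) : ℚ[X]) ^ 2 =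
        C (P.y i : ℚ) ^ 2 := by
      split_ifs
      · push_cast
        rw [C_neg, neg_sq]
      · rfl
    rw [h1]
    exact P.dvd_pt i
  have hrel : ∏ i, cle P.f (X - C (P.x i : ℚ))
      (C ((if m i < 0 then -P.y i else P.y i : ℤ) : ℚ)) ^ (m i).natAbs = 1 := by
    rw [← hm]
    refine Finset.prod_congr rfl fun i _ => ?_
    split_ifs with h
    · have h2 : (C ((-P.y i : ℤ) : ℚ) : ℚ[X]) = -C (P.y i : ℚ) := by
        push_cast
        rw [C_neg]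
      rw [h2, cle_neg P.f _ _ (P.dvd_pt i), inv_pow, ← zpow_natCast, ← zpow_neg]
      congr 1
      omega
    · rw [← zpow_natCast]
      congr 1
      omega
  obtain ⟨φ, hφ0, hφ, -⟩ := exists_function_g P.f (fun i => X - C (P.x i : ℚ))
    (fun i => C ((if m i < 0 then -P.y i else P.y i : ℤ) : ℚ)) (fun i => (m i).natAbs) hdvd hrel
  exact ⟨φ, hφ0, hφ⟩

/-- (3.4): the corank of the good relations in all relations -/
theorem good_rank (P : EPts ι) (r : ℕ)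
    (h : ∀ S : Finset ι, r < S.card → ∃ m : ι → ℤ, m ≠ 0 ∧ (∀ i, i ∉ S → m i = 0) ∧
      ∏ i, P.cls i ^ m i = 1) (S : Finset ι)
    (hS : r + 1 + (2 * P.f0.discr).natAbs.primeFactors.card < S.card) :
    ∃ m : ι → ℤ, m ≠ 0 ∧ (∀ i, i ∉ S → m i = 0) ∧ m ∈ P.rel := by
  classical
  obtain ⟨χ, hmul, hstar, hpoly, hgood⟩ :
      ∃ χ : Option (2 * P.f0.discr).natAbs.primeFactors → Crd P.f → ℤ,
      (∀ k φ ψ, φ ≠ 0 → ψ ≠ 0 → χ k (φ * ψ) = χ k φ + χ k ψ) ∧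
      (∀ k φ, χ k (star φ) = -χ k φ) ∧
      (∀ k (p : ℚ[X]), p ≠ 0 → χ k (algebraMap ℚ[X] (Crd P.f) p) = 0) ∧
      ∀ φ : Crd P.f, φ ≠ 0 →
        (∃ (κ : ℚ) (N : ℤ[X]), κ ≠ 0 ∧ N.Monic ∧
          φ.norm = C κ * N.map (Int.castRingHom ℚ)) → (∀ k, χ k φ = 0) → Good φ :=
    exists_chars P.f0 P.monic P.even P.irr P.root
  let Γ : AddSubgroup ((ι → ℤ) × (Option (2 * P.f0.discr).natAbs.primeFactors → ℤ)) :=
    { carrier := {g | ∃ φ : Crd P.f, φ ≠ 0 ∧ Ideal.span {φ} = P.J g.1 ∧ ∀ k, χ k φ = g.2 k}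
      zero_mem' := ⟨1, one_ne_zero, P.J_zero.symm, fun k => hpoly k 1 one_ne_zero⟩
      add_mem' := by
        rintro a b ⟨φ, hφ, hJ, hc⟩ ⟨φ', hφ', hJ', hc'⟩
        obtain ⟨p, ψ, hp, hψ, hJψ⟩ := P.gen_mul hJ hJ'
        have hψ0 : ψ ≠ 0 := by
          rintro rfl
          rw [mul_zero] at hψ
          exact mul_ne_zero hφ hφ' hψ
        have hp0 : (⟨p, 0⟩ : Crd P.f) ≠ 0 := fun h0 => hp (congrArg QuadraticAlgebra.re h0)
        refine ⟨ψ, hψ0, hJψ, fun k => ?_⟩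
        have h1 := hmul k φ φ' hφ hφ'
        rw [hψ, hmul k _ _ hp0 hψ0] at h1
        have h2 : χ k (⟨p, 0⟩ : Crd P.f) = 0 := hpoly k p hp
        rw [h2, zero_add, hc k, hc' k] at h1
        exact h1
      neg_mem' := by
        rintro a ⟨φ, hφ, hJ, hc⟩
        refine ⟨star φ, ?_, P.gen_star hJ, fun k => by rw [hstar, hc k]; rfl⟩
        intro h0
        apply hφ
        have h1 := congrArg star h0
        rwa [star_star, star_zero] at h1 }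
  obtain ⟨m, ⟨φ, hφ, hJ, hc⟩, hm0, hmS⟩ := drop_chars Γ r (fun S' hS' => by
    obtain ⟨m, h1, h2, h3⟩ := h S' hS'
    obtain ⟨φ, hφ, hJ⟩ := P.exists_gen m h3
    exact ⟨m, fun k => χ k φ, ⟨φ, hφ, hJ, fun k => rfl⟩, h1, h2⟩) S (by
      rw [Fintype.card_option, Fintype.card_coe]
      omega)
  refine ⟨m, hm0, hmS, φ, hφ, ?_, hJ⟩
  refine hgood φ hφ ?_ hc
  have hdvd : ∀ i, (X - C (P.x i : ℚ)) ∣
      P.f - (C ((if m i < 0 then -P.y i else P.y i : ℤ) : ℚ)) ^ 2 := by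
    intro i
    have h1 : (C ((if m i < 0 then -P.y i else P.y i : ℤ) : ℚ) : ℚ[X]) ^ 2 =
        C (P.y i : ℚ) ^ 2 := by
      split_ifs
      · push_cast
        rw [C_neg, neg_sq]
      · rfl
    rw [h1]
    exact P.dvd_pt i
  obtain ⟨κ, hκ, hN⟩ := norm_of_span P.f (fun i => X - C (P.x i : ℚ))
    (fun i => C ((if m i < 0 then -P.y i else P.y i : ℤ) : ℚ)) (fun i => (m i).natAbs) hdvd φ hJ
  refine ⟨κ, ∏ i, (X - C (P.x i)) ^ (m i).natAbs, hκ,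
    monic_prod_of_monic _ _ fun i _ => (monic_X_sub_C _).pow _, ?_⟩
  have h2 : (∏ i, (X - C (P.x i)) ^ (m i).natAbs : ℤ[X]).map (Int.castRingHom ℚ) =
      ∏ i, (X - C (P.x i : ℚ)) ^ (m i).natAbs := by
    rw [Polynomial.map_prod]
    refine Finset.prod_congr rfl fun i _ => ?_
    rw [Polynomial.map_pow, Polynomial.map_sub, map_X, map_C]
    simp
  rw [h2]
  exact hN

end Pool.TTE
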