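import Pool.Agent.Lib.MP_695920_nt.TT.Line
import Pool.Agent.Lib.MP_695920_nt.TT.Even.ENum
import Pool.Agent.Lib.MP_695920_nt.TT.Even.Rel
import Pool.Agent.Lib.MP_695920_nt.TT.Even.Descent
import Pool.Agent.Lib.MP_695920_nt.TT.Even.ClassRank
import Pool.Agent.Lib.MP_695920_nt.TT.Even.EBad

set_option autoImplicit false

/-!
TEAM TWOTORSION, even degree: the bound for the integral points on one line (OWNER helper16).
-/

open Pool.TT

namespace Pool.TTE

open Polynomial in
theorem exists_add_sq (V : PowerSeries ℤ) (hV : PowerSeries.constantCoeff V = 0) :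
    ∃ t : PowerSeries ℤ, PowerSeries.constantCoeff t = 0 ∧ t + t ^ 2 = V := by
  have ha : PowerSeries.HasSubst (-V : PowerSeries ℤ) :=
    PowerSeries.HasSubst.of_constantCoeff_zero' (by rw [map_neg, hV, neg_zero])
  set c : PowerSeries ℤ := PowerSeries.catalanSeries.map (Nat.castRingHom ℤ) with hc
  have h1 : c ^ 2 * PowerSeries.X + 1 = c := by
    have := congrArg (PowerSeries.map (Nat.castRingHom ℤ)) PowerSeries.catalanSeries_sq_mul_X_add_one
    rw [map_add, map_mul, map_pow, PowerSeries.map_X, map_one] at this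
    exact this
  have h2 := congrArg (PowerSeries.substAlgHom ha) h1
  rw [map_add, map_mul, map_pow, map_one, PowerSeries.substAlgHom_X] at h2
  set d : PowerSeries ℤ := PowerSeries.substAlgHom ha c with hd
  refine ⟨V * d, by rw [map_mul, hV, zero_mul], ?_⟩
  linear_combination (-V) * h2

open Polynomial in
/-- `w^n f~(1/w)` is the square of an integral power series for `f~(x) = 4^n f(x/4)`. -/
theorem exists_root (g : Polynomial ℤ) (hm : g.Monic) (_heven : Even g.natDegree) :
    ∃ s : PowerSeries ℤ, PowerSeries.constantCoeff s = 1 ∧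
      s ^ 2 = ((g.scaleRoots 4).reverse : PowerSeries ℤ) := by
  set F : ℤ[X] := g.scaleRoots 4 with hF
  have hFm : F.Monic := (monic_scaleRoots_iff 4).2 hm
  have h0 : F.reverse.coeff 0 = 1 := by rw [coeff_zero_reverse]; exact hFm
  have h4 : C 4 ∣ F.reverse - 1 := by
    rw [C_dvd_iff_dvd_coeff]
    intro k
    rcases Nat.eq_zero_or_pos k with rfl | hk
    · rw [coeff_sub, h0, coeff_one_zero, sub_self]
      exact dvd_zero _
    · rw [coeff_sub, coeff_one, if_neg (by omega), sub_zero, coeff_reverse, hF, coeff_scaleRoots,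
        natDegree_scaleRoots]
      rcases le_or_gt k g.natDegree with hkn | hkn
      · rw [revAt_le hkn]
        exact Dvd.dvd.mul_left (dvd_pow_self 4 (by omega)) _
      · rw [revAt_eq_self_of_lt hkn, coeff_eq_zero_of_natDegree_lt hkn, zero_mul]
        exact dvd_zero _
  obtain ⟨V, hV⟩ := h4
  have hV0 : PowerSeries.constantCoeff (V : PowerSeries ℤ) = 0 := by
    have h1 := congrArg (fun p => coeff p 0) hV
    simp only [coeff_sub, h0, coeff_one_zero, sub_self, coeff_C_mul] at h1
    have h2 : V.coeff 0 = 0 := by omega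
    rw [← PowerSeries.coeff_zero_eq_constantCoeff_apply, Polynomial.coeff_coe, h2]
  obtain ⟨t, ht0, ht⟩ := exists_add_sq (V : PowerSeries ℤ) hV0
  refine ⟨1 + 2 * t, by rw [map_add, map_mul, ht0]; simp, ?_⟩
  have h5 : (F.reverse : PowerSeries ℤ) = 1 + 4 * (V : PowerSeries ℤ) := by
    have h6 : F.reverse = 1 + C 4 * V := by rw [← hV]; ring
    rw [h6, Polynomial.coe_add, Polynomial.coe_one, Polynomial.coe_mul, Polynomial.coe_C]
    simp
  rw [h5]
  linear_combination 4 * ht

open NumberField Module Real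

/-- good points are few -/
theorem good_bound_even {N : ℕ} (P : EPts (Fin N)) (K : Type) [Field K] [NumberField K]
    (θ : 𝓞 K) (hθ : minpoly ℤ θ = P.f0) (hK : finrank ℚ K = P.f0.natDegree)
    {w ρ : ℝ} (hw : 1 < w) (hw2 : exp 1 < w ^ 2) (hρ : 1 ≤ ρ)
    (hroots : ∀ z : ℂ, (P.f0.map (Int.castRingHom ℂ)).IsRoot z → ‖z‖ ≤ ρ)
    (hx : ∀ i, |(P.x i : ℝ)| ≤ ρ)
    (hgood : ∀ i, ((w + w⁻¹) / 2 + 1) * log (100 * √ρ) ≤ log (2 * P.y i / P.g i)) :
    (N : ℝ) ≤ exp (2 * log w * ((Nat.clog 2 (Nat.card {x : ClassGroup (𝓞 K) // x ^ 2 = 1}) +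
      P.f0.natDegree * (1 + (2 * P.f0.discr).natAbs.primeFactors.card) + 1 +
      (2 * P.f0.discr).natAbs.primeFactors.card : ℕ) * tt w + log 8 + 1)) := by
  classical
  set h : ℕ := Nat.card {x : ClassGroup (𝓞 K) // x ^ 2 = 1} with hh
  set om : ℕ := P.f0.natDegree * (1 + (2 * P.f0.discr).natAbs.primeFactors.card) with hom
  set r0 : ℕ := Nat.clog 2 h + om with hr0
  set r : ℕ := r0 + 1 + (2 * P.f0.discr).natAbs.primeFactors.card with hr
  set z : ℝ := (w + w⁻¹) / 2 with hz
  have hw0 : 0 < w := by linarith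
  have hz1 : 1 < z := by
    have h1 : 0 < (w - 1) ^ 2 := by
      have : w - 1 ≠ 0 := by linarith
      positivity
    have h2 : z - 1 = (w - 1) ^ 2 / (2 * w) := by
      rw [hz]
      field_simp
      ring
    have h3 : 0 < z - 1 := by rw [h2]; positivity
    linarith
  have hLρ : 0 < log (100 * √ρ) := by
    apply log_pos
    have : 1 ≤ √ρ := by rw [one_le_sqrt]; exact hρ
    linarith
  obtain ⟨k, hk1, hk2⟩ := exists_k hw hw2 r
  obtain ⟨hfin, hcard⟩ := two_descent_even P K θ hθ hK
  have hcard' : Nat.card (ClassGroup (Crd P.f) ⧸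
      (powMonoidHom 2 : ClassGroup (Crd P.f) →* _).range) ≤ 2 ^ r0 := by
    refine hcard.trans ?_
    rw [hr0, pow_add]
    exact Nat.mul_le_mul_right _ (Nat.le_pow_clog (by norm_num) _)
  have hmain := Pool.Agent.Lib.MP_695920_nt.TT.rank_bound_relations (N := N) (ρ := r) (k := k)
    P.rel (c := 1 / z) (by positivity) (by
      rw [div_le_one (by linarith)]
      exact hz1.le) ?_ ?_ ?_
  · rw [one_div_one_div] at hmain
    exact hmain.trans hk2
  · intro m hm j
    have h1 := repulsion_even P ρ hρ hroots hx m hm j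
    have h2 := mul_le_mul_of_nonneg_left (hgood j) (abs_nonneg (m j : ℝ))
    have h3 : ∑ i, |(m i : ℝ)| = |(m j : ℝ)| + ∑ i ∈ Finset.univ.erase j, |(m i : ℝ)| := by
      rw [← Finset.add_sum_erase _ _ (Finset.mem_univ j)]
    rw [h3] at h1
    have h4 : (|(m j : ℝ)| * (z + 1)) * log (100 * √ρ) ≤
        (|(m j : ℝ)| + ∑ i ∈ Finset.univ.erase j, |(m i : ℝ)|) * log (100 * √ρ) := by
      calc _ = |(m j : ℝ)| * ((z + 1) * log (100 * √ρ)) := by ring
        _ ≤ _ := h2
        _ ≤ _ := h1
    have h5 := le_of_mul_le_mul_right h4 hLρ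
    have h6 : |(m j : ℝ)| * z ≤ ∑ i ∈ Finset.univ.erase j, |(m i : ℝ)| := by linarith
    have h7 : |(m j : ℝ)| ≤ 1 / z * ∑ i ∈ Finset.univ.erase j, |(m i : ℝ)| := by
      rw [one_div, ← div_eq_inv_mul, le_div_iff₀ (by linarith)]
      exact h6
    exact_mod_cast h7
  · intro S hS
    obtain ⟨m, hm0, hmS, hm⟩ := good_rank P r0
      (fun S' hS' => class_rank_even P r0 hfin hcard' S' hS') S (by omega)
    exact ⟨m, hm, hm0, hmS⟩
  · rw [one_div_one_div]
    exact hk1



/-- the scaled polynomial and its data -/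
theorem line_scale (g : Polynomial ℤ) {n : ℕ} (hn : g.natDegree = n)
    (x y : ℤ) (hy0 : 0 < y) (hy : y ^ 2 = g.eval x) :
    (2 ^ n * y) ^ 2 = (g.scaleRoots 4).eval (4 * x) ∧
    Int.gcd (2 * (2 ^ n * y)) ((g.scaleRoots 4).derivative.eval (4 * x)) ≤
      4 ^ n * Int.gcd (2 * y) (g.derivative.eval x) := by
  have h1 : (g.scaleRoots 4).eval (4 * x) = 4 ^ n * g.eval x := by
    rw [Polynomial.scaleRoots_eval_mul, hn]
  have h2 : 4 * (g.scaleRoots 4).derivative.eval (4 * x) = 4 ^ n * g.derivative.eval x := by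
    have h3 : (g.scaleRoots 4).comp (Polynomial.C 4 * Polynomial.X) = Polynomial.C (4 ^ n) * g := by
      ext k
      rw [Polynomial.comp_C_mul_X_coeff, Polynomial.coeff_scaleRoots, Polynomial.coeff_C_mul, hn]
      rcases le_or_gt k n with hk | hk
      · have : (4 : ℤ) ^ (n - k) * 4 ^ k = 4 ^ n := by rw [← pow_add, Nat.sub_add_cancel hk]
        calc g.coeff k * 4 ^ (n - k) * 4 ^ k = g.coeff k * (4 ^ (n - k) * 4 ^ k) := by ring
          _ = _ := by rw [this, mul_comm]
      · rw [Polynomial.coeff_eq_zero_of_natDegree_lt (by omega)]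
        simp
    have h4 := congrArg (fun p => (Polynomial.derivative p).eval x) h3
    simp only [Polynomial.derivative_comp, Polynomial.derivative_C_mul, Polynomial.derivative_X,
      Polynomial.eval_mul, Polynomial.eval_comp, Polynomial.eval_C, Polynomial.eval_X,
      mul_one] at h4
    exact h4
  refine ⟨?_, ?_⟩
  · rw [h1, ← hy, mul_pow, ← pow_mul, mul_comm n 2, pow_mul]
    norm_num
  · have h5 : (Int.gcd (2 * (2 ^ n * y)) ((g.scaleRoots 4).derivative.eval (4 * x)) : ℤ) ∣
        4 ^ n * (2 * y) := by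
      refine (Int.gcd_dvd_left _ _).trans ⟨2 ^ n, ?_⟩
      have : (4 : ℤ) ^ n = 2 ^ n * 2 ^ n := by rw [← mul_pow]; norm_num
      rw [this]
      ring
    have h6 : (Int.gcd (2 * (2 ^ n * y)) ((g.scaleRoots 4).derivative.eval (4 * x)) : ℤ) ∣
        4 ^ n * g.derivative.eval x := by
      rw [← h2]
      exact (Int.gcd_dvd_right _ _).trans (Dvd.intro_left 4 rfl)
    have h7 := Int.dvd_gcd h5 h6
    have h8 : Int.gcd (4 ^ n * (2 * y)) (4 ^ n * g.derivative.eval x) =
        4 ^ n * Int.gcd (2 * y) (g.derivative.eval x) := by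
      rw [Int.gcd_mul_left]
      congr 1
    rw [h8] at h7
    apply Nat.le_of_dvd _ (by exact_mod_cast h7)
    apply Nat.mul_pos (by positivity)
    apply Nat.pos_of_ne_zero
    intro h0
    have := (Int.gcd_eq_zero_iff.1 h0).1
    omega

/-- the bound for the points on one line: points `(4x, 2^n y)` on the curve of `4θ` -/
theorem line_bound_even (n : ℕ) (heven : Even n) (h4 : 4 ≤ n) {w s₀ : ℝ} (hw : 1 < w)
    (hw2 : exp 1 < w ^ 2) (hs0 : 0 < s₀) (hsn : s₀ < n) (hz : (w + w⁻¹) / 2 < n - 1 - s₀)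
    {c ε : ℝ} (hc : 1 ≤ c) (hε : 0 < ε) :
    ∃ C' : ℝ, 0 < C' ∧ ∀ (K : Type) [Field K] [NumberField K], finrank ℚ K = n → ∀ θ : 𝓞 K,
      (minpoly ℤ θ).natDegree = n →
      (∀ z : ℂ, ((minpoly ℤ θ).map (Int.castRingHom ℂ)).IsRoot z →
        ‖z‖ ≤ c * |(discr K : ℝ)| ^ ((1 : ℝ) / n)) →
      (Set.ncard {p : ℤ × ℤ | |(p.1 : ℝ)| ≤ c * |(discr K : ℝ)| ^ ((1 : ℝ) / n) ∧
        0 < p.2 ∧ p.2 ^ 2 = (minpoly ℤ θ).eval p.1} : ℝ) ≤
      C' * (|(discr K : ℝ)| ^ ((1 - s₀ / n) / (2 * n) + ε) +
        (Nat.card {x : ClassGroup (𝓞 K) // x ^ 2 = 1} : ℝ) ^ sg w * |(discr K : ℝ)| ^ ε) := by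
  classical
  set z : ℝ := (w + w⁻¹) / 2 with hzdef
  have hn0 : (0 : ℝ) < n := by have : 0 < n := by omega
                               exact_mod_cast this
  have hn3 : (4 : ℝ) ≤ n := by exact_mod_cast h4
  have hw0 : 0 < w := by linarith
  have hlw : 0 < log w := log_pos hw
  have htt : 0 < tt w := div_pos (exp_pos 1) (by linarith)
  have hl2 : 0 < log 2 := log_pos (by norm_num)
  have hz0 : 0 < z := by positivity
  obtain ⟨C0, hC0, hbad⟩ := Pool.Agent.Lib.MP_695920_nt.TTE.bad_points_e n (by omega)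
    (ε := n * ε) (by positivity)
  set A : ℝ := 2 * log w * tt w * (n + 1) with hA
  set δ : ℝ := ε / (n - 1) with hδ
  have hδ0 : 0 < δ := div_pos hε (by linarith)
  obtain ⟨C1, hC1, hom⟩ := exp_omega_le A hδ0
  set ℓ₀ : ℝ := (2 * (z + 1) * log (100 * √(4 * c)) + 4 * n * log 2) / (n - 1 - s₀ - z) with hℓ₀
  have hgap : 0 < n - 1 - s₀ - z := by linarith
  -- the constants
  set B1 : ℝ := C0 * c ^ (n * ε) with hB1
  set E1 : ℝ := exp (2 * log w * tt w + A + 2 * log w * (log 8 + 1)) with hE1
  set M : ℝ := 2 * (2 * (4 * c)) ^ (n * (n - 1)) with hM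
  have hM0 : 0 < M := by positivity
  set B2 : ℝ := E1 * (C1 * M ^ δ + 1) with hB2
  set B3 : ℝ := 2 * c * exp ℓ₀ + 1 with hB3
  have hc0 : 0 < c := by linarith
  have hB1' : 0 < B1 := by positivity
  have hE1' : 0 < E1 := exp_pos _
  have hB2' : 0 < B2 := by positivity
  have hB3' : 0 < B3 := by positivity
  refine ⟨B1 + B2 + B3, by positivity, fun K _ _ hK θ hθn hroots => ?_⟩
  set D : ℝ := |(discr K : ℝ)| with hD
  have hD1 : 1 ≤ D := by
    have h1 : (1 : ℤ) ≤ |discr K| := Int.one_le_abs (NumberField.discr_ne_zero K)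
    have h2 : ((1 : ℤ) : ℝ) ≤ ((|discr K| : ℤ) : ℝ) := by exact_mod_cast h1
    rw [hD]
    push_cast at h2
    exact h2
  have hD0 : 0 < D := by linarith
  set X : ℝ := D ^ ((1 : ℝ) / n) with hX
  have hX1 : 1 ≤ X := one_le_rpow hD1 (by positivity)
  have hX0 : 0 < X := by linarith
  set h : ℕ := Nat.card {x : ClassGroup (𝓞 K) // x ^ 2 = 1} with hh
  have hh1 : 1 ≤ h := by
    have : Nonempty {x : ClassGroup (𝓞 K) // x ^ 2 = 1} := ⟨⟨1, one_pow 2⟩⟩
    exact Nat.card_pos
  have hh1' : (1 : ℝ) ≤ h := by exact_mod_cast hh1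
  set f0 := minpoly ℤ θ with hf0
  have hint : IsIntegral ℤ θ := NumberField.RingOfIntegers.isIntegral θ
  have hmon : f0.Monic := minpoly.monic hint
  have hirr : Irreducible f0 := minpoly.irreducible hint
  have hρ1 : 1 ≤ c * X := one_le_mul_of_one_le_of_one_le hc hX1
  have hρ4 : 1 ≤ 4 * (c * X) := by linarith
  set F : Polynomial ℤ := f0.scaleRoots 4 with hF
  have hFm : F.Monic := (Polynomial.monic_scaleRoots_iff 4).2 hmon
  have hFn : F.natDegree = n := by rw [hF, Polynomial.natDegree_scaleRoots, hθn]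
  obtain ⟨η, hη⟩ : ∃ η : 𝓞 K, minpoly ℤ η = F :=
    ⟨(4 : ℤ) • θ, IsIntegrallyClosed.minpoly_smul (by norm_num) hint⟩
  have hFirr : Irreducible F := by
    rw [← hη]
    exact minpoly.irreducible (NumberField.RingOfIntegers.isIntegral η)
  have hrootsF : ∀ z : ℂ, (F.map (Int.castRingHom ℂ)).IsRoot z → ‖z‖ ≤ 4 * (c * X) := by
    intro z hz
    have h1 : F.map (Int.castRingHom ℂ) = (f0.map (Int.castRingHom ℂ)).scaleRoots 4 := by
      rw [hF, Polynomial.map_scaleRoots _ _ _ (by rw [hmon.leadingCoeff]; simp)]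
      simp
    have h2 : (f0.map (Int.castRingHom ℂ)).IsRoot (z / 4) := by
      have h3 : z = 4 * (z / 4) := by ring
      rw [Polynomial.IsRoot.def, h1, h3, Polynomial.scaleRoots_eval_mul] at hz
      rcases mul_eq_zero.1 hz with h4 | h4
      · exact absurd h4 (pow_ne_zero _ (by norm_num))
      · exact h4
    have h3 := hroots _ h2
    rw [norm_div] at h3
    norm_num at h3
    linarith
  set S : Set (ℤ × ℤ) := {p : ℤ × ℤ | |(p.1 : ℝ)| ≤ c * X ∧ 0 < p.2 ∧ p.2 ^ 2 = f0.eval p.1}
    with hS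
  have hinj : Set.InjOn Prod.fst S := by
    rintro ⟨x, y⟩ ⟨-, h1, h2⟩ ⟨x', y'⟩ ⟨-, h1', h2'⟩ hxx
    simp only at h1 h2 h1' h2' hxx
    subst hxx
    have h4 : y ^ 2 = y' ^ 2 := by rw [h2, h2']
    have h5 : y = y' := by
      rcases sq_eq_sq_iff_eq_or_eq_neg.1 h4 with h6 | h6
      · exact h6
      · omega
    rw [h5]
  have hSfin : S.Finite := by
    apply Set.Finite.of_finite_image (f := Prod.fst) _ hinj
    apply (Set.finite_Icc ⌈-(c * X)⌉ ⌊c * X⌋).subset
    rintro _ ⟨p, ⟨hp, -, -⟩, rfl⟩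
    rw [abs_le] at hp
    exact ⟨Int.ceil_le.mpr hp.1, Int.le_floor.mpr hp.2⟩
  set Lm : ℝ := X ^ (((n : ℝ) - s₀) / 2) with hLm
  have hLm1 : 1 ≤ Lm := one_le_rpow hX1 (by linarith)
  have hpos1 : 0 ≤ (h : ℝ) ^ sg w * D ^ ε := by positivity
  have hpos2 : 0 ≤ D ^ ((1 - s₀ / n) / (2 * n) + ε) := by positivity
  -- finset of all points
  set T : Finset (ℤ × ℤ) := hSfin.toFinset with hT
  have hTS : ∀ p ∈ T, p ∈ S := fun p hp => hSfin.mem_toFinset.1 hp
  have hcard : S.ncard = T.card := Set.ncard_eq_toFinset_card S hSfin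
  rw [hcard]
  set isBad : ℤ × ℤ → Prop := fun p =>
    2 * (p.2 : ℝ) ≤ Lm * (Int.gcd (2 * p.2) (f0.derivative.eval p.1) : ℝ) with hisBad
  set Tb : Finset (ℤ × ℤ) := T.filter isBad with hTb
  set Tg : Finset (ℤ × ℤ) := T.filter (fun p => ¬ isBad p) with hTg
  have hsplit : (T.card : ℝ) = Tb.card + Tg.card := by
    have := Finset.card_filter_add_card_filter_not (s := T) isBad
    exact_mod_cast this.symm
  -- bad points
  have hsep : (f0.map (Int.castRingHom ℚ)).Separable := by
    have : Irreducible (f0.map (Int.castRingHom ℚ)) :=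
      (Polynomial.Monic.irreducible_iff_irreducible_map_fraction_map (K := ℚ) hmon).1 hirr
    exact this.separable
  have hb : (Tb.card : ℝ) ≤ B1 * D ^ ((1 - s₀ / n) / (2 * n) + ε) := by
    have h1 : Tb.card = (Tb.image Prod.fst).card := by
      rw [Finset.card_image_of_injOn]
      exact fun a ha b hb hab => hinj (hTS a (Finset.mem_filter.1 ha).1)
        (hTS b (Finset.mem_filter.1 hb).1) hab
    have h2 := hbad f0 hmon hθn hsep (c * X) Lm hρ1 hLm1 hroots (Tb.image Prod.fst) (by
      intro x hx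
      obtain ⟨p, hp, rfl⟩ := Finset.mem_image.1 hx
      obtain ⟨hp1, hp2⟩ := Finset.mem_filter.1 hp
      obtain ⟨h5, h6, h7⟩ := hTS p hp1
      exact ⟨h5, p.2, h6, h7, hp2⟩)
    rw [← h1] at h2
    refine h2.trans (le_of_eq ?_)
    rw [mul_rpow hc0.le hX0.le, hLm, ← rpow_mul hX0.le, hX, ← rpow_mul hD0.le, ← rpow_mul hD0.le,
      hB1]
    have e1 : D ^ ((1 - s₀ / n) / (2 * n) + ε) =
        D ^ (1 / (n : ℝ) * (n * ε)) * D ^ (1 / (n : ℝ) * ((n - s₀) / 2 * (1 / n))) := by
      rw [← rpow_add hD0]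
      congr 1
      field_simp
      ring
    rw [e1]
    ring
  rcases le_or_gt ℓ₀ (log X) with hbig | hsmall
  · -- good points
    have hg : (Tg.card : ℝ) ≤ B2 * ((h : ℝ) ^ sg w * D ^ ε) := by
      let e := Tg.equivFin
      have hmem : ∀ i, ((e.symm i : Tg) : ℤ × ℤ) ∈ S := fun i =>
        hTS _ (Finset.mem_filter.1 (e.symm i).2).1
      let P : EPts (Fin Tg.card) :=
        { f0 := F
          monic := hFm
          even := by rw [hFn]; exact heven
          irr := hFirr
          four := by rw [hFn]; exact h4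
          root := exists_root f0 hmon (by rw [hθn]; exact heven)
          x := fun i => 4 * ((e.symm i : Tg) : ℤ × ℤ).1
          y := fun i => 2 ^ n * ((e.symm i : Tg) : ℤ × ℤ).2
          inj := fun i j hij => e.symm.injective (Subtype.ext (hinj (hmem i) (hmem j)
            (by simpa using hij)))
          pos := fun i => mul_pos (by positivity) (hmem i).2.1
          eq := fun i => (line_scale f0 hθn _ _ (hmem i).2.1 (hmem i).2.2).1 }
      have h1 := good_bound_even P K η hη (by rw [hK]; exact hFn.symm) hw hw2 hρ4 hrootsF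
        (fun i => by
          have := (hmem i).1
          show |((4 * ((e.symm i : Tg) : ℤ × ℤ).1 : ℤ) : ℝ)| ≤ _
          push_cast
          rw [abs_mul]
          norm_num
          linarith) (by
          intro i
          have h2 : ¬ isBad ((e.symm i : Tg) : ℤ × ℤ) := (Finset.mem_filter.1 (e.symm i).2).2
          rw [hisBad] at h2
          simp only [not_le] at h2
          set p : ℤ × ℤ := ((e.symm i : Tg) : ℤ × ℤ) with hp
          have hp2 : 0 < p.2 := (hmem i).2.1
          have hp2' : (0 : ℝ) < p.2 := by exact_mod_cast hp2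
          set gg : ℕ := Int.gcd (2 * p.2) (f0.derivative.eval p.1) with hgg
          have hgpos : 0 < (gg : ℝ) := by
            have h3 : gg ≠ 0 := by
              intro h4
              have h5 : (2 * p.2) = 0 := (Int.gcd_eq_zero_iff.1 h4).1
              omega
            exact_mod_cast Nat.pos_of_ne_zero h3
          have hPg : (P.g i : ℝ) ≤ 4 ^ n * gg := by
            have := (line_scale f0 hθn p.1 p.2 hp2 (hmem i).2.2).2
            exact_mod_cast this
          have hPg0 : 0 < (P.g i : ℝ) := by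
            have h3 : P.g i ≠ 0 := by
              intro h4
              have h5 : (2 * P.y i) = 0 := (Int.gcd_eq_zero_iff.1 h4).1
              have := P.pos i
              omega
            exact_mod_cast Nat.pos_of_ne_zero h3
          have h3 : Lm / 2 ^ n ≤ 2 * P.y i / P.g i := by
            have e1 : (2 * P.y i : ℝ) = 2 ^ n * (2 * p.2) := by
              show (2 * ((2 ^ n * p.2 : ℤ) : ℝ)) = _
              push_cast
              ring
            rw [le_div_iff₀ hPg0, e1, div_mul_eq_mul_div, div_le_iff₀ (by positivity)]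
            have e2 : (4 : ℝ) ^ n = 2 ^ n * 2 ^ n := by rw [← mul_pow]; norm_num
            calc Lm * P.g i ≤ Lm * (4 ^ n * gg) := mul_le_mul_of_nonneg_left hPg (by linarith)
              _ = 4 ^ n * (Lm * gg) := by ring
              _ ≤ 4 ^ n * (2 * p.2) := mul_le_mul_of_nonneg_left h2.le (by positivity)
              _ = _ := by rw [e2]; ring
          have h4 : log (Lm / 2 ^ n) ≤ log (2 * P.y i / P.g i) :=
            log_le_log (by positivity) h3
          refine le_trans ?_ h4
          rw [log_div (by positivity) (by positivity), log_pow, hLm, log_rpow hX0]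
          have h5 : log (100 * √(4 * (c * X))) = log (100 * √(4 * c)) + log X / 2 := by
            rw [← mul_assoc, sqrt_mul (by positivity), ← mul_assoc,
              log_mul (by positivity) (by positivity), log_sqrt hX0.le]
          rw [h5]
          have h6 : 2 * (z + 1) * log (100 * √(4 * c)) + 4 * n * log 2 ≤
              log X * (n - 1 - s₀ - z) := by
            rw [hℓ₀, div_le_iff₀ hgap] at hbig
            exact hbig
          have h7 : 0 ≤ n * log 2 := by positivity
          rw [← hzdef]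
          linarith)
      have h2 : P.f0 = F := rfl
      rw [h2, hFn] at h1
      refine h1.trans ?_
      set om : ℕ := (2 * F.discr).natAbs.primeFactors.card with hom'
      have h3 : 2 * log w * ((Nat.clog 2 h + n * (1 + om) + 1 + om : ℕ) * tt w + log 8 + 1) ≤
          sg w * log h + (2 * log w * tt w + A + 2 * log w * (log 8 + 1)) + A * om := by
        have h4 := clog_le h hh1
        have h5 : 0 < 2 * log w * tt w := by positivity
        have h6 := mul_le_mul_of_nonneg_left h4 h5.le
        have h7 : 2 * log w * tt w * (log h / log 2 + 1) = sg w * log h + 2 * log w * tt w := by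
          unfold sg
          field_simp
        rw [h7] at h6
        push_cast
        rw [hA]
        linarith
      have h4 : exp (sg w * log h) = (h : ℝ) ^ sg w := by
        rw [rpow_def_of_pos (by linarith), mul_comm]
      have h5 : exp (A * om) ≤ (C1 * M ^ δ + 1) * D ^ ε := by
        have hDε : 1 ≤ D ^ ε := one_le_rpow hD1 hε.le
        rcases eq_or_ne (2 * F.discr).natAbs 0 with h0 | h0
        · have : om = 0 := by rw [hom', h0]; simp
          rw [this]
          simp only [Nat.cast_zero, mul_zero, exp_zero]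
          have e0 : 0 < C1 * M ^ δ := by positivity
          have e1 : 1 * 1 ≤ (C1 * M ^ δ + 1) * D ^ ε :=
            mul_le_mul (by linarith) hDε zero_le_one (by linarith)
          linarith
        · have h6 := hom _ h0
          rw [← hom'] at h6
          refine h6.trans ?_
          have h7 : (((2 * F.discr).natAbs : ℕ) : ℝ) ≤ M * D ^ ((n : ℝ) - 1) := by
            have h8 := discr_bound F hFm (by omega) (by linarith : 0 ≤ 4 * (c * X)) hrootsF
            rw [hFn] at h8
            have h9 : (((2 * F.discr).natAbs : ℕ) : ℝ) = 2 * |(F.discr : ℝ)| := by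
              rw [Nat.cast_natAbs]
              push_cast
              rw [abs_mul]
              simp
            rw [h9]
            have h10 : ((2 * (4 * (c * X))) ^ (n - 1)) ^ n =
                (2 * (4 * c)) ^ (n * (n - 1)) * X ^ (n * (n - 1)) := by
              rw [← pow_mul, ← mul_pow, mul_comm (n - 1) n]
              congr 1
              ring
            have h11 : X ^ (n * (n - 1)) = D ^ ((n : ℝ) - 1) := by
              rw [hX, ← rpow_natCast, ← rpow_mul hD0.le]
              congr 1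
              rw [Nat.cast_mul, Nat.cast_sub (by omega)]
              field_simp
              simp
            rw [h10, h11] at h8
            rw [hM]
            linarith
          have h8 : (((2 * F.discr).natAbs : ℕ) : ℝ) ^ δ ≤ M ^ δ * D ^ ε := by
            refine (rpow_le_rpow (Nat.cast_nonneg _) h7 hδ0.le).trans (le_of_eq ?_)
            rw [mul_rpow hM0.le (by positivity), ← rpow_mul hD0.le]
            congr 2
            rw [hδ]
            have : (n : ℝ) - 1 ≠ 0 := by linarith
            field_simp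
          calc C1 * (((2 * F.discr).natAbs : ℕ) : ℝ) ^ δ ≤ C1 * (M ^ δ * D ^ ε) :=
                mul_le_mul_of_nonneg_left h8 hC1.le
            _ ≤ (C1 * M ^ δ + 1) * D ^ ε := by
                have : 0 ≤ D ^ ε := by positivity
                calc C1 * (M ^ δ * D ^ ε) = C1 * M ^ δ * D ^ ε := by ring
                  _ ≤ _ := by rw [add_mul, one_mul]; linarith
      calc exp (2 * log w * ((Nat.clog 2 h + n * (1 + om) + 1 + om : ℕ) * tt w + log 8 + 1)) ≤
            exp (sg w * log h + (2 * log w * tt w + A + 2 * log w * (log 8 + 1)) + A * om) :=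
            exp_le_exp.2 h3
        _ = (h : ℝ) ^ sg w * E1 * exp (A * om) := by rw [exp_add, exp_add, h4]
        _ ≤ (h : ℝ) ^ sg w * E1 * ((C1 * M ^ δ + 1) * D ^ ε) :=
            mul_le_mul_of_nonneg_left h5 (by positivity)
        _ = B2 * ((h : ℝ) ^ sg w * D ^ ε) := by rw [hB2]; ring
    rw [hsplit]
    nlinarith
  · -- bounded discriminant
    have hXb : X ≤ exp ℓ₀ := by
      rw [← exp_log hX0]
      exact exp_le_exp.2 hsmall.le
    have h1 : (T.card : ℝ) ≤ B3 := by
      have h2 : T.card = (T.image Prod.fst).card := by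
        rw [Finset.card_image_of_injOn]
        exact fun a ha b hb hab => hinj (hTS a ha) (hTS b hb) hab
      have h3 : T.image Prod.fst ⊆ Finset.Icc ⌈-(c * X)⌉ ⌊c * X⌋ := by
        intro x hx
        obtain ⟨p, hp, rfl⟩ := Finset.mem_image.1 hx
        obtain ⟨h5, -, -⟩ := hTS p hp
        rw [abs_le] at h5
        exact Finset.mem_Icc.2 ⟨Int.ceil_le.mpr h5.1, Int.le_floor.mpr h5.2⟩
      have h4 := Finset.card_le_card h3
      rw [← h2, Int.card_Icc] at h4
      have h5 : ((⌊c * X⌋ + 1 - ⌈-(c * X)⌉).toNat : ℝ) ≤ 2 * (c * X) + 1 := by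
        have h6 : (0 : ℤ) ≤ ⌊c * X⌋ + 1 - ⌈-(c * X)⌉ := by
          rw [Int.ceil_neg]
          have : (0 : ℤ) ≤ ⌊c * X⌋ := Int.floor_nonneg.2 (by positivity)
          omega
        have h7 : (((⌊c * X⌋ + 1 - ⌈-(c * X)⌉).toNat : ℤ) : ℝ) =
            ((⌊c * X⌋ + 1 - ⌈-(c * X)⌉ : ℤ) : ℝ) := by
          rw [Int.toNat_of_nonneg h6]
        rw [Int.cast_natCast] at h7
        rw [h7, Int.ceil_neg]
        push_cast
        have := Int.floor_le (c * X)
        linarith
      have h6 : (T.card : ℝ) ≤ ((⌊c * X⌋ + 1 - ⌈-(c * X)⌉).toNat : ℝ) := by exact_mod_cast h4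
      have h7 : c * X ≤ c * exp ℓ₀ := mul_le_mul_of_nonneg_left hXb hc0.le
      rw [hB3]
      linarith
    have h2 : 1 ≤ D ^ ((1 - s₀ / n) / (2 * n) + ε) := by
      apply one_le_rpow hD1
      have : 0 < (1 - s₀ / n) / (2 * n) := by
        apply div_pos _ (by positivity)
        rw [sub_pos, div_lt_one hn0]
        exact hsn
      linarith
    have h3 : B3 * 1 ≤ B3 * (D ^ ((1 - s₀ / n) / (2 * n) + ε) + (h : ℝ) ^ sg w * D ^ ε) :=
      mul_le_mul_of_nonneg_left (by linarith) hB3'.le
    have h4 : B3 * (D ^ ((1 - s₀ / n) / (2 * n) + ε) + (h : ℝ) ^ sg w * D ^ ε) ≤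
        (B1 + B2 + B3) * (D ^ ((1 - s₀ / n) / (2 * n) + ε) + (h : ℝ) ^ sg w * D ^ ε) :=
      mul_le_mul_of_nonneg_right (by linarith) (by positivity)
    linarith

end Pool.TTE
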