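import Pool.Agent.Lib.MP_695920_nt.TT.Even.ELines

set_option autoImplicit false

/-!
TEAM TWOTORSION, even degree: the sign of the norm, the lines, the quadratic subfields
(OWNERS helper20, helper30).
-/

namespace Pool.TTE

open NumberField Module Real

/-- The analogue of `Pool.TT.LinesStmt` for even degree. -/
def LinesStmtE (n : ℕ) : Prop :=
  ∃ c : ℝ, 1 ≤ c ∧ ∀ (K : Type) [Field K] [NumberField K], finrank ℚ K = n →
      ∃ 𝓕 : Finset (𝓞 K), (𝓕.card : ℝ) ≤ c * |(discr K : ℝ)| ^ ((1 : ℝ) / 2 - 1 / n) ∧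
        (∀ θ ∈ 𝓕, (minpoly ℤ θ).natDegree = n ∧
          ∀ z : ℂ, ((minpoly ℤ θ).map (Int.castRingHom ℂ)).IsRoot z →
            ‖z‖ ≤ c * |(discr K : ℝ)| ^ ((1 : ℝ) / n)) ∧
        (Nat.card {x : ClassGroup (𝓞 K) // x ^ 2 = 1} : ℝ) ≤
          c * |(discr K : ℝ)| ^ ((1 : ℝ) / 3) +
          2 * ∑ θ ∈ 𝓕, (Set.ncard {p : ℤ × ℤ | |(p.1 : ℝ)| ≤ c * |(discr K : ℝ)| ^ ((1 : ℝ) / n) ∧
            0 < p.2 ∧ p.2 ^ 2 = (minpoly ℤ θ).eval p.1} : ℝ)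

/-- (0) and (1) of h93_even_n.txt. -/
theorem lines_even (n : ℕ) (_heven : Even n) (h4 : 4 ≤ n) : LinesStmtE n :=
  Pool.TT.linesStmtE n (by omega)

/-- the same for every degree -/
theorem lines_all (n : ℕ) (hn : 0 < n) : LinesStmtE n := Pool.TT.linesStmtE n hn

end Pool.TTE
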