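import Pool.Agent.Lib.MP_695920_nt.TT.MainFun
import Pool.Agent.Lib.MP_695920_nt.TT.Even.Final

set_option autoImplicit false

/-!
TEAM TWOTORSION: the theorem for all degrees `n ≥ 6`.
-/

open Pool.TT

namespace Pool.TTE

open NumberField Module

/-- From the two families of bounds to one exponent function. -/
theorem fun_of (P : ℕ → Prop)
    (h1 : ∀ n : ℕ, P n → ∃ Δ : ℝ, Δ < 1 / 2 - 1 / (2 * n) ∧ Pool.TT.Good n Δ)
    (h2 : ∀ δ : ℝ, 0 < δ → ∃ n₀ : ℕ, ∀ n : ℕ, n₀ ≤ n → P n →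
      Pool.TT.Good n ((1 : ℝ) / 2 - (1 - δ) / n)) :
    ∃ Δ : ℕ → ℝ, (∀ n : ℕ, P n → Δ n < 1 / 2 - 1 / (2 * n) ∧ Pool.TT.Good n (Δ n)) ∧
      ∀ δ : ℝ, 0 < δ → ∃ n₀ : ℕ, ∀ n : ℕ, n₀ ≤ n → P n → Δ n ≤ (1 : ℝ) / 2 - (1 - δ) / n := by
  classical
  have h7 : ∀ n : ℕ, ∃ Δ : ℝ, P n → Δ < 1 / 2 - 1 / (2 * n) ∧ Pool.TT.Good n Δ := by
    intro n
    by_cases h : P n
    · obtain ⟨Δ, h3, h4⟩ := h1 n h
      exact ⟨Δ, fun _ => ⟨h3, h4⟩⟩
    · exact ⟨0, fun h3 => absurd h3 h⟩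
  choose Δ₀ hΔ₀ using h7
  let e : ℕ → ℕ → ℝ := fun n k => (1 : ℝ) / 2 - (1 - 1 / (k : ℝ)) / n
  let kn : ℕ → ℕ := fun n => Nat.findGreatest (fun k => 1 ≤ k ∧ Pool.TT.Good n (e n k)) n
  let Δ : ℕ → ℝ := fun n => if 1 ≤ kn n then min (Δ₀ n) (e n (kn n)) else Δ₀ n
  have hkn : ∀ n, 1 ≤ kn n → Pool.TT.Good n (e n (kn n)) := by
    intro n hn
    have h := Nat.findGreatest_of_ne_zero (P := fun k => 1 ≤ k ∧ Pool.TT.Good n (e n k)) (n := n)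
      (m := kn n) rfl (by omega)
    exact h.2
  refine ⟨Δ, ?_, ?_⟩
  · intro n hn
    obtain ⟨h3, h4⟩ := hΔ₀ n hn
    by_cases hk : 1 ≤ kn n
    · have hΔ : Δ n = min (Δ₀ n) (e n (kn n)) := if_pos hk
      constructor
      · rw [hΔ]
        exact lt_of_le_of_lt (min_le_left _ _) h3
      · rw [hΔ]
        rcases min_choice (Δ₀ n) (e n (kn n)) with h | h
        · rw [h]; exact h4
        · rw [h]; exact hkn n hk
    · have hΔ : Δ n = Δ₀ n := if_neg hk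
      rw [hΔ]
      exact ⟨h3, h4⟩
  · intro δ hδ
    obtain ⟨k, hk⟩ := exists_nat_gt (1 / δ)
    have hk0 : (0 : ℝ) < k := lt_trans (by positivity) hk
    have hk1 : 1 ≤ k := by
      have : 0 < k := by exact_mod_cast hk0
      omega
    have hkδ : 1 / (k : ℝ) ≤ δ := by
      rw [div_le_iff₀ hk0]
      rw [div_lt_iff₀ hδ] at hk
      linarith
    obtain ⟨n₀, hn₀⟩ := h2 (1 / k) (by positivity)
    refine ⟨max n₀ k, fun n hn hP => ?_⟩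
    have hn0 : n₀ ≤ n := le_trans (le_max_left _ _) hn
    have hkn' : k ≤ n := le_trans (le_max_right _ _) hn
    have hgood : Pool.TT.Good n (e n k) := hn₀ n hn0 hP
    have hle : k ≤ kn n := Nat.le_findGreatest hkn' ⟨hk1, hgood⟩
    have hkn1 : 1 ≤ kn n := le_trans hk1 hle
    have hΔ : Δ n = min (Δ₀ n) (e n (kn n)) := if_pos hkn1
    rw [hΔ]
    refine (min_le_right _ _).trans ?_
    have hnpos : (0 : ℝ) < n := by
      have : 1 ≤ n := le_trans hk1 hkn'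
      exact_mod_cast this
    have h3 : 1 / (kn n : ℝ) ≤ 1 / (k : ℝ) :=
      one_div_le_one_div_of_le hk0 (by exact_mod_cast hle)
    have h4 : (1 - δ) / (n : ℝ) ≤ (1 - 1 / (kn n : ℝ)) / n :=
      div_le_div_of_nonneg_right (by linarith) hnpos.le
    change (1 : ℝ) / 2 - (1 - 1 / (kn n : ℝ)) / n ≤ _
    linarith

theorem main_all : ∃ Δ : ℕ → ℝ,
    (∀ n : ℕ, 6 ≤ n → Δ n < 1 / 2 - 1 / (2 * n) ∧ ∃ C : ℝ,
      ∀ (K : Type) [Field K] [NumberField K], finrank ℚ K = n →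
        (Nat.card {x : ClassGroup (𝓞 K) // x ^ 2 = 1} : ℝ) ≤ C * |(discr K : ℝ)| ^ Δ n) ∧
    ∀ δ : ℝ, 0 < δ → ∃ n₀ : ℕ, ∀ n : ℕ, n₀ ≤ n →
      Δ n ≤ (1 : ℝ) / 2 - (1 - δ) / n := by
  obtain ⟨Δ, hΔ1, hΔ2⟩ := fun_of (fun n => 6 ≤ n)
    (fun n hn => by
      rcases Nat.even_or_odd n with h | h
      · exact final_even lines_even n h hn
      · have h7 : 7 ≤ n := by
          rcases h with ⟨k, hk⟩
          omega
        exact Pool.TT.main.1 n h h7)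
    (fun δ hδ => by
      obtain ⟨n₁, h1⟩ := final_lim_even lines_even hδ
      obtain ⟨n₂, h2⟩ := Pool.TT.main.2 δ hδ
      refine ⟨max n₁ n₂, fun n hn _ => ?_⟩
      rcases Nat.even_or_odd n with h | h
      · exact h1 n (le_trans (le_max_left _ _) hn) h
      · exact h2 n (le_trans (le_max_right _ _) hn) h)
  refine ⟨Δ, hΔ1, fun δ hδ => ?_⟩
  obtain ⟨n₀, hn₀⟩ := hΔ2 δ hδ
  exact ⟨max n₀ 6, fun n hn => hn₀ n (le_trans (le_max_left _ _) hn)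
    (le_trans (le_max_right _ _) hn)⟩

end Pool.TTE
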