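import Mathlib

set_option autoImplicit false

/-!
TEAM TWOTORSION, even degree: Bombieri-Pila and the bad points for irreducible `f` of any degree
(OWNER helper63).
-/

open Polynomial

namespace Pool.TTE

theorem bad_points_irr (n : ℕ) (hn : 2 ≤ n) {ε : ℝ} (hε : 0 < ε) : ∃ C0 : ℝ, 0 < C0 ∧
    ∀ f : ℤ[X], f.Monic → f.natDegree = n → Irreducible f →
    ∀ R L : ℝ, 1 ≤ R → 1 ≤ L →
    (∀ z : ℂ, (f.map (Int.castRingHom ℂ)).IsRoot z → ‖z‖ ≤ R) → ∀ P : Finset ℤ,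
    (∀ x ∈ P, |(x : ℝ)| ≤ R ∧ ∃ y : ℤ, 0 < y ∧ y ^ 2 = f.eval x ∧
      2 * (y : ℝ) ≤ L * (Int.gcd (2 * y) (f.derivative.eval x) : ℝ)) →
    (P.card : ℝ) ≤ C0 * R ^ ε * L ^ (1 / (n : ℝ)) := by
  sorry

end Pool.TTE
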