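import Pool.Agent.Lib.MP_695920_nt.TT.Even.Good

set_option autoImplicit false

/-!
TEAM TWOTORSION, even degree, (3.1): integrality of good functions.
-/

open Polynomial Pool.TT

namespace Pool.TTE

theorem ps_dvd_iff (p : ℕ) (P : PowerSeries ℤ) :
    PowerSeries.C (p : ℤ) ∣ P ↔ P.map (Int.castRingHom (ZMod p)) = 0 := by
  constructor
  · rintro ⟨Q, rfl⟩
    rw [map_mul]
    have h1 : PowerSeries.map (Int.castRingHom (ZMod p)) (PowerSeries.C (p : ℤ)) = 0 := by
      rw [PowerSeries.map_C]
      simp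
    rw [h1, zero_mul]
  · intro h
    have h1 : ∀ i, (p : ℤ) ∣ PowerSeries.coeff i P := by
      intro i
      have h2 := congrArg (PowerSeries.coeff i) h
      rw [PowerSeries.coeff_map, map_zero, eq_intCast] at h2
      exact (ZMod.intCast_zmod_eq_zero_iff_dvd _ _).1 h2
    choose c hc using h1
    refine ⟨PowerSeries.mk c, ?_⟩
    ext i
    rw [PowerSeries.coeff_C_mul, PowerSeries.coeff_mk]
    exact hc i

theorem ps_prime {p : ℕ} (hp : p.Prime) {P Q : PowerSeries ℤ}
    (h : PowerSeries.C (p : ℤ) ∣ P * Q) :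
    PowerSeries.C (p : ℤ) ∣ P ∨ PowerSeries.C (p : ℤ) ∣ Q := by
  have : Fact p.Prime := ⟨hp⟩
  rw [ps_dvd_iff, map_mul] at h
  rw [ps_dvd_iff, ps_dvd_iff]
  exact mul_eq_zero.1 h

/-- the lemma of Gauss for two power series with known constant terms -/
theorem gauss_series (n : ℕ) : ∀ (d e : ℕ), d * e = n → d ≠ 0 → e ≠ 0 →
    ∀ P Q N : PowerSeries ℤ, (PowerSeries.constantCoeff P).natAbs = d →
      (PowerSeries.constantCoeff Q).natAbs = e → P * Q = PowerSeries.C ((d * e : ℕ) : ℤ) * N →
      PowerSeries.C (d : ℤ) ∣ P ∧ PowerSeries.C (e : ℤ) ∣ Q := by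
  induction n using Nat.strong_induction_on with
  | _ n ih =>
    intro d e hde hd he P Q N hP hQ hPQ
    by_cases h1 : n = 1
    · have hd1 : d = 1 := Nat.eq_one_of_mul_eq_one_right (by rw [hde, h1])
      have he1 : e = 1 := Nat.eq_one_of_mul_eq_one_left (by rw [hde, h1])
      subst hd1 he1
      constructor
      · rw [Nat.cast_one, map_one]; exact one_dvd _
      · rw [Nat.cast_one, map_one]; exact one_dvd _
    · have hp : (n.minFac).Prime := Nat.minFac_prime h1
      set p := n.minFac with hpdef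
      have hpn : p ∣ n := Nat.minFac_dvd n
      have hpC : PowerSeries.C (p : ℤ) ∣ P * Q := by
        rw [hPQ, hde]
        refine Dvd.dvd.mul_right ?_ _
        exact map_dvd PowerSeries.C (by exact_mod_cast hpn)
      have hp0 : (PowerSeries.C (p : ℤ) : PowerSeries ℤ) ≠ 0 := by
        intro h
        have h2 := congrArg PowerSeries.constantCoeff h
        rw [PowerSeries.constantCoeff_C, map_zero] at h2
        exact hp.ne_zero (by exact_mod_cast h2)
      have key : ∀ (d e : ℕ), d * e = n → d ≠ 0 → e ≠ 0 → ∀ P Q : PowerSeries ℤ,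
          (PowerSeries.constantCoeff P).natAbs = d → (PowerSeries.constantCoeff Q).natAbs = e →
          P * Q = PowerSeries.C ((d * e : ℕ) : ℤ) * N → PowerSeries.C (p : ℤ) ∣ P →
          PowerSeries.C (d : ℤ) ∣ P ∧ PowerSeries.C (e : ℤ) ∣ Q := by
        intro d e hde hd he P Q hP hQ hPQ hpP
        obtain ⟨P', rfl⟩ := hpP
        have h2 : PowerSeries.constantCoeff (PowerSeries.C (p : ℤ) * P') =
            (p : ℤ) * PowerSeries.constantCoeff P' := by
          rw [map_mul, PowerSeries.constantCoeff_C]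
        rw [h2, Int.natAbs_mul, Int.natAbs_natCast] at hP
        set d' := (PowerSeries.constantCoeff P').natAbs with hd'
        have hd'0 : d' ≠ 0 := by
          intro h
          rw [h, mul_zero] at hP
          exact hd hP.symm
        have hlt : d' * e < n := by
          rw [← hde, ← hP]
          have := hp.one_lt
          have h3 : 0 < d' * e := Nat.mul_pos (Nat.pos_of_ne_zero hd'0) (Nat.pos_of_ne_zero he)
          nlinarith
        have h3 : P' * Q = PowerSeries.C ((d' * e : ℕ) : ℤ) * N := by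
          apply mul_left_cancel₀ hp0
          rw [← mul_assoc, hPQ, ← hP, ← mul_assoc, ← map_mul]
          congr 2
          push_cast
          ring
        obtain ⟨h4, h5⟩ := ih _ hlt d' e rfl hd'0 he P' Q N rfl hQ h3
        refine ⟨?_, h5⟩
        rw [← hP, Nat.cast_mul, map_mul]
        exact mul_dvd_mul_left _ h4
      rcases ps_prime hp hpC with h2 | h2
      · exact key d e hde hd he P Q hP hQ hPQ h2
      · have h3 := key e d (by rw [mul_comm]; exact hde) he hd Q P hQ hP
          (by rw [mul_comm, hPQ, mul_comm d e]) h2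
        exact ⟨h3.2, h3.1⟩

/-- the two series of a function -/
noncomputable def ser (s : PowerSeries ℤ) (a b : ℕ) (A B : ℤ[X]) : PowerSeries ℤ :=
  ((reflect a A : ℤ[X]) : PowerSeries ℤ) + ((reflect b B : ℤ[X]) : PowerSeries ℤ) * s

theorem const_ser {s : PowerSeries ℤ} (hs0 : PowerSeries.constantCoeff s = 1) (a b : ℕ)
    (A B : ℤ[X]) : PowerSeries.constantCoeff (ser s a b A B) = A.coeff a + B.coeff b := by
  unfold ser
  rw [map_add, map_mul, hs0, mul_one, ← PowerSeries.coeff_zero_eq_constantCoeff_apply,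
    ← PowerSeries.coeff_zero_eq_constantCoeff_apply, Polynomial.coeff_coe, Polynomial.coeff_coe,
    coeff_reflect, coeff_reflect, revAt_zero, revAt_zero]

/-- the product of the two series is the reflected norm -/
theorem ser_mul {f0 : ℤ[X]} {s : PowerSeries ℤ} (hs : s ^ 2 = (f0.reverse : PowerSeries ℤ))
    {h : ℕ} (hn : f0.natDegree = 2 * h) (a b : ℕ) (A B : ℤ[X]) (hA : A.natDegree ≤ a)
    (hB : B = 0 ∨ B.natDegree ≤ b ∧ b + h = a) :
    ser s a b A B * ser s a b A (-B) =
      ((reflect (a + a) (A ^ 2 - f0 * B ^ 2) : ℤ[X]) : PowerSeries ℤ) := by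
  unfold ser
  have h1 : reflect b (-B) = -reflect b B := reflect_neg B b
  rw [h1, Polynomial.coe_neg]
  have h2 : ((reflect a A : ℤ[X]) : PowerSeries ℤ) ^ 2 = ((reflect (a + a) (A ^ 2) : ℤ[X]) :
      PowerSeries ℤ) := by
    rw [sq A, reflect_mul A A hA hA, Polynomial.coe_mul, sq]
  have h3 : ((reflect b B : ℤ[X]) : PowerSeries ℤ) ^ 2 * s ^ 2 =
      ((reflect (a + a) (f0 * B ^ 2) : ℤ[X]) : PowerSeries ℤ) := by
    rcases hB with hB | ⟨hB, hab⟩
    · rw [hB]
      simp
    · have h4 : a + a = 2 * h + (b + b) := by omega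
      have h5 : (B ^ 2).natDegree ≤ b + b := by
        rw [natDegree_pow]
        omega
      rw [h4, reflect_mul f0 (B ^ 2) hn.le h5, Polynomial.coe_mul, hs, sq B,
        reflect_mul B B hB hB, Polynomial.coe_mul, reverse, hn]
      ring
  rw [reflect_sub, Polynomial.coe_sub, ← h2, ← h3]
  ring

theorem dvd_of_reflect {d : ℤ} {a : ℕ} {A : ℤ[X]}
    (h : (PowerSeries.C d : PowerSeries ℤ) ∣ PowerSeries.C 2 * ((reflect a A : ℤ[X]) :
      PowerSeries ℤ)) : C d ∣ C 2 * A := by
  rw [C_dvd_iff_dvd_coeff]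
  intro i
  obtain ⟨Q, hQ⟩ := h
  have h1 := congrArg (PowerSeries.coeff (revAt a i)) hQ
  rw [PowerSeries.coeff_C_mul, PowerSeries.coeff_C_mul, Polynomial.coeff_coe, coeff_reflect,
    revAt_invol] at h1
  rw [coeff_C_mul]
  exact ⟨_, h1⟩

/-- **(3.1)** -/
theorem gauss_even {f0 : ℤ[X]} (hm : f0.Monic) {h : ℕ} (hn : f0.natDegree = 2 * h)
    (hs : ∃ s : PowerSeries ℤ, PowerSeries.constantCoeff s = 1 ∧
      s ^ 2 = (f0.reverse : PowerSeries ℤ))
    (φ : Crd (f0.map (Int.castRingHom ℚ))) (hφ : Good φ) (N : ℤ[X])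
    (hlc : N.leadingCoeff = 1 ∨ N.leadingCoeff = -1)
    (hN : φ.norm = N.map (Int.castRingHom ℚ)) :
    ∃ A B : ℤ[X], C 2 * φ.re = A.map (Int.castRingHom ℚ) ∧
      C 2 * φ.im = B.map (Int.castRingHom ℚ) := by
  obtain ⟨s, hs0, hs⟩ := hs
  have hinjc : Function.Injective (Int.castRingHom ℚ) := RingHom.injective_int _
  have hinj : Function.Injective (Polynomial.map (Int.castRingHom ℚ)) :=
    Polynomial.map_injective _ hinjc
  obtain ⟨d1, hd1, A1, hA1⟩ := exists_clear φ.re
  obtain ⟨d2, hd2, B1, hB1⟩ := exists_clear φ.im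
  set d : ℕ := d1 * d2 with hd
  have hd0 : d ≠ 0 := mul_ne_zero hd1 hd2
  have hdQ : (d : ℚ) ≠ 0 := by exact_mod_cast hd0
  set A := C (d2 : ℤ) * A1 with hA
  set B := C (d1 : ℤ) * B1 with hB
  have eA : C (d : ℚ) * φ.re = A.map (Int.castRingHom ℚ) := by
    rw [hA, Polynomial.map_mul, ← hA1, map_C, hd]
    push_cast
    simp only [C_mul, eq_intCast, Int.cast_natCast]
    ring
  have eB : C (d : ℚ) * φ.im = B.map (Int.castRingHom ℚ) := by
    rw [hB, Polynomial.map_mul, ← hB1, map_C, hd]
    push_cast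
    simp only [C_mul, eq_intCast, Int.cast_natCast]
    ring
  clear_value A B
  clear hA hB
  have hAdeg : A.natDegree = φ.re.natDegree := by
    rw [← natDegree_map_eq_of_injective hinjc A, ← eA, natDegree_C_mul hdQ]
  have hBdeg : B.natDegree = φ.im.natDegree := by
    rw [← natDegree_map_eq_of_injective hinjc B, ← eB, natDegree_C_mul hdQ]
  have hB0 : B = 0 ↔ φ.im = 0 := by
    rw [← Polynomial.map_eq_zero_iff hinjc, ← eB, mul_eq_zero]
    exact ⟨fun h => h.resolve_left (C_ne_zero.2 hdQ), fun h => Or.inr h⟩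
  have hAc : ∀ i, ((A.coeff i : ℤ) : ℚ) = d * φ.re.coeff i := by
    intro i
    have h1 := congrArg (fun r => coeff r i) eA
    simp only [coeff_C_mul, coeff_map, eq_intCast] at h1
    exact h1.symm
  have hBc : ∀ i, ((B.coeff i : ℤ) : ℚ) = d * φ.im.coeff i := by
    intro i
    have h1 := congrArg (fun r => coeff r i) eB
    simp only [coeff_C_mul, coeff_map, eq_intCast] at h1
    exact h1.symm
  have hNN : A ^ 2 - f0 * B ^ 2 = C ((d * d : ℕ) : ℤ) * N := by
    apply hinj
    rw [Polynomial.map_sub, Polynomial.map_mul, Polynomial.map_pow, Polynomial.map_pow,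
      Polynomial.map_mul, ← eA, ← eB, ← hN, map_C, norm_crd]
    push_cast
    simp only [C_mul, eq_intCast, Int.cast_mul, Int.cast_natCast]
    ring
  have hfm : (f0.map (Int.castRingHom ℚ)).Monic := hm.map _
  have hfd : (f0.map (Int.castRingHom ℚ)).natDegree = 2 * h := by rw [hm.natDegree_map, hn]
  have hlcQ : ∀ z : ℚ, φ.norm.leadingCoeff = z → z = 1 ∨ z = -1 := by
    intro z hz
    rw [hN, leadingCoeff_map_of_injective hinjc] at hz
    rcases hlc with h1 | h1
    · left; rw [← hz, h1]; simp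
    · right; rw [← hz, h1]; simp
  -- the two degrees
  obtain ⟨a, b, ha, hb, hc1, hc2⟩ : ∃ a b : ℕ, A.natDegree ≤ a ∧
      (B = 0 ∨ B.natDegree ≤ b ∧ b + h = a) ∧ (A.coeff a + B.coeff b).natAbs = d ∧
      (A.coeff a - B.coeff b).natAbs = d := by
    rcases hφ.norm_lc hfm with ⟨h1, h2, h3, h4⟩ | ⟨h1, h2, h3, h4⟩
    · have h5 : φ.re.leadingCoeff ^ 2 = 1 := by
        rcases hlcQ _ h3 with h6 | h6
        · exact h6
        · have := sq_nonneg φ.re.leadingCoeff
          linarith
      have h6 : (A.coeff φ.re.natDegree).natAbs = d := by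
        have h7 : ((A.coeff φ.re.natDegree : ℤ) : ℚ) ^ 2 = (d : ℚ) ^ 2 := by
          rw [hAc, coeff_natDegree, mul_pow, h5, mul_one]
        have h8 : (A.coeff φ.re.natDegree) ^ 2 = (d : ℤ) ^ 2 := by exact_mod_cast h7
        have h9 := Int.natAbs_eq_iff_sq_eq.2 h8
        rw [h9, Int.natAbs_natCast]
      refine ⟨φ.re.natDegree, φ.re.natDegree - h, hAdeg.le, ?_, ?_, ?_⟩
      · rcases h1 with h1 | h1
        · left; exact hB0.2 h1
        · right
          rw [hfd] at h1
          rw [hBdeg]
          omega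
      all_goals
        have h7 : B.coeff (φ.re.natDegree - h) = 0 := by
          rcases h1 with h1 | h1
          · rw [hB0.2 h1, coeff_zero]
          · apply coeff_eq_zero_of_natDegree_lt
            rw [hfd] at h1
            rw [hBdeg]
            omega
        rw [h7]
        simpa using h6
    · have h5 : φ.im.leadingCoeff ^ 2 = 1 := by
        rcases hlcQ _ h3 with h6 | h6
        · have := sq_nonneg φ.im.leadingCoeff
          linarith
        · linarith
      have h6 : (B.coeff φ.im.natDegree).natAbs = d := by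
        have h7 : ((B.coeff φ.im.natDegree : ℤ) : ℚ) ^ 2 = (d : ℚ) ^ 2 := by
          rw [hBc, coeff_natDegree, mul_pow, h5, mul_one]
        have h8 : (B.coeff φ.im.natDegree) ^ 2 = (d : ℤ) ^ 2 := by exact_mod_cast h7
        have h9 := Int.natAbs_eq_iff_sq_eq.2 h8
        rw [h9, Int.natAbs_natCast]
      refine ⟨φ.im.natDegree + h, φ.im.natDegree, ?_, ?_, ?_, ?_⟩
      · rw [hAdeg]
        rcases h1 with h1 | h1
        · rw [h1]; simp
        · rw [hfd] at h1
          omega
      · right
        exact ⟨hBdeg.le, rfl⟩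
      all_goals
        have h7 : A.coeff (φ.im.natDegree + h) = 0 := by
          rcases h1 with h1 | h1
          · have h8 := hAc (φ.im.natDegree + h)
            rw [h1, coeff_zero, mul_zero] at h8
            exact_mod_cast h8
          · apply coeff_eq_zero_of_natDegree_lt
            rw [hfd] at h1
            rw [hAdeg]
            omega
        rw [h7]
        simpa using h6
  have hprod := ser_mul hs hn a b A B ha hb
  rw [hNN] at hprod
  have hprod' : ser s a b A B * ser s a b A (-B) =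
      PowerSeries.C ((d * d : ℕ) : ℤ) * ((reflect (a + a) N : ℤ[X]) : PowerSeries ℤ) := by
    rw [hprod, reflect_C_mul, Polynomial.coe_mul, Polynomial.coe_C]
  obtain ⟨h1, h2⟩ := gauss_series (d * d) d d rfl hd0 hd0 _ _ _ (by rw [const_ser hs0]; exact hc1)
    (by rw [const_ser hs0, coeff_neg, ← sub_eq_add_neg]; exact hc2) hprod'
  have h3 : C (d : ℤ) ∣ C 2 * A := by
    apply dvd_of_reflect (a := a)
    have h4 := dvd_add h1 h2
    have h5 : ser s a b A B + ser s a b A (-B) =
        PowerSeries.C 2 * ((reflect a A : ℤ[X]) : PowerSeries ℤ) := by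
      unfold ser
      rw [reflect_neg, Polynomial.coe_neg]
      have h6 : (PowerSeries.C (2 : ℤ) : PowerSeries ℤ) = 2 := by simp
      rw [h6]
      ring
    rwa [h5] at h4
  have h4 : C (d : ℤ) ∣ C 2 * B := by
    apply dvd_of_reflect (a := b)
    have h4 := dvd_sub h1 h2
    have h5 : ser s a b A B - ser s a b A (-B) =
        (PowerSeries.C 2 * ((reflect b B : ℤ[X]) : PowerSeries ℤ)) * s := by
      unfold ser
      rw [reflect_neg, Polynomial.coe_neg]
      have h6 : (PowerSeries.C (2 : ℤ) : PowerSeries ℤ) = 2 := by simp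
      rw [h6]
      ring
    rw [h5] at h4
    have hu : IsUnit s := by
      rw [PowerSeries.isUnit_iff_constantCoeff, hs0]
      exact isUnit_one
    exact (hu.dvd_mul_right).1 h4
  obtain ⟨A', hA'⟩ := h3
  obtain ⟨B', hB'⟩ := h4
  refine ⟨A', B', ?_, ?_⟩
  · have h5 := congrArg (Polynomial.map (Int.castRingHom ℚ)) hA'
    rw [Polynomial.map_mul, Polynomial.map_mul, map_C, map_C, ← eA] at h5
    simp only [eq_intCast, Int.cast_ofNat, Int.cast_natCast] at h5
    apply mul_left_cancel₀ (C_ne_zero.2 hdQ)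
    rw [← h5]
    ring
  · have h5 := congrArg (Polynomial.map (Int.castRingHom ℚ)) hB'
    rw [Polynomial.map_mul, Polynomial.map_mul, map_C, map_C, ← eB] at h5
    simp only [eq_intCast, Int.cast_ofNat, Int.cast_natCast] at h5
    apply mul_left_cancel₀ (C_ne_zero.2 hdQ)
    rw [← h5]
    ring

end Pool.TTE
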