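import Pool.Agent.Lib.MP_695920_nt.TT.RepCore
import Pool.Agent.Lib.MP_695920_nt.TT.Even.GaussS

set_option autoImplicit false

/-!
TEAM TWOTORSION, even degree, (3.2): the divisibility at a point.
-/

open Polynomial Pool.TT

namespace Pool.TTE

theorem core_even {ι : Type*} [Fintype ι] (f0 : ℤ[X]) (hm : f0.Monic)
    {h : ℕ} (hn : f0.natDegree = 2 * h) (hpos : 1 ≤ h)
    (hs : ∃ s : PowerSeries ℤ, PowerSeries.constantCoeff s = 1 ∧
      s ^ 2 = (f0.reverse : PowerSeries ℤ))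
    (x v : ι → ℤ) (a : ι → ℕ) (hinj : Function.Injective x)
    (hv : ∀ i, v i ≠ 0) (heq : ∀ i, v i ^ 2 = f0.eval (x i))
    (f : ℚ[X]) (hf : f = f0.map (Int.castRingHom ℚ)) (φ : Crd f) (hgood : Good φ)
    (hφ : Ideal.span {φ} = ∏ i, pt f (X - C (x i : ℚ)) (C (v i : ℚ)) ^ a i)
    (hN : φ.norm = ∏ i, (X - C (x i : ℚ)) ^ a i ∨ φ.norm = -∏ i, (X - C (x i : ℚ)) ^ a i)
    (j : ι) (hj : a j ≠ 0) :
    ∃ A B : ℤ[X], (A ^ 2 - f0 * B ^ 2 = 4 * ∏ i, (X - C (x i)) ^ a i ∨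
        A ^ 2 - f0 * B ^ 2 = -(4 * ∏ i, (X - C (x i)) ^ a i)) ∧
      (A ^ 2).degree ≠ (f0 * B ^ 2).degree ∧ A.eval (x j) ≠ 0 ∧
      (2 * v j / (Int.gcd (2 * v j) (f0.derivative.eval (x j)) : ℤ)) ^ a j ∣
        2 * A.eval (x j) := by
  classical
  have hcast : ∀ (P : ℤ[X]) (n : ℤ), (P.map (Int.castRingHom ℚ)).eval (n : ℚ) =
      ((P.eval n : ℤ) : ℚ) := by
    intro P n
    rw [eval_intCast_map]
    simp
  have hev : ∀ i, ((v i : ℤ) : ℚ) ^ 2 = f.eval ((x i : ℤ) : ℚ) := by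
    intro i
    rw [hf, hcast, ← heq i]
    push_cast
    rfl
  have hev' : ∀ i, (-((v i : ℤ) : ℚ)) ^ 2 = f.eval ((x i : ℤ) : ℚ) := by
    intro i
    rw [neg_sq]
    exact hev i
  have hprodZ : ∀ (s : Finset ι) (b : ι → ℕ),
      (∏ i ∈ s, (X - C (x i)) ^ b i : ℤ[X]).map (Int.castRingHom ℚ) =
        ∏ i ∈ s, (X - C (x i : ℚ)) ^ b i := by
    intro s b
    rw [Polynomial.map_prod]
    refine Finset.prod_congr rfl fun i _ => ?_
    rw [Polynomial.map_pow, Polynomial.map_sub, map_X, map_C]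
    simp
  have hQ : (algebraMap ℤ ℚ) = Int.castRingHom ℚ := rfl
  -- integrality of `φ`
  have hinjc : Function.Injective (Int.castRingHom ℚ) := RingHom.injective_int _
  have hinjm : Function.Injective (Polynomial.map (Int.castRingHom ℚ)) :=
    Polynomial.map_injective _ hinjc
  have hmonP : ∀ (s : Finset ι) (b : ι → ℕ), (∏ i ∈ s, (X - C (x i)) ^ b i : ℤ[X]).Monic :=
    fun s b => monic_prod_of_monic _ _ fun i _ => (monic_X_sub_C _).pow _
  obtain ⟨N0, hN0, hN0'⟩ : ∃ N0 : ℤ[X], (N0 = ∏ i, (X - C (x i)) ^ a i ∨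
      N0 = -∏ i, (X - C (x i)) ^ a i) ∧ φ.norm = N0.map (Int.castRingHom ℚ) := by
    rcases hN with h | h
    · exact ⟨_, Or.inl rfl, by rw [h, hprodZ]⟩
    · exact ⟨_, Or.inr rfl, by rw [h, Polynomial.map_neg, hprodZ]⟩
  have hlc0 : N0.leadingCoeff = 1 ∨ N0.leadingCoeff = -1 := by
    rcases hN0 with h | h
    · left
      rw [h]
      exact hmonP _ _
    · right
      rw [h, leadingCoeff_neg, (hmonP _ _).leadingCoeff]
  obtain ⟨A, B, hA, hB⟩ : ∃ A B : ℤ[X], C 2 * φ.re = A.map (Int.castRingHom ℚ) ∧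
      C 2 * φ.im = B.map (Int.castRingHom ℚ) := by
    subst hf
    exact gauss_even hm hn hs φ hgood N0 hlc0 hN0'
  have h2Q : (C (2 : ℚ) : ℚ[X]) ≠ 0 := C_ne_zero.2 two_ne_zero
  have hAB : A ^ 2 - f0 * B ^ 2 = 4 * N0 := by
    apply hinjm
    have e4 : (4 : ℤ[X]).map (Int.castRingHom ℚ) = C (2 : ℚ) * C 2 := by
      have e5 : (4 : ℤ[X]) = C 4 := rfl
      rw [← C_mul, e5, map_C]
      norm_num
    rw [Polynomial.map_sub, Polynomial.map_mul, Polynomial.map_pow, Polynomial.map_pow,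
      Polynomial.map_mul, ← hA, ← hB, ← hN0', norm_eq', e4, ← hf]
    ring
  have hgoodAB : (A ^ 2).degree ≠ (f0 * B ^ 2).degree := by
    intro h0
    apply hgood
    have e1 : (C (2 : ℚ) * C 2) * φ.re ^ 2 = (A ^ 2).map (Int.castRingHom ℚ) := by
      rw [Polynomial.map_pow, ← hA]
      ring
    have e2 : (C (2 : ℚ) * C 2) * (f0.map (Int.castRingHom ℚ) * φ.im ^ 2) =
        (f0 * B ^ 2).map (Int.castRingHom ℚ) := by
      rw [Polynomial.map_mul, Polynomial.map_pow, ← hB]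
      ring
    rw [← hf] at e2
    have e3 := congrArg degree e1
    have e4 := congrArg degree e2
    rw [degree_map_eq_of_injective hinjc, ← C_mul, degree_C_mul (by norm_num)] at e3 e4
    rw [e3, e4, h0]
  -- the cofactor
  obtain ⟨f1, hf1⟩ : X - C (x j) ∣ f0 - C (f0.eval (x j)) := X_sub_C_dvd_sub_C_eval
  have hf1Q : f - C (((v j : ℤ) : ℚ) ^ 2) = (X - C ((x j : ℤ) : ℚ)) *
      f1.map (Int.castRingHom ℚ) := by
    have h1 := congrArg (Polynomial.map (Int.castRingHom ℚ)) hf1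
    rw [Polynomial.map_sub, Polynomial.map_mul, Polynomial.map_sub, map_C, map_X, map_C,
      ← heq j] at h1
    rw [hf]
    have h2 : (Int.castRingHom ℚ) (v j ^ 2) = ((v j : ℤ) : ℚ) ^ 2 := by simp
    have h3 : (Int.castRingHom ℚ) (x j) = ((x j : ℤ) : ℚ) := by simp
    rw [h2, h3] at h1
    exact h1
  have hf1ne : f1 ≠ 0 := by
    rintro rfl
    rw [mul_zero, sub_eq_zero] at hf1
    have h1 := congrArg natDegree hf1
    rw [natDegree_C] at h1
    omega
  have hf1m : f1.Monic := by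
    have h1 : (f0 - C (f0.eval (x j))).Monic := by
      apply hm.sub_of_left
      refine lt_of_le_of_lt degree_C_le ?_
      rw [degree_eq_natDegree hm.ne_zero, hn]
      exact_mod_cast (by omega : 0 < 2 * h)
    rw [hf1] at h1
    exact (monic_X_sub_C _).of_mul_monic_left h1
  have hder : f0.derivative.eval (x j) = f1.eval (x j) := by
    have h1 := congrArg (fun P => (derivative P).eval (x j)) hf1
    simp only [derivative_sub, derivative_C, sub_zero, derivative_mul, derivative_X, one_mul,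
      eval_add, eval_mul, eval_sub, eval_X, eval_C, sub_self, zero_mul, add_zero] at h1
    exact h1
  -- `ψ`
  have hφmem : φ ∈ pt f (X - C ((x j : ℤ) : ℚ)) (C ((v j : ℤ) : ℚ)) ^ a j := by
    have h1 : φ ∈ Ideal.span {φ} := Ideal.mem_span_singleton_self φ
    rw [hφ] at h1
    exact Ideal.le_of_dvd (Finset.dvd_prod_of_mem _ (Finset.mem_univ j)) h1
  obtain ⟨ψ, hψ⟩ := cofactor_pow f _ _ _ hf1Q (a j) hφmem
  have hnormψ : f1.map (Int.castRingHom ℚ) ^ a j * φ.norm =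
      (-1) ^ a j * ((X - C ((x j : ℤ) : ℚ)) ^ a j * ψ.norm) := by
    have h1 := congrArg QuadraticAlgebra.norm hψ
    rw [map_mul, map_mul, map_pow, map_pow] at h1
    have h2 : QuadraticAlgebra.norm (⟨f1.map (Int.castRingHom ℚ), 0⟩ : Crd f) =
        f1.map (Int.castRingHom ℚ) ^ 2 := by
      rw [norm_eq']
      simp
    have h3 : QuadraticAlgebra.norm (⟨-C ((v j : ℤ) : ℚ), 1⟩ : Crd f) =
        -1 * ((X - C ((x j : ℤ) : ℚ)) * f1.map (Int.castRingHom ℚ)) := by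
      rw [norm_eq', ← hf1Q]
      simp only [C_pow]
      ring
    rw [h2, h3] at h1
    have h4 : f1.map (Int.castRingHom ℚ) ^ a j ≠ 0 := by
      refine pow_ne_zero _ ?_
      rw [Ne, Polynomial.map_eq_zero_iff (RingHom.injective_int _)]
      exact hf1ne
    apply mul_left_cancel₀ h4
    calc f1.map (Int.castRingHom ℚ) ^ a j * (f1.map (Int.castRingHom ℚ) ^ a j * φ.norm)
        = (f1.map (Int.castRingHom ℚ) ^ 2) ^ a j * φ.norm := by ring
      _ = _ := by
        rw [h1, mul_pow, mul_pow]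
        ring
  have hfm : f.Monic := by
    rw [hf]
    exact hm.map _
  have hfd : f.natDegree = 2 * h := by rw [hf, hm.natDegree_map, hn]
  obtain ⟨N1, hlc1, hN1⟩ : ∃ N1 : ℤ[X], (N1.leadingCoeff = 1 ∨ N1.leadingCoeff = -1) ∧
      ψ.norm = N1.map (Int.castRingHom ℚ) := by
    obtain ⟨e, he, hφe⟩ : ∃ e : ℚ[X], (e = 1 ∨ e = -1) ∧
        φ.norm = e * ∏ i, (X - C (x i : ℚ)) ^ a i := by
      rcases hN with h | h
      · exact ⟨1, Or.inl rfl, by rw [h, one_mul]⟩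
      · exact ⟨-1, Or.inr rfl, by rw [h]; ring⟩
    have h5 : (X - C ((x j : ℤ) : ℚ)) ^ a j ≠ 0 := pow_ne_zero _ (X_sub_C_ne_zero _)
    have h6 : ψ.norm = ((-1) ^ a j * e) * (f1.map (Int.castRingHom ℚ) ^ a j *
        ∏ i ∈ Finset.univ.erase j, (X - C (x i : ℚ)) ^ a i) := by
      apply mul_left_cancel₀ h5
      have h7 : ((-1 : ℚ[X]) ^ a j) * (-1) ^ a j = 1 := by
        rw [← mul_pow]
        simp
      rw [hφe, ← Finset.mul_prod_erase Finset.univ _ (Finset.mem_univ j)] at hnormψ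
      calc (X - C ((x j : ℤ) : ℚ)) ^ a j * ψ.norm
          = ((-1 : ℚ[X]) ^ a j) * ((-1) ^ a j * ((X - C ((x j : ℤ) : ℚ)) ^ a j * ψ.norm)) := by
            rw [← mul_assoc, h7, one_mul]
        _ = _ := by
            rw [← hnormψ]
            ring
    have h8 : ∃ e' : ℤ, (e' = 1 ∨ e' = -1) ∧ (-1) ^ a j * e = (C e').map (Int.castRingHom ℚ) := by
      rcases neg_one_pow_eq_or ℚ[X] (a j) with h9 | h9 <;> rcases he with rfl | rfl
      · exact ⟨1, Or.inl rfl, by rw [h9]; simp⟩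
      · exact ⟨-1, Or.inr rfl, by rw [h9]; simp⟩
      · exact ⟨-1, Or.inr rfl, by rw [h9]; simp⟩
      · exact ⟨1, Or.inl rfl, by rw [h9]; simp⟩
    obtain ⟨e', he'1, he'⟩ := h8
    have hmon : (f1 ^ a j * ∏ i ∈ Finset.univ.erase j, (X - C (x i)) ^ a i).Monic :=
      (hf1m.pow _).mul (hmonP _ _)
    refine ⟨C e' * (f1 ^ a j * ∏ i ∈ Finset.univ.erase j, (X - C (x i)) ^ a i), ?_, ?_⟩
    · rw [leadingCoeff_mul, hmon.leadingCoeff, leadingCoeff_C, mul_one]
      exact he'1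
    · rw [h6, he', Polynomial.map_mul, Polynomial.map_mul, Polynomial.map_pow, hprodZ]
  have hgoodψ : Good ψ := by
    have h1 : Good ((⟨-C ((v j : ℤ) : ℚ), 1⟩ : Crd f) ^ a j) := by
      refine Good.pow hfm hfd ?_ _
      unfold Good
      simp only [one_pow, mul_one]
      rw [degree_eq_natDegree hfm.ne_zero, hfd, neg_sq, ← C_pow]
      intro h2
      have h3 : (C (((v j : ℤ) : ℚ) ^ 2)).degree ≤ 0 := degree_C_le
      rw [h2] at h3
      have h4 : 2 * h ≤ 0 := by exact_mod_cast h3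
      omega
    refine good_of_mul hfm hfd h1 ?_
    rw [← hψ]
    refine Good.mul hfm hfd (Good.pow hfm hfd (good_poly ?_) _) hgood
    rw [Ne, Polynomial.map_eq_zero_iff hinjc]
    exact hf1ne
  obtain ⟨A1, B1, hA1, hB1⟩ : ∃ A B : ℤ[X], C 2 * ψ.re = A.map (Int.castRingHom ℚ) ∧
      C 2 * ψ.im = B.map (Int.castRingHom ℚ) := by
    subst hf
    exact gauss_even hm hn hs ψ hgoodψ N1 hlc1 hN1
  -- evaluation at `(x j, - v j)`
  have hev2 : ∀ (z : Crd f) (A B : ℤ[X]) (u : ℚ) (hu : u ^ 2 = f.eval ((x j : ℤ) : ℚ)),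
      C 2 * z.re = A.map (Int.castRingHom ℚ) → C 2 * z.im = B.map (Int.castRingHom ℚ) →
      2 * ev f _ u hu z = ((A.eval (x j) : ℤ) : ℚ) + u * ((B.eval (x j) : ℤ) : ℚ) := by
    intro z A B u hu h1 h2
    rw [ev_apply, ← hcast, ← hcast, ← h1, ← h2, eval_mul, eval_mul, eval_C]
    ring
  have hzero : (A.eval (x j) : ℤ) + v j * B.eval (x j) = 0 := by
    have h1 : ev f _ _ (hev j) φ = 0 := by
      have h2 := pt_le_ker f _ _ (hev j)
      exact h2 (Ideal.pow_le_self hj hφmem)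
    have h2 := hev2 φ A B _ (hev j) hA hB
    rw [h1, mul_zero] at h2
    exact_mod_cast h2.symm
  have hconj : ev f _ _ (hev' j) φ = ((A.eval (x j) : ℤ) : ℚ) := by
    have h2 := hev2 φ A B _ (hev' j) hA hB
    have h3 : ((A.eval (x j) : ℤ) : ℚ) + ((v j : ℤ) : ℚ) * ((B.eval (x j) : ℤ) : ℚ) = 0 := by
      exact_mod_cast hzero
    linarith
  have hne : A.eval (x j) ≠ 0 := by
    intro h0
    rw [h0, Int.cast_zero] at hconj
    have hprime : (RingHom.ker (ev f _ _ (hev' j))).IsPrime := RingHom.ker_isPrime _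
    have h1 : ∏ i, pt f (X - C ((x i : ℤ) : ℚ)) (C ((v i : ℤ) : ℚ)) ^ a i ≤
        RingHom.ker (ev f _ _ (hev' j)) := by
      rw [← hφ, Ideal.span_singleton_le_iff_mem]
      exact hconj
    obtain ⟨i, -, hi⟩ := (hprime.prod_le).1 h1
    have hi2 := hprime.le_of_pow_le hi
    have g1 : (⟨X - C ((x i : ℤ) : ℚ), 0⟩ : Crd f) ∈ RingHom.ker (ev f _ _ (hev' j)) :=
      hi2 (Ideal.subset_span (by simp))
    have g2 : (⟨-C ((v i : ℤ) : ℚ), 1⟩ : Crd f) ∈ RingHom.ker (ev f _ _ (hev' j)) :=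
      hi2 (Ideal.subset_span (by simp))
    rw [RingHom.mem_ker, ev_apply] at g1 g2
    simp only [eval_sub, eval_X, eval_C, eval_zero, mul_zero, add_zero, eval_neg, eval_one,
      mul_one] at g1 g2
    have g3 : x j = x i := by exact_mod_cast sub_eq_zero.1 g1
    have g4 : j = i := hinj g3
    subst g4
    have g5 : ((v j : ℤ) : ℚ) = 0 := by linarith
    exact hv j (by exact_mod_cast g5)
  have hdiv : (2 * v j) ^ a j ∣ (f0.derivative.eval (x j)) ^ a j * (2 * A.eval (x j)) := by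
    have h1 := congrArg (ev f _ _ (hev' j)) hψ
    rw [map_mul, map_mul, map_pow, map_pow, hconj] at h1
    have h2 : ev f _ _ (hev' j) ⟨f1.map (Int.castRingHom ℚ), 0⟩ =
        ((f0.derivative.eval (x j) : ℤ) : ℚ) := by
      rw [ev_apply, hder, ← hcast]
      simp
    have h3 : ev f _ _ (hev' j) ⟨-C ((v j : ℤ) : ℚ), 1⟩ = ((-(2 * v j) : ℤ) : ℚ) := by
      rw [ev_apply]
      simp only [eval_neg, eval_C, eval_one]
      push_cast
      ring
    have h4 := hev2 ψ A1 B1 _ (hev' j) hA1 hB1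
    rw [h2, h3] at h1
    have h5 : (f0.derivative.eval (x j)) ^ a j * (2 * A.eval (x j)) =
        (-(2 * v j)) ^ a j * (A1.eval (x j) + -v j * B1.eval (x j)) := by
      have h6 : ((f0.derivative.eval (x j) : ℤ) : ℚ) ^ a j * (2 * ((A.eval (x j) : ℤ) : ℚ)) =
          ((-(2 * v j) : ℤ) : ℚ) ^ a j * (((A1.eval (x j) : ℤ) : ℚ) +
            -((v j : ℤ) : ℚ) * ((B1.eval (x j) : ℤ) : ℚ)) := by
        rw [← h4]
        linear_combination 2 * h1
      exact_mod_cast h6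
    rw [h5, neg_pow]
    exact ⟨(-1) ^ a j * (A1.eval (x j) + -v j * B1.eval (x j)), by ring⟩
  refine ⟨A, B, ?_, hgoodAB, hne, gcd_pow_dvd _ _ _ (mul_ne_zero two_ne_zero (hv j)) _ hdiv⟩
  rw [hAB]
  rcases hN0 with h0 | h0
  · left
    rw [h0]
  · right
    rw [h0]
    ring

end Pool.TTE
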