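import Pool.Agent.Lib.MP_695920_nt.TT.Cl2

set_option autoImplicit false

/-!
TEAM TWOTORSION, even degree, step (0): at least half of the classes of order dividing two have a
square root whose generator has positive norm, and Minkowski's theorem keeps the sign of the norm.
-/

namespace Pool.TT

open NumberField NumberField.InfinitePlace Module nonZeroDivisors

variable (K : Type*) [Field K] [NumberField K]

/-- The class `c` contains an ideal whose square is generated by an element of positive norm. -/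
def PosClass (c : ClassGroup (𝓞 K)) : Prop :=
  ∃ (I : (Ideal (𝓞 K))⁰) (b : 𝓞 K), ClassGroup.mk0 I = c ∧
    (I : Ideal (𝓞 K)) ^ 2 = Ideal.span {b} ∧ 0 < Algebra.norm ℤ b

variable {K}

theorem sq_principal_of_sq_eq_one {c : ClassGroup (𝓞 K)} (hc : c ^ 2 = 1) :
    ∃ (J : (Ideal (𝓞 K))⁰) (b : 𝓞 K), ClassGroup.mk0 J = c ∧
      (J : Ideal (𝓞 K)) ^ 2 = Ideal.span {b} ∧ b ≠ 0 := by
  obtain ⟨J, hJ⟩ := ClassGroup.mk0_surjective c
  have hprin : ((J : Ideal (𝓞 K)) ^ 2).IsPrincipal := by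
    have hmem : (J : Ideal (𝓞 K)) ^ 2 ∈ (Ideal (𝓞 K))⁰ := pow_mem J.2 2
    rw [← ClassGroup.mk0_eq_one_iff hmem]
    have h1 : (⟨(J : Ideal (𝓞 K)) ^ 2, hmem⟩ : (Ideal (𝓞 K))⁰) = J ^ 2 := rfl
    rw [h1, map_pow, hJ, hc]
  obtain ⟨b, hb⟩ := (Submodule.isPrincipal_iff _).mp hprin
  have hJ0 : (J : Ideal (𝓞 K)) ≠ ⊥ := nonZeroDivisors.coe_ne_zero J
  have hb' : (J : Ideal (𝓞 K)) ^ 2 = Ideal.span {b} := hb
  refine ⟨J, b, hJ, hb', ?_⟩
  rintro rfl
  have : (J : Ideal (𝓞 K)) ^ 2 = ⊥ := by rw [hb']; simp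
  exact hJ0 (pow_eq_zero_iff (two_ne_zero) |>.mp this)

theorem PosClass.sq_eq_one {c : ClassGroup (𝓞 K)} (h : PosClass K c) : c ^ 2 = 1 := by
  obtain ⟨I, b, rfl, hI, hb⟩ := h
  have hb0 : b ≠ 0 := by
    rintro rfl
    simp at hb
  have hmem : (I : Ideal (𝓞 K)) ^ 2 ∈ (Ideal (𝓞 K))⁰ := pow_mem I.2 2
  have h1 : (⟨(I : Ideal (𝓞 K)) ^ 2, hmem⟩ : (Ideal (𝓞 K))⁰) = I ^ 2 := rfl
  rw [← map_pow, ← h1, ClassGroup.mk0_eq_one_iff hmem, hI]
  exact ⟨⟨b, rfl⟩⟩

/-- At most half of the classes of order dividing two are lost. -/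
theorem card_le_two_mul_posClass :
    Nat.card {c : ClassGroup (𝓞 K) // c ^ 2 = 1} ≤
      2 * Nat.card {c : ClassGroup (𝓞 K) // PosClass K c} := by
  classical
  by_cases hall : ∀ c : ClassGroup (𝓞 K), c ^ 2 = 1 → PosClass K c
  · have h1 : Nat.card {c : ClassGroup (𝓞 K) // c ^ 2 = 1} ≤
        Nat.card {c : ClassGroup (𝓞 K) // PosClass K c} :=
      Nat.card_le_card_of_injective
        (fun c : {c : ClassGroup (𝓞 K) // c ^ 2 = 1} =>
          (⟨c.1, hall c.1 c.2⟩ : {c : ClassGroup (𝓞 K) // PosClass K c}))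
        (fun a b h => Subtype.ext (by simpa using h))
    omega
  · push Not at hall
    obtain ⟨c₀, hc₀, hn₀⟩ := hall
    obtain ⟨J, b₀, hJ, hJb, hb₀⟩ := sq_principal_of_sq_eq_one hc₀
    have hN₀ : Algebra.norm ℤ b₀ < 0 := by
      have h0 : Algebra.norm ℤ b₀ ≠ 0 := Algebra.norm_ne_zero_iff.mpr hb₀
      rcases lt_or_gt_of_ne h0 with h | h
      · exact h
      · exact absurd ⟨J, b₀, hJ, hJb, h⟩ hn₀
    have key : ∀ c : ClassGroup (𝓞 K), c ^ 2 = 1 → ¬ PosClass K c → PosClass K (c₀ * c) := by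
      intro c hc hn
      obtain ⟨I, b, hI, hIb, hb⟩ := sq_principal_of_sq_eq_one hc
      have hN : Algebra.norm ℤ b < 0 := by
        have h0 : Algebra.norm ℤ b ≠ 0 := Algebra.norm_ne_zero_iff.mpr hb
        rcases lt_or_gt_of_ne h0 with h | h
        · exact h
        · exact absurd ⟨I, b, hI, hIb, h⟩ hn
      refine ⟨J * I, b₀ * b, by rw [map_mul, hJ, hI], ?_, ?_⟩
      · rw [Submonoid.coe_mul, mul_pow, hJb, hIb, Ideal.span_singleton_mul_span_singleton]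
      · rw [map_mul]
        exact mul_pos_of_neg_of_neg hN₀ hN
    let f : {c : ClassGroup (𝓞 K) // c ^ 2 = 1} →
        {c : ClassGroup (𝓞 K) // PosClass K c} ⊕ {c : ClassGroup (𝓞 K) // PosClass K c} :=
      fun c => if h : PosClass K c.1 then Sum.inl ⟨c.1, h⟩
        else Sum.inr ⟨c₀ * c.1, key c.1 c.2 h⟩
    have hf : Function.Injective f := by
      intro a b hab
      by_cases ha : PosClass K a.1 <;> by_cases hb : PosClass K b.1
      · simp only [f, dif_pos ha, dif_pos hb, Sum.inl.injEq, Subtype.mk.injEq] at hab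
        exact Subtype.ext hab
      · simp [f, dif_pos ha, dif_neg hb] at hab
      · simp [f, dif_neg ha, dif_pos hb] at hab
      · simp only [f, dif_neg ha, dif_neg hb, Sum.inr.injEq, Subtype.mk.injEq] at hab
        exact Subtype.ext (mul_left_cancel hab)
    have h1 := Nat.card_le_card_of_injective f hf
    rw [Nat.card_sum] at h1
    omega

/-- The Minkowski step: an ideal in the inverse class of `J`, `J ^ 2 = (b)`, with square
generated by a small element `β`, `b β` a square. -/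
theorem minkowski_sq (J : (Ideal (𝓞 K))⁰) (b : 𝓞 K)
    (hb' : (J : Ideal (𝓞 K)) ^ 2 = Ideal.span {b}) :
    ∃ (I : (Ideal (𝓞 K))⁰) (k β : 𝓞 K), ClassGroup.mk0 I = (ClassGroup.mk0 J)⁻¹ ∧ k ≠ 0 ∧
      k ^ 2 = b * β ∧ β ≠ 0 ∧ (I : Ideal (𝓞 K)) ^ 2 = Ideal.span {β} ∧
      ∀ w : InfinitePlace K, w (β : K) ≤ 2 * |(discr K : ℝ)| ^ ((1 : ℝ) / finrank ℚ K) := by
  classical
  have hJ0 : (J : Ideal (𝓞 K)) ≠ ⊥ := nonZeroDivisors.coe_ne_zero J
  have hb0 : b ≠ 0 := by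
    rintro rfl
    have : (J : Ideal (𝓞 K)) ^ 2 = ⊥ := by rw [hb']; simp
    exact hJ0 (pow_eq_zero_iff (two_ne_zero) |>.mp this)
  have hbK : (b : K) ≠ 0 := by exact_mod_cast hb0
  set n := finrank ℚ K with hn
  have hnpos : 0 < n := finrank_pos
  set D : ℝ := |(discr K : ℝ)| with hD
  have hDpos : 0 < D := abs_pos.mpr (by exact_mod_cast NumberField.discr_ne_zero K)
  set X : ℝ := D ^ ((1 : ℝ) / n) with hX
  have hXpos : 0 < X := Real.rpow_pos_of_pos hDpos _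
  have hXn : X ^ n = D := by
    rw [hX, ← Real.rpow_natCast, ← Real.rpow_mul hDpos.le]
    rw [one_div, inv_mul_cancel₀ (by positivity), Real.rpow_one]
  have hwb : ∀ w : InfinitePlace K, 0 < w (b : K) := fun w => w.pos_iff.mpr hbK
  set f : InfinitePlace K → ℝ := fun w => √(2 * X * w (b : K)) with hf
  have hfpos : ∀ w, 0 < f w := fun w => Real.sqrt_pos.mpr (by have := hwb w; positivity)
  have hfsq : ∀ w, f w ^ 2 = 2 * X * w (b : K) := fun w =>
    Real.sq_sqrt (by have := hwb w; positivity)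
  have hprod : (∏ w, f w ^ mult w) ^ 2 =
      2 ^ n * D * (Ideal.absNorm (J : Ideal (𝓞 K)) : ℝ) ^ 2 := by
    rw [← Finset.prod_pow]
    have h1 : ∀ w : InfinitePlace K, (f w ^ mult w) ^ 2 = (2 * X) ^ mult w * w (b : K) ^ mult w := by
      intro w
      rw [← pow_mul, mul_comm, pow_mul, hfsq, mul_pow]
    rw [Finset.prod_congr rfl fun w _ => h1 w, Finset.prod_mul_distrib, prod_eq_abs_norm,
      Finset.prod_pow_eq_pow_sum, sum_mult_eq, ← hn, mul_pow, hXn]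
    congr 1
    have h2 : Ideal.absNorm ((J : Ideal (𝓞 K)) ^ 2) = (Algebra.norm ℤ b).natAbs := by
      rw [hb', Ideal.absNorm_span_singleton]
    rw [map_pow] at h2
    have h3 : ((Ideal.absNorm (J : Ideal (𝓞 K)) : ℝ)) ^ 2 = ((Algebra.norm ℤ b).natAbs : ℝ) := by
      exact_mod_cast h2
    rw [h3, Nat.cast_natAbs, Int.cast_abs, Rat.cast_abs, ← Algebra.coe_norm_int]
    norm_cast
  have hNpos : 0 < (Ideal.absNorm (J : Ideal (𝓞 K)) : ℝ) := by
    exact_mod_cast Nat.pos_of_ne_zero (Ideal.absNorm_ne_zero_of_nonZeroDivisors J)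
  have hlt : (Ideal.absNorm (J : Ideal (𝓞 K)) : ℝ) * √|(discr K : ℝ)| < ∏ w, f w ^ mult w := by
    refine lt_of_pow_lt_pow_left₀ 2 (Finset.prod_nonneg fun w _ => pow_nonneg (hfpos w).le _) ?_
    rw [hprod, mul_pow, Real.sq_sqrt (abs_nonneg _)]
    have h2n : (1 : ℝ) < 2 ^ n := one_lt_pow₀ (by norm_num) hnpos.ne'
    have : 0 < (Ideal.absNorm (J : Ideal (𝓞 K)) : ℝ) ^ 2 * D := by positivity
    nlinarith
  obtain ⟨k, hkJ, hk0, hk⟩ := exists_mem_ideal_lt K J f hfpos hlt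
  obtain ⟨I, hI⟩ : (J : Ideal (𝓞 K)) ∣ Ideal.span {k} := Ideal.dvd_span_singleton.mpr hkJ
  have hI0 : I ≠ ⊥ := by
    rintro rfl
    apply hk0
    have : Ideal.span {k} = ⊥ := by rw [hI]; simp
    simpa using this
  have hImem : I ∈ (Ideal (𝓞 K))⁰ := mem_nonZeroDivisors_of_ne_zero hI0
  have hcI : ClassGroup.mk0 (⟨I, hImem⟩ : (Ideal (𝓞 K))⁰) = (ClassGroup.mk0 J)⁻¹ := by
    rw [ClassGroup.mk0_eq_mk0_inv_iff]
    exact ⟨k, hk0, by rw [mul_comm]; exact hI.symm⟩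
  have hsq : Ideal.span {k ^ 2} = Ideal.span {b} * I ^ 2 := by
    rw [← Ideal.span_singleton_pow, hI, mul_pow, hb']
  obtain ⟨β, hβ⟩ : b ∣ k ^ 2 := by
    rw [← Ideal.span_singleton_le_span_singleton, hsq]
    exact Ideal.mul_le_left
  have hβ0 : β ≠ 0 := by
    rintro rfl
    exact hk0 (pow_eq_zero_iff two_ne_zero |>.mp (by rw [hβ, mul_zero]))
  refine ⟨⟨I, hImem⟩, k, β, hcI, hk0, hβ, hβ0, ?_, ?_⟩
  · have h1 : Ideal.span {b} * I ^ 2 = Ideal.span {b} * Ideal.span {β} := by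
      rw [← hsq, hβ, Ideal.span_singleton_mul_span_singleton]
    have hne : Ideal.span {b} ≠ ⊥ := by simpa using hb0
    exact mul_left_cancel₀ hne h1
  · intro w
    have h1 : w (k : K) ^ 2 = w (b : K) * w (β : K) := by
      rw [← map_pow, ← map_mul]
      congr 1
      exact_mod_cast congrArg (algebraMap (𝓞 K) K) hβ
    have h2 : w (k : K) ^ 2 ≤ 2 * X * w (b : K) := by
      rw [← hfsq w]
      exact pow_le_pow_left₀ (apply_nonneg _ _) (hk w).le 2
    have h3 : w (b : K) * w (β : K) ≤ w (b : K) * (2 * X) := by rw [← h1]; linarith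
    exact le_of_mul_le_mul_left h3 (hwb w)

/-- A class with a square root of positive norm contains an ideal whose square is generated by an
element in the box whose norm is a positive perfect square. -/
theorem PosClass.exists_box {c : ClassGroup (𝓞 K)} (h : PosClass K c) :
    ∃ (I : (Ideal (𝓞 K))⁰) (β : 𝓞 K), ClassGroup.mk0 I = c ∧ β ≠ 0 ∧
      (I : Ideal (𝓞 K)) ^ 2 = Ideal.span {β} ∧
      (∀ φ : K →+* ℂ, ‖φ (β : K)‖ ≤ 2 * |(discr K : ℝ)| ^ ((1 : ℝ) / finrank ℚ K)) ∧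
      ∃ y : ℤ, 0 < y ∧ y ^ 2 = Algebra.norm ℤ β := by
  have hc := h.sq_eq_one
  obtain ⟨J, b, hJ, hJb, hb⟩ := h
  obtain ⟨I, k, β, hI, hk, hkβ, hβ0, hIβ, hw⟩ := minkowski_sq J b hJb
  refine ⟨I, β, ?_, hβ0, hIβ, ?_, ?_⟩
  · rw [hI, hJ, inv_eq_iff_mul_eq_one, ← sq, hc]
  · intro φ
    have := hw (InfinitePlace.mk φ)
    rwa [InfinitePlace.apply] at this
  · have hN : 0 < Algebra.norm ℤ β := by
      have h1 : Algebra.norm ℤ k ^ 2 = Algebra.norm ℤ b * Algebra.norm ℤ β := by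
        rw [← map_pow, hkβ, map_mul]
      have h2 : 0 < Algebra.norm ℤ k ^ 2 := by
        have : Algebra.norm ℤ k ≠ 0 := Algebra.norm_ne_zero_iff.mpr hk
        positivity
      rw [h1] at h2
      exact (pos_iff_pos_of_mul_pos h2).mp hb
    have hN2 : (Ideal.absNorm (I : Ideal (𝓞 K))) ^ 2 = (Algebra.norm ℤ β).natAbs := by
      rw [← map_pow, hIβ, Ideal.absNorm_span_singleton]
    refine ⟨(Ideal.absNorm (I : Ideal (𝓞 K)) : ℤ), ?_, ?_⟩
    · exact_mod_cast Nat.pos_of_ne_zero (Ideal.absNorm_ne_zero_of_nonZeroDivisors I)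
    · have h2 : ((Algebra.norm ℤ β).natAbs : ℤ) = Algebra.norm ℤ β := Int.natAbs_of_nonneg hN.le
      rw [← h2, ← hN2]
      push_cast
      rfl

theorem ideal_eq_of_sq_eq {I J : Ideal (𝓞 K)} (h : I ^ 2 = J ^ 2) : I = J := by
  apply le_antisymm
  · rw [← Ideal.dvd_iff_le]
    exact (UniqueFactorizationMonoid.pow_dvd_pow_iff_dvd two_ne_zero).mp (dvd_of_eq h.symm)
  · rw [← Ideal.dvd_iff_le]
    exact (UniqueFactorizationMonoid.pow_dvd_pow_iff_dvd two_ne_zero).mp (dvd_of_eq h)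

end Pool.TT
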