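import Pool.Agent.Lib.MP_695920_nt.TT.Even.ERing
import Pool.Agent.Lib.MP_695920_nt.TT.Kernel

set_option autoImplicit false

/-!
TEAM TWOTORSION, even degree, F1: injectivity of `x - T` modulo squares and rational numbers.
-/

open Polynomial

namespace Pool.TT

/-- the linear algebra, `deg f` even, `deg w` odd -/
theorem eker_lin (f w v A : ℚ[X]) (q : ℚ) (hq : q ≠ 0) (hf : f.Monic) (hs : Squarefree f)
    (hp : 0 < f.natDegree) (hev : Even f.natDegree) (hw : w.Monic) (hwd : Odd w.natDegree)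
    (hfw : IsCoprime f w) (h1 : w ∣ f - v ^ 2) (h2 : f ∣ A ^ 2 - C q * w) :
    ∃ s t r : ℚ[X], t ≠ 0 ∧ w ∣ s - v * r ∧ s ^ 2 - f * r ^ 2 = C q * w * t ^ 2 := by
  set n := f.natDegree with hn
  set d := w.natDegree with hd
  obtain ⟨k, hk⟩ := hev
  obtain ⟨l, hl⟩ := hwd
  obtain ⟨s, t, r, hne, hs1, ht, hr, hf1, hw1⟩ := ker_exists_small f w v A hf hw
    ((n + d + 1) / 2) (n / 2) ((d + 1) / 2) (by omega)
  have key : s ^ 2 - f * r ^ 2 - C q * w * t ^ 2 = 0 := by
    have hdvd : f * w ∣ s ^ 2 - f * r ^ 2 - C q * w * t ^ 2 := by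
      refine hfw.mul_dvd ?_ ?_
      · have e : s ^ 2 - f * r ^ 2 - C q * w * t ^ 2 =
          (s - A * t) * (s + A * t) + (A ^ 2 - C q * w) * t ^ 2 - f * r ^ 2 := by ring
        rw [e]
        exact dvd_sub (dvd_add (hf1.mul_right _) (h2.mul_right _)) (dvd_mul_right _ _)
      · have e : s ^ 2 - f * r ^ 2 - C q * w * t ^ 2 =
          (s - v * r) * (s + v * r) - (f - v ^ 2) * r ^ 2 - w * (C q * t ^ 2) := by ring
        rw [e]
        exact dvd_sub (dvd_sub (hw1.mul_right _) (h1.mul_right _)) (dvd_mul_right _ _)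
    have hdeg : (f * w).degree = ((n + d : ℕ) : WithBot ℕ) := by
      rw [degree_mul, degree_eq_natDegree hf.ne_zero, degree_eq_natDegree hw.ne_zero]
      norm_cast
    refine eq_zero_of_dvd_of_degree_lt hdvd ?_
    rw [hdeg]
    have b1 : (s ^ 2).degree < ((n + d : ℕ) : WithBot ℕ) :=
      ker_natDegree_sq_lt s _ _ hs1 (by omega)
    have b2 : (f * r ^ 2).degree < ((n + d : ℕ) : WithBot ℕ) := by
      by_cases h0 : r = 0
      · subst h0
        simp
      · rw [degree_eq_natDegree h0] at hr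
        have hr' : r.natDegree < (d + 1) / 2 := by exact_mod_cast hr
        rw [degree_eq_natDegree (mul_ne_zero hf.ne_zero (pow_ne_zero 2 h0)),
          natDegree_mul hf.ne_zero (pow_ne_zero 2 h0), natDegree_pow]
        exact_mod_cast (by omega : n + 2 * r.natDegree < n + d)
    have b3 : (C q * w * t ^ 2).degree < ((n + d : ℕ) : WithBot ℕ) := by
      by_cases h0 : t = 0
      · subst h0
        simp
      · rw [degree_eq_natDegree h0] at ht
        have ht' : t.natDegree < n / 2 := by exact_mod_cast ht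
        have hc : C q ≠ 0 := by simpa using hq
        rw [degree_eq_natDegree (mul_ne_zero (mul_ne_zero hc hw.ne_zero) (pow_ne_zero 2 h0)),
          natDegree_mul (mul_ne_zero hc hw.ne_zero) (pow_ne_zero 2 h0),
          natDegree_mul hc hw.ne_zero, natDegree_C, natDegree_pow]
        exact_mod_cast (by omega : 0 + w.natDegree + 2 * t.natDegree < n + d)
    exact (degree_sub_le _ _).trans_lt (max_lt ((degree_sub_le _ _).trans_lt (max_lt b1 b2)) b3)
  refine ⟨s, t, r, ?_, hw1, sub_eq_zero.1 key⟩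
  rintro rfl
  have h3 : s ^ 2 = f * r ^ 2 := by
    have := sub_eq_zero.1 key
    simpa [sub_eq_zero] using this
  obtain ⟨h4, h5⟩ := sq_eq_mul_sq_g hs hp _ s r rfl h3
  subst h4 h5
  simp at hne

section

variable (f : ℚ[X]) [hg : GoodF f]

/-- the kernel for odd degree of `w` -/
theorem eker_poly (hm : f.Monic) (hev : Even f.natDegree) (w v A : ℚ[X]) (q : ℚ) (hq : q ≠ 0)
    (hw : w.Monic) (hwd : Odd w.natDegree) (hfw : IsCoprime f w)
    (h1 : w ∣ f - v ^ 2) (h2 : f ∣ A ^ 2 - C q * w) : IsSquare (cle f w v) := by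
  obtain ⟨s, t, r, ht, hw1, key⟩ := eker_lin f w v A q hq hm hg.sqf hg.pos hev hw hwd hfw h1 h2
  set φ : Crd f := ⟨s, -r⟩ with hφ
  have hc1 : C q ≠ 0 := by simpa using hq
  have hnorm : φ.norm = C q * w * t ^ 2 := by
    rw [hφ, ker_norm_mk, ← key]
    ring
  have hφ0 : φ ≠ 0 := by
    intro h0
    rw [h0, QuadraticAlgebra.norm_zero] at hnorm
    exact mul_ne_zero (mul_ne_zero hc1 hw.ne_zero) (pow_ne_zero 2 ht) hnorm.symm
  have hmem : φ ∈ pt f w v := ker_mem_pt f w v s r hw1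
  have hle : Ideal.span {φ} ≤ pt f w v := (Ideal.span_singleton_le_iff_mem _).2 hmem
  obtain ⟨J, hJ⟩ := Ideal.dvd_iff_le.2 hle
  have hspan0 : Ideal.span {φ} ≠ ⊥ := by
    rwa [Ne, Ideal.span_singleton_eq_bot]
  have hJ0 : J ≠ ⊥ := by
    rintro rfl
    rw [Ideal.mul_bot] at hJ
    exact hspan0 hJ
  obtain ⟨c, w0, v0, hc, hw0, hv0, hdv, hJf⟩ := ideal_form_g f J hJ0
  have hrel := norm_relation_g f (∅ : Finset (Fin 2)) (Finset.univ : Finset (Fin 2))
    ![w, w0] ![v, v0] ![w, w0] ![v, v0] ![1, 1] ![1, 1] (by simp) (by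
      intro i _
      fin_cases i
      · exact h1
      · exact hdv)
    φ ⟨c, 0⟩ (by
      rw [Finset.prod_empty, mul_one, hJ, hJf, Fin.prod_univ_two]
      simp only [Matrix.cons_val_zero, Matrix.cons_val_one, pow_one]
      ring)
  rw [Finset.prod_empty, mul_one, Fin.prod_univ_two, hnorm, ker_norm_mk] at hrel
  simp only [Matrix.cons_val_zero, Matrix.cons_val_one, pow_one] at hrel
  have hrel2 : Associated (t ^ 2) (c ^ 2 * w0) := by
    have e1 : C q * w * t ^ 2 = w * (t ^ 2 * C q) := by ring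
    have e2 : (c ^ 2 - f * 0 ^ 2) * (w * w0) = w * (c ^ 2 * w0) := by ring
    rw [e1, e2] at hrel
    have h3 := hrel.of_mul_left (Associated.refl _) hw.ne_zero
    refine Associated.trans ?_ h3
    exact (associated_mul_unit_right _ _ (isUnit_C.2 (isUnit_iff_ne_zero.2 hq)))
  obtain ⟨p, hp0, hp⟩ := ker_monic_sq t c w0 ht hc.ne_zero hw0 hrel2
  subst hp
  rw [pt_sq' f hg.sqf p v0 hdv] at hJf
  have hc0 : (⟨c, 0⟩ : Crd f) ≠ 0 := by
    intro h0
    exact hc.ne_zero (congrArg QuadraticAlgebra.re h0)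
  have hcs0 : Ideal.span {(⟨c, 0⟩ : Crd f)} ≠ ⊥ := by
    rwa [Ne, Ideal.span_singleton_eq_bot]
  have hone : ClassGroup.mk0 ⟨Ideal.span {φ}, mem_nonZeroDivisors_of_ne_zero hspan0⟩ = 1 :=
    (ClassGroup.mk0_eq_one_iff _).2 ⟨⟨φ, rfl⟩⟩
  have hone' : ClassGroup.mk0 ⟨Ideal.span {(⟨c, 0⟩ : Crd f)},
      mem_nonZeroDivisors_of_ne_zero hcs0⟩ = 1 :=
    (ClassGroup.mk0_eq_one_iff _).2 ⟨⟨_, rfl⟩⟩
  have hprod : (⟨Ideal.span {φ}, mem_nonZeroDivisors_of_ne_zero hspan0⟩ :
      nonZeroDivisors (Ideal (Crd f))) =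
      ⟨pt f w v, mem_nonZeroDivisors_of_ne_zero (pt_ne_bot f w v)⟩ *
      (⟨Ideal.span {(⟨c, 0⟩ : Crd f)}, mem_nonZeroDivisors_of_ne_zero hcs0⟩ *
      ⟨pt f p v0, mem_nonZeroDivisors_of_ne_zero (pt_ne_bot f p v0)⟩ ^ 2) := by
    apply Subtype.ext
    simp only [Submonoid.coe_mul, SubmonoidClass.coe_pow]
    rw [hJ, hJf]
  rw [hprod, map_mul, map_mul, map_pow, hone', one_mul] at hone
  refine ⟨(cle f p v0)⁻¹, ?_⟩
  rw [← mul_inv, ← pow_two]
  exact eq_inv_of_mul_eq_one_left hone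

end

/-- a polynomial `A` of degree `n/2` such that `A^2 - f` has degree `n - 1` -/
theorem exists_odd_norm (f : ℚ[X]) (hm : f.Monic) (hp : 0 < f.natDegree)
    (hev : Even f.natDegree) : ∃ A : ℚ[X], A ≠ 0 ∧ A.natDegree < f.natDegree ∧
      (A ^ 2 - f).natDegree = f.natDegree - 1 := by
  obtain ⟨k, hk⟩ := hev
  have hk1 : 0 < k := by omega
  set c : ℚ := (f.coeff (f.natDegree - 1) + 1) / 2 with hc
  set A : ℚ[X] := X ^ k + C c * X ^ (k - 1) with hA
  have hAd : A.natDegree = k := by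
    rw [hA, natDegree_add_eq_left_of_natDegree_lt, natDegree_X_pow]
    rw [natDegree_X_pow]
    exact (natDegree_C_mul_X_pow_le _ _).trans_lt (by omega)
  refine ⟨A, ?_, by omega, ?_⟩
  · rintro h0
    rw [h0, natDegree_zero] at hAd
    omega
  · have hsq : A ^ 2 = X ^ f.natDegree + C (2 * c) * X ^ (f.natDegree - 1) +
        C (c ^ 2) * X ^ (f.natDegree - 2) := by
      have e1 : f.natDegree = k + k := hk
      have e2 : f.natDegree - 1 = k + (k - 1) := by omega
      have e3 : f.natDegree - 2 = (k - 1) + (k - 1) := by omega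
      rw [e3, e2, e1, hA, pow_add, pow_add, pow_add, C_mul, C_pow]
      have : (C (2 : ℚ) : ℚ[X]) = 2 := rfl
      rw [this]
      ring
    have hcoef : (A ^ 2 - f).coeff (f.natDegree - 1) = 1 := by
      rw [coeff_sub, hsq, coeff_add, coeff_add, coeff_X_pow, coeff_C_mul, coeff_C_mul,
        coeff_X_pow, coeff_X_pow, if_neg (by omega), if_pos rfl, if_neg (by omega), hc]
      ring
    refine le_antisymm ?_ ?_
    · rw [natDegree_le_iff_coeff_eq_zero]
      intro N hN
      rw [coeff_sub, hsq, coeff_add, coeff_add, coeff_X_pow, coeff_C_mul, coeff_C_mul,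
        coeff_X_pow, coeff_X_pow, if_neg (by omega : ¬ N = f.natDegree - 1),
        if_neg (by omega : ¬ N = f.natDegree - 2)]
      by_cases h : N = f.natDegree
      · rw [if_pos h, h, hm.coeff_natDegree]
        ring
      · rw [if_neg h, coeff_eq_zero_of_natDegree_lt (by omega)]
        ring
    · refine le_natDegree_of_ne_zero ?_
      rw [hcoef]
      exact one_ne_zero

end Pool.TT
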