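import Mathlib

set_option autoImplicit false

/-!
TEAM TWOTORSION, even degree: an ideal of `K` whose square comes from a subfield `F` is, up to a
squarefree ideal of `F` composed of primes dividing the discriminant of `K`, the extension of an
ideal of `F`.
-/

namespace Pool.TT

open NumberField Module UniqueFactorizationMonoid IsDedekindDomain

/-- every nonzero ideal is a square times a squarefree ideal -/
theorem exists_sq_mul_squarefree {F : Type*} [Field F] [NumberField F] (J : Ideal (𝓞 F))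
    (hJ : J ≠ ⊥) : ∃ b s : Ideal (𝓞 F), J = b ^ 2 * s ∧ Squarefree s := by
  induction h : Ideal.absNorm J using Nat.strong_induction_on generalizing J with
  | _ N ih =>
    by_cases hs : Squarefree J
    · exact ⟨⊤, J, by simp [sq], hs⟩
    · obtain ⟨x, ⟨y, hy⟩, hx⟩ : ∃ x : Ideal (𝓞 F), x * x ∣ J ∧ ¬ IsUnit x := by
        by_contra hcon
        push Not at hcon
        exact hs hcon
      have hx1 : Ideal.absNorm x ≠ 1 := fun h1 => hx (by
        rw [Ideal.absNorm_eq_one_iff] at h1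
        exact Ideal.isUnit_iff.mpr h1)
      have hy0 : y ≠ ⊥ := by
        rintro rfl
        apply hJ
        rw [hy]
        simp
      have hx0 : x ≠ ⊥ := by
        rintro rfl
        apply hJ
        rw [hy]
        simp
      have hNx : 0 < Ideal.absNorm x := Nat.pos_of_ne_zero
        (fun h0 => hx0 (Ideal.absNorm_eq_zero_iff.mp h0))
      have hNy : 0 < Ideal.absNorm y := Nat.pos_of_ne_zero
        (fun h0 => hy0 (Ideal.absNorm_eq_zero_iff.mp h0))
      have hN : Ideal.absNorm J = Ideal.absNorm x * Ideal.absNorm x * Ideal.absNorm y := by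
        rw [hy, map_mul, map_mul]
      have hlt : Ideal.absNorm y < N := by
        rw [← h, hN]
        have h2 : 2 ≤ Ideal.absNorm x := by omega
        nlinarith [Nat.mul_le_mul h2 h2]
      obtain ⟨b, s, hbs, hsq⟩ := ih _ hlt y hy0 rfl
      refine ⟨x * b, s, ?_, hsq⟩
      rw [hy, hbs]
      ring

variable {F K : Type*} [Field F] [NumberField F] [Field K] [NumberField K] [Algebra F K]

/-- If `I ^ 2` is the extension of a squarefree ideal `s`, then every prime divisor of `s`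
contains the discriminant of `K`. -/
theorem discr_mem_of_dvd_squarefree (s : Ideal (𝓞 F)) (hs : Squarefree s) (I : Ideal (𝓞 K))
    (hI : I ^ 2 = s.map (algebraMap (𝓞 F) (𝓞 K))) (p : HeightOneSpectrum (𝓞 F))
    (hp : p.asIdeal ∣ s) : ((discr K : ℤ) : 𝓞 F) ∈ p.asIdeal := by
  have hmax : p.asIdeal.IsMaximal := p.isMaximal
  obtain ⟨P, hPmax, hPover⟩ := Ideal.exists_maximal_ideal_liesOver_of_isIntegral
    (S := 𝓞 K) p.asIdeal
  have hund : p.asIdeal = P.under (𝓞 F) := hPover.over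
  have hmapP : p.asIdeal.map (algebraMap (𝓞 F) (𝓞 K)) ≤ P := by
    rw [Ideal.map_le_iff_le_comap, hund]
  have hinj : Function.Injective (algebraMap (𝓞 F) (𝓞 K)) :=
    FaithfulSMul.algebraMap_injective _ _
  have hmap0 : p.asIdeal.map (algebraMap (𝓞 F) (𝓞 K)) ≠ ⊥ := by
    rw [Ne, Ideal.map_eq_bot_iff_of_injective hinj]
    exact p.ne_bot
  have hP0 : P ≠ ⊥ := by
    rintro rfl
    exact hmap0 (le_bot_iff.mp hmapP)
  have hPprime : Prime P := (Ideal.prime_iff_isPrime hP0).mpr hPmax.isPrime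
  obtain ⟨s', hs'⟩ := hp
  have h1 : P ∣ I ^ 2 := by
    rw [hI, hs', Ideal.map_mul]
    exact (Ideal.dvd_iff_le.mpr hmapP).trans (dvd_mul_right _ _)
  have h2 : P ∣ I := hPprime.dvd_of_dvd_pow h1
  have h3 : P ^ 2 ∣ p.asIdeal.map (algebraMap (𝓞 F) (𝓞 K)) *
      s'.map (algebraMap (𝓞 F) (𝓞 K)) := by
    rw [← Ideal.map_mul, ← hs', ← hI]
    exact pow_dvd_pow_of_dvd h2 2
  have h4 : ¬ P ∣ s'.map (algebraMap (𝓞 F) (𝓞 K)) := by
    intro h
    have h5 : s' ≤ p.asIdeal := by
      rw [hund]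
      exact Ideal.map_le_iff_le_comap.mp (Ideal.dvd_iff_le.mp h)
    have h6 : p.asIdeal * p.asIdeal ∣ s := by
      rw [hs']
      exact mul_dvd_mul_left _ (Ideal.dvd_iff_le.mpr h5)
    have h7 := hs _ h6
    exact p.isPrime.ne_top (Ideal.isUnit_iff.mp h7)
  have h5 : P ^ 2 ∣ p.asIdeal.map (algebraMap (𝓞 F) (𝓞 K)) :=
    hPprime.pow_dvd_of_dvd_mul_right 2 h4 h3
  have hp0 : (p.asIdeal.under ℤ) ≠ ⊥ := by
    intro h
    exact p.ne_bot (Ideal.eq_bot_of_comap_eq_bot h)
  have hp0max : (p.asIdeal.under ℤ).IsMaximal := inferInstance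
  have h6 : P ^ 2 ∣ (p.asIdeal.under ℤ).map (algebraMap ℤ (𝓞 K)) := by
    refine h5.trans (Ideal.dvd_iff_le.mpr ?_)
    have : (p.asIdeal.under ℤ).map (algebraMap ℤ (𝓞 K)) =
        ((p.asIdeal.under ℤ).map (algebraMap ℤ (𝓞 F))).map (algebraMap (𝓞 F) (𝓞 K)) := by
      rw [Ideal.map_map, ← IsScalarTower.algebraMap_eq ℤ (𝓞 F) (𝓞 K)]
    rw [this]
    exact Ideal.map_mono Ideal.map_comap_le
  have h7 := pow_sub_one_dvd_differentIdeal ℤ P 2 hp0 h6
  rw [Nat.add_sub_cancel_left 1 1, pow_one] at h7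
  have h8 : ((discr K : ℤ) : 𝓞 K) ∈ P :=
    Ideal.dvd_iff_le.mp h7 (NumberField.discr_mem_differentIdeal K (𝓞 K))
  rw [hund, Ideal.under, Ideal.mem_comap, map_intCast]
  exact h8

/-- a squarefree ideal all of whose prime divisors lie in `S` is the product of a subset -/
theorem squarefree_eq_prod {F : Type*} [Field F] [NumberField F] (s : Ideal (𝓞 F))
    (hs : Squarefree s) (S : Finset (HeightOneSpectrum (𝓞 F)))
    (hS : ∀ p : HeightOneSpectrum (𝓞 F), p.asIdeal ∣ s → p ∈ S) :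
    ∃ A ∈ S.powerset, s = ∏ p ∈ A, p.asIdeal := by
  classical
  have hs0 : s ≠ ⊥ := hs.ne_zero
  refine ⟨S.filter fun p => p.asIdeal ∣ s, by simp, ?_⟩
  have hnd := (squarefree_iff_nodup_normalizedFactors hs0).mp hs
  have h1 : s = ∏ P ∈ (normalizedFactors s).toFinset, P := by
    conv_lhs => rw [← Ideal.prod_normalizedFactors_eq_self hs0]
    rw [Finset.prod_multiset_count]
    refine Finset.prod_congr rfl fun P hP => ?_
    rw [Multiset.count_eq_one_of_mem hnd (Multiset.mem_toFinset.mp hP), pow_one]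
  conv_lhs => rw [h1]
  have h2 : (normalizedFactors s).toFinset =
      (S.filter fun p => p.asIdeal ∣ s).image HeightOneSpectrum.asIdeal := by
    ext P
    rw [Multiset.mem_toFinset, Ideal.mem_normalizedFactors_iff hs0, Finset.mem_image]
    constructor
    · rintro ⟨hP, hle⟩
      have hP0 : P ≠ ⊥ := by
        rintro rfl
        exact hs0 (le_bot_iff.mp hle)
      refine ⟨⟨P, hP, hP0⟩, ?_, rfl⟩
      rw [Finset.mem_filter]
      have h3 : P ∣ s := Ideal.dvd_iff_le.mpr hle
      exact ⟨hS ⟨P, hP, hP0⟩ h3, h3⟩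
    · rintro ⟨p, hp, rfl⟩
      rw [Finset.mem_filter] at hp
      exact ⟨p.isPrime, Ideal.dvd_iff_le.mp hp.2⟩
  rw [h2, Finset.prod_image]
  intro a _ b _ hab
  exact HeightOneSpectrum.ext hab

/-- the norm of a principal ideal whose generator is small at all embeddings -/
theorem absNorm_span_le {F : Type*} [Field F] [NumberField F] (β : 𝓞 F) {R : ℝ}
    (h : ∀ χ : F →+* ℂ, ‖χ (β : F)‖ ≤ R) :
    (Ideal.absNorm (Ideal.span {β}) : ℝ) ≤ R ^ finrank ℚ F := by
  rw [Ideal.absNorm_span_singleton]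
  have h1 : (((Algebra.norm ℤ β).natAbs : ℕ) : ℝ) = ∏ w : InfinitePlace F, w (β : F) ^ w.mult := by
    rw [InfinitePlace.prod_eq_abs_norm, Nat.cast_natAbs, Int.cast_abs, Rat.cast_abs,
      ← Algebra.coe_norm_int]
    norm_cast
  rw [h1, ← InfinitePlace.sum_mult_eq, ← Finset.prod_pow_eq_pow_sum]
  refine Finset.prod_le_prod (fun w _ => pow_nonneg (apply_nonneg _ _) _) fun w _ => ?_
  refine pow_le_pow_left₀ (apply_nonneg _ _) ?_ _
  have := h w.embedding
  rwa [InfinitePlace.norm_embedding_eq] at this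

end Pool.TT
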