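import Mathlib
import Pool.Agent.Lib.MP_695920_nt.TT.Even.ESubA
import Pool.Agent.Lib.MP_695920_nt.TT.Even.ECl2
import Pool.Agent.Lib.MP_695920_nt.TT.BSub
import Pool.Agent.Lib.MP_695920_nt.TT.Image
import Pool.Agent.Lib.MP_695920_nt.TT.DiscOmega
import Pool.Agent.Lib.MP_695920_nt.Qt.IdlCount

set_option autoImplicit false

/-!
TEAM TWOTORSION, even degree, step (1): the ideals whose square is generated by an element of the
box which does not generate the field.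
-/

namespace Pool.TT

open NumberField Module UniqueFactorizationMonoid IsDedekindDomain
open Pool.Agent.Lib.MP_695920_nt

/-- the ideals `I` with `I ^ 2 = (β)`, `β` in the box and `φ β = ψ β` -/
def SqIdeals (K : Type) [Field K] [NumberField K] (R : ℝ) (φ ψ : K →+* ℂ) : Set (Ideal (𝓞 K)) :=
  {I | ∃ β : 𝓞 K, β ≠ 0 ∧ I ^ 2 = Ideal.span {β} ∧ β ∈ box K R ∧ φ β = ψ β}

theorem sqIdeals_finite (K : Type) [Field K] [NumberField K] (R : ℝ) (φ ψ : K →+* ℂ) :
    (SqIdeals K R φ ψ).Finite := by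
  classical
  have h : ∀ I ∈ SqIdeals K R φ ψ, ∃ β ∈ box K R, I ^ 2 = Ideal.span {β} := by
    rintro I ⟨β, -, h1, h2, -⟩
    exact ⟨β, h2, h1⟩
  choose! g hg hg2 using h
  refine Set.Finite.of_finite_image (f := g) ((box_finite R).subset ?_) ?_
  · rintro _ ⟨I, hI, rfl⟩
    exact hg I hI
  · intro I hI J hJ hIJ
    apply ideal_eq_of_sq_eq
    rw [hg2 I hI, hg2 J hJ, hIJ]

/-- The main count. -/
theorem sqIdeals_card_le {K : Type} [Field K] [NumberField K] {R : ℝ} (hR : 1 ≤ R)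
    {φ ψ : K →+* ℂ} (hne : φ ≠ ψ) :
    ∃ F : IntermediateField ℚ K, finrank ℚ F ≤ finrank ℚ K ∧
      ((SqIdeals K R φ ψ).ncard : ℝ) ≤
        ((idl F ⌊R ^ ((finrank ℚ K : ℝ) / 4)⌋₊).card : ℝ) *
          2 ^ (finrank ℚ K * (discr K).natAbs.primeFactors.card) := by
  classical
  let F : IntermediateField ℚ K := (RingHom.eqLocusField φ ψ).toIntermediateField (by
    intro q
    show φ (algebraMap ℚ K q) = ψ (algebraMap ℚ K q)
    simp)
  have hF : ∀ x : K, x ∈ F ↔ φ x = ψ x := fun x => Iff.rfl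
  have : NumberField F := NumberField.of_intermediateField F
  have hdeg : 2 * finrank ℚ F ≤ finrank ℚ K := by
    have h1 : finrank ℚ F * finrank F K = finrank ℚ K := finrank_mul_finrank ℚ F K
    have h2 : finrank F K ≠ 1 := by
      intro h
      apply hne
      have hb := (IntermediateField.finrank_eq_one_iff_eq_top).1 h
      ext x
      exact (hF x).1 (by rw [hb]; exact IntermediateField.mem_top)
    have h3 : 0 < finrank F K := finrank_pos
    have h5 : 2 ≤ finrank F K := by omega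
    nlinarith [Nat.mul_le_mul_left (finrank ℚ F) h5]
  refine ⟨F, by omega, ?_⟩
  obtain ⟨S, hScard, hS⟩ := primes_above F (discr K) (NumberField.discr_ne_zero K)
  set x : ℝ := R ^ ((finrank ℚ K : ℝ) / 4) with hx
  -- the data of an ideal
  have hdata : ∀ I ∈ SqIdeals K R φ ψ, ∃ (b : Ideal (𝓞 F)) (A : Finset (HeightOneSpectrum (𝓞 F))),
      b ∈ idl F ⌊x⌋₊ ∧ A ∈ S.powerset ∧
        I ^ 2 = (b ^ 2 * ∏ p ∈ A, p.asIdeal).map (algebraMap (𝓞 F) (𝓞 K)) := by
    rintro I ⟨β, hβ0, hIβ, hβ, hβe⟩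
    have hbF : (β : K) ∈ F := (hF _).2 hβe
    have hint : IsIntegral ℤ (⟨(β : K), hbF⟩ : F) := by
      have : IsIntegral ℤ ((⟨(β : K), hbF⟩ : F) : K) := β.isIntegral_coe
      exact (isIntegral_algHom_iff (F.val.restrictScalars ℤ) F.val.injective).1 this
    set β₀ : 𝓞 F := ⟨⟨(β : K), hbF⟩, hint⟩ with hβ₀
    have hmap : algebraMap (𝓞 F) (𝓞 K) β₀ = β := by
      apply RingOfIntegers.ext
      rfl
    have hβ₀0 : β₀ ≠ 0 := by
      intro h
      apply hβ0
      rw [← hmap, h, map_zero]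
    have hbound : ∀ χ : F →+* ℂ, ‖χ (β₀ : F)‖ ≤ R := by
      intro χ
      obtain ⟨χ', hχ'⟩ : ∃ χ' : K →+* ℂ, ∀ x : F, χ' (x : K) = χ x := by
        let _ : Algebra F ℂ := χ.toAlgebra
        have : Algebra.IsAlgebraic F K := inferInstance
        let χ' : K →ₐ[F] ℂ := IsAlgClosed.lift
        refine ⟨χ'.toRingHom, fun x => ?_⟩
        exact χ'.commutes x
      have := hβ χ'
      rw [← hχ']
      exact this
    have hspan0 : Ideal.span {β₀} ≠ ⊥ := by simpa using hβ₀0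
    obtain ⟨b, s, hbs, hs⟩ := exists_sq_mul_squarefree (Ideal.span {β₀}) hspan0
    have hb0 : b ≠ ⊥ := by
      rintro rfl
      apply hspan0
      rw [hbs]
      simp
    have hs0 : s ≠ ⊥ := hs.ne_zero
    have hI : I ^ 2 = (b ^ 2 * s).map (algebraMap (𝓞 F) (𝓞 K)) := by
      rw [hIβ, ← hbs, Ideal.map_span, Set.image_singleton, hmap]
    -- remove the square
    have hinj : Function.Injective (algebraMap (𝓞 F) (𝓞 K)) :=
      FaithfulSMul.algebraMap_injective _ _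
    have hbm0 : b.map (algebraMap (𝓞 F) (𝓞 K)) ≠ ⊥ := by
      rw [Ne, Ideal.map_eq_bot_iff_of_injective hinj]
      exact hb0
    obtain ⟨I', hI'⟩ : b.map (algebraMap (𝓞 F) (𝓞 K)) ∣ I := by
      apply (UniqueFactorizationMonoid.pow_dvd_pow_iff_dvd two_ne_zero).mp
      rw [hI, Ideal.map_mul, Ideal.map_pow]
      exact dvd_mul_right _ _
    have hI'2 : I' ^ 2 = s.map (algebraMap (𝓞 F) (𝓞 K)) := by
      rw [hI', mul_pow, Ideal.map_mul, Ideal.map_pow] at hI
      exact mul_left_cancel₀ (pow_ne_zero 2 hbm0) hI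
    obtain ⟨A, hA, hsA⟩ := squarefree_eq_prod s hs S
      (fun p hp => hS p (discr_mem_of_dvd_squarefree s hs I' hI'2 p hp))
    refine ⟨b, A, ?_, hA, by rw [← hsA]; exact hI⟩
    rw [mem_idl]
    refine ⟨hb0, Nat.le_floor ?_⟩
    have h1 := absNorm_span_le β₀ hbound
    rw [hbs, map_mul, map_pow] at h1
    push_cast at h1
    have h2 : (1 : ℝ) ≤ Ideal.absNorm s := by
      exact_mod_cast Nat.pos_of_ne_zero (fun h0 => hs0 (Ideal.absNorm_eq_zero_iff.mp h0))
    have h3 : ((Ideal.absNorm b : ℕ) : ℝ) ^ 2 ≤ R ^ finrank ℚ F := by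
      nlinarith [sq_nonneg ((Ideal.absNorm b : ℕ) : ℝ)]
    have h4 : R ^ finrank ℚ F ≤ x ^ 2 := by
      rw [hx, ← Real.rpow_natCast, ← Real.rpow_natCast, ← Real.rpow_mul (by linarith)]
      apply Real.rpow_le_rpow_of_exponent_le hR
      have h5 : (2 : ℝ) * finrank ℚ F ≤ finrank ℚ K := by exact_mod_cast hdeg
      push_cast
      linarith
    exact le_of_sq_le_sq (h3.trans h4)
      (Real.rpow_nonneg (by linarith) _)
  choose! g A hg hA hgA using hdata
  have hinjOn : Set.InjOn (fun I => (g I, A I)) (SqIdeals K R φ ψ) := by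
    intro I hI J hJ hIJ
    simp only [Prod.mk.injEq] at hIJ
    apply ideal_eq_of_sq_eq
    rw [hgA I hI, hgA J hJ, hIJ.1, hIJ.2]
  have h1 : (SqIdeals K R φ ψ).ncard ≤ ((idl F ⌊x⌋₊) ×ˢ S.powerset).card := by
    rw [← hinjOn.ncard_image, ← Set.ncard_coe_finset]
    apply Set.ncard_le_ncard _ (Finset.finite_toSet _)
    rintro _ ⟨I, hI, rfl⟩
    rw [Finset.mem_coe, Finset.mem_product]
    exact ⟨hg I hI, hA I hI⟩
  rw [Finset.card_product, Finset.card_powerset] at h1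
  have h2 : ((SqIdeals K R φ ψ).ncard : ℝ) ≤ ((idl F ⌊x⌋₊).card : ℝ) * 2 ^ S.card := by
    exact_mod_cast h1
  refine h2.trans ?_
  apply mul_le_mul_of_nonneg_left _ (Nat.cast_nonneg _)
  apply pow_le_pow_right₀ (by norm_num)
  refine hScard.trans ?_
  exact Nat.mul_le_mul_right _ (by omega)

/-- The ideals whose square is generated by an element of the box that does not generate the
field: `≤ C' |D|^(1/3)`. -/
theorem nongen_ideals_le (n : ℕ) (hn : 0 < n) {C : ℝ} (hC : 1 ≤ C) : ∃ C' : ℝ, 0 ≤ C' ∧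
    ∀ (K : Type) [Field K] [NumberField K], finrank ℚ K = n →
      {I : Ideal (𝓞 K) | ∃ φ ψ : K →+* ℂ, φ ≠ ψ ∧
        I ∈ SqIdeals K (C * |(discr K : ℝ)| ^ ((1 : ℝ) / n)) φ ψ}.Finite ∧
      ({I : Ideal (𝓞 K) | ∃ φ ψ : K →+* ℂ, φ ≠ ψ ∧
        I ∈ SqIdeals K (C * |(discr K : ℝ)| ^ ((1 : ℝ) / n)) φ ψ}.ncard : ℝ) ≤
          C' * |(discr K : ℝ)| ^ ((1 : ℝ) / 3) := by
  classical
  choose c₁ hc₁ hidl using fun d : ℕ => Qt.ideal_count d (1 / 6) (by norm_num)
  obtain ⟨C₂, hC₂, hω⟩ := exp_omega_le (n * Real.log 2) (δ := 1 / 24) (by norm_num)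
  set C₁ : ℝ := ∑ d ∈ Finset.range (n + 1), c₁ d with hC₁
  have hC₁0 : 0 ≤ C₁ := Finset.sum_nonneg fun d _ => hc₁ d
  have hnR : (0 : ℝ) < n := by exact_mod_cast hn
  refine ⟨n ^ 2 * (C₁ * C ^ ((7 : ℝ) * n / 24) * C₂), by positivity, ?_⟩
  intro K _ _ hK
  set D : ℝ := |(discr K : ℝ)| with hD
  have hD1 : 1 ≤ D := by
    have : (1 : ℤ) ≤ |discr K| := Int.one_le_abs (NumberField.discr_ne_zero K)
    rw [hD]
    exact_mod_cast this
  have hD0 : 0 < D := by linarith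
  set X : ℝ := D ^ ((1 : ℝ) / n) with hX
  have hX1 : 1 ≤ X := Real.one_le_rpow hD1 (by positivity)
  have hX0 : 0 < X := by linarith
  set R : ℝ := C * X with hR
  have hR1 : 1 ≤ R := by rw [hR]; nlinarith
  have hone : ∀ φ ψ : K →+* ℂ, φ ≠ ψ →
      ((SqIdeals K R φ ψ).ncard : ℝ) ≤ C₁ * C ^ ((7 : ℝ) * n / 24) * C₂ * D ^ ((1 : ℝ) / 3) := by
    intro φ ψ hne
    obtain ⟨F, hF, hle⟩ := sqIdeals_card_le (K := K) hR1 hne
    have : NumberField F := NumberField.of_intermediateField F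
    rw [hK] at hF hle
    set x : ℝ := R ^ ((n : ℝ) / 4) with hx
    have hx1 : 1 ≤ x := Real.one_le_rpow hR1 (by positivity)
    have h1 := hidl (finrank ℚ F) F rfl x hx1
    have h2 : c₁ (finrank ℚ F) ≤ C₁ :=
      Finset.single_le_sum (f := c₁) (fun d _ => hc₁ d)
        (Finset.mem_range.mpr (by omega))
    have h3 : x ^ ((1 : ℝ) + 1 / 6) = C ^ ((7 : ℝ) * n / 24) * D ^ ((7 : ℝ) / 24) := by
      rw [hx, ← Real.rpow_mul (by linarith), hR, Real.mul_rpow (by linarith) hX0.le]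
      congr 1
      · congr 1
        ring
      · rw [hX, ← Real.rpow_mul hD0.le]
        congr 1
        field_simp
        ring
    have hxp : 0 ≤ x ^ ((1 : ℝ) + 1 / 6) := Real.rpow_nonneg (by linarith) _
    have h4 : ((idl F ⌊x⌋₊).card : ℝ) ≤
        C₁ * (C ^ ((7 : ℝ) * n / 24) * D ^ ((7 : ℝ) / 24)) := by
      rw [← h3]
      exact h1.trans (mul_le_mul_of_nonneg_right h2 hxp)
    have h5 : (2 : ℝ) ^ (n * (discr K).natAbs.primeFactors.card) ≤ C₂ * D ^ ((1 : ℝ) / 24) := by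
      have h6 := hω (discr K).natAbs (Int.natAbs_ne_zero.mpr (NumberField.discr_ne_zero K))
      have h7 : (((discr K).natAbs : ℕ) : ℝ) = D := by
        rw [hD, Nat.cast_natAbs, Int.cast_abs]
      rw [h7] at h6
      refine le_trans (le_of_eq ?_) h6
      rw [← Real.rpow_natCast, Real.rpow_def_of_pos (by norm_num)]
      congr 1
      push_cast
      ring
    have h8 : D ^ ((7 : ℝ) / 24) * D ^ ((1 : ℝ) / 24) = D ^ ((1 : ℝ) / 3) := by
      rw [← Real.rpow_add hD0]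
      norm_num
    calc ((SqIdeals K R φ ψ).ncard : ℝ) ≤ _ := hle
      _ ≤ (C₁ * (C ^ ((7 : ℝ) * n / 24) * D ^ ((7 : ℝ) / 24))) * (C₂ * D ^ ((1 : ℝ) / 24)) := by
          apply mul_le_mul h4 h5 (by positivity)
          positivity
      _ = C₁ * C ^ ((7 : ℝ) * n / 24) * C₂ * (D ^ ((7 : ℝ) / 24) * D ^ ((1 : ℝ) / 24)) := by ring
      _ = _ := by rw [h8]
  set s : Finset ((K →+* ℂ) × (K →+* ℂ)) := Finset.univ.filter fun p => p.1 ≠ p.2 with hs
  have hcard : s.card ≤ n ^ 2 := by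
    calc s.card ≤ (Finset.univ : Finset ((K →+* ℂ) × (K →+* ℂ))).card := Finset.card_filter_le _ _
      _ = n ^ 2 := by
          rw [Finset.card_univ, Fintype.card_prod, Embeddings.card, hK, sq]
  have hsub : {I : Ideal (𝓞 K) | ∃ φ ψ : K →+* ℂ, φ ≠ ψ ∧ I ∈ SqIdeals K R φ ψ} =
      ⋃ p ∈ s, SqIdeals K R p.1 p.2 := by
    ext I
    simp only [Set.mem_ofPred_eq, Set.mem_iUnion, hs, Finset.mem_filter, Finset.mem_univ, true_and,
      Prod.exists, exists_prop]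
  rw [hsub]
  have hfin : (⋃ p ∈ s, SqIdeals K R p.1 p.2).Finite :=
    s.finite_toSet.biUnion fun p _ => sqIdeals_finite K R p.1 p.2
  refine ⟨hfin, ?_⟩
  calc ((⋃ p ∈ s, SqIdeals K R p.1 p.2).ncard : ℝ)
      ≤ ((∑ p ∈ s, (SqIdeals K R p.1 p.2).ncard : ℕ) : ℝ) := by
        exact_mod_cast Finset.set_ncard_biUnion_le _ _
    _ = ∑ p ∈ s, ((SqIdeals K R p.1 p.2).ncard : ℝ) := by push_cast; rfl
    _ ≤ ∑ _p ∈ s, C₁ * C ^ ((7 : ℝ) * n / 24) * C₂ * D ^ ((1 : ℝ) / 3) :=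
        Finset.sum_le_sum fun p hp => hone p.1 p.2 (Finset.mem_filter.mp hp).2
    _ = s.card * (C₁ * C ^ ((7 : ℝ) * n / 24) * C₂ * D ^ ((1 : ℝ) / 3)) := by
        rw [Finset.sum_const, nsmul_eq_mul]
    _ ≤ (n : ℝ) ^ 2 * (C₁ * C ^ ((7 : ℝ) * n / 24) * C₂ * D ^ ((1 : ℝ) / 3)) := by
        apply mul_le_mul_of_nonneg_right _ (by positivity)
        exact_mod_cast hcard
    _ = _ := by ring

end Pool.TT
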