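import Pool.Agent.Lib.MP_695920_nt.TT.LinesA
import Pool.Agent.Lib.MP_695920_nt.TT.Even.ECosets
import Pool.Agent.Lib.MP_695920_nt.TT.Even.ESub

set_option autoImplicit false

/-!
TEAM TWOTORSION, every degree: from the cosets to the sum over the curves `y^2 = f(x)`.
-/

open NumberField Module Polynomial nonZeroDivisors

namespace Pool.TT

/-- The number of classes of order dividing two and the number of integral points on the curves
`y ^ 2 = f(x)`, `f` the minimal polynomial of an integer in the box which generates the field. -/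
def LinesStmtE (n : ℕ) : Prop :=
  ∃ c : ℝ, 1 ≤ c ∧ ∀ (K : Type) [Field K] [NumberField K], finrank ℚ K = n →
      ∃ 𝓕 : Finset (𝓞 K), (𝓕.card : ℝ) ≤ c * |(discr K : ℝ)| ^ ((1 : ℝ) / 2 - 1 / n) ∧
        (∀ θ ∈ 𝓕, (minpoly ℤ θ).natDegree = n ∧
          ∀ z : ℂ, ((minpoly ℤ θ).map (Int.castRingHom ℂ)).IsRoot z →
            ‖z‖ ≤ c * |(discr K : ℝ)| ^ ((1 : ℝ) / n)) ∧
        (Nat.card {x : ClassGroup (𝓞 K) // x ^ 2 = 1} : ℝ) ≤
          c * |(discr K : ℝ)| ^ ((1 : ℝ) / 3) +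
          2 * ∑ θ ∈ 𝓕, (Set.ncard {p : ℤ × ℤ | |(p.1 : ℝ)| ≤ c * |(discr K : ℝ)| ^ ((1 : ℝ) / n) ∧
            0 < p.2 ∧ p.2 ^ 2 = (minpoly ℤ θ).eval p.1} : ℝ)

/-- the ideals whose square is generated by an element of the box of positive square norm -/
def BoxIdeals (K : Type) [Field K] [NumberField K] (R : ℝ) : Set (Ideal (𝓞 K)) :=
  {I | ∃ β : 𝓞 K, β ≠ 0 ∧ I ^ 2 = Ideal.span {β} ∧ β ∈ box K R ∧
    ∃ y : ℤ, 0 < y ∧ y ^ 2 = Algebra.norm ℤ β}

theorem boxIdeals_finite (K : Type) [Field K] [NumberField K] (R : ℝ) :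
    (BoxIdeals K R).Finite := by
  classical
  have h : ∀ I ∈ BoxIdeals K R, ∃ β ∈ box K R, I ^ 2 = Ideal.span {β} := by
    rintro I ⟨β, -, h1, h2, -⟩
    exact ⟨β, h2, h1⟩
  choose! g hg hg2 using h
  refine Set.Finite.of_finite_image (f := g) ((box_finite R).subset ?_) ?_
  · rintro _ ⟨I, hI, rfl⟩
    exact hg I hI
  · intro I hI J hJ hIJ
    apply ideal_eq_of_sq_eq
    rw [hg2 I hI, hg2 J hJ, hIJ]

theorem card_le_boxIdeals (K : Type) [Field K] [NumberField K] :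
    Nat.card {x : ClassGroup (𝓞 K) // x ^ 2 = 1} ≤
      2 * (BoxIdeals K (2 * |(discr K : ℝ)| ^ ((1 : ℝ) / finrank ℚ K))).ncard := by
  classical
  refine card_le_two_mul_posClass.trans ?_
  apply Nat.mul_le_mul_left
  set R := 2 * |(discr K : ℝ)| ^ ((1 : ℝ) / finrank ℚ K) with hR
  choose I β hI hβ hIβ hbox hy using fun c : {c : ClassGroup (𝓞 K) // PosClass K c} =>
    PosClass.exists_box c.2
  have : Finite (BoxIdeals K R) := boxIdeals_finite K R
  rw [← Nat.card_coe_set_eq]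
  refine Nat.card_le_card_of_injective (fun c => ⟨(I c : Ideal (𝓞 K)),
    β c, hβ c, hIβ c, hbox c, hy c⟩) ?_
  intro c c' h
  have h1 := congrArg (fun J : BoxIdeals K R => (J : Ideal (𝓞 K))) h
  change (I c : Ideal (𝓞 K)) = (I c' : Ideal (𝓞 K)) at h1
  apply Subtype.ext
  rw [← hI c, ← hI c']
  congr 1
  exact Subtype.ext h1

theorem linesStmtE (n : ℕ) (hn : 0 < n) : LinesStmtE n := by
  classical
  obtain ⟨C₁, hC₁, hco⟩ := cosets_all.{0} n hn (C := 2) (by norm_num)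
  obtain ⟨C₂, hC₂, hng⟩ := nongen_ideals_le n hn (C := 2) (by norm_num)
  set c : ℝ := 4 + C₁ + 2 * C₂ with hc
  refine ⟨c, by rw [hc]; linarith, fun K _ _ hK => ?_⟩
  obtain ⟨Θ, hcard, hprop, hexc⟩ := hco K hK
  obtain ⟨hfinE, hE⟩ := hng K hK
  set D : ℝ := |(discr K : ℝ)| with hD
  have hDpos : 0 < D := abs_pos.mpr (by exact_mod_cast NumberField.discr_ne_zero K)
  have hc1 : C₁ ≤ c := by rw [hc]; linarith
  have hc2 : 2 * C₂ ≤ c := by rw [hc]; linarith
  have hc4 : 4 ≤ c := by rw [hc]; linarith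
  set X : ℝ := D ^ ((1 : ℝ) / n) with hX
  have hXpos : 0 < X := Real.rpow_pos_of_pos hDpos _
  have hneg : Function.Injective (fun θ : 𝓞 K => -θ) := neg_injective
  refine ⟨Θ.image fun θ => -θ, ?_, ?_, ?_⟩
  · rw [Finset.card_image_of_injective _ hneg]
    exact hcard.trans (mul_le_mul_of_nonneg_right hc1 (Real.rpow_nonneg hDpos.le _))
  · intro η hη
    obtain ⟨θ, hθ, rfl⟩ := Finset.mem_image.mp hη
    have hcoe : ((-θ : 𝓞 K) : K) = -(θ : K) := by simp
    constructor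
    · rw [← hK]
      apply natDegree_minpoly_of_injective
      intro σ τ hst
      by_contra hne
      apply (hprop θ hθ).2 σ τ hne
      simp only [hcoe, map_neg, neg_inj] at hst
      exact hst
    · intro z hz
      refine (root_bound (-θ) (2 * X) (fun σ => ?_) z hz).trans
        (mul_le_mul_of_nonneg_right (by linarith) hXpos.le)
      rw [hcoe, map_neg, norm_neg]
      exact (hprop θ hθ).1 σ
  · set V : Set (Ideal (𝓞 K)) := BoxIdeals K (2 * X) with hV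
    have hcl : Nat.card {x : ClassGroup (𝓞 K) // x ^ 2 = 1} ≤ 2 * V.ncard := by
      have := card_le_boxIdeals K
      rwa [hK] at this
    set E : Set (Ideal (𝓞 K)) := {I : Ideal (𝓞 K) | ∃ φ ψ : K →+* ℂ, φ ≠ ψ ∧
        I ∈ SqIdeals K (2 * X) φ ψ} with hEdef
    set T : 𝓞 K → Set (Ideal (𝓞 K)) := fun θ => {I | I ∈ V ∧ ∃ β : 𝓞 K,
      I ^ 2 = Ideal.span {β} ∧ β ∈ box K (2 * X) ∧ (∃ y : ℤ, 0 < y ∧ y ^ 2 = Algebra.norm ℤ β) ∧
        ∃ x : ℤ, β = θ + x} with hT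
    have hfinT : ∀ θ, (T θ).Finite := fun θ => (boxIdeals_finite K (2 * X)).subset
      fun I hI => hI.1
    have hcover : V ⊆ E ∪ ⋃ θ ∈ Θ, T θ := by
      intro I hI
      obtain ⟨β, hβ0, hIβ, hβ, hy⟩ := id hI
      rcases hexc β hβ with ⟨θ, hθ, x, hx⟩ | ⟨φ, ψ, hne, he⟩
      · right
        simp only [Set.mem_iUnion]
        exact ⟨θ, hθ, hI, β, hIβ, hβ, hy, x, hx⟩
      · left
        exact ⟨φ, ψ, hne, β, hβ0, hIβ, hβ, he⟩
    have h1 : V.ncard ≤ E.ncard + ∑ θ ∈ Θ, (T θ).ncard := by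
      have hfinU : (⋃ θ ∈ Θ, T θ).Finite := Θ.finite_toSet.biUnion fun θ _ => hfinT θ
      refine (Set.ncard_le_ncard hcover (hfinE.union hfinU)).trans ?_
      refine (Set.ncard_union_le _ _).trans ?_
      exact Nat.add_le_add_left (Finset.set_ncard_biUnion_le _ _) _
    have h2 : ∀ θ ∈ Θ, (T θ).ncard ≤
        Set.ncard {p : ℤ × ℤ | |(p.1 : ℝ)| ≤ c * D ^ ((1 : ℝ) / n) ∧
            0 < p.2 ∧ p.2 ^ 2 = (minpoly ℤ (-θ)).eval p.1} := by
      intro θ hθ
      have hcoe : ((-θ : 𝓞 K) : K) = -(θ : K) := by simp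
      have hdeg : (minpoly ℤ (-θ)).natDegree = finrank ℚ K := by
        apply natDegree_minpoly_of_injective
        intro σ τ hst
        by_contra hne
        apply (hprop θ hθ).2 σ τ hne
        simp only [hcoe, map_neg, neg_inj] at hst
        exact hst
      have hex : ∀ I : T θ, ∃ p : ℤ × ℤ, (|(p.1 : ℝ)| ≤ c * D ^ ((1 : ℝ) / n) ∧
            0 < p.2 ∧ p.2 ^ 2 = (minpoly ℤ (-θ)).eval p.1) ∧
            (I : Ideal (𝓞 K)) ^ 2 = Ideal.span {θ + (p.1 : 𝓞 K)} := by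
        rintro ⟨I, -, β, hIβ, hbox, ⟨y, hy, hyN⟩, x, hx⟩
        refine ⟨(x, y), ⟨?_, hy, ?_⟩, ?_⟩
        · obtain ⟨σ⟩ : Nonempty (K →+* ℂ) := inferInstance
          have e1 : ((x : ℤ) : ℂ) = σ (β : K) - σ (θ : K) := by
            rw [hx]
            simp
          have e2 : ‖((x : ℤ) : ℂ)‖ = |(x : ℝ)| := by
            rw [← Complex.ofReal_intCast, Complex.norm_real, Real.norm_eq_abs]
          simp only
          rw [← e2, e1]
          calc _ ≤ ‖σ (β : K)‖ + ‖σ (θ : K)‖ := norm_sub_le _ _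
            _ ≤ 2 * X + 2 * X := add_le_add (hbox σ) ((hprop θ hθ).1 σ)
            _ = 4 * X := by ring
            _ ≤ c * X := mul_le_mul_of_nonneg_right hc4 hXpos.le
        · simp only
          rw [eval_minpoly_eq_norm _ hdeg, hyN, hx]
          congr 1
          ring
        · simp only
          rw [hIβ, hx]
      choose g hg hgI using hex
      have hfin : {p : ℤ × ℤ | |(p.1 : ℝ)| ≤ c * D ^ ((1 : ℝ) / n) ∧
            0 < p.2 ∧ p.2 ^ 2 = (minpoly ℤ (-θ)).eval p.1}.Finite := finite_curve _ _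
      have : Finite {p : ℤ × ℤ | |(p.1 : ℝ)| ≤ c * D ^ ((1 : ℝ) / n) ∧
            0 < p.2 ∧ p.2 ^ 2 = (minpoly ℤ (-θ)).eval p.1} := hfin
      rw [← Nat.card_coe_set_eq, ← Nat.card_coe_set_eq]
      refine Nat.card_le_card_of_injective (fun I => ⟨g I, hg I⟩) ?_
      intro I I' hh
      have hgg : g I = g I' := congrArg Subtype.val hh
      apply Subtype.ext
      apply ideal_eq_of_sq_eq
      rw [hgI I, hgI I', hgg]
    have h3 : ∑ θ ∈ Θ, (T θ).ncard ≤ ∑ η ∈ Θ.image (fun θ => -θ),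
        Set.ncard {p : ℤ × ℤ | |(p.1 : ℝ)| ≤ c * D ^ ((1 : ℝ) / n) ∧
            0 < p.2 ∧ p.2 ^ 2 = (minpoly ℤ η).eval p.1} := by
      rw [Finset.sum_image (fun a _ b _ h => hneg h)]
      exact Finset.sum_le_sum h2
    have h4 : (Nat.card {x : ClassGroup (𝓞 K) // x ^ 2 = 1} : ℝ) ≤
        2 * (E.ncard : ℝ) + 2 * ∑ η ∈ Θ.image (fun θ => -θ),
        (Set.ncard {p : ℤ × ℤ | |(p.1 : ℝ)| ≤ c * D ^ ((1 : ℝ) / n) ∧
            0 < p.2 ∧ p.2 ^ 2 = (minpoly ℤ η).eval p.1} : ℝ) := by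
      rw [← mul_add]
      exact_mod_cast hcl.trans (Nat.mul_le_mul_left 2 (h1.trans (Nat.add_le_add_left h3 _)))
    refine h4.trans (add_le_add ?_ le_rfl)
    calc 2 * (E.ncard : ℝ) ≤ 2 * (C₂ * D ^ ((1 : ℝ) / 3)) := by linarith
      _ = (2 * C₂) * D ^ ((1 : ℝ) / 3) := by ring
      _ ≤ c * D ^ ((1 : ℝ) / 3) :=
          mul_le_mul_of_nonneg_right hc2 (Real.rpow_nonneg hDpos.le _)

end Pool.TT
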