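import Pool.Agent.Lib.MP_695920_nt.TT.Even.EKer

set_option autoImplicit false

/-!
TEAM TWOTORSION, even degree, F1: the kernel of `x - T` modulo squares and rational numbers.
-/

open Polynomial

namespace Pool.TT

section

variable (f : ℚ[X]) [hg : GoodF f]

/-- equal classes from an equality of ideals -/
theorem emu_eq {w v w1 v1 c : ℚ[X]} {φ : Crd f} (hφ : φ ≠ 0) (hc : c ≠ 0)
    (h : Ideal.span {φ} * pt f w v = Ideal.span {(⟨c, 0⟩ : Crd f)} * pt f w1 v1) :
    cle f w v = cle f w1 v1 := by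
  unfold cle
  rw [ClassGroup.mk0_eq_mk0_iff]
  refine ⟨φ, ⟨c, 0⟩, hφ, ?_, h⟩
  intro h0
  exact hc (congrArg QuadraticAlgebra.re h0)

end

section

variable (f : ℚ[X]) [hirr : Fact (Irreducible f)] {K : Type*} [Field K] [Algebra ℚ K] (θ : K)

/-- the kernel, any degree of `w` -/
theorem eker_K (hm : f.Monic) (hev : Even f.natDegree) (hθ : aeval θ f = 0)
    (hK : Module.finrank ℚ K = f.natDegree) (w v : ℚ[X]) (hw : w.Monic)
    (h1 : w ∣ f - v ^ 2) (h0 : aeval θ w ≠ 0) (q : ℚ) (hq : q ≠ 0) (z : K)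
    (hz : z ^ 2 = algebraMap ℚ K q * aeval θ w) : IsSquare (cle f w v) := by
  have hi : Irreducible f := hirr.out
  have hmin : f = minpoly ℚ θ := minpoly.eq_of_irreducible_of_monic hi hθ hm
  have hcop : ∀ u : ℚ[X], aeval θ u ≠ 0 → IsCoprime f u := by
    intro u hu
    rw [hi.coprime_iff_not_dvd]
    rintro ⟨t, rfl⟩
    rw [map_mul, hθ, zero_mul] at hu
    exact hu rfl
  -- the case of odd degree
  have hodd : ∀ w v : ℚ[X], w.Monic → Odd w.natDegree → w ∣ f - v ^ 2 → aeval θ w ≠ 0 →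
      ∀ q : ℚ, q ≠ 0 → ∀ z : K, z ^ 2 = algebraMap ℚ K q * aeval θ w →
      IsSquare (cle f w v) := by
    intro w v hw hwd h1 h0 q hq z hz
    obtain ⟨A, hA⟩ := ker_aeval_surj f hm hi θ hθ hK z
    refine eker_poly f hm hev w v A q hq hw hwd (hcop w h0) h1 ?_
    nth_rewrite 1 [hmin]
    apply minpoly.dvd
    rw [map_sub, map_pow, map_mul, aeval_C, hA, hz, sub_self]
  rcases Nat.even_or_odd w.natDegree with hwe | hwo
  swap
  · exact hodd w v hw hwo h1 h0 q hq z hz
  -- even degree: multiply by `y - A`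
  obtain ⟨A, hA0, hAd, hAn⟩ := exists_odd_norm f hm hi.natDegree_pos hev
  set φ : Crd f := ⟨-A, 1⟩ with hφ
  have hφ0 : φ ≠ 0 := by
    intro h
    have := congrArg QuadraticAlgebra.im h
    simp [hφ] at this
  have hφn : φ.norm = A ^ 2 - f := by
    rw [hφ, ker_norm_mk]
    ring
  have hnA : aeval θ A ≠ 0 := by
    intro h
    have h2 : f ∣ A := by
      rw [hmin]
      exact minpoly.dvd ℚ θ h
    have h3 := natDegree_le_of_dvd h2 hA0
    omega
  have hJ0 : Ideal.span {φ} * pt f w v ≠ ⊥ := by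
    rw [Ne, Ideal.mul_eq_bot, not_or]
    refine ⟨?_, pt_ne_bot f w v⟩
    rwa [Ideal.span_singleton_eq_bot]
  obtain ⟨c, w1, v1, hc, hw1, -, hdv, hJ⟩ := ideal_form_g f _ hJ0
  have hrel := norm_relation_g f (Finset.univ : Finset (Fin 1)) (Finset.univ : Finset (Fin 1))
    ![w] ![v] ![w1] ![v1] ![1] ![1] (by
      intro i _
      fin_cases i
      exact h1) (by
      intro i _
      fin_cases i
      exact hdv)
    φ ⟨c, 0⟩ (by
      rw [Fin.prod_univ_one, Fin.prod_univ_one]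
      simp only [Matrix.cons_val_fin_one, pow_one]
      exact hJ)
  rw [Fin.prod_univ_one, Fin.prod_univ_one, hφn, ker_norm_mk] at hrel
  simp only [Matrix.cons_val_fin_one, pow_one] at hrel
  have hrel' : Associated ((A ^ 2 - f) * w) (c ^ 2 * w1) := by
    have e : c ^ 2 - f * 0 ^ 2 = c ^ 2 := by ring
    rwa [e] at hrel
  obtain ⟨u, hu⟩ := hrel'
  obtain ⟨κ, hκ, hκu⟩ := Polynomial.isUnit_iff.1 u.isUnit
  have hκ0 : κ ≠ 0 := hκ.ne_zero
  rw [← hκu] at hu
  have hev1 := congrArg (aeval θ) hu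
  rw [map_mul, map_mul, map_sub, map_pow, hθ, sub_zero, aeval_C, map_mul, map_pow] at hev1
  have hκK : algebraMap ℚ K κ ≠ 0 := by
    rw [Ne, map_eq_zero]
    exact hκ0
  have hne : aeval θ c ^ 2 * aeval θ w1 ≠ 0 := by
    rw [← hev1]
    exact mul_ne_zero (mul_ne_zero (pow_ne_zero 2 hnA) h0) hκK
  have hc0 : aeval θ c ≠ 0 := by
    intro h
    rw [h] at hne
    simp at hne
  have hw10 : aeval θ w1 ≠ 0 := right_ne_zero_of_mul hne
  have hdeg : f.natDegree - 1 + w.natDegree = 2 * c.natDegree + w1.natDegree := by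
    have h2 := congrArg natDegree hu
    have h3 : A ^ 2 - f ≠ 0 := by
      intro h
      rw [h, natDegree_zero] at hAn
      obtain ⟨k, hk⟩ := hev
      have := hi.natDegree_pos
      omega
    rw [natDegree_mul (mul_ne_zero h3 hw.ne_zero) (by simpa using hκ0),
      natDegree_mul h3 hw.ne_zero, natDegree_C, hAn,
      natDegree_mul (pow_ne_zero 2 hc.ne_zero) hw1.ne_zero, natDegree_pow] at h2
    exact h2
  have hw1o : Odd w1.natDegree := by
    obtain ⟨k, hk⟩ := hev
    obtain ⟨l, hl⟩ := hwe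
    have := hi.natDegree_pos
    rw [← Nat.not_even_iff_odd]
    rintro ⟨m, hm'⟩
    omega
  rw [emu_eq f hφ0 hc.ne_zero hJ]
  refine hodd w1 v1 hw1 hw1o hdv hw10 (q / κ) (div_ne_zero hq hκ0)
    (z * aeval θ A / aeval θ c) ?_
  rw [div_pow, mul_pow, hz, div_eq_iff (pow_ne_zero 2 hc0), map_div₀]
  field_simp
  linear_combination (algebraMap ℚ K q) * hev1

/-- if `μ μ'` is a rational number times a square then the product of the classes is a square -/
theorem mu_square_even (hm : f.Monic) (hev : Even f.natDegree) (hθ : aeval θ f = 0)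
    (hK : Module.finrank ℚ K = f.natDegree) (w v w' v' : ℚ[X])
    (hwv : w ∣ f - v ^ 2) (h0 : aeval θ w ≠ 0)
    (hwv' : w' ∣ f - v' ^ 2) (h0' : aeval θ w' ≠ 0)
    (hrep : ∀ c : ClassGroup (Crd f), ∃ w v : ℚ[X], w.Monic ∧ aeval θ w ≠ 0 ∧
      w ∣ f - v ^ 2 ∧ cle f w v = c)
    (q : ℚ) (hq : q ≠ 0) (β : K) (hβ : aeval θ w * aeval θ w' = algebraMap ℚ K q * β ^ 2) :
    IsSquare (cle f w v * cle f w' v') := by
  obtain ⟨w'', v'', hw'', h0'', hwv'', hcl⟩ := hrep (cle f w v * cle f w' v')⁻¹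
  obtain ⟨φ, hφ, -, κ, hκ, hnorm⟩ := exists_function_g f (ι := Fin 3) ![w, w', w'']
    ![v, v', v''] ![1, 1, 1] (by
      intro i
      fin_cases i
      · exact hwv
      · exact hwv'
      · exact hwv'') (by
      rw [Fin.prod_univ_three]
      simp only [Matrix.cons_val_zero, Matrix.cons_val_one, Matrix.cons_val_two,
        Matrix.tail_cons, Matrix.head_cons, pow_one]
      rw [hcl]
      exact mul_inv_cancel _)
  rw [Fin.prod_univ_three] at hnorm
  simp only [Matrix.cons_val_zero, Matrix.cons_val_one, Matrix.cons_val_two,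
    Matrix.tail_cons, Matrix.head_cons, pow_one] at hnorm
  have h2 : aeval θ φ.re ^ 2 = algebraMap ℚ K κ * (aeval θ w * aeval θ w' * aeval θ w'') := by
    have h3 := congrArg (aeval θ) hnorm
    have h4 : φ.norm = φ.re ^ 2 - f * φ.im ^ 2 := ker_norm_mk f φ.re φ.im
    rw [h4] at h3
    simp only [map_sub, map_mul, map_pow, hθ, zero_mul, sub_zero, aeval_C] at h3
    exact h3
  have hβ0 : β ≠ 0 := by
    rintro rfl
    apply mul_ne_zero h0 h0'
    rw [hβ]
    simp
  have h5 : (aeval θ φ.re / β) ^ 2 = algebraMap ℚ K (κ * q) * aeval θ w'' := by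
    rw [div_pow, h2, div_eq_iff (pow_ne_zero 2 hβ0), map_mul, hβ]
    ring
  have h9 := eker_K f θ hm hev hθ hK w'' v'' hw'' hwv'' h0'' (κ * q) (mul_ne_zero hκ hq) _ h5
  rw [hcl] at h9
  exact (isSquare_inv).1 h9

end

end Pool.TT
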