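import Pool.Agent.Lib.MP_695920_nt.TT.Even.EPole

set_option autoImplicit false

/-!
TEAM TWOTORSION, EVEN DEGREES: functions in the ideal `(w, y - v)` with prescribed pole orders at
the two places at infinity (linear algebra), and the reduction of a class with a balanced
generator.
-/

open Polynomial

namespace Pool.TT

section RR

variable {f : ℚ[X]} {Y : LS} (hY : Y * Y = iot f)

/-- The linear conditions. -/
noncomputable def condMap (w1 v1 : ℚ[X]) (D K a0 b : ℕ) (Y : LS) :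
    (degreeLT ℚ (a0 + 1) × degreeLT ℚ b) →ₗ[ℚ] ((Fin D → ℚ) × (Fin K → ℚ)) where
  toFun p := (fun i => (((p.1 : ℚ[X]) + (p.2 : ℚ[X]) * v1) %ₘ w1).coeff i,
    fun j => (iot (p.1 : ℚ[X]) + iot (p.2 : ℚ[X]) * (-Y)).coeff (-(a0 : ℤ) + j))
  map_add' p q := by
    ext i
    · simp only [Prod.fst_add, Prod.snd_add, Submodule.coe_add, Pi.add_apply]
      rw [← coeff_add, ← add_modByMonic]
      congr 2
      ring
    · simp only [Prod.fst_add, Prod.snd_add, Submodule.coe_add, Pi.add_apply, map_add]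
      rw [← HahnSeries.coeff_add]
      congr 1
      ring
  map_smul' c p := by
    have hsm : ∀ q : ℚ[X], iot (c • q) = HahnSeries.single (0 : ℤ) c * iot q := by
      intro q
      rw [smul_eq_C_mul, map_mul, iot_C]
    ext i
    · simp only [Prod.smul_fst, Prod.smul_snd, Submodule.coe_smul, Pi.smul_apply, RingHom.id_apply]
      rw [smul_mul_assoc, ← smul_add, smul_modByMonic, coeff_smul]
    · simp only [Prod.smul_fst, Prod.smul_snd, Submodule.coe_smul, Pi.smul_apply, RingHom.id_apply]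
      rw [hsm, hsm, mul_assoc, ← mul_add, HahnSeries.coeff_single_zero_mul, smul_eq_mul]

/-- A function of the ideal `(w1, y - v1)` with small pole orders. -/
theorem exists_phi0 (hf : f ≠ 0) {h : ℕ} (hh : 0 < h) (hn : f.natDegree = 2 * h) (w1 v1 : ℚ[X])
    (hw1 : w1.Monic) (a0 K : ℕ) (hK : K + (h - 1) + w1.natDegree = 2 * a0) :
    ∃ φ : Crd f, φ ≠ 0 ∧ w1 ∣ φ.re + φ.im * v1 ∧
      (∀ k < -(a0 : ℤ), (PY Y hY φ).coeff k = 0) ∧
      (∀ k < -(a0 : ℤ) + K, (PY (-Y) (hYneg hY) φ).coeff k = 0) := by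
  classical
  set D := w1.natDegree with hD
  set b := a0 + 1 - h with hb
  have hfr : Module.finrank ℚ ((Fin D → ℚ) × (Fin K → ℚ)) <
      Module.finrank ℚ (degreeLT ℚ (a0 + 1) × degreeLT ℚ b) := by
    rw [Module.finrank_prod, Module.finrank_prod, Module.finrank_fin_fun, Module.finrank_fin_fun]
    have h1 : ∀ m : ℕ, Module.finrank ℚ (degreeLT ℚ m) = m := by
      intro m
      rw [LinearEquiv.finrank_eq (degreeLTEquiv ℚ m), Module.finrank_fin_fun]
    rw [h1, h1]
    omega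
  have hker : LinearMap.ker (condMap w1 v1 D K a0 b Y) ≠ ⊥ := by
    have : FiniteDimensional ℚ (degreeLT ℚ (a0 + 1)) :=
      Module.Finite.equiv (degreeLTEquiv ℚ (a0 + 1)).symm
    have : FiniteDimensional ℚ (degreeLT ℚ b) := Module.Finite.equiv (degreeLTEquiv ℚ b).symm
    exact LinearMap.ker_ne_bot_of_finrank_lt hfr
  obtain ⟨p, hp, hp0⟩ := Submodule.exists_mem_ne_zero_of_ne_bot hker
  rw [LinearMap.mem_ker] at hp
  have hp1 := congrArg Prod.fst hp
  have hp2 := congrArg Prod.snd hp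
  have hA : (p.1 : ℚ[X]).degree < (a0 + 1 : ℕ) := mem_degreeLT.1 p.1.2
  have hB : (p.2 : ℚ[X]).degree < (a0 + 1 - h : ℕ) := mem_degreeLT.1 p.2.2
  refine ⟨⟨p.1, p.2⟩, ?_, ?_, ?_, ?_⟩
  · intro h0
    apply hp0
    have h1 : (p.1 : ℚ[X]) = 0 := congrArg QuadraticAlgebra.re h0
    have h2 : (p.2 : ℚ[X]) = 0 := congrArg QuadraticAlgebra.im h0
    exact Prod.ext (Subtype.ext h1) (Subtype.ext h2)
  · rw [← modByMonic_eq_zero_iff_dvd hw1]
    ext i
    rw [coeff_zero]
    rcases lt_or_ge i D with hi | hi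
    · have := congrFun hp1 ⟨i, hi⟩
      exact this
    · refine coeff_eq_zero_of_degree_lt ?_
      refine lt_of_lt_of_le (degree_modByMonic_lt _ hw1) ?_
      rw [degree_eq_natDegree hw1.ne_zero]
      exact_mod_cast hi
  · intro k hk
    exact coeff_PY_eq_zero hY hf hn a0 _ hA hB k hk
  · intro k hk
    rcases lt_or_ge k (-(a0 : ℤ)) with hk1 | hk1
    · exact coeff_PY_eq_zero (hYneg hY) hf hn a0 _ hA hB k hk1
    · obtain ⟨j, hj⟩ : ∃ j : ℕ, k = -(a0 : ℤ) + j := ⟨(k + a0).toNat, by omega⟩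
      have hjK : j < K := by omega
      have := congrFun hp2 ⟨j, hjK⟩
      rw [hj, PY_apply]
      exact this

/-- The same with the roles of the two places chosen by the sign of the difference: for all
integers `a0`, `b0` with `a0 + b0 = deg w1 + (h - 1)`. -/
theorem exists_phi0' (hg : GoodF f) {h : ℕ} (hh : 0 < h) (hn : f.natDegree = 2 * h)
    (w1 v1 : ℚ[X]) (hw1 : w1.Monic) (a0 b0 : ℤ) (hab : a0 + b0 = w1.natDegree + (h - 1 : ℕ)) :
    ∃ φ : Crd f, φ ≠ 0 ∧ w1 ∣ φ.re + φ.im * v1 ∧ po Y hY φ ≤ a0 ∧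
      po (-Y) (hYneg hY) φ ≤ b0 := by
  have hf : f ≠ 0 := hg.sqf.ne_zero
  rcases le_total b0 a0 with hle | hle
  · have ha0 : 0 ≤ a0 := by omega
    obtain ⟨a, rfl⟩ := Int.eq_ofNat_of_zero_le ha0
    obtain ⟨K, hK⟩ : ∃ K : ℕ, (a : ℤ) - b0 = K := Int.eq_ofNat_of_zero_le (by omega)
    obtain ⟨φ, h1, h2, h3, h4⟩ := exists_phi0 hY hf hh hn w1 v1 hw1 a K (by omega)
    refine ⟨φ, h1, h2, ?_, ?_⟩
    · have := le_order (PY_ne_zero hY hg h1) h3
      rw [po]
      linarith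
    · have := le_order (PY_ne_zero (hYneg hY) hg h1) h4
      rw [po]
      linarith
  · have hb0 : 0 ≤ b0 := by omega
    obtain ⟨a, rfl⟩ := Int.eq_ofNat_of_zero_le hb0
    obtain ⟨K, hK⟩ : ∃ K : ℕ, (a : ℤ) - a0 = K := Int.eq_ofNat_of_zero_le (by omega)
    obtain ⟨φ, h1, h2, h3, h4⟩ := exists_phi0 (hYneg hY) hf hh hn w1 v1 hw1 a K (by omega)
    refine ⟨φ, h1, h2, ?_, ?_⟩
    · have h5 : PY (- -Y) (hYneg (hYneg hY)) φ = PY Y hY φ := by
        rw [PY_apply, PY_apply, neg_neg]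
      rw [h5] at h4
      have := le_order (PY_ne_zero hY hg h1) h4
      rw [po]
      linarith
    · have := le_order (PY_ne_zero (hYneg hY) hg h1) h3
      rw [po]
      linarith

end RR

end Pool.TT
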