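import Pool.Agent.Lib.MP_695920_nt.TT.Even.Ring

set_option autoImplicit false

/-!
TEAM TWOTORSION, even degree: functions `A + B y` with `deg A ≠ deg B + n/2`
(balanced, with equal leading coefficients up to sign).
-/

open Polynomial Pool.TT

namespace Pool.TTE

/-- no tie at infinity -/
def Good {F : Type*} [Field F] {f : F[X]} (z : Crd f) : Prop :=
  (z.re ^ 2).degree ≠ (f * z.im ^ 2).degree

theorem wb_lt {x y u v : WithBot ℕ} (h1 : x < y) (h2 : u < v) : x + u < y + v := by
  induction y with
  | bot => exact absurd h1 (by simp)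
  | coe y =>
    induction v with
    | bot => exact absurd h2 (by simp)
    | coe v =>
      induction x with
      | bot =>
        rw [WithBot.bot_add]
        exact WithBot.bot_lt_coe _
      | coe x =>
        induction u with
        | bot =>
          rw [WithBot.add_bot]
          exact WithBot.bot_lt_coe _
        | coe u =>
          have h3 : x < y := by exact_mod_cast h1
          have h4 : u < v := by exact_mod_cast h2
          exact_mod_cast add_lt_add h3 h4

theorem wb_two {x y : WithBot ℕ} {h : ℕ} :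
    2 • x = ((2 * h : ℕ) : WithBot ℕ) + 2 • y ↔ x = (h : WithBot ℕ) + y := by
  simp only [two_nsmul, Nat.cast_withBot]
  induction x with
  | bot =>
    induction y with
    | bot => simp
    | coe y =>
      rw [← WithBot.coe_add, ← WithBot.coe_add, ← WithBot.coe_add, WithBot.bot_add]
      exact ⟨fun h1 => absurd h1 WithBot.bot_ne_coe, fun h1 => absurd h1 WithBot.bot_ne_coe⟩
  | coe x =>
    induction y with
    | bot => simp
    | coe y =>
      rw [← WithBot.coe_add, ← WithBot.coe_add, ← WithBot.coe_add, ← WithBot.coe_add,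
        WithBot.coe_inj, WithBot.coe_inj]
      omega

section

variable {F : Type*} [Field F] {f : F[X]}

theorem good_iff (hm : f.Monic) {h : ℕ} (hn : f.natDegree = 2 * h) (z : Crd f) :
    Good z ↔ z.re.degree ≠ (h : WithBot ℕ) + z.im.degree := by
  unfold Good
  rw [degree_mul, degree_pow, degree_pow, degree_eq_natDegree hm.ne_zero, hn, Ne, Ne]
  exact not_congr wb_two

/-- the first coordinate is the larger one -/
theorem aa (hm : f.Monic) {h : ℕ} (hn : f.natDegree = 2 * h) {z w : Crd f}
    (hz : (h : WithBot ℕ) + z.im.degree < z.re.degree)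
    (hw : (h : WithBot ℕ) + w.im.degree < w.re.degree) :
    (h : WithBot ℕ) + (z * w).im.degree < (z * w).re.degree := by
  have hf : f.degree = (h : WithBot ℕ) + (h : WithBot ℕ) := by
    rw [degree_eq_natDegree hm.ne_zero, hn]
    norm_cast
    ring_nf
  have h1 : (f * z.im * w.im).degree < (z.re * w.re).degree := by
    rw [degree_mul, degree_mul, degree_mul, hf]
    calc (h : WithBot ℕ) + h + z.im.degree + w.im.degree
        = (h + z.im.degree) + (h + w.im.degree) := by ac_rfl
      _ < _ := wb_lt hz hw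
  have h2 : (z * w).re.degree = z.re.degree + w.re.degree := by
    rw [QuadraticAlgebra.re_mul, ← degree_mul]
    exact degree_add_eq_left_of_degree_lt h1
  have hzr : z.re.degree ≠ ⊥ := (lt_of_le_of_lt bot_le hz).ne'
  have hwr : w.re.degree ≠ ⊥ := (lt_of_le_of_lt bot_le hw).ne'
  rw [h2, QuadraticAlgebra.im_mul, zero_mul, zero_mul, add_zero]
  have h3 : (h : WithBot ℕ) + (z.re * w.im + z.im * w.re).degree ≤
      max (h + (z.re * w.im).degree) (h + (z.im * w.re).degree) := by
    rw [max_add_add_left]
    exact add_le_add_right (degree_add_le _ _) _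
  refine lt_of_le_of_lt h3 (max_lt ?_ ?_)
  · rw [degree_mul]
    calc (h : WithBot ℕ) + (z.re.degree + w.im.degree) = z.re.degree + (h + w.im.degree) := by
          ac_rfl
      _ < z.re.degree + w.re.degree := WithBot.add_lt_add_left hzr hw
  · rw [degree_mul]
    calc (h : WithBot ℕ) + (z.im.degree + w.re.degree) = (h + z.im.degree) + w.re.degree := by
          ac_rfl
      _ < z.re.degree + w.re.degree := WithBot.add_lt_add_right hwr hz

theorem fdeg (hm : f.Monic) {h : ℕ} (hn : f.natDegree = 2 * h) :
    f.degree = (h : WithBot ℕ) + (h : WithBot ℕ) := by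
  rw [degree_eq_natDegree hm.ne_zero, hn]
  norm_cast
  ring_nf

/-- one of each type -/
theorem ab (hm : f.Monic) {h : ℕ} (hn : f.natDegree = 2 * h) {z w : Crd f}
    (hz : (h : WithBot ℕ) + z.im.degree < z.re.degree)
    (hw : w.re.degree < (h : WithBot ℕ) + w.im.degree) :
    (z * w).re.degree < (h : WithBot ℕ) + (z * w).im.degree := by
  have hf := fdeg hm hn
  have hzr : z.re.degree ≠ ⊥ := (lt_of_le_of_lt bot_le hz).ne'
  have hwi : (h : WithBot ℕ) + w.im.degree ≠ ⊥ := (lt_of_le_of_lt bot_le hw).ne'
  have h0 : (h : WithBot ℕ) + (z.im * w.re).degree < h + (z.re * w.im).degree := by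
    rw [degree_mul, degree_mul]
    calc (h : WithBot ℕ) + (z.im.degree + w.re.degree) = (h + z.im.degree) + w.re.degree := by
          ac_rfl
      _ < z.re.degree + (h + w.im.degree) := wb_lt hz hw
      _ = _ := by ac_rfl
  have h1 : (z.im * w.re).degree < (z.re * w.im).degree := lt_of_add_lt_add_left h0
  have h2 : (z * w).im.degree = z.re.degree + w.im.degree := by
    rw [QuadraticAlgebra.im_mul, zero_mul, zero_mul, add_zero, ← degree_mul]
    exact degree_add_eq_left_of_degree_lt h1
  rw [h2, QuadraticAlgebra.re_mul]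
  refine lt_of_le_of_lt (degree_add_le _ _) (max_lt ?_ ?_)
  · rw [degree_mul]
    calc z.re.degree + w.re.degree < z.re.degree + (h + w.im.degree) :=
          WithBot.add_lt_add_left hzr hw
      _ = _ := by ac_rfl
  · rw [degree_mul, degree_mul, hf]
    calc (h : WithBot ℕ) + h + z.im.degree + w.im.degree
        = (h + z.im.degree) + (h + w.im.degree) := by ac_rfl
      _ < z.re.degree + (h + w.im.degree) := WithBot.add_lt_add_right hwi hz
      _ = _ := by ac_rfl

/-- the second coordinate is the larger one -/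
theorem bb (hm : f.Monic) {h : ℕ} (hn : f.natDegree = 2 * h) {z w : Crd f}
    (hz : z.re.degree < (h : WithBot ℕ) + z.im.degree)
    (hw : w.re.degree < (h : WithBot ℕ) + w.im.degree) :
    (h : WithBot ℕ) + (z * w).im.degree < (z * w).re.degree := by
  have hf := fdeg hm hn
  have hzi : (h : WithBot ℕ) + z.im.degree ≠ ⊥ := (lt_of_le_of_lt bot_le hz).ne'
  have hwi : (h : WithBot ℕ) + w.im.degree ≠ ⊥ := (lt_of_le_of_lt bot_le hw).ne'
  have h1 : (z.re * w.re).degree < (f * z.im * w.im).degree := by
    rw [degree_mul, degree_mul, degree_mul, hf]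
    calc z.re.degree + w.re.degree < (h + z.im.degree) + (h + w.im.degree) := wb_lt hz hw
      _ = _ := by ac_rfl
  have h2 : (z * w).re.degree = (h + z.im.degree) + (h + w.im.degree) := by
    rw [QuadraticAlgebra.re_mul, degree_add_eq_right_of_degree_lt h1, degree_mul, degree_mul, hf]
    ac_rfl
  rw [h2, QuadraticAlgebra.im_mul, zero_mul, zero_mul, add_zero]
  have h3 : (h : WithBot ℕ) + (z.re * w.im + z.im * w.re).degree ≤
      max (h + (z.re * w.im).degree) (h + (z.im * w.re).degree) := by
    rw [max_add_add_left]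
    exact add_le_add_right (degree_add_le _ _) _
  refine lt_of_le_of_lt h3 (max_lt ?_ ?_)
  · rw [degree_mul]
    calc (h : WithBot ℕ) + (z.re.degree + w.im.degree) = z.re.degree + (h + w.im.degree) := by
          ac_rfl
      _ < (h + z.im.degree) + (h + w.im.degree) := WithBot.add_lt_add_right hwi hz
  · rw [degree_mul]
    calc (h : WithBot ℕ) + (z.im.degree + w.re.degree) = (h + z.im.degree) + w.re.degree := by
          ac_rfl
      _ < (h + z.im.degree) + (h + w.im.degree) := WithBot.add_lt_add_left hzi hw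

theorem Good.mul (hm : f.Monic) {h : ℕ} (hn : f.natDegree = 2 * h) {z w : Crd f} (hz : Good z)
    (hw : Good w) : Good (z * w) := by
  rw [good_iff hm hn] at hz hw ⊢
  rcases lt_or_gt_of_ne hz with h1 | h1 <;> rcases lt_or_gt_of_ne hw with h2 | h2
  · exact (bb hm hn h1 h2).ne'
  · rw [mul_comm]
    exact (ab hm hn h2 h1).ne
  · exact (ab hm hn h1 h2).ne
  · exact (aa hm hn h1 h2).ne'

theorem Good.star {z : Crd f} (hz : Good z) : Good (star z) := by
  unfold Good at hz ⊢
  have h1 : (Star.star z).re = z.re := by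
    rw [QuadraticAlgebra.re_star]
    ring
  have h2 : (Star.star z).im = -z.im := QuadraticAlgebra.im_star z
  rw [h1, h2, neg_sq]
  exact hz

/-- polynomials are good -/
theorem good_poly {p : F[X]} (hp : p ≠ 0) : Good (⟨p, 0⟩ : Crd f) := by
  unfold Good
  simp only [ne_eq, OfNat.ofNat_ne_zero, not_false_eq_true, zero_pow, mul_zero, degree_zero]
  rw [degree_eq_bot]
  exact pow_ne_zero 2 hp

theorem Good.pow (hm : f.Monic) {h : ℕ} (hn : f.natDegree = 2 * h) {z : Crd f} (hz : Good z)
    (k : ℕ) : Good (z ^ k) := by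
  induction k with
  | zero =>
    rw [pow_zero]
    exact good_poly one_ne_zero
  | succ k ih =>
    rw [pow_succ]
    exact ih.mul hm hn hz

theorem good_of_poly_mul (hm : f.Monic) {h : ℕ} (hn : f.natDegree = 2 * h) {p : F[X]} {z : Crd f} (hz : Good ((⟨p, 0⟩ : Crd f) * z)) : Good z := by
  rw [good_iff hm hn] at hz ⊢
  intro h1
  apply hz
  have h2 : ((⟨p, 0⟩ : Crd f) * z).re = p * z.re := by
    rw [QuadraticAlgebra.re_mul]
    simp
  have h3 : ((⟨p, 0⟩ : Crd f) * z).im = p * z.im := by
    rw [QuadraticAlgebra.im_mul]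
    simp
  rw [h2, h3, degree_mul, degree_mul, h1]
  ac_rfl

/-- cancellation -/
theorem good_of_mul (hm : f.Monic) {h : ℕ} (hn : f.natDegree = 2 * h) {z w : Crd f}
    (hz : Good z) (hzw : Good (z * w)) : Good w := by
  have h1 : Good (Star.star z * (z * w)) := hz.star.mul hm hn hzw
  have h2 : Star.star z * (z * w) = (⟨z.norm, 0⟩ : Crd f) * w := by
    rw [← mul_assoc]
    congr 1
    have h3 := QuadraticAlgebra.algebraMap_norm_eq_mul_star (z := z)
    rw [mul_comm, ← h3]
    rfl
  rw [h2] at h1
  exact good_of_poly_mul hm hn h1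

/-- the degree and the leading coefficient of the norm of a good function -/
theorem Good.norm_lc (hm : f.Monic) {z : Crd f} (hz : Good z) :
    ((z.im = 0 ∨ f.natDegree + 2 * z.im.natDegree < 2 * z.re.natDegree) ∧
      z.norm.natDegree = 2 * z.re.natDegree ∧ z.norm.leadingCoeff = z.re.leadingCoeff ^ 2 ∧
      z.re ≠ 0) ∨
    ((z.re = 0 ∨ 2 * z.re.natDegree < f.natDegree + 2 * z.im.natDegree) ∧
      z.norm.natDegree = f.natDegree + 2 * z.im.natDegree ∧
      z.norm.leadingCoeff = -z.im.leadingCoeff ^ 2 ∧ z.im ≠ 0) := by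
  have h1 := norm_crd f z
  by_cases hB0 : z.im = 0
  · left
    have hA0 : z.re ≠ 0 := by
      intro h
      apply hz
      rw [h, hB0]
      simp
    have h2 : z.norm = z.re ^ 2 := by rw [h1, hB0]; ring
    exact ⟨Or.inl hB0, by rw [h2, natDegree_pow], by rw [h2, leadingCoeff_pow], hA0⟩
  by_cases hA0 : z.re = 0
  · right
    have h2 : z.norm = -(f * z.im ^ 2) := by rw [h1, hA0]; ring
    refine ⟨Or.inl hA0, ?_, ?_, hB0⟩
    · rw [h2, natDegree_neg, natDegree_mul hm.ne_zero (pow_ne_zero 2 hB0), natDegree_pow]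
    · rw [h2, leadingCoeff_neg, leadingCoeff_mul, hm.leadingCoeff, leadingCoeff_pow, one_mul]
  have h3 : (z.re ^ 2).natDegree = 2 * z.re.natDegree := by rw [natDegree_pow]
  have h4 : (f * z.im ^ 2).natDegree = f.natDegree + 2 * z.im.natDegree := by
    rw [natDegree_mul hm.ne_zero (pow_ne_zero 2 hB0), natDegree_pow]
  have hz' : (z.re ^ 2).natDegree ≠ (f * z.im ^ 2).natDegree := by
    intro h
    apply hz
    rw [degree_eq_natDegree (pow_ne_zero 2 hA0),
      degree_eq_natDegree (mul_ne_zero hm.ne_zero (pow_ne_zero 2 hB0)), h]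
  rcases lt_or_gt_of_ne hz' with h | h
  · right
    have h5 : (z.re ^ 2).degree < (f * z.im ^ 2).degree := degree_lt_degree h
    refine ⟨Or.inr (by rw [← h3, ← h4]; exact h), ?_, ?_, hB0⟩
    · rw [h1, natDegree_sub_eq_right_of_natDegree_lt h, h4]
    · rw [h1, sub_eq_add_neg, leadingCoeff_add_of_degree_lt (by rwa [degree_neg]),
        leadingCoeff_neg, leadingCoeff_mul, hm.leadingCoeff, leadingCoeff_pow, one_mul]
  · left
    have h5 : (f * z.im ^ 2).degree < (z.re ^ 2).degree := degree_lt_degree h
    refine ⟨Or.inr (by rw [← h3, ← h4]; exact h), ?_, ?_, hA0⟩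
    · rw [h1, natDegree_sub_eq_left_of_natDegree_lt h, h3]
    · rw [h1, leadingCoeff_sub_of_degree_lt h5, leadingCoeff_pow]

end

end Pool.TTE
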