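import Pool.Agent.Lib.MP_695920_nt.TT.Even.EReduced

set_option autoImplicit false

/-!
TEAM TWOTORSION, even degree: one more lemma on the norm of a generator
(the other lemmas are in `ERing` and `EReduced`).
-/

open Polynomial Pool.TT

namespace Pool.TTE

/-- A generator of a product of ideals has the right norm up to a constant. -/
theorem norm_of_span (f : ℚ[X]) [GoodF f] {ι : Type*} [Fintype ι] (w v : ι → ℚ[X]) (a : ι → ℕ)
    (h : ∀ i, w i ∣ f - v i ^ 2) (φ : Crd f)
    (hφ : Ideal.span {φ} = ∏ i, pt f (w i) (v i) ^ a i) :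
    ∃ κ : ℚ, κ ≠ 0 ∧ φ.norm = C κ * ∏ i, w i ^ a i := by
  have h4 : Associated (φ.norm * ∏ i ∈ (∅ : Finset ι), w i ^ a i)
      ((1 : Crd f).norm * ∏ i ∈ Finset.univ, w i ^ a i) := by
    refine norm_relation_g f ∅ Finset.univ w v w v a a (by simp) (fun i _ => h i) φ 1 ?_
    rw [Finset.prod_empty, mul_one, hφ, Ideal.span_singleton_one, Ideal.one_eq_top.symm, one_mul]
  rw [Finset.prod_empty, mul_one, QuadraticAlgebra.norm_one, one_mul] at h4
  obtain ⟨u, hu⟩ := h4.symm
  obtain ⟨c, hc⟩ := Polynomial.isUnit_iff.1 u.isUnit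
  refine ⟨c, hc.1.ne_zero, ?_⟩
  rw [← hu, hc.2, mul_comm]

end Pool.TTE
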