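import Mathlib

set_option autoImplicit false

/-!
TEAM TWOTORSION, even degree, (3.3): the size of a balanced function at a point (circle lemma).
helper90 (statement by helper93).
-/

open Polynomial

namespace Pool.TTE

/-! ### polynomials which are small at spaced points (copied from NEComplex, helper25) -/

private theorem sz_prod_dist (k i : ℕ) (hi : i ≤ k) :
    ∏ j ∈ (Finset.range (k + 1)).erase i, |(i : ℝ) - j| = i.factorial * (k - i).factorial := by
  have h1 : (Finset.range (k + 1)).erase i = Finset.range i ∪ Finset.Ico (i + 1) (k + 1) := by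
    ext j
    simp only [Finset.mem_erase, Finset.mem_range, Finset.mem_union, Finset.mem_Ico]
    omega
  have h2 : Disjoint (Finset.range i) (Finset.Ico (i + 1) (k + 1)) := by
    rw [Finset.disjoint_left]
    intro j hj hj'
    simp only [Finset.mem_range, Finset.mem_Ico] at hj hj'
    omega
  rw [h1, Finset.prod_union h2]
  congr 1
  · rw [← Finset.prod_range_reflect, ← Finset.prod_range_add_one_eq_factorial]
    push_cast
    refine Finset.prod_congr rfl fun j hj => ?_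
    rw [Finset.mem_range] at hj
    have h3 : ((i - 1 - j : ℕ) : ℝ) = (i : ℝ) - 1 - j := by
      rw [Nat.cast_sub (by omega), Nat.cast_sub (by omega)]
      simp
    rw [h3]
    have h4 : (i : ℝ) - ((i : ℝ) - 1 - j) = j + 1 := by ring
    rw [h4, abs_of_nonneg (by positivity)]
  · rw [Finset.prod_Ico_eq_prod_range, ← Finset.prod_range_add_one_eq_factorial]
    have h3 : k + 1 - (i + 1) = k - i := by omega
    rw [h3]
    push_cast
    refine Finset.prod_congr rfl fun j _ => ?_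
    have h4 : (i : ℝ) - (i + 1 + j) = -(j + 1) := by ring
    rw [h4, abs_neg, abs_of_nonneg (by positivity)]

private theorem sz_sum_inv_factorial (k : ℕ) :
    ∑ i ∈ Finset.range (k + 1), (1 : ℝ) / (i.factorial * (k - i).factorial) =
      2 ^ k / k.factorial := by
  have h1 : ∀ i ∈ Finset.range (k + 1), (1 : ℝ) / (i.factorial * (k - i).factorial) =
      (k.choose i : ℝ) / k.factorial := by
    intro i hi
    rw [Finset.mem_range] at hi
    have h2 := Nat.choose_mul_factorial_mul_factorial (Nat.lt_succ_iff.1 hi)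
    have h3 : (k.choose i : ℝ) * i.factorial * (k - i).factorial = k.factorial := by
      exact_mod_cast h2
    have h4 : (i.factorial : ℝ) ≠ 0 := by exact_mod_cast i.factorial_ne_zero
    have h5 : ((k - i).factorial : ℝ) ≠ 0 := by exact_mod_cast (k - i).factorial_ne_zero
    have h6 : (k.factorial : ℝ) ≠ 0 := by exact_mod_cast k.factorial_ne_zero
    rw [div_eq_div_iff (mul_ne_zero h4 h5) h6, ← h3]
    ring
  rw [Finset.sum_congr rfl h1, ← Finset.sum_div]
  congr 1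
  have := Nat.sum_range_choose k
  exact_mod_cast this

private theorem sz_lagrange (P : ℂ[X]) (k : ℕ) (hP : P.natDegree ≤ k) (x : ℕ → ℂ) {h S L : ℝ}
    (hh : 0 < h) (hS0 : 0 ≤ S)
    (hx : ∀ i ≤ k, ∀ j ≤ k, h * |(i : ℝ) - j| ≤ ‖x i - x j‖)
    (hS : ∀ i ≤ k, ‖P.eval (x i)‖ ≤ S) (z : ℂ) (hz : ∀ i ≤ k, ‖z - x i‖ ≤ L) :
    ‖P.eval z‖ ≤ S * ((L / h) ^ k * (2 ^ k / k.factorial)) := by
  have hL0 : 0 ≤ L := (norm_nonneg _).trans (hz 0 (Nat.zero_le _))
  have hv : Set.InjOn x (Finset.range (k + 1) : Finset ℕ) := by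
    intro i hi j hj hij
    have hi' : i ≤ k := Nat.lt_succ_iff.1 (Finset.mem_range.1 (Finset.mem_coe.1 hi))
    have hj' : j ≤ k := Nat.lt_succ_iff.1 (Finset.mem_range.1 (Finset.mem_coe.1 hj))
    have h1 := hx i hi' j hj'
    rw [hij, sub_self, norm_zero] at h1
    have h2 : |(i : ℝ) - j| = 0 := by
      refine le_antisymm ?_ (abs_nonneg _)
      by_contra hcon
      push Not at hcon
      have := mul_pos hh hcon
      linarith
    have h3 : (i : ℝ) = j := by
      have := abs_eq_zero.1 h2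
      linarith
    exact_mod_cast h3
  have hdeg : P.degree < (Finset.range (k + 1)).card := by
    rw [Finset.card_range]
    exact lt_of_le_of_lt (degree_le_of_natDegree_le hP) (by exact_mod_cast Nat.lt_succ_self k)
  have hrep := Lagrange.eq_interpolate hv hdeg
  have hev : P.eval z = ∑ i ∈ Finset.range (k + 1), P.eval (x i) *
      ∏ j ∈ (Finset.range (k + 1)).erase i, ((x i - x j)⁻¹ * (z - x j)) := by
    conv_lhs => rw [hrep]
    rw [Lagrange.interpolate_apply, eval_finsetSum]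
    refine Finset.sum_congr rfl fun i _ => ?_
    rw [eval_mul, eval_C, Lagrange.basis, eval_prod]
    congr 1
    refine Finset.prod_congr rfl fun j _ => ?_
    rw [Lagrange.basisDivisor, eval_mul, eval_C, eval_sub, eval_X, eval_C]
  have hterm : ∀ i ∈ Finset.range (k + 1), ‖P.eval (x i) *
      ∏ j ∈ (Finset.range (k + 1)).erase i, ((x i - x j)⁻¹ * (z - x j))‖ ≤
      S * (L / h) ^ k * (1 / (i.factorial * (k - i).factorial)) := by
    intro i hi
    have hi' : i ≤ k := Nat.lt_succ_iff.1 (Finset.mem_range.1 hi)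
    have hcard : ((Finset.range (k + 1)).erase i).card = k := by
      rw [Finset.card_erase_of_mem hi, Finset.card_range, Nat.add_sub_cancel]
    rw [norm_mul, norm_prod, mul_assoc]
    refine mul_le_mul (hS i hi') ?_ (Finset.prod_nonneg fun _ _ => norm_nonneg _) hS0
    have h1 : ∀ j ∈ (Finset.range (k + 1)).erase i, ‖(x i - x j)⁻¹ * (z - x j)‖ ≤
        (L / h) * |(i : ℝ) - j|⁻¹ := by
      intro j hj
      have hj' : j ≤ k := Nat.lt_succ_iff.1 (Finset.mem_range.1 (Finset.mem_of_mem_erase hj))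
      have hne : (i : ℝ) - j ≠ 0 := by
        intro h0
        have h1 : (i : ℝ) = j := by linarith
        exact (Finset.ne_of_mem_erase hj) (by exact_mod_cast h1.symm)
      have hpos : 0 < |(i : ℝ) - j| := abs_pos.2 hne
      have h2 := hx i hi' j hj'
      rw [norm_mul, norm_inv, mul_comm]
      have h3 : ‖x i - x j‖⁻¹ ≤ (h * |(i : ℝ) - j|)⁻¹ :=
        inv_anti₀ (mul_pos hh hpos) h2
      calc ‖z - x j‖ * ‖x i - x j‖⁻¹ ≤ L * (h * |(i : ℝ) - j|)⁻¹ :=
            mul_le_mul (hz j hj') h3 (inv_nonneg.2 (norm_nonneg _)) hL0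
        _ = (L / h) * |(i : ℝ) - j|⁻¹ := by rw [mul_inv]; ring
    refine (Finset.prod_le_prod (fun _ _ => norm_nonneg _) h1).trans (le_of_eq ?_)
    rw [Finset.prod_mul_distrib, Finset.prod_const, hcard, Finset.prod_inv_distrib,
      sz_prod_dist k i hi', one_div]
  rw [hev]
  refine (norm_sum_le _ _).trans ((Finset.sum_le_sum hterm).trans (le_of_eq ?_))
  rw [← Finset.mul_sum, sz_sum_inv_factorial, mul_assoc]

/-! ### the maximum principle for two functions -/

private theorem sz_max {F : ℂ → ℂ} {R s c : ℝ} (hF : DifferentiableOn ℂ F (Metric.ball 0 R))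
    (hs : 0 < s) (hsR : s < R) (h : ∀ w : ℂ, ‖w‖ = s → ‖F w‖ < c) : ‖F 0‖ < c := by
  have hsub : Metric.closedBall (0 : ℂ) s ⊆ Metric.ball 0 R := Metric.closedBall_subset_ball hsR
  have hcont : ContinuousOn (fun w => ‖F w‖) (Metric.sphere (0 : ℂ) s) :=
    (hF.continuousOn.mono (Metric.sphere_subset_closedBall.trans hsub)).norm
  have hne : (Metric.sphere (0 : ℂ) s).Nonempty := by
    refine ⟨(s : ℂ), ?_⟩
    rw [mem_sphere_zero_iff_norm, Complex.norm_real, Real.norm_eq_abs, abs_of_pos hs]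
  obtain ⟨w0, hw0, hmax⟩ := (isCompact_sphere (0 : ℂ) s).exists_isMaxOn hne hcont
  have h0 : ‖F w0‖ < c := h w0 (by simpa using hw0)
  have hcl : DiffContOnCl ℂ F (Metric.ball 0 s) := hF.diffContOnCl_ball hsub
  have h1 := Complex.norm_le_of_forall_mem_frontier_norm_le Metric.isBounded_ball hcl
    (C := ‖F w0‖) (z := 0) (by
      intro z hz
      rw [frontier_ball _ hs.ne'] at hz
      exact hmax hz) (subset_closure (Metric.mem_ball_self hs))
  exact h1.trans_lt h0

private theorem sz_two {F G : ℂ → ℂ} {R s P κ c : ℝ}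
    (hF : DifferentiableOn ℂ F (Metric.ball 0 R)) (hG : DifferentiableOn ℂ G (Metric.ball 0 R))
    (hs : 0 < s) (hsR : s < R) (hκ : 0 < κ)
    (hP : ∀ w : ℂ, ‖w‖ = s → ‖F w * G w‖ ≤ P)
    (hsum : ∀ w : ℂ, ‖w‖ = s → 2 * κ < ‖F w + G w‖)
    (h1 : P ≤ κ ^ 2) (h2 : P ≤ κ * c) (hc : 0 < c) (hF0 : ‖F 0‖ = c) (hG0 : ‖G 0‖ = c) : False := by
  have hsub : Metric.sphere (0 : ℂ) s ⊆ Metric.ball 0 R :=
    Metric.sphere_subset_closedBall.trans (Metric.closedBall_subset_ball hsR)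
  have hne : ∀ w ∈ Metric.sphere (0 : ℂ) s, ‖F w‖ - ‖G w‖ ≠ 0 := by
    intro w hw h0
    have hw' : ‖w‖ = s := by simpa using hw
    have h3 : ‖F w‖ = ‖G w‖ := by linarith
    have h4 := hP w hw'
    have h5 := hsum w hw'
    rw [norm_mul, ← h3] at h4
    have h6 := norm_add_le (F w) (G w)
    rw [← h3] at h6
    nlinarith [norm_nonneg (F w)]
  have hcont : ContinuousOn (fun w => ‖F w‖ - ‖G w‖) (Metric.sphere (0 : ℂ) s) :=
    (hF.continuousOn.mono hsub).norm.sub (hG.continuousOn.mono hsub).norm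
  have hconn : IsPreconnected (Metric.sphere (0 : ℂ) s) := by
    refine isPreconnected_sphere ?_ 0 s
    rw [Complex.rank_real_complex]
    exact_mod_cast one_lt_two
  have hs0 : (s : ℂ) ∈ Metric.sphere (0 : ℂ) s := by
    rw [mem_sphere_zero_iff_norm, Complex.norm_real, Real.norm_eq_abs, abs_of_pos hs]
  -- the smaller one is small
  have key : ∀ F' G' : ℂ → ℂ, (∀ w : ℂ, ‖w‖ = s → ‖F' w * G' w‖ ≤ P) →
      (∀ w : ℂ, ‖w‖ = s → 2 * κ < ‖F' w + G' w‖) → (∀ w : ℂ, ‖w‖ = s → ‖G' w‖ < ‖F' w‖) →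
      DifferentiableOn ℂ G' (Metric.ball 0 R) → ‖G' 0‖ < c := by
    intro F' G' hP' hsum' hlt hG'
    refine sz_max hG' hs hsR fun w hw => ?_
    have h3 := hP' w hw
    have h4 := hsum' w hw
    have h5 := hlt w hw
    have h6 := norm_add_le (F' w) (G' w)
    rw [norm_mul] at h3
    have h7 : κ < ‖F' w‖ := by linarith
    by_contra hcon
    push Not at hcon
    have : κ * c < ‖F' w‖ * ‖G' w‖ := by
      calc κ * c < ‖F' w‖ * c := by nlinarith
        _ ≤ ‖F' w‖ * ‖G' w‖ := by nlinarith [norm_nonneg (F' w)]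
    linarith
  rcases lt_or_gt_of_ne (hne _ hs0) with h3 | h3
  · -- `F` is the smaller one
    have h4 : ∀ w : ℂ, ‖w‖ = s → ‖F w‖ < ‖G w‖ := by
      intro w hw
      by_contra hcon
      push Not at hcon
      have hw' : w ∈ Metric.sphere (0 : ℂ) s := by rw [mem_sphere_zero_iff_norm]; exact hw
      obtain ⟨v, hv, hv0⟩ := hconn.intermediate_value hs0 hw' hcont
        (show (0 : ℝ) ∈ _ from ⟨h3.le, sub_nonneg.2 hcon⟩)
      exact hne v hv hv0
    have h5 := key G F (fun w hw => by rw [mul_comm]; exact hP w hw)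
      (fun w hw => by rw [add_comm]; exact hsum w hw) h4 hF
    exact absurd h5 (by rw [hF0]; exact lt_irrefl _)
  · have h4 : ∀ w : ℂ, ‖w‖ = s → ‖G w‖ < ‖F w‖ := by
      intro w hw
      by_contra hcon
      push Not at hcon
      have hw' : w ∈ Metric.sphere (0 : ℂ) s := by rw [mem_sphere_zero_iff_norm]; exact hw
      obtain ⟨v, hv, hv0⟩ := hconn.intermediate_value hw' hs0 hcont
        (show (0 : ℝ) ∈ _ from ⟨sub_nonpos.2 hcon, h3.le⟩)
      exact hne v hv hv0
    have h5 := key F G hP hsum h4 hG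
    exact absurd h5 (by rw [hG0]; exact lt_irrefl _)

/-! ### the square root of `f` outside the disc which contains the roots -/

private theorem sz_sqrt (Z : Multiset ℂ) (ρ : ℝ) (hρ : 0 < ρ) (hZ : ∀ z ∈ Z, ‖z‖ ≤ ρ) :
    ∃ S : ℂ → ℂ, DifferentiableOn ℂ S (Metric.ball 0 (1 / ρ)) ∧
      ∀ w ∈ Metric.ball (0 : ℂ) (1 / ρ), S w ^ 2 = (Z.map fun z => 1 - z * w).prod := by
  induction Z using Multiset.induction_on with
  | empty => exact ⟨fun _ => 1, differentiableOn_const _, fun w _ => by simp⟩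
  | cons a Z ih =>
    obtain ⟨S, hS, hS2⟩ := ih fun z hz => hZ z (Multiset.mem_cons_of_mem hz)
    have hre : ∀ w ∈ Metric.ball (0 : ℂ) (1 / ρ), 0 < (1 - a * w).re := by
      intro w hw
      rw [mem_ball_zero_iff] at hw
      have h1 : ‖a * w‖ < 1 := by
        rw [norm_mul]
        have h2 := hZ a (Multiset.mem_cons_self a Z)
        calc ‖a‖ * ‖w‖ ≤ ρ * ‖w‖ := mul_le_mul_of_nonneg_right h2 (norm_nonneg _)
          _ < ρ * (1 / ρ) := mul_lt_mul_of_pos_left hw hρ
          _ = 1 := by field_simp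
      have h2 := (Complex.abs_re_le_norm (a * w)).trans_lt h1
      have h3 := (abs_lt.1 h2).2
      rw [Complex.sub_re, Complex.one_re]
      linarith
    have hslit : ∀ w ∈ Metric.ball (0 : ℂ) (1 / ρ), 1 - a * w ∈ Complex.slitPlane :=
      fun w hw => Or.inl (hre w hw)
    refine ⟨fun w => Complex.exp (Complex.log (1 - a * w) / 2) * S w, ?_, ?_⟩
    · refine DifferentiableOn.mul (DifferentiableOn.cexp ?_) hS
      refine DifferentiableOn.div_const (DifferentiableOn.clog ?_ hslit) 2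
      exact (differentiableOn_const _).sub ((differentiableOn_const _).mul differentiableOn_id)
    · intro w hw
      have hne : 1 - a * w ≠ 0 := Complex.slitPlane_ne_zero (hslit w hw)
      rw [Multiset.map_cons, Multiset.prod_cons, ← hS2 w hw, mul_pow, ← Complex.exp_nat_mul]
      congr 1
      rw [show ((2 : ℕ) : ℂ) * (Complex.log (1 - a * w) / 2) = Complex.log (1 - a * w) by
        push_cast; ring, Complex.exp_log hne]

/-! ### the circle lemma -/

private theorem sz_factor (F : ℂ[X]) (hF : F.Monic) (h : ℕ) (hFd : F.natDegree = 2 * h) (w : ℂ)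
    (hw : w ≠ 0) : (F.roots.map fun z => 1 - z * w).prod = w ^ (2 * h) * F.eval w⁻¹ := by
  have hs : F.Splits := IsAlgClosed.splits F
  have hc : Multiset.card F.roots = 2 * h := by
    rw [← hs.natDegree_eq_card_roots, hFd]
  rw [hs.eval_eq_prod_roots_of_monic hF, ← hc]
  generalize F.roots = Z
  induction Z using Multiset.induction_on with
  | empty => simp
  | cons a Z ih =>
    rw [Multiset.map_cons, Multiset.prod_cons, ih, Multiset.map_cons, Multiset.prod_cons,
      Multiset.card_cons, pow_succ]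
    have h1 : 1 - a * w = w * (w⁻¹ - a) := by
      rw [mul_sub, mul_inv_cancel₀ hw]
      ring
    rw [h1]
    ring

private theorem sz_circle (F A B A' B' : ℂ[X]) (hF : F.Monic) (h d : ℕ)
    (hFd : F.natDegree = 2 * h) {ρ r : ℝ} (hρ : 0 < ρ) (hroots : ∀ z : ℂ, F.IsRoot z → ‖z‖ ≤ ρ)
    (hA : ∀ w : ℂ, w ≠ 0 → A'.eval w = w ^ d * A.eval w⁻¹)
    (hB : ∀ w : ℂ, w ≠ 0 → B'.eval w * w ^ h = w ^ d * B.eval w⁻¹)
    (h0 : (‖A'.eval 0‖ = 2 ∧ B'.eval 0 = 0) ∨ (A'.eval 0 = 0 ∧ ‖B'.eval 0‖ = 2))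
    (hr : 2 * ρ ≤ r)
    (hN : ∀ x : ℂ, ‖x‖ = r → ‖A.eval x ^ 2 - F.eval x * B.eval x ^ 2‖ ≤ 4 * (4 * ρ) ^ (2 * d)) :
    ∃ x : ℂ, ‖x‖ = r ∧ ‖A.eval x‖ ≤ 2 * (8 * ρ) ^ d := by
  by_contra hcon
  push Not at hcon
  have hr0 : 0 < r := by linarith
  obtain ⟨S, hS, hS2⟩ := sz_sqrt F.roots ρ hρ fun z hz => hroots z (isRoot_of_mem_roots hz)
  have hsR : 1 / r < 1 / ρ := one_div_lt_one_div_of_lt hρ (by linarith)
  have hAd : DifferentiableOn ℂ (fun w => A'.eval w) (Metric.ball 0 (1 / ρ)) :=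
    A'.differentiable.differentiableOn
  have hBd : DifferentiableOn ℂ (fun w => B'.eval w) (Metric.ball 0 (1 / ρ)) :=
    B'.differentiable.differentiableOn
  have hS0 : ‖S 0‖ = 1 := by
    have h1 := hS2 0 (Metric.mem_ball_self (by positivity))
    simp only [mul_zero, sub_zero, Multiset.map_const', Multiset.prod_replicate, one_pow] at h1
    have h2 : ‖S 0‖ ^ 2 = 1 := by rw [← norm_pow, h1, norm_one]
    nlinarith [norm_nonneg (S 0), sq_nonneg (‖S 0‖ - 1)]
  have hmem : ∀ w : ℂ, ‖w‖ = 1 / r → w ∈ Metric.ball (0 : ℂ) (1 / ρ) := by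
    intro w hw
    rw [mem_ball_zero_iff, hw]
    exact hsR
  have hwne : ∀ w : ℂ, ‖w‖ = 1 / r → w ≠ 0 := by
    intro w hw h1
    rw [h1, norm_zero] at hw
    have : 0 < 1 / r := by positivity
    linarith
  have hinv : ∀ w : ℂ, ‖w‖ = 1 / r → ‖w⁻¹‖ = r := by
    intro w hw
    rw [norm_inv, hw, one_div, inv_inv]
  refine sz_two (F := fun w => A'.eval w + B'.eval w * S w)
    (G := fun w => A'.eval w - B'.eval w * S w) (R := 1 / ρ) (s := 1 / r)
    (P := 4 * (4 * ρ / r) ^ (2 * d)) (κ := 2 * (8 * ρ / r) ^ d) (c := 2)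
    (hAd.add (hBd.mul hS)) (hAd.sub (hBd.mul hS)) (by positivity) hsR (by positivity)
    ?_ ?_ ?_ ?_ (by norm_num) ?_ ?_
  · intro w hw
    have hne := hwne w hw
    have h1 : (A'.eval w + B'.eval w * S w) * (A'.eval w - B'.eval w * S w) =
        w ^ (2 * d) * (A.eval w⁻¹ ^ 2 - F.eval w⁻¹ * B.eval w⁻¹ ^ 2) := by
      have h2 := hS2 w (hmem w hw)
      rw [sz_factor F hF h hFd w hne] at h2
      have h3 := hA w hne
      have h4 := hB w hne
      have h8 : (A'.eval w + B'.eval w * S w) * (A'.eval w - B'.eval w * S w) =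
          A'.eval w ^ 2 - B'.eval w ^ 2 * S w ^ 2 := by ring
      have h9 : B'.eval w ^ 2 * (w ^ (2 * h) * F.eval w⁻¹) =
          (B'.eval w * w ^ h) ^ 2 * F.eval w⁻¹ := by ring
      rw [h8, h2, h9, h3, h4]
      ring
    rw [h1, norm_mul, norm_pow, hw]
    have h2 := hN w⁻¹ (hinv w hw)
    calc (1 / r) ^ (2 * d) * ‖A.eval w⁻¹ ^ 2 - F.eval w⁻¹ * B.eval w⁻¹ ^ 2‖ ≤
        (1 / r) ^ (2 * d) * (4 * (4 * ρ) ^ (2 * d)) :=
          mul_le_mul_of_nonneg_left h2 (by positivity)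
      _ = 4 * (4 * ρ / r) ^ (2 * d) := by
          rw [div_pow, div_pow, one_pow]
          ring
  · intro w hw
    have hne := hwne w hw
    have h1 : A'.eval w + B'.eval w * S w + (A'.eval w - B'.eval w * S w) = 2 * A'.eval w := by
      ring
    rw [h1, norm_mul, hA w hne, norm_mul, norm_pow, hw]
    have h2 := hcon w⁻¹ (hinv w hw)
    have h3 : ‖(2 : ℂ)‖ = 2 := by simp
    rw [h3]
    have h4 : (2 : ℝ) * (2 * (8 * ρ / r) ^ d) = 2 * ((1 / r) ^ d * (2 * (8 * ρ) ^ d)) := by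
      rw [div_pow, div_pow, one_pow]
      ring
    rw [h4]
    have h5 : (0 : ℝ) < (1 / r) ^ d := by positivity
    nlinarith [mul_lt_mul_of_pos_left h2 h5]
  · have h1 : (4 * ρ / r) ^ (2 * d) ≤ (8 * ρ / r) ^ (2 * d) := by
      refine pow_le_pow_left₀ (by positivity) ?_ _
      refine div_le_div_of_nonneg_right ?_ hr0.le
      linarith
    calc 4 * (4 * ρ / r) ^ (2 * d) ≤ 4 * (8 * ρ / r) ^ (2 * d) := by linarith
      _ = (2 * (8 * ρ / r) ^ d) ^ 2 := by rw [pow_mul']; ring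
  · have h1 : (4 * ρ / r) ^ 2 ≤ 8 * ρ / r := by
      rw [div_pow, div_le_div_iff₀ (by positivity) hr0]
      nlinarith [mul_pos hρ hr0, mul_le_mul_of_nonneg_left hr (mul_pos hρ hr0).le]
    have h2 : (4 * ρ / r) ^ (2 * d) ≤ (8 * ρ / r) ^ d := by
      rw [pow_mul]
      exact pow_le_pow_left₀ (by positivity) h1 _
    linarith
  · rcases h0 with ⟨h1, h2⟩ | ⟨h1, h2⟩
    · simp only [h2, zero_mul, add_zero, h1]
    · simp only [h1, zero_add, norm_mul, h2, hS0, mul_one]
  · rcases h0 with ⟨h1, h2⟩ | ⟨h1, h2⟩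
    · simp only [h2, zero_mul, sub_zero, h1]
    · simp only [h1, zero_sub, norm_neg, norm_mul, h2, hS0, mul_one]

/-- the reflected polynomial -/
private theorem sz_reflect (P : ℂ[X]) (N : ℕ) (hP : P.natDegree ≤ N) (w : ℂ) (hw : w ≠ 0) :
    (P.reflect N).eval w = w ^ N * P.eval w⁻¹ := by
  have hw' : w⁻¹ ≠ 0 := inv_ne_zero hw
  let _ : Invertible w⁻¹ := invertibleOfNonzero hw'
  have h1 := eval₂_reflect_mul_pow (RingHom.id ℂ) w⁻¹ N P hP
  rw [invOf_eq_inv, inv_inv, eval₂_id, eval₂_id] at h1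
  rw [← h1, inv_pow]
  field_simp

private theorem sz_reflect_zero (P : ℂ[X]) (N : ℕ) : (P.reflect N).eval 0 = P.coeff N := by
  rw [← coeff_zero_eq_eval_zero, coeff_reflect, revAt_zero]

/-- the size of `A` in the disc `|x| ≤ ρ` -/
private theorem sz_disc (F A B A' B' : ℂ[X]) (hF : F.Monic) (h d : ℕ)
    (hFd : F.natDegree = 2 * h) {ρ : ℝ} (hρ : 0 < ρ) (hroots : ∀ z : ℂ, F.IsRoot z → ‖z‖ ≤ ρ)
    (hAd : A.natDegree ≤ d)
    (hA : ∀ w : ℂ, w ≠ 0 → A'.eval w = w ^ d * A.eval w⁻¹)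
    (hB : ∀ w : ℂ, w ≠ 0 → B'.eval w * w ^ h = w ^ d * B.eval w⁻¹)
    (h0 : (‖A'.eval 0‖ = 2 ∧ B'.eval 0 = 0) ∨ (A'.eval 0 = 0 ∧ ‖B'.eval 0‖ = 2))
    (hN : ∀ x : ℂ, ‖x‖ ≤ 3 * ρ →
      ‖A.eval x ^ 2 - F.eval x * B.eval x ^ 2‖ ≤ 4 * (4 * ρ) ^ (2 * d))
    (z : ℂ) (hz : ‖z‖ ≤ ρ) : ‖A.eval z‖ ≤ 2 * (200 * ρ) ^ d := by
  rcases Nat.eq_zero_or_pos d with hd | hd
  · subst hd
    obtain ⟨x, -, hx⟩ := sz_circle F A B A' B' hF h 0 hFd hρ hroots hA hB h0 le_rfl
      (fun x hx => hN x (by linarith))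
    rw [eq_C_of_natDegree_le_zero hAd, eval_C] at hx ⊢
    simpa using hx
  have hd' : (0 : ℝ) < d := by exact_mod_cast hd
  have hex : ∀ i : ℕ, ∃ x : ℂ, i ≤ d → ‖x‖ = 2 * ρ + i * (ρ / d) ∧
      ‖A.eval x‖ ≤ 2 * (8 * ρ) ^ d := by
    intro i
    by_cases hi : i ≤ d
    · have h1 : (i : ℝ) * (ρ / d) ≤ ρ := by
        calc (i : ℝ) * (ρ / d) ≤ d * (ρ / d) :=
              mul_le_mul_of_nonneg_right (by exact_mod_cast hi) (by positivity)
          _ = ρ := by field_simp
      have h2 : (0 : ℝ) ≤ (i : ℝ) * (ρ / d) := by positivity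
      obtain ⟨x, hx, hx'⟩ := sz_circle F A B A' B' hF h d hFd hρ hroots hA hB h0
        (r := 2 * ρ + i * (ρ / d)) (by linarith) (fun x hx => hN x (by linarith))
      exact ⟨x, fun _ => ⟨hx, hx'⟩⟩
    · exact ⟨0, fun h => absurd h hi⟩
  choose x hx using hex
  have h1 := sz_lagrange A d hAd x (h := ρ / d) (S := 2 * (8 * ρ) ^ d) (L := 4 * ρ)
    (by positivity) (by positivity) ?_ (fun i hi => (hx i hi).2) z ?_
  · refine h1.trans ?_
    have h2 : (4 * ρ / (ρ / d)) = 4 * d := by field_simp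
    rw [h2]
    have h3 : (d : ℝ) ^ d / d.factorial ≤ Real.exp 1 ^ d := by
      rw [← Real.exp_nat_mul, mul_one]
      exact Real.pow_div_factorial_le_exp _ (by positivity) _
    have h4 : 2 * (8 * ρ) ^ d * ((4 * (d : ℝ)) ^ d * (2 ^ d / d.factorial)) =
        2 * ((64 * ρ) ^ d * ((d : ℝ) ^ d / d.factorial)) := by
      have h5 : (64 * ρ) ^ d = (8 * ρ) ^ d * (4 ^ d * 2 ^ d) := by
        rw [← mul_pow, ← mul_pow]
        ring_nf
      rw [h5, mul_pow 4 (d : ℝ)]
      ring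
    rw [h4]
    refine mul_le_mul_of_nonneg_left ?_ (by norm_num)
    calc (64 * ρ) ^ d * ((d : ℝ) ^ d / d.factorial) ≤ (64 * ρ) ^ d * Real.exp 1 ^ d :=
          mul_le_mul_of_nonneg_left h3 (by positivity)
      _ = (64 * ρ * Real.exp 1) ^ d := by rw [← mul_pow]
      _ ≤ (200 * ρ) ^ d := by
          refine pow_le_pow_left₀ (by positivity) ?_ _
          have h6 := Real.exp_one_lt_d9
          nlinarith
  · intro i hi j hj
    have h2 := abs_norm_sub_norm_le (x i) (x j)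
    rw [(hx i hi).1, (hx j hj).1] at h2
    refine le_trans (le_of_eq ?_) h2
    rw [show 2 * ρ + (i : ℝ) * (ρ / d) - (2 * ρ + j * (ρ / d)) = (ρ / d) * ((i : ℝ) - j) by ring,
      abs_mul, abs_of_pos (show 0 < ρ / d by positivity)]
  · intro i hi
    have h2 : (i : ℝ) * (ρ / d) ≤ ρ := by
      calc (i : ℝ) * (ρ / d) ≤ d * (ρ / d) :=
            mul_le_mul_of_nonneg_right (by exact_mod_cast hi) (by positivity)
        _ = ρ := by field_simp
    have h3 := norm_sub_le z (x i)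
    rw [(hx i hi).1] at h3
    linarith

/-- the main theorem, once the degrees are known -/
private theorem sz_main {ι : Type*} [Fintype ι] (f0 : ℤ[X]) (hm : f0.Monic) (h d : ℕ)
    (hfd : f0.natDegree = 2 * h) (ρ : ℝ) (hρ : 1 ≤ ρ)
    (hroots : ∀ z : ℂ, (f0.map (Int.castRingHom ℂ)).IsRoot z → ‖z‖ ≤ ρ) (x : ι → ℤ) (a : ι → ℕ)
    (hx : ∀ i, |(x i : ℝ)| ≤ ρ) (A B : ℤ[X]) (hd : ∑ i, a i = 2 * d)
    (hAB : A ^ 2 - f0 * B ^ 2 = 4 * ∏ i, (X - C (x i)) ^ a i ∨
      A ^ 2 - f0 * B ^ 2 = -(4 * ∏ i, (X - C (x i)) ^ a i))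
    (hAd : A.natDegree ≤ d) (hBd : B = 0 ∨ h + B.natDegree ≤ d)
    (hlead : ((A.coeff d = 2 ∨ A.coeff d = -2) ∧ (B = 0 ∨ B.coeff (d - h) = 0)) ∨
      (A.coeff d = 0 ∧ h ≤ d ∧ (B.coeff (d - h) = 2 ∨ B.coeff (d - h) = -2))) (j : ι) :
    |((A.eval (x j) : ℤ) : ℝ)| ^ 2 ≤ 4 * (200 * ρ) ^ (∑ i, a i) := by
  have hρ0 : 0 < ρ := by linarith
  have hN : ∀ z : ℂ, ‖z‖ ≤ 3 * ρ → ‖(A.map (Int.castRingHom ℂ)).eval z ^ 2 -
      (f0.map (Int.castRingHom ℂ)).eval z * (B.map (Int.castRingHom ℂ)).eval z ^ 2‖ ≤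
        4 * (4 * ρ) ^ (2 * d) := by
    intro z hz
    have h1 : ‖(A.map (Int.castRingHom ℂ)).eval z ^ 2 -
      (f0.map (Int.castRingHom ℂ)).eval z * (B.map (Int.castRingHom ℂ)).eval z ^ 2‖ =
        4 * ∏ i, ‖z - (x i : ℂ)‖ ^ a i := by
      have h2 : (A.map (Int.castRingHom ℂ)).eval z ^ 2 -
          (f0.map (Int.castRingHom ℂ)).eval z * (B.map (Int.castRingHom ℂ)).eval z ^ 2 =
          ((A ^ 2 - f0 * B ^ 2).map (Int.castRingHom ℂ)).eval z := by
        rw [Polynomial.map_sub, Polynomial.map_mul, Polynomial.map_pow, Polynomial.map_pow,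
          eval_sub, eval_mul, eval_pow, eval_pow]
      have h3 : ((4 * ∏ i, (X - C (x i)) ^ a i : ℤ[X]).map (Int.castRingHom ℂ)).eval z =
          4 * ∏ i, (z - (x i : ℂ)) ^ a i := by
        rw [Polynomial.map_mul, Polynomial.map_prod, eval_mul, eval_prod]
        simp
      rw [h2]
      rcases hAB with h4 | h4
      · rw [h4, h3, norm_mul, norm_prod]
        simp
      · rw [h4, Polynomial.map_neg, eval_neg, norm_neg, h3, norm_mul, norm_prod]
        simp
    rw [h1, ← hd, ← Finset.prod_pow_eq_pow_sum]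
    refine mul_le_mul_of_nonneg_left ?_ (by norm_num)
    refine Finset.prod_le_prod (fun i _ => by positivity) fun i _ => ?_
    refine pow_le_pow_left₀ (norm_nonneg _) ?_ _
    have h2 := norm_sub_le z (x i : ℂ)
    have h3 : ‖(x i : ℂ)‖ = |(x i : ℝ)| := by
      rw [Complex.norm_intCast]
    rw [h3] at h2
    linarith [hx i]
  have hcA : (A.map (Int.castRingHom ℂ)).natDegree ≤ d := natDegree_map_le.trans hAd
  obtain ⟨B', hB', hB0⟩ : ∃ B' : ℂ[X], (∀ w : ℂ, w ≠ 0 →
      B'.eval w * w ^ h = w ^ d * (B.map (Int.castRingHom ℂ)).eval w⁻¹) ∧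
      ((B = 0 ∧ B'.eval 0 = 0) ∨ (h ≤ d ∧ B'.eval 0 = ((B.coeff (d - h) : ℤ) : ℂ))) := by
    rcases hBd with hB | hB
    · refine ⟨0, fun w _ => ?_, Or.inl ⟨hB, by simp⟩⟩
      rw [hB]
      simp
    · refine ⟨(B.map (Int.castRingHom ℂ)).reflect (d - h), fun w hw => ?_,
        Or.inr ⟨by omega, ?_⟩⟩
      · rw [sz_reflect _ _ (natDegree_map_le.trans (by omega)) w hw]
        have h1 : w ^ d = w ^ (d - h) * w ^ h := by
          rw [← pow_add]
          congr 1
          omega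
        rw [h1]
        ring
      · rw [sz_reflect_zero, coeff_map]
        rfl
  have h0 : (‖((A.map (Int.castRingHom ℂ)).reflect d).eval 0‖ = 2 ∧ B'.eval 0 = 0) ∨
      (((A.map (Int.castRingHom ℂ)).reflect d).eval 0 = 0 ∧ ‖B'.eval 0‖ = 2) := by
    rw [sz_reflect_zero, coeff_map]
    rcases hlead with ⟨h1, h2⟩ | ⟨h1, h2, h3⟩
    · left
      constructor
      · rcases h1 with h1 | h1 <;> rw [h1] <;> simp
      · rcases hB0 with ⟨-, h3⟩ | ⟨-, h3⟩
        · exact h3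
        · rcases h2 with h2 | h2
          · rw [h3, h2]
            simp
          · rw [h3, h2]
            simp
    · right
      constructor
      · rw [h1]
        simp
      · rcases hB0 with ⟨h4, -⟩ | ⟨-, h4⟩
        · rw [h4] at h3
          simp at h3
        · rw [h4]
          rcases h3 with h3 | h3 <;> rw [h3] <;> simp
  have hz : ‖((x j : ℤ) : ℂ)‖ ≤ ρ := by
    rw [Complex.norm_intCast]
    exact hx j
  have key := sz_disc (f0.map (Int.castRingHom ℂ)) (A.map (Int.castRingHom ℂ))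
    (B.map (Int.castRingHom ℂ)) ((A.map (Int.castRingHom ℂ)).reflect d) B' (hm.map _) h d
    (by rw [hm.natDegree_map, hfd]) hρ0 hroots hcA
    (fun w hw => sz_reflect _ _ hcA w hw) hB' h0 hN _ hz
  have h1 : (A.map (Int.castRingHom ℂ)).eval ((x j : ℤ) : ℂ) = ((A.eval (x j) : ℤ) : ℂ) := by
    simp
  rw [h1, Complex.norm_intCast] at key
  calc |((A.eval (x j) : ℤ) : ℝ)| ^ 2 ≤ (2 * (200 * ρ) ^ d) ^ 2 :=
        pow_le_pow_left₀ (abs_nonneg _) key 2
    _ = 4 * (200 * ρ) ^ (∑ i, a i) := by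
        rw [hd, pow_mul', mul_pow]
        norm_num

/-- **The size of a balanced function (even degree).** -/
theorem size_even {ι : Type*} [Fintype ι] (f0 : ℤ[X]) (hm : f0.Monic)
    (heven : Even f0.natDegree) (ρ : ℝ) (hρ : 1 ≤ ρ)
    (hroots : ∀ z : ℂ, (f0.map (Int.castRingHom ℂ)).IsRoot z → ‖z‖ ≤ ρ) (x : ι → ℤ) (a : ι → ℕ)
    (hx : ∀ i, |(x i : ℝ)| ≤ ρ) (A B : ℤ[X]) (hgood : (A ^ 2).degree ≠ (f0 * B ^ 2).degree)
    (hAB : A ^ 2 - f0 * B ^ 2 = 4 * ∏ i, (X - C (x i)) ^ a i ∨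
      A ^ 2 - f0 * B ^ 2 = -(4 * ∏ i, (X - C (x i)) ^ a i)) (j : ι) :
    |((A.eval (x j) : ℤ) : ℝ)| ^ 2 ≤ 4 * (200 * ρ) ^ (∑ i, a i) := by
  obtain ⟨h, hh⟩ := heven
  have hfd : f0.natDegree = 2 * h := by omega
  have hPm : (∏ i, (X - C (x i)) ^ a i : ℤ[X]).Monic :=
    monic_prod_of_monic _ _ fun i _ => (monic_X_sub_C _).pow _
  have hPd : (∏ i, (X - C (x i)) ^ a i : ℤ[X]).natDegree = ∑ i, a i := by
    rw [natDegree_prod_of_monic _ _ fun i _ => (monic_X_sub_C _).pow _]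
    refine Finset.sum_congr rfl fun i _ => ?_
    rw [(monic_X_sub_C _).natDegree_pow, natDegree_X_sub_C, mul_one]
  have h4C : (4 : ℤ[X]) = C 4 := rfl
  have hQd : (4 * ∏ i, (X - C (x i)) ^ a i : ℤ[X]).natDegree = ∑ i, a i := by
    rw [h4C, natDegree_C_mul (by norm_num), hPd]
  have hQl : (4 * ∏ i, (X - C (x i)) ^ a i : ℤ[X]).leadingCoeff = 4 := by
    rw [h4C, leadingCoeff_mul, leadingCoeff_C, hPm.leadingCoeff, mul_one]
  have hNd : (A ^ 2 - f0 * B ^ 2).natDegree = ∑ i, a i := by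
    rcases hAB with h1 | h1
    · rw [h1, hQd]
    · rw [h1, natDegree_neg, hQd]
  have hNl : (A ^ 2 - f0 * B ^ 2).leadingCoeff = 4 ∨ (A ^ 2 - f0 * B ^ 2).leadingCoeff = -4 := by
    rcases hAB with h1 | h1
    · left
      rw [h1, hQl]
    · right
      rw [h1, leadingCoeff_neg, hQl]
  have sq4 : ∀ t : ℤ, t ^ 2 = 4 → t = 2 ∨ t = -2 := by
    intro t ht
    have h1 : (t - 2) * (t + 2) = 0 := by linear_combination ht
    rcases mul_eq_zero.1 h1 with h2 | h2
    · left; linarith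
    · right; linarith
  rcases lt_or_gt_of_ne hgood with hlt | hlt
  · -- the term with `B` dominates
    have hB : B ≠ 0 := by
      rintro rfl
      simp at hlt
    have hfB : (f0 * B ^ 2).natDegree = 2 * h + 2 * B.natDegree := by
      rw [hm.natDegree_mul' (pow_ne_zero 2 hB), natDegree_pow, hfd]
    have h1 : (f0 * B ^ 2).natDegree = ∑ i, a i := by
      rw [← hNd]
      exact (natDegree_eq_of_degree_eq (degree_sub_eq_right_of_degree_lt hlt)).symm
    have h2 : (f0 * B ^ 2).leadingCoeff = B.leadingCoeff ^ 2 := by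
      rw [leadingCoeff_mul, hm.leadingCoeff, one_mul, leadingCoeff_pow]
    rw [leadingCoeff_sub_of_degree_lt' hlt, h2] at hNl
    have h3 : B.leadingCoeff ^ 2 = 4 := by
      rcases hNl with h4 | h4
      · nlinarith [sq_nonneg B.leadingCoeff]
      · linarith
    have hA2 : A.natDegree ≤ h + B.natDegree ∧ A.coeff (h + B.natDegree) = 0 := by
      rcases eq_or_ne A 0 with hA | hA
      · rw [hA]
        simp
      · have h5 : (A ^ 2).natDegree < (f0 * B ^ 2).natDegree :=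
          natDegree_lt_natDegree (pow_ne_zero 2 hA) hlt
        rw [natDegree_pow, hfB] at h5
        exact ⟨by omega, coeff_eq_zero_of_natDegree_lt (by omega)⟩
    refine sz_main f0 hm h (h + B.natDegree) hfd ρ hρ hroots x a hx A B (by omega) hAB hA2.1
      (Or.inr le_rfl) (Or.inr ⟨hA2.2, by omega, ?_⟩) j
    rw [Nat.add_sub_cancel_left]
    exact sq4 _ h3
  · -- the term with `A` dominates
    have hA : A ≠ 0 := by
      rintro rfl
      simp at hlt
    have h1 : (A ^ 2).natDegree = ∑ i, a i := by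
      rw [← hNd]
      exact (natDegree_eq_of_degree_eq (degree_sub_eq_left_of_degree_lt hlt)).symm
    rw [leadingCoeff_sub_of_degree_lt hlt, leadingCoeff_pow] at hNl
    have h3 : A.leadingCoeff ^ 2 = 4 := by
      rcases hNl with h4 | h4
      · exact h4
      · nlinarith [sq_nonneg A.leadingCoeff]
    rw [natDegree_pow] at h1
    have hB2 : B = 0 ∨ h + B.natDegree < A.natDegree := by
      rcases eq_or_ne B 0 with hB | hB
      · exact Or.inl hB
      · right
        have hfB : (f0 * B ^ 2).natDegree = 2 * h + 2 * B.natDegree := by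
          rw [hm.natDegree_mul' (pow_ne_zero 2 hB), natDegree_pow, hfd]
        have h5 : (f0 * B ^ 2).natDegree < (A ^ 2).natDegree :=
          natDegree_lt_natDegree (mul_ne_zero hm.ne_zero (pow_ne_zero 2 hB)) hlt
        rw [natDegree_pow, hfB] at h5
        omega
    refine sz_main f0 hm h A.natDegree hfd ρ hρ hroots x a hx A B (by omega) hAB le_rfl
      (hB2.imp id fun h => by omega) (Or.inl ⟨sq4 _ h3, hB2.imp id fun h5 => ?_⟩) j
    exact coeff_eq_zero_of_natDegree_lt (by omega)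

end Pool.TTE
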