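import Pool.Agent.Lib.MP_695920_nt.TT.Even.EPts
import Pool.Agent.Lib.MP_695920_nt.TT.Even.Core
import Pool.Agent.Lib.MP_695920_nt.TT.Even.Size
import Pool.Agent.Lib.MP_695920_nt.TT.Even.Ideals

set_option autoImplicit false

/-!
TEAM TWOTORSION, even degree: repulsion of integral points.
-/

open Polynomial Pool.TT

namespace Pool.TTE

/-- **Repulsion**, for a relation with a good generator. -/
theorem repulsion_of {ι : Type*} [Fintype ι] (P : EPts ι) (ρ : ℝ) (hρ : 1 ≤ ρ)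
    (hroots : ∀ z : ℂ, (P.f0.map (Int.castRingHom ℂ)).IsRoot z → ‖z‖ ≤ ρ)
    (hx : ∀ i, |(P.x i : ℝ)| ≤ ρ) (m : ι → ℤ) (φ : Crd P.f) (hgood : Good φ)
    (hφ : Ideal.span {φ} = ∏ i, pt P.f (X - C (P.x i : ℚ))
      (C ((if m i < 0 then -P.y i else P.y i : ℤ) : ℚ)) ^ (m i).natAbs) (j : ι) :
    |(m j : ℝ)| * Real.log (2 * P.y j / P.g j) ≤
      (∑ i, |(m i : ℝ)|) * Real.log (100 * Real.sqrt ρ) := by
  classical
  have hlog0 : 0 ≤ Real.log (100 * Real.sqrt ρ) := by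
    apply Real.log_nonneg
    have : 1 ≤ Real.sqrt ρ := by
      rw [Real.one_le_sqrt]
      exact hρ
    linarith
  have hsum0 : 0 ≤ ∑ i, |(m i : ℝ)| := Finset.sum_nonneg fun _ _ => abs_nonneg _
  by_cases hmj : m j = 0
  · rw [hmj, Int.cast_zero, abs_zero, zero_mul]
    exact mul_nonneg hsum0 hlog0
  let v : ι → ℤ := fun i => if m i < 0 then -P.y i else P.y i
  let a : ι → ℕ := fun i => (m i).natAbs
  have hv2 : ∀ i, v i ^ 2 = P.f0.eval (P.x i) := by
    intro i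
    rw [← P.eq i]
    show (if m i < 0 then -P.y i else P.y i) ^ 2 = _
    split_ifs
    · ring
    · rfl
  have hv0 : ∀ i, v i ≠ 0 := by
    intro i
    have := (P.pos i).ne'
    show (if m i < 0 then -P.y i else P.y i) ≠ 0
    split_ifs
    · exact neg_ne_zero.2 this
    · exact this
  have hdvd : ∀ (i : ι) (u : ℤ), u ^ 2 = P.f0.eval (P.x i) →
      (X - C (P.x i : ℚ)) ∣ P.f - C (u : ℚ) ^ 2 := by
    intro i u hu
    have h1 : P.f.eval (P.x i : ℚ) = (u : ℚ) ^ 2 := by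
      rw [EPts.f, eval_intCast_map, Int.cast_id, ← hu]
      simp
    rw [← C_pow, ← h1]
    exact X_sub_C_dvd_sub_C_eval
  -- the even degree
  obtain ⟨h, hh⟩ := P.even
  have hn : P.f0.natDegree = 2 * h := by omega
  have hpos : 1 ≤ h := by
    have := P.four
    omega
  have hfm : P.f.Monic := P.f_monic
  have hfd : P.f.natDegree = 2 * h := by rw [P.f_natDegree, hn]
  -- normalisation
  have hWm : (∏ i, (X - C (P.x i : ℚ)) ^ a i).Monic :=
    monic_prod_of_monic _ _ fun i _ => (monic_X_sub_C _).pow _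
  obtain ⟨κ, hκ0, hκ⟩ := norm_of_span P.f (fun i => X - C (P.x i : ℚ)) (fun i => C (v i : ℚ)) a
    (fun i => hdvd i _ (hv2 i)) φ hφ
  have hlcκ : φ.norm.leadingCoeff = κ := by
    rw [hκ, leadingCoeff_mul, hWm.leadingCoeff, leadingCoeff_C, mul_one]
  obtain ⟨c, hc0, hc⟩ : ∃ c : ℚ, c ≠ 0 ∧ (κ = c ^ 2 ∨ κ = -c ^ 2) := by
    rcases hgood.norm_lc hfm with ⟨-, -, h3, h4⟩ | ⟨-, -, h3, h4⟩
    · exact ⟨_, leadingCoeff_ne_zero.2 h4, Or.inl (by rw [← hlcκ, h3])⟩
    · exact ⟨_, leadingCoeff_ne_zero.2 h4, Or.inr (by rw [← hlcκ, h3])⟩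
  set φ' : Crd P.f := (⟨C c⁻¹, 0⟩ : Crd P.f) * φ with hφ'
  have hgood' : Good φ' := Good.mul hfm hfd (good_poly (C_ne_zero.2 (inv_ne_zero hc0))) hgood
  have hspan' : Ideal.span {φ'} = ∏ i, pt P.f (X - C (P.x i : ℚ)) (C (v i : ℚ)) ^ a i := by
    rw [← hφ]
    refine Ideal.span_singleton_eq_span_singleton.2 ?_
    have hu : IsUnit (⟨C c⁻¹, 0⟩ : Crd P.f) := by
      have h1 : (⟨C c⁻¹, 0⟩ : Crd P.f) = algebraMap ℚ[X] (Crd P.f) (C c⁻¹) := rfl
      rw [h1]
      exact (isUnit_C.2 (isUnit_iff_ne_zero.2 (inv_ne_zero hc0))).map _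
    exact associated_unit_mul_left _ _ hu
  have hN' : φ'.norm = ∏ i, (X - C (P.x i : ℚ)) ^ a i ∨
      φ'.norm = -∏ i, (X - C (P.x i : ℚ)) ^ a i := by
    have h1 : φ'.norm = C (c⁻¹ ^ 2 * κ) * ∏ i, (X - C (P.x i : ℚ)) ^ a i := by
      rw [hφ', map_mul]
      have h2 : QuadraticAlgebra.norm (⟨C c⁻¹, 0⟩ : Crd P.f) = C (c⁻¹ ^ 2) := by
        rw [norm_crd]
        simp only [C_pow]
        ring
      calc QuadraticAlgebra.norm (⟨C c⁻¹, 0⟩ : Crd P.f) * φ.norm =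
          C (c⁻¹ ^ 2) * (C κ * ∏ i, (X - C (P.x i : ℚ)) ^ a i) := by
            rw [h2]
            exact congrArg (fun r => C (c⁻¹ ^ 2) * r) hκ
        _ = _ := by
            rw [C_mul]
            ring
    rcases hc with h2 | h2
    · left
      rw [h1, h2, ← mul_pow, inv_mul_cancel₀ hc0, one_pow, C_1, one_mul]
    · right
      rw [h1, h2, mul_neg, ← mul_pow, inv_mul_cancel₀ hc0, one_pow, C_neg, C_1]
      ring
  have haj : a j ≠ 0 := Int.natAbs_ne_zero.2 hmj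
  obtain ⟨A, B, hAB, hgAB, hA0, hdiv⟩ := core_even P.f0 P.monic hn hpos P.root P.x v a P.inj hv0
    hv2 P.f rfl φ' hgood' hspan' hN' j haj
  have hsize := size_even P.f0 P.monic P.even ρ hρ hroots P.x a hx A B hgAB hAB j
  have hg : (Int.gcd (2 * v j) (P.f0.derivative.eval (P.x j)) : ℤ) = P.g j := by
    rw [EPts.g]
    rcases lt_or_ge (m j) 0 with h | h
    · have h1 : v j = -P.y j := if_pos h
      rw [h1, mul_neg, Int.neg_gcd]
    · have h1 : v j = P.y j := if_neg (not_lt.2 h)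
      rw [h1]
  have hg0 : P.g j ≠ 0 := by
    intro h0
    rw [EPts.g] at h0
    have h1 := (Int.gcd_eq_zero_iff.1 h0).1
    have := (P.pos j).ne'
    omega
  rw [hg] at hdiv
  have hA0' : 2 * A.eval (P.x j) ≠ 0 := mul_ne_zero two_ne_zero hA0
  have h1 := Int.le_of_dvd (abs_pos.2 hA0') ((dvd_abs _ _).2 ((abs_dvd _ _).2 hdiv))
  rw [abs_pow] at h1
  have hgdvd : (P.g j : ℤ) ∣ 2 * v j := by
    rw [← hg]
    exact Int.gcd_dvd_left _ _
  have habs : |((2 * v j / (P.g j : ℤ) : ℤ) : ℝ)| = 2 * P.y j / P.g j := by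
    have hg0' : ((P.g j : ℤ) : ℝ) ≠ 0 := by exact_mod_cast hg0
    rw [Int.cast_div hgdvd (by exact_mod_cast hg0)]
    push_cast
    rw [abs_div, abs_mul]
    have h2 : |(v j : ℝ)| = P.y j := by
      have hy : (0 : ℝ) < P.y j := by exact_mod_cast P.pos j
      rcases lt_or_ge (m j) 0 with h | h
      · have h1 : v j = -P.y j := if_pos h
        rw [h1]
        push_cast
        rw [abs_neg, abs_of_pos hy]
      · have h1 : v j = P.y j := if_neg (not_lt.2 h)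
        rw [h1, abs_of_pos hy]
    rw [h2]
    simp
  have h2 : (2 * (P.y j : ℝ) / P.g j) ^ a j ≤ 2 * |((A.eval (P.x j) : ℤ) : ℝ)| := by
    rw [← habs]
    have h3 : ((|2 * v j / (P.g j : ℤ)| ^ a j : ℤ) : ℝ) ≤ ((|2 * A.eval (P.x j)| : ℤ) : ℝ) := by
      exact_mod_cast h1
    rw [Int.cast_pow, Int.cast_abs, Int.cast_abs, Int.cast_mul, abs_mul] at h3
    simpa using h3
  have hM1 : 1 ≤ ∑ i, a i :=
    (Nat.one_le_iff_ne_zero.2 haj).trans (Finset.single_le_sum (f := a)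
      (fun _ _ => Nat.zero_le _) (Finset.mem_univ j))
  have hpos : (0 : ℝ) < 2 * (P.y j : ℝ) / P.g j := by
    have hy : (0 : ℝ) < P.y j := by exact_mod_cast P.pos j
    have hgp : (0 : ℝ) < P.g j := by exact_mod_cast Nat.pos_of_ne_zero hg0
    positivity
  have h3 : ((2 * (P.y j : ℝ) / P.g j) ^ a j) ^ 2 ≤ (10000 * ρ) ^ (∑ i, a i) := by
    calc ((2 * (P.y j : ℝ) / P.g j) ^ a j) ^ 2 ≤ (2 * |((A.eval (P.x j) : ℤ) : ℝ)|) ^ 2 :=
          pow_le_pow_left₀ (by positivity) h2 2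
      _ = 4 * |((A.eval (P.x j) : ℤ) : ℝ)| ^ 2 := by ring
      _ ≤ 4 * (4 * (200 * ρ) ^ (∑ i, a i)) := by
          exact mul_le_mul_of_nonneg_left hsize (by norm_num)
      _ = 16 * (200 * ρ) ^ (∑ i, a i) := by ring
      _ ≤ 16 ^ (∑ i, a i) * (200 * ρ) ^ (∑ i, a i) := by
          refine mul_le_mul_of_nonneg_right ?_ (by positivity)
          exact le_self_pow₀ (by norm_num) (by omega)
      _ = (3200 * ρ) ^ (∑ i, a i) := by
          rw [← mul_pow]
          congr 1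
          ring
      _ ≤ (10000 * ρ) ^ (∑ i, a i) := by
          refine pow_le_pow_left₀ (by positivity) ?_ _
          nlinarith
  have h4 := Real.log_le_log (by positivity) h3
  rw [Real.log_pow, Real.log_pow, Real.log_pow] at h4
  have h5 : Real.log (10000 * ρ) = 2 * Real.log (100 * Real.sqrt ρ) := by
    have h6 : 10000 * ρ = (100 * Real.sqrt ρ) ^ 2 := by
      rw [mul_pow, Real.sq_sqrt (by linarith)]
      norm_num
    rw [h6, Real.log_pow]
    norm_num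
  rw [h5] at h4
  have h6 : ∀ i, ((a i : ℕ) : ℝ) = |(m i : ℝ)| := by
    intro i
    show (((m i).natAbs : ℕ) : ℝ) = _
    rw [Nat.cast_natAbs, Int.cast_abs]
  rw [h6 j] at h4
  push_cast at h4
  simp only [h6] at h4
  linarith

end Pool.TTE
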