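import Pool.Agent.Lib.MP_695920_nt.TT.Even.ERing
import Pool.Agent.Lib.MP_695920_nt.TT.Even.EReduced

set_option autoImplicit false

/-!
TEAM TWOTORSION, even degree: the coordinate ring `F[x,y]/(y^2 - f)` for irreducible `f`
(everything is in ERing.lean and EReduced.lean of helper31).
-/

open Polynomial Pool.TT

namespace Pool.TTE

/-- An irreducible polynomial is not a square in the field of rational functions. -/
theorem nsq {F : Type*} [Field F] {f : F[X]} (hf : Irreducible f) {A B : F[X]}
    (h : A ^ 2 = f * B ^ 2) : A = 0 ∧ B = 0 :=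
  sq_eq_mul_sq_g hf.squarefree hf.natDegree_pos _ A B rfl h

end Pool.TTE
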